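import Pool.Agent.FS.NormA

set_option autoImplicit false

namespace Pool.Agent.FS

open Finset
open Pool.Agent.Helper9.Fermat (fib mem_fib)

variable {m : ℕ} [NeZero m] {A : Type} [AddCommGroup A] (D : Datum m A)

theorem emb_inj {n : ℕ} [NeZero n] (hn : n ∣ m) : Function.Injective (emb m n) := by
  obtain ⟨c, hc⟩ := hn
  have hm0 : m ≠ 0 := NeZero.ne m
  have hn0 : 0 < n := Nat.pos_of_ne_zero (NeZero.ne n)
  have hmn : m / n = c := by rw [hc]; exact Nat.mul_div_cancel_left c hn0
  have hc0 : 0 < c := Nat.pos_of_ne_zero (by rintro rfl; rw [mul_zero] at hc; exact hm0 hc)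
  intro u v h
  unfold emb at h
  rw [hmn, ZMod.natCast_eq_natCast_iff'] at h
  have h1 : ∀ w : ZMod n, c * w.val < m := by
    intro w
    calc c * w.val < c * n := Nat.mul_lt_mul_of_pos_left (ZMod.val_lt w) hc0
      _ = m := by rw [hc, mul_comm]
  rw [Nat.mod_eq_of_lt (h1 u), Nat.mod_eq_of_lt (h1 v)] at h
  exact ZMod.val_injective n (Nat.eq_of_mul_eq_mul_left hc0 h)

/-- `d (emb w) = (m / (n / d)) w` -/
theorem mul_emb_eq_iff {n n' q : ℕ} [NeZero n] (hn : n ∣ m) (hq : n = q * n') (u v : ZMod n) :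
    (q : ZMod m) * emb m n u = (q : ZMod m) * emb m n v ↔
      (u.cast : ZMod n') = (v.cast : ZMod n') := by
  obtain ⟨c, hc⟩ := hn
  have hm0 : m ≠ 0 := NeZero.ne m
  have hn0 : 0 < n := Nat.pos_of_ne_zero (NeZero.ne n)
  have hmn : m / n = c := by rw [hc]; exact Nat.mul_div_cancel_left c hn0
  have hc0 : 0 < c := Nat.pos_of_ne_zero (by rintro rfl; rw [mul_zero] at hc; exact hm0 hc)
  have hq0 : 0 < q := Nat.pos_of_ne_zero (by rintro rfl; rw [zero_mul] at hq; omega)
  unfold emb
  rw [hmn, ← Nat.cast_mul, ← Nat.cast_mul, ZMod.natCast_eq_natCast_iff,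
    ZMod.cast_eq_val, ZMod.cast_eq_val, ZMod.natCast_eq_natCast_iff]
  have e : ∀ a : ℕ, q * (c * a) = q * c * a := fun a => by ring
  rw [e, e]
  have e2 : m = q * c * n' := by rw [hc, hq]; ring
  constructor
  · intro h
    have h1 : q * c * u.val ≡ q * c * v.val [MOD q * c * n'] := by rw [← e2]; exact h
    exact Nat.ModEq.mul_left_cancel' (Nat.mul_pos hq0 hc0).ne' h1
  · intro h
    have h1 := Nat.ModEq.mul_left' (q * c) h
    rw [← e2] at h1
    exact h1

/-- (iv): the norm relation -/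
theorem coset_sum_mem {n : ℕ} [NeZero n] (hn : n ∣ m) (hu : n.Coprime (m / n)) (l : ℕ)
    (hl : l.Prime) (hln : l ∣ n) (L : Set ℕ) (hL : ordCompl[l] n ∈ L ∨ ordCompl[l] n = 1)
    (w : (ZMod n)ˣ) :
    ∑ᶠ k : Kl n l, D.f (emb m n (((k : (ZMod n)ˣ) * w : (ZMod n)ˣ) : ZMod n)) ∈ D.lev L := by
  classical
  have hn0 : n ≠ 0 := NeZero.ne n
  set n' := ordCompl[l] n with hn'
  obtain ⟨a, ha⟩ : ∃ a, n.factorization l = a + 1 := by
    refine ⟨n.factorization l - 1, ?_⟩
    have := hl.factorization_pos_of_dvd hn0 hln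
    omega
  set q := l ^ (a + 1) with hq
  have hqn : n = q * n' := by
    rw [hq, ← ha]
    exact (Nat.ordProj_mul_ordCompl_eq_self n l).symm
  have hcop : l.Coprime n' := Nat.coprime_ordCompl hl hn0
  have hql : q = l ^ a * l := pow_succ l a
  have hqm : q ∣ m := (hqn ▸ Dvd.intro n' rfl : q ∣ n).trans hn
  have hqlm : l ^ a ∣ m := (hql ▸ Dvd.intro l rfl : l ^ a ∣ q).trans hqm
  have hn'0 : n' ≠ 0 := by rintro h; rw [h, mul_zero] at hqn; exact hn0 hqn
  haveI : NeZero n' := ⟨hn'0⟩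
  have hn'n : n' ∣ n := hqn ▸ Dvd.intro_left q rfl
  set z0 : ZMod m := emb m n (w : ZMod n) with hz0
  have hord0 : addOrderOf z0 = n := (exists_emb hn z0).2 ⟨w, rfl⟩
  -- inverse of `l` modulo `n'`
  obtain ⟨lam, hlam⟩ : ∃ lam : ℕ, ((l * lam : ℕ) : ZMod n') = 1 := by
    refine ⟨((l : ZMod n')⁻¹).val, ?_⟩
    rw [Nat.cast_mul, ZMod.natCast_zmod_val]
    exact ZMod.coe_mul_inv_eq_one l hcop
  have hlam' : ∀ y : ZMod m, (n' : ZMod m) * y = 0 → (l : ZMod m) * ((lam : ZMod m) * y) = y := by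
    intro y hy
    have h1 : (n' : ℤ) ∣ ((l * lam : ℕ) : ℤ) - 1 := by
      rw [← ZMod.intCast_zmod_eq_zero_iff_dvd]
      push_cast at hlam ⊢
      rw [hlam, sub_self]
    obtain ⟨k, hk⟩ := h1
    have h2 : ((l * lam : ℕ) : ZMod m) - 1 = (n' : ZMod m) * (k : ZMod m) := by
      have := congrArg (Int.cast : ℤ → ZMod m) hk
      push_cast at this ⊢
      exact this
    push_cast at h2
    linear_combination y * h2 + (k : ZMod m) * hy
  have hlamcop : lam.Coprime n' := by
    have h1 : IsUnit ((lam : ℕ) : ZMod n') := by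
      refine IsUnit.of_mul_eq_one (l : ZMod n') ?_
      rw [mul_comm]
      exact_mod_cast hlam
    exact (ZMod.isUnit_iff_coprime lam n').1 h1
  have hnz0 : (n' : ZMod m) * ((q : ZMod m) * z0) = 0 := by
    have h1 : (n : ZMod m) * z0 = 0 := by
      rw [← nsmul_eq_mul, ← hord0]
      exact addOrderOf_nsmul_eq_zero z0
    have h2 : (n : ZMod m) = (q : ZMod m) * (n' : ZMod m) := by
      rw [← Nat.cast_mul, ← hqn]
    rw [h2] at h1
    linear_combination h1
  have hlq : (q : ZMod m) = (l : ZMod m) ^ a * (l : ZMod m) := by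
    rw [hql]
    push_cast
    ring
  set z1 : ZMod m := (l : ZMod m) * ((lam : ZMod m) * z0) with hz1
  have hy1 : ((l ^ a : ℕ) : ZMod m) * z1 = (lam : ZMod m) * ((q : ZMod m) * z0) := by
    rw [hz1, hlq]
    push_cast
    ring
  -- the orders of the two elements
  have ho1 : addOrderOf ((q : ZMod m) * z0) = n' := by
    rw [← nsmul_eq_mul, addOrderOf_nsmul' z0 (pow_ne_zero _ hl.ne_zero), hord0, hqn,
      Nat.gcd_eq_right (Dvd.intro n' rfl), Nat.mul_div_cancel_left n' (pow_pos hl.pos _)]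
  have ho2 : addOrderOf (((l ^ a : ℕ) : ZMod m) * z1) = n' := by
    rw [hy1, ← nsmul_eq_mul, Nat.Coprime.addOrderOf_nsmul, ho1]
    rw [ho1]
    exact hlamcop.symm
  have hmem : ∀ y : ZMod m, addOrderOf y = n' → D.f y ∈ D.lev L := by
    intro y hy
    rcases hL with hL | hL
    · exact f_mem D (by rw [hy]; exact hL)
    · rw [hL, AddMonoid.addOrderOf_eq_one_iff] at hy
      rw [hy, D.zero]
      exact zero_mem _
  -- the characterisation of the elements of smaller order
  have hX2 : (fib m q ((q : ZMod m) * z0)).filter (fun z => ¬ addOrderOf z = n) =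
      fib m (l ^ a) (((l ^ a : ℕ) : ZMod m) * z1) := by
    ext z
    rw [mem_filter, mem_fib, mem_fib, hy1]
    constructor
    · rintro ⟨hz, ho⟩
      have h1 : addOrderOf z ∣ n := by
        rw [addOrderOf_dvd_iff_nsmul_eq_zero, nsmul_eq_mul]
        have h2 : (n : ZMod m) = (n' : ZMod m) * (q : ZMod m) := by
          rw [← Nat.cast_mul, mul_comm n' q, ← hqn]
        rw [h2, mul_assoc, hz, hnz0]
      have h2 : n' ∣ addOrderOf z := by
        rw [← ho1, ← hz, ← nsmul_eq_mul]
        exact addOrderOf_smul_dvd q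
      obtain ⟨N, hN⟩ := h2
      have h3 : N ∣ l ^ (a + 1) := by
        rw [hN, hqn, mul_comm n' N] at h1
        exact Nat.dvd_of_mul_dvd_mul_right (Nat.pos_of_ne_zero hn'0) h1
      obtain ⟨j, hj, rfl⟩ := (Nat.dvd_prime_pow hl).1 h3
      have h4 : j ≤ a := by
        rcases Nat.lt_or_ge j (a + 1) with h | h
        · omega
        · exfalso
          apply ho
          have : j = a + 1 := by omega
          rw [hN, this, hqn, mul_comm]
      have h5 : (n' : ZMod m) * (((l ^ a : ℕ) : ZMod m) * z) = 0 := by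
        have h6 : addOrderOf z ∣ n' * l ^ a := by
          rw [hN]
          exact Nat.mul_dvd_mul_left n' (pow_dvd_pow l h4)
        rw [addOrderOf_dvd_iff_nsmul_eq_zero, nsmul_eq_mul] at h6
        push_cast at h6 ⊢
        linear_combination h6
      rw [← hlam' _ h5, ← hz, hlq]
      push_cast
      ring
    · intro hz
      have h1 : (q : ZMod m) * z = (q : ZMod m) * z0 := by
        have h2 := hlam' _ hnz0
        rw [← hz] at h2
        rw [← h2, hlq]
        push_cast
        ring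
      refine ⟨h1, ?_⟩
      intro ho
      have h3 : ((n' * l ^ a : ℕ) : ZMod m) * z = 0 := by
        push_cast at hz ⊢
        linear_combination (n' : ZMod m) * hz + (lam : ZMod m) * hnz0
      rw [← nsmul_eq_mul, ← addOrderOf_dvd_iff_nsmul_eq_zero, ho, hqn, mul_comm n' (l ^ a)] at h3
      have h4 := Nat.dvd_of_mul_dvd_mul_right (Nat.pos_of_ne_zero hn'0) h3
      have h5 := Nat.le_of_dvd (pow_pos hl.pos a) h4
      rw [hql] at h5
      have h6 := hl.two_le
      have h7 : 0 < l ^ a := pow_pos hl.pos a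
      nlinarith
  have hsplit := Finset.sum_filter_add_sum_filter_not (fib m q ((q : ZMod m) * z0))
    (fun z => addOrderOf z = n) D.f
  rw [hX2, dist_gen D q hqm z0, dist_gen D (l ^ a) hqlm z1] at hsplit
  -- the sum over the coset
  have hcoset : ∑ᶠ k : Kl n l, D.f (emb m n (((k : (ZMod n)ˣ) * w : (ZMod n)ˣ) : ZMod n)) =
      ∑ z ∈ (fib m q ((q : ZMod m) * z0)).filter (fun z => addOrderOf z = n), D.f z := by
    rw [finsum_eq_sum_of_fintype]
    refine Finset.sum_bij (fun k _ => emb m n (((k : (ZMod n)ˣ) * w : (ZMod n)ˣ) : ZMod n))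
      ?_ ?_ ?_ ?_
    · intro k _
      rw [mem_filter, mem_fib]
      refine ⟨?_, (exists_emb hn _).2 ⟨_, rfl⟩⟩
      rw [hz0, mul_emb_eq_iff hn hqn]
      have hk := k.2
      change ZMod.unitsMap (Nat.ordCompl_dvd n l) (k : (ZMod n)ˣ) = 1 at hk
      have h1 : ZMod.unitsMap (Nat.ordCompl_dvd n l) ((k : (ZMod n)ˣ) * w) =
          ZMod.unitsMap (Nat.ordCompl_dvd n l) w := by
        rw [map_mul, hk, one_mul]
      have h2 := congrArg (fun u : (ZMod n')ˣ => (u : ZMod n')) h1
      exact h2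
    · intro k _ k' _ h
      have h1 := emb_inj hn h
      have h2 := Units.val_injective h1
      exact Subtype.ext (mul_right_cancel h2)
    · intro z hz
      rw [mem_filter, mem_fib] at hz
      obtain ⟨u, hu'⟩ := (exists_emb hn z).1 hz.2
      have h1 := hz.1
      rw [hu', hz0, mul_emb_eq_iff hn hqn] at h1
      have h2 : u * w⁻¹ ∈ Kl n l := by
        change ZMod.unitsMap (Nat.ordCompl_dvd n l) (u * (w : (ZMod n)ˣ)⁻¹) = 1
        rw [map_mul, map_inv, mul_inv_eq_one]
        ext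
        exact h1
      refine ⟨⟨u * w⁻¹, h2⟩, mem_univ _, ?_⟩
      rw [hu']
      congr 1
      simp
    · intro k _
      rfl
  rw [hcoset, eq_sub_of_add_eq hsplit]
  exact sub_mem (hmem _ ho1) (hmem _ ho2)

end Pool.Agent.FS
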