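import Pool.Agent.FS.SawN
import Pool.Agent.FS.Norm

set_option autoImplicit false

namespace Pool.Agent.FS

open Finset

/-! ### difference operators -/

section difs

variable {G : Type*} [CommGroup G]

theorem Mixed_dif_comm (k k' : G) (φ : G → ℤ) : dif k (dif k' φ) = dif k' (dif k φ) := by
  funext t
  simp only [dif]
  rw [mul_left_comm]
  ring

theorem Mixed_difs_nil (φ : G → ℤ) : difs [] φ = φ := rfl

theorem Mixed_difs_cons (k : G) (ks : List G) (φ : G → ℤ) :
    difs (k :: ks) φ = dif k (difs ks φ) := rfl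

theorem Mixed_difs_dif (ks : List G) (k : G) (φ : G → ℤ) :
    difs ks (dif k φ) = dif k (difs ks φ) := by
  induction ks with
  | nil => rfl
  | cons k' ks ih => rw [Mixed_difs_cons, Mixed_difs_cons, ih, Mixed_dif_comm]

theorem Mixed_dif_zero (k : G) : dif k (0 : G → ℤ) = 0 := by
  funext t; simp [dif]

theorem Mixed_difs_zero (ks : List G) : difs ks (0 : G → ℤ) = 0 := by
  induction ks with
  | nil => rfl
  | cons k ks ih => rw [Mixed_difs_cons, ih, Mixed_dif_zero]

theorem Mixed_dif_add (k : G) (φ ψ : G → ℤ) : dif k (φ + ψ) = dif k φ + dif k ψ := by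
  funext t; simp only [dif, Pi.add_apply]; ring

theorem Mixed_difs_add (ks : List G) (φ ψ : G → ℤ) :
    difs ks (φ + ψ) = difs ks φ + difs ks ψ := by
  induction ks with
  | nil => rfl
  | cons k ks ih => rw [Mixed_difs_cons, Mixed_difs_cons, Mixed_difs_cons, ih, Mixed_dif_add]

theorem Mixed_dif_neg (k : G) (φ : G → ℤ) : dif k (-φ) = -dif k φ := by
  funext t; simp only [dif, Pi.neg_apply]; ring

theorem Mixed_difs_neg (ks : List G) (φ : G → ℤ) : difs ks (-φ) = -difs ks φ := by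
  induction ks with
  | nil => rfl
  | cons k ks ih => rw [Mixed_difs_cons, Mixed_difs_cons, ih, Mixed_dif_neg]

/-- a factor can be moved to the front -/
theorem Mixed_difs_mem {ks : List G} {k : G} (hk : k ∈ ks) : ∃ ks' : List G, ∀ φ : G → ℤ,
    difs ks φ = dif k (difs ks' φ) := by
  induction ks with
  | nil => exact absurd hk (by simp)
  | cons k' ks ih =>
    rcases List.mem_cons.mp hk with h | h
    · subst h
      exact ⟨ks, fun φ => rfl⟩
    · obtain ⟨ks', h'⟩ := ih h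
      refine ⟨k' :: ks', fun φ => ?_⟩
      rw [Mixed_difs_cons, h', Mixed_difs_cons, Mixed_dif_comm]

theorem Mixed_difs_kill {ks : List G} {k : G} (hk : k ∈ ks) {φ : G → ℤ} (h : dif k φ = 0) :
    difs ks φ = 0 := by
  obtain ⟨ks', h'⟩ := Mixed_difs_mem hk
  rw [h', ← Mixed_difs_dif, h, Mixed_difs_zero]

theorem Mixed_difs_comp {H : Type*} [CommGroup H] (π : G →* H) (ks : List G) (φ : H → ℤ) :
    difs ks (fun t => φ (π t)) = fun t => difs (ks.map π) φ (π t) := by
  induction ks with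
  | nil => rfl
  | cons k ks ih =>
    rw [Mixed_difs_cons, ih, List.map_cons, Mixed_difs_cons]
    funext t
    simp only [dif, map_mul]

/-- convolution -/
theorem Mixed_difs_conv [Fintype G] (ks : List G) (N c : G → ℤ) :
    difs ks (fun s => ∑ w, N w * c (s * w)) =
      fun s => ∑ w, difs (ks.map fun k => k⁻¹) N w * c (s * w) := by
  induction ks with
  | nil => rfl
  | cons k ks ih =>
    rw [Mixed_difs_cons, ih, List.map_cons, Mixed_difs_cons]
    funext s
    simp only [dif]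
    set M := difs (ks.map fun k => k⁻¹) N with hM
    have e1 : ∑ w, M w * c (k * s * w) = ∑ w, M (k⁻¹ * w) * c (s * w) := by
      rw [← Equiv.sum_comp (Equiv.mulLeft k⁻¹)]
      apply Finset.sum_congr rfl
      intro w _
      rw [Equiv.coe_mulLeft]
      have : k * s * (k⁻¹ * w) = s * w := by
        rw [mul_comm k s, mul_assoc, mul_inv_cancel_left]
      rw [this]
    rw [e1, ← Finset.sum_sub_distrib]
    exact Finset.sum_congr rfl fun w _ => by ring

end difs

/-! ### lifting of units -/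

section lift

variable {m : ℕ} [NeZero m]

theorem Mixed_exists_lift {n : ℕ} [NeZero n] (hn : n ∣ m) (hu : n.Coprime (m / n)) {l : ℕ}
    (hl : l.Prime) (hln : l ∣ n) {k : (ZMod n)ˣ} (hk : k ∈ Kl n l) :
    ∃ κ : (ZMod m)ˣ, ZMod.unitsMap hn κ = k ∧
      ∀ z : ZMod m, ¬ l ∣ addOrderOf z → (κ : ZMod m) * z = z := by
  have hm0 : m ≠ 0 := NeZero.ne m
  have hn0 : n ≠ 0 := NeZero.ne n
  -- the residue of `k` modulo the part of `n` prime to `l`
  have h1 : (k : ZMod n).val ≡ 1 [MOD ordCompl[l] n] := by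
    have h2 : ZMod.unitsMap (Nat.ordCompl_dvd n l) k = 1 := hk
    have h3 := congrArg (fun u : (ZMod (ordCompl[l] n))ˣ => (u : ZMod (ordCompl[l] n))) h2
    rw [← ZMod.natCast_eq_natCast_iff]
    simp only [ZMod.unitsMap_val, Units.val_one] at h3
    rw [ZMod.natCast_val, h3, Nat.cast_one]
  have h4 : (k : ZMod n).val ≡ 1 [MOD Nat.gcd n (ordCompl[l] m)] := by
    refine h1.of_dvd ?_
    have h5 : Nat.gcd n (ordCompl[l] m) ∣ n := Nat.gcd_dvd_left _ _
    have h6 : Nat.Coprime (Nat.gcd n (ordCompl[l] m)) (ordProj[l] n) := by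
      refine Nat.Coprime.pow_right _ ?_
      exact Nat.Coprime.coprime_dvd_left (Nat.gcd_dvd_right _ _)
        (Nat.coprime_ordCompl hl hm0).symm
    exact h6.dvd_of_dvd_mul_left
      (h5.trans (dvd_of_eq (Nat.ordProj_mul_ordCompl_eq_self n l).symm))
  obtain ⟨a, ha1, ha2⟩ := Nat.chineseRemainder' h4
  -- `a` is a unit
  have hco : Nat.Coprime a m := by
    rw [Nat.coprime_iff_gcd_eq_one]
    by_contra hg
    obtain ⟨p, hp, hpg⟩ := Nat.exists_prime_and_dvd hg
    have hpa : p ∣ a := hpg.trans (Nat.gcd_dvd_left _ _)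
    have hpm : p ∣ m := hpg.trans (Nat.gcd_dvd_right _ _)
    by_cases hpl : p = l
    · subst hpl
      have h7 : p ∣ (k : ZMod n).val := ((ha1.of_dvd hln).dvd_iff dvd_rfl).mp hpa
      have h8 : Nat.Coprime (k : ZMod n).val n := ZMod.val_coe_unit_coprime k
      exact hp.one_lt.ne' (Nat.eq_one_of_dvd_coprimes h8 h7 hln)
    · have h7 : p ∣ ordCompl[l] m := by
        rw [← Nat.ordProj_mul_ordCompl_eq_self m l] at hpm
        rcases (Nat.Prime.dvd_mul hp).mp hpm with h | h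
        · exact absurd ((Nat.prime_dvd_prime_iff_eq hp hl).mp (hp.dvd_of_dvd_pow h)) hpl
        · exact h
      have h8 : p ∣ 1 := ((ha2.of_dvd h7).dvd_iff dvd_rfl).mp hpa
      exact hp.one_lt.ne' (Nat.dvd_one.mp h8)
  refine ⟨ZMod.unitOfCoprime a hco, ?_, ?_⟩
  · ext
    rw [ZMod.unitsMap_val, ZMod.coe_unitOfCoprime, ZMod.cast_natCast hn]
    have h9 := (ZMod.natCast_eq_natCast_iff _ _ _).mpr ha1
    rw [h9, ZMod.natCast_val, ZMod.cast_id]
  · intro z hz
    have h7 : addOrderOf z ∣ ordCompl[l] m := by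
      have h8 : addOrderOf z ∣ m := by
        rw [addOrderOf_dvd_iff_nsmul_eq_zero, nsmul_eq_mul, ZMod.natCast_self, zero_mul]
      have h9 : Nat.Coprime (addOrderOf z) (ordProj[l] m) :=
        Nat.Coprime.pow_right _ ((Nat.Prime.coprime_iff_not_dvd hl).mpr hz).symm
      exact h9.dvd_of_dvd_mul_left
        (h8.trans (dvd_of_eq (Nat.ordProj_mul_ordCompl_eq_self m l).symm))
    rw [ZMod.coe_unitOfCoprime, ← nsmul_eq_mul]
    have h8 : a • z = 1 • z := nsmul_eq_nsmul_iff_modEq.mpr (ha2.of_dvd h7)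
    rw [h8, one_nsmul]

theorem Mixed_lift_list {n : ℕ} [NeZero n] (hn : n ∣ m) (hu : n.Coprime (m / n)) (ls : List ℕ)
    (hlp : ∀ l ∈ ls, l.Prime ∧ l ∣ n) (ks : List (ZMod n)ˣ)
    (hks : List.Forall₂ (fun l k => k ∈ Kl n l) ls ks) :
    ∃ κs : List (ZMod m)ˣ, κs.map (ZMod.unitsMap hn) = ks ∧
      ∀ l ∈ ls, ∃ κ ∈ κs, ∀ z : ZMod m, ¬ l ∣ addOrderOf z → (κ : ZMod m) * z = z := by
  induction hks with
  | nil => exact ⟨[], rfl, fun l hl => absurd hl (by simp)⟩
  | @cons l k ls ks h _ ih =>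
    obtain ⟨κs, h1, h2⟩ := ih fun l' hl' => hlp l' (List.mem_cons_of_mem _ hl')
    obtain ⟨hl, hln⟩ := hlp l List.mem_cons_self
    obtain ⟨κ, h3, h4⟩ := Mixed_exists_lift hn hu hl hln h
    refine ⟨κ :: κs, by rw [List.map_cons, h1, h3], ?_⟩
    intro l' hl'
    rcases List.mem_cons.mp hl' with h | h
    · subst h
      exact ⟨κ, List.mem_cons_self, h4⟩
    · obtain ⟨κ', h5, h6⟩ := h2 l' h
      exact ⟨κ', List.mem_cons_of_mem _ h5, h6⟩

theorem Mixed_mul_emb {n : ℕ} [NeZero n] (hn : n ∣ m) (t : (ZMod m)ˣ) (w : ZMod n) :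
    (t : ZMod m) * emb m n w = emb m n ((ZMod.unitsMap hn t : (ZMod n)ˣ) * w) := by
  unfold emb
  have e1 : (t : ZMod m) = (((t : ZMod m).val : ℕ) : ZMod m) := by
    rw [ZMod.natCast_val, ZMod.cast_id]
  rw [e1, ← Nat.cast_mul, ZMod.natCast_eq_natCast_iff]
  have e2 : ((ZMod.unitsMap hn t : (ZMod n)ˣ) : ZMod n) * w =
      (((t : ZMod m).val * w.val : ℕ) : ZMod n) := by
    rw [ZMod.unitsMap_val, Nat.cast_mul, ZMod.natCast_val, ZMod.natCast_val, ZMod.cast_id]
  have e3 : (((ZMod.unitsMap hn t : (ZMod n)ˣ) : ZMod n) * w).val ≡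
      (t : ZMod m).val * w.val [MOD n] := by
    rw [e2, ZMod.val_natCast]
    exact Nat.mod_modEq _ _
  have e4 := (e3.mul_left' (m / n)).symm
  rw [Nat.div_mul_cancel hn] at e4
  refine Nat.ModEq.trans ?_ e4
  rw [mul_left_comm]

theorem Mixed_sw_emb {n : ℕ} [NeZero n] (hn : n ∣ m) (h1 : n ≠ 1) (u : (ZMod n)ˣ) :
    sw (emb m n (u : ZMod n)) = ((m / n : ℕ) : ℤ) * (2 * ((u : ZMod n).val : ℤ) - n) := by
  have hm0 : 0 < m := Nat.pos_of_ne_zero (NeZero.ne m)
  have hn0 : 0 < n := Nat.pos_of_ne_zero (NeZero.ne n)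
  have hq : 0 < m / n := Nat.div_pos (Nat.le_of_dvd hm0 hn) hn0
  have hval : (emb m n (u : ZMod n)).val = m / n * (u : ZMod n).val := by
    unfold emb
    rw [ZMod.val_natCast, Nat.mod_eq_of_lt]
    calc m / n * (u : ZMod n).val < m / n * n := Nat.mul_lt_mul_of_pos_left (ZMod.val_lt _) hq
      _ = m := Nat.div_mul_cancel hn
  have hu0 : (u : ZMod n).val ≠ 0 := by
    intro h
    have h2 := ZMod.val_coe_unit_coprime u
    rw [h, Nat.coprime_zero_left] at h2
    exact h1 h2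
  have hne : emb m n (u : ZMod n) ≠ 0 := by
    intro h
    rw [h, ZMod.val_zero] at hval
    rcases Nat.mul_eq_zero.mp hval.symm with h3 | h3
    · omega
    · exact hu0 h3
  unfold sw
  rw [if_neg hne, hval]
  have h4 : (m : ℤ) = ((m / n : ℕ) : ℤ) * n := by
    rw [← Nat.cast_mul, Nat.div_mul_cancel hn]
  rw [Nat.cast_mul]
  linear_combination (-1 : ℤ) * h4

end lift

variable {m : ℕ} [NeZero m] {A : Type} [AddCommGroup A] (D : Datum m A)

/-- the lower terms are killed -/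
theorem Mixed_lower (ls : List ℕ) (L : Set ℕ) (hL : ∀ n' ∈ L, ∃ l ∈ ls, ¬ l ∣ n')
    (κs : List (ZMod m)ˣ)
    (hκ : ∀ l ∈ ls, ∃ κ ∈ κs, ∀ z : ZMod m, ¬ l ∣ addOrderOf z → (κ : ZMod m) * z = z)
    {b : A} (hb : b ∈ D.lev L) : difs κs (fun t => D.W t b) = 0 := by
  induction hb using AddSubgroup.closure_induction with
  | mem x hx =>
    obtain ⟨z, hz, rfl⟩ := hx
    obtain ⟨l, hl, hlz⟩ := hL _ hz
    obtain ⟨κ, hκ1, hκ2⟩ := hκ l hl
    apply Mixed_difs_kill hκ1
    funext t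
    simp only [dif, D.wf, Pi.zero_apply]
    have : ((κ * t : (ZMod m)ˣ) : ZMod m) * z = (t : ZMod m) * z := by
      rw [Units.val_mul, mul_comm (κ : ZMod m), mul_assoc, hκ2 z hlz]
    rw [this, sub_self]
  | zero =>
    have : (fun t : (ZMod m)ˣ => D.W t (0 : A)) = 0 := by
      funext t; simp
    rw [this, Mixed_difs_zero]
  | add x y _ _ hx hy =>
    have : (fun t : (ZMod m)ˣ => D.W t (x + y)) =
        (fun t => D.W t x) + (fun t => D.W t y) := by
      funext t; simp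
    rw [this, Mixed_difs_add, hx, hy, add_zero]
  | neg x _ hx =>
    have : (fun t : (ZMod m)ˣ => D.W t (-x)) = -(fun t => D.W t x) := by
      funext t; simp
    rw [this, Mixed_difs_neg, hx, neg_zero]

theorem Mixed_coset_sum {n l : ℕ} [NeZero n] (κ : Kl n l) (φ : (ZMod n)ˣ → ℤ) (u : (ZMod n)ˣ) :
    ∑ᶠ k : Kl n l, dif (κ : (ZMod n)ˣ) φ ((k : (ZMod n)ˣ) * u) = 0 := by
  classical
  rw [finsum_eq_sum_of_fintype]
  simp only [dif]
  rw [Finset.sum_sub_distrib, sub_eq_zero,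
    ← Equiv.sum_comp (Equiv.mulLeft κ) fun k : Kl n l => φ ((k : (ZMod n)ˣ) * u)]
  apply Finset.sum_congr rfl
  intro k _
  rw [Equiv.coe_mulLeft, Subgroup.coe_mul, mul_assoc]

theorem Mixed_forall_mem {n : ℕ} {ls : List ℕ} {ks : List (ZMod n)ˣ}
    (hks : List.Forall₂ (fun l k => k ∈ Kl n l) ls ks) {l : ℕ} (hl : l ∈ ls) :
    ∃ k ∈ ks, k ∈ Kl n l := by
  induction hks with
  | nil => exact absurd hl (by simp)
  | @cons l' k' ls' ks' h _ ih =>
    rcases List.mem_cons.mp hl with h' | h'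
    · subst h'
      exact ⟨k', List.mem_cons_self, h⟩
    · obtain ⟨k, h1, h2⟩ := ih h'
      exact ⟨k, List.mem_cons_of_mem _ h1, h2⟩

/-- Module M4b: the mixed differences vanish. -/
theorem mixed {n : ℕ} [NeZero n] (hn : n ∣ m) (hu : n.Coprime (m / n)) (ls : List ℕ)
    (hlp : ∀ l ∈ ls, l.Prime ∧ l ∣ n) (hls : ∀ l : ℕ, l.Prime → l ∣ n → l ∈ ls) (L : Set ℕ)
    (hL : ∀ n' ∈ L, ∃ l ∈ ls, ¬ l ∣ n') (N : (ZMod n)ˣ → ℤ) (b : A) (hb : b ∈ D.lev L)
    (hW : ∀ t : (ZMod m)ˣ, D.W t (∑ w : (ZMod n)ˣ, N w • D.f (emb m n w) + b) = 0)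
    (ks : List (ZMod n)ˣ) (hks : List.Forall₂ (fun l k => k ∈ Kl n l) ls ks)
    (g : (ZMod n)ˣ) : difs ks (fun g => N g - N (-1 * g)) g = 0 := by
  have hm0 : 0 < m := Nat.pos_of_ne_zero (NeZero.ne m)
  have hn0 : 0 < n := Nat.pos_of_ne_zero (NeZero.ne n)
  have hq : 0 < m / n := Nat.div_pos (Nat.le_of_dvd hm0 hn) hn0
  by_cases h1 : n = 1
  · subst h1
    have e1 : (fun g : (ZMod 1)ˣ => N g - N (-1 * g)) = 0 := by
      funext g
      have : -1 * g = g := Subsingleton.elim _ _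
      rw [this, sub_self]; rfl
    rw [e1, Mixed_difs_zero]; rfl
  -- the sawtooth sums
  set c : (ZMod n)ˣ → ℤ := fun u => 2 * ((u : ZMod n).val : ℤ) - n with hc
  have hval : ∀ t : (ZMod m)ˣ, D.W t (∑ w : (ZMod n)ˣ, N w • D.f (emb m n w)) =
      ((m / n : ℕ) : ℤ) * ∑ w, N w * c (ZMod.unitsMap hn t * w) := by
    intro t
    rw [map_sum, Finset.mul_sum]
    apply Finset.sum_congr rfl
    intro w _
    rw [map_zsmul, D.wf, Mixed_mul_emb hn, ← Units.val_mul, Mixed_sw_emb hn h1, smul_eq_mul, hc]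
    ring
  -- the lists of inverses
  have key : ∀ ks : List (ZMod n)ˣ, List.Forall₂ (fun l k => k ∈ Kl n l) ls ks →
      ∀ s, ∑ w, difs (ks.map fun k => k⁻¹) N w * c (s * w) = 0 := by
    intro ks hks s
    obtain ⟨κs, h2, h3⟩ := Mixed_lift_list hn hu ls hlp ks hks
    obtain ⟨t, rfl⟩ := ZMod.unitsMap_surjective hn s
    have e1 := Mixed_lower D ls L hL κs h3 hb
    have e2 : (fun t : (ZMod m)ˣ => D.W t b) =
        -(fun t => ((m / n : ℕ) : ℤ) * ∑ w, N w * c (ZMod.unitsMap hn t * w)) := by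
      funext t
      have := hW t
      rw [map_add, hval] at this
      simp only [Pi.neg_apply]
      linear_combination this
    rw [e2, Mixed_difs_neg, neg_eq_zero,
      Mixed_difs_comp (ZMod.unitsMap hn) κs
        (fun s => ((m / n : ℕ) : ℤ) * ∑ w, N w * c (s * w)), h2] at e1
    have e3 : (fun s : (ZMod n)ˣ => ((m / n : ℕ) : ℤ) * ∑ w, N w * c (s * w)) =
        fun s => ∑ w, (((m / n : ℕ) : ℤ) * N w) * c (s * w) := by
      funext s
      rw [Finset.mul_sum]
      exact Finset.sum_congr rfl fun w _ => by ring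
    rw [e3, Mixed_difs_conv] at e1
    have e4 := congrFun e1 t
    simp only [Pi.zero_apply] at e4
    have e5 : ∀ (ks : List (ZMod n)ˣ), difs ks (fun w => ((m / n : ℕ) : ℤ) * N w) =
        fun w => ((m / n : ℕ) : ℤ) * difs ks N w := by
      intro ks
      induction ks with
      | nil => rfl
      | cons k ks ih =>
        rw [Mixed_difs_cons, ih, Mixed_difs_cons]
        funext w
        simp only [dif]
        ring
    rw [e5] at e4
    simp only [mul_assoc] at e4
    rw [← Finset.mul_sum] at e4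
    rcases mul_eq_zero.mp e4 with h | h
    · exact absurd h (by exact_mod_cast hq.ne')
    · exact h
  -- the odd part vanishes, for inverses
  have key2 : ∀ ks : List (ZMod n)ˣ, List.Forall₂ (fun l k => k ∈ Kl n l) ls ks →
      ∀ u, dif (-1 : (ZMod n)ˣ) (difs (ks.map fun k => k⁻¹) N) u = 0 := by
    intro ks hks
    set β₀ := difs (ks.map fun k => k⁻¹) N with hβ₀
    apply saw_inj_n n
    · intro u
      simp only [dif]
      rw [show (-1 : (ZMod n)ˣ) * -u = u by simp, show (-1 : (ZMod n)ˣ) * u = -u by simp]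
      ring
    · intro t
      have e1 := key ks hks t
      have e2 := key ks hks (-t)
      have e3 : ∑ w, β₀ (-1 * w) * c (t * w) = ∑ w, β₀ w * c (-t * w) := by
        rw [← Equiv.sum_comp (Equiv.neg (ZMod n)ˣ)]
        apply Finset.sum_congr rfl
        intro w _
        rw [Equiv.neg_apply, show (-1 : (ZMod n)ˣ) * -w = w by simp, mul_neg, neg_mul]
      have e4 : ∀ u, dif (-1 : (ZMod n)ˣ) β₀ u *
          (2 * (((t * u : (ZMod n)ˣ) : ZMod n).val : ℤ) - n) =
          β₀ u * c (t * u) - β₀ (-1 * u) * c (t * u) := by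
        intro u
        simp only [dif, hc]
        ring
      rw [Finset.sum_congr rfl fun u _ => e4 u, Finset.sum_sub_distrib, e1, e3, e2, sub_zero]
    · intro l hl hln u
      -- a factor of the list
      obtain ⟨k, hk, hkl⟩ : ∃ k ∈ ks.map fun k => k⁻¹, k ∈ Kl n l := by
        obtain ⟨k, hk, hkl⟩ := Mixed_forall_mem hks (hls l hl hln)
        exact ⟨k⁻¹, List.mem_map.mpr ⟨k, hk, rfl⟩, (Kl n l).inv_mem hkl⟩
      obtain ⟨ks', hks'⟩ := Mixed_difs_mem hk
      have e1 : dif (-1 : (ZMod n)ˣ) β₀ = dif k (dif (-1) (difs ks' N)) := by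
        rw [hβ₀, hks' N, Mixed_dif_comm]
      rw [e1]
      exact Mixed_coset_sum ⟨k, hkl⟩ _ u
  have hks' : List.Forall₂ (fun l k => k ∈ Kl n l) ls (ks.map fun k => k⁻¹) := by
    rw [List.forall₂_map_right_iff]
    refine hks.imp ?_
    intro l k hk
    exact (Kl n l).inv_mem hk
  have e1 := key2 _ hks' g
  have e2 : (ks.map fun k => k⁻¹).map (fun k => k⁻¹) = ks := by
    rw [List.map_map]
    simp
  rw [e2, ← Mixed_difs_dif] at e1
  exact e1

end Pool.Agent.FS
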