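import Pool.Agent.FS.RDefs

set_option autoImplicit false

namespace Pool.Agent.FS

open Finset
open Pool.Agent.Helper9.Fermat (fib mem_fib)

section R3

theorem RComb_rr_ext {n a b : ℕ} [NeZero n] (hab : n = a * b) (hcop : a.Coprime b) {u v : (ZMod n)ˣ}
    (h1 : rr u ≡ rr v [MOD a]) (h2 : rr u ≡ rr v [MOD b]) : u = v := by
  have h3 : rr u ≡ rr v [MOD a * b] := (Nat.modEq_and_modEq_iff_modEq_mul hcop).1 ⟨h1, h2⟩
  rw [← hab] at h3
  exact rr_inj h3

/-- projection to the `l`-part -/
theorem exists_kap (n : ℕ) [NeZero n] (l : ℕ) (hl : l.Prime) :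
    ∃ κ : (ZMod n)ˣ →* (ZMod n)ˣ, (∀ g, κ g ∈ Kl n l) ∧ (∀ g ∈ Kl n l, κ g = g) ∧
      ∀ l' : ℕ, l'.Prime → l' ≠ l → ∀ g ∈ Kl n l', κ g = 1 := by
  have hn : n ≠ 0 := NeZero.ne n
  have hab : n = ordProj[l] n * ordCompl[l] n := (Nat.ordProj_mul_ordCompl_eq_self n l).symm
  have hcop : (ordProj[l] n).Coprime (ordCompl[l] n) :=
    (Nat.coprime_ordCompl hl hn).pow_left _
  have hex : ∀ g : (ZMod n)ˣ, ∃ w : (ZMod n)ˣ,
      rr w ≡ rr g [MOD ordProj[l] n] ∧ rr w ≡ 1 [MOD ordCompl[l] n] := by
    intro g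
    refine exists_unit_crt hab hcop (rr g) 1 ?_ (Nat.coprime_one_left _)
    exact (rr_coprime g).coprime_dvd_right (Nat.ordProj_dvd n l)
  choose κ hκ1 hκ2 using hex
  have r1 : ∀ d : ℕ, d ∣ n → rr (1 : (ZMod n)ˣ) ≡ 1 [MOD d] := fun d hd => (rr_one).of_dvd hd
  have d1 : ordProj[l] n ∣ n := Nat.ordProj_dvd n l
  have d2 : ordCompl[l] n ∣ n := Nat.ordCompl_dvd n l
  refine ⟨{ toFun := κ, map_one' := ?_, map_mul' := ?_ }, ?_, ?_, ?_⟩
  · exact RComb_rr_ext hab hcop (hκ1 1) ((hκ2 1).trans (r1 _ d2).symm)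
  · intro g h
    refine RComb_rr_ext hab hcop ?_ ?_
    · refine (hκ1 _).trans (((rr_mul g h).of_dvd d1).trans ?_)
      refine Nat.ModEq.trans ?_ ((rr_mul (κ g) (κ h)).of_dvd d1).symm
      exact ((hκ1 g).mul (hκ1 h)).symm
    · refine (hκ2 _).trans ?_
      refine Nat.ModEq.trans ?_ ((rr_mul (κ g) (κ h)).of_dvd d2).symm
      have := ((hκ2 g).mul (hκ2 h)).symm
      rwa [one_mul] at this
  · intro g
    exact mem_Kl.2 (hκ2 g)
  · intro g hg
    exact RComb_rr_ext hab hcop (hκ1 g) ((hκ2 g).trans (mem_Kl.1 hg).symm)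
  · intro l' hl' hne g hg
    have h1 : rr g ≡ 1 [MOD ordCompl[l'] n] := mem_Kl.1 hg
    have h2 : ordProj[l] n ∣ ordCompl[l'] n := by
      have h3 : (ordProj[l] n).Coprime (ordProj[l'] n) :=
        Nat.Coprime.pow _ _ ((Nat.coprime_primes hl hl').2 (Ne.symm hne))
      refine h3.dvd_of_dvd_mul_left ?_
      rw [Nat.ordProj_mul_ordCompl_eq_self]
      exact d1
    exact RComb_rr_ext hab hcop ((hκ1 g).trans ((h1.of_dvd h2).trans (r1 _ d1).symm))
      ((hκ2 g).trans (r1 _ d2).symm)

variable {G : Type} [CommGroup G] [Finite G] (K : ℕ → Subgroup G) (κ : ℕ → G →* G)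

/-- prescribed marginals -/
theorem marginal (s : Finset ℕ) (h1 : ∀ l ∈ s, ∀ g, κ l g ∈ K l)
    (h2 : ∀ l ∈ s, ∀ g ∈ K l, κ l g = g)
    (h3 : ∀ l ∈ s, ∀ l' ∈ s, l' ≠ l → ∀ g ∈ K l', κ l g = 1) (M : ℕ → G → ℤ)
    (hM : ∀ l ∈ s, ∀ k ∈ K l, ∀ g, M l (k * g) = M l g)
    (hc : ∀ l ∈ s, ∀ l' ∈ s, l ≠ l' → ∀ g,
      ∑ᶠ k : K l', M l ((k : G) * g) = ∑ᶠ k : K l, M l' ((k : G) * g)) :
    ∃ X : G → ℤ, ∀ l ∈ s, ∀ g, ∑ᶠ k : K l, X ((k : G) * g) = M l g := by
  classical
  have : Fintype G := Fintype.ofFinite G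
  simp only [finsum_eq_sum_of_fintype] at hc ⊢
  induction s using Finset.induction_on with
  | empty => exact ⟨fun _ => 0, fun l hl => absurd hl (Finset.notMem_empty l)⟩
  | insert a s ha ih =>
    obtain ⟨X, hX⟩ := ih (fun l hl => h1 l (mem_insert_of_mem hl))
      (fun l hl => h2 l (mem_insert_of_mem hl))
      (fun l hl l' hl' => h3 l (mem_insert_of_mem hl) l' (mem_insert_of_mem hl'))
      (fun l hl => hM l (mem_insert_of_mem hl))
      (fun l hl l' hl' => hc l (mem_insert_of_mem hl) l' (mem_insert_of_mem hl'))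
    have has : a ∈ insert a s := mem_insert_self a s
    refine ⟨fun g => X g + if κ a g = 1 then M a g - ∑ k : K a, X ((k : G) * g) else 0, ?_⟩
    intro l hl g
    simp only [sum_add_distrib]
    rcases mem_insert.1 hl with rfl | hl'
    · have e1 : ∀ k : K l, κ l ((k : G) * g) = (k : G) * κ l g := by
        intro k
        rw [map_mul, h2 l has k k.2]
      have e2 : ∑ k : K l, (if κ l ((k : G) * g) = 1 then M l ((k : G) * g) -
          ∑ k' : K l, X ((k' : G) * ((k : G) * g)) else 0) = M l g - ∑ k : K l, X ((k : G) * g) := by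
        rw [Finset.sum_eq_single (⟨κ l g, h1 l has g⟩⁻¹ : K l)]
        · rw [if_pos (by rw [e1]; simp)]
          congr 1
          · exact hM l has _ (Subgroup.inv_mem _ (h1 l has g)) g
          · refine Fintype.sum_equiv (Equiv.mulRight (⟨κ l g, h1 l has g⟩⁻¹ : K l)) _ _ ?_
            intro k
            simp [mul_assoc]
        · intro k _ hk
          rw [if_neg]
          rw [e1]
          intro h
          apply hk
          apply Subtype.ext
          push_cast
          exact eq_inv_of_mul_eq_one_left h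
        · intro h
          exact absurd (mem_univ _) h
      rw [e2]
      ring
    · have hla : l ≠ a := by
        rintro rfl
        exact ha hl'
      have e1 : ∀ k : K l, κ a ((k : G) * g) = κ a g := by
        intro k
        rw [map_mul, h3 a has l hl hla k k.2, one_mul]
      simp only [e1, hX l hl' g]
      by_cases hg : κ a g = 1
      · simp only [hg, if_true, sum_sub_distrib]
        have e2 : ∑ k : K l, ∑ k' : K a, X ((k' : G) * ((k : G) * g)) =
            ∑ k' : K a, M l ((k' : G) * g) := by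
          rw [sum_comm]
          refine sum_congr rfl fun k' _ => ?_
          rw [← hX l hl' ((k' : G) * g)]
          refine sum_congr rfl fun k _ => ?_
          rw [mul_left_comm]
        rw [e2, hc a has l hl (Ne.symm hla) g]
        ring
      · simp only [hg, if_false, sum_const_zero, add_zero]

omit [CommGroup G] [Finite G] in
theorem RComb_forall2_mem {R : ℕ → G → Prop} {ls : List ℕ} {ks : List G}
    (h : List.Forall₂ R ls ks) : ∀ k ∈ ks, ∃ l ∈ ls, R l k := by
  induction h with
  | nil => exact fun k hk => absurd hk List.not_mem_nil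
  | cons h _ ih =>
    intro k hk
    rcases List.mem_cons.1 hk with rfl | hk
    · exact ⟨_, List.mem_cons_self, h⟩
    · obtain ⟨l, hl, hlk⟩ := ih k hk
      exact ⟨l, List.mem_cons_of_mem _ hl, hlk⟩

omit [Finite G] in
theorem RComb_difs_comp {T : G → G} (ks : List G) (γ : G → ℤ) (hT : ∀ k ∈ ks, ∀ g, T (k * g) = k * T g)
    (g : G) : difs ks (fun g => γ (T g)) g = difs ks γ (T g) := by
  induction ks generalizing g with
  | nil => rfl
  | cons k ks ih =>
    have e : ∀ g, difs ks (fun g => γ (T g)) g = difs ks γ (T g) :=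
      fun g => ih (fun k' hk' => hT k' (List.mem_cons_of_mem _ hk')) g
    simp only [difs, List.foldr_cons, dif] at e ⊢
    rw [e, e, hT k List.mem_cons_self]

omit [Finite G] in
theorem RComb_difs_sub (ks : List G) (γ δ : G → ℤ) (g : G) :
    difs ks (fun g => γ g - δ g) g = difs ks γ g - difs ks δ g := by
  induction ks generalizing g with
  | nil => rfl
  | cons k ks ih =>
    simp only [difs, List.foldr_cons, dif] at ih ⊢
    rw [ih, ih]
    ring

/-- functions whose mixed differences vanish are sums of functions which are constant in one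
direction -/
theorem combn (ls : List ℕ) (hnd : ls.Nodup) (h1 : ∀ l ∈ ls, ∀ g, κ l g ∈ K l)
    (h2 : ∀ l ∈ ls, ∀ g ∈ K l, κ l g = g)
    (h3 : ∀ l ∈ ls, ∀ l' ∈ ls, l' ≠ l → ∀ g ∈ K l', κ l g = 1) (γ : G → ℤ)
    (hγ : ∀ ks : List G, List.Forall₂ (fun l k => k ∈ K l) ls ks → ∀ g, difs ks γ g = 0) :
    ∃ d : ℕ → G → ℤ, (∀ l ∈ ls, ∀ k ∈ K l, ∀ g, d l (k * g) = d l g) ∧
      ∀ g, γ g = (ls.map fun l => d l g).sum := by
  classical
  induction ls generalizing γ with
  | nil =>
    refine ⟨fun _ _ => 0, fun l hl => absurd hl List.not_mem_nil, fun g => ?_⟩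
    exact hγ [] List.Forall₂.nil g
  | cons a ls ih =>
    have ha : a ∈ a :: ls := List.mem_cons_self
    have hna : a ∉ ls := (List.nodup_cons.1 hnd).1
    set T : G → G := fun g => (κ a g)⁻¹ * g with hT
    obtain ⟨d, hd1, hd2⟩ := ih (List.nodup_cons.1 hnd).2
      (fun l hl => h1 l (List.mem_cons_of_mem _ hl))
      (fun l hl => h2 l (List.mem_cons_of_mem _ hl))
      (fun l hl l' hl' => h3 l (List.mem_cons_of_mem _ hl) l' (List.mem_cons_of_mem _ hl'))
      (fun g => γ g - γ (T g)) (by
        intro ks hks g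
        have hks' : ∀ k ∈ ks, κ a k = 1 := by
          intro k hk
          obtain ⟨l, hl, hlk⟩ : ∃ l ∈ ls, k ∈ K l := RComb_forall2_mem hks k hk
          exact h3 a ha l (List.mem_cons_of_mem _ hl) (by rintro rfl; exact hna hl) k hlk
        rw [RComb_difs_sub, RComb_difs_comp ks γ (T := T) (by
          intro k hk g
          simp only [hT, map_mul, hks' k hk, one_mul]
          rw [mul_left_comm]) g]
        exact hγ ((κ a g)⁻¹ :: ks) (List.Forall₂.cons (Subgroup.inv_mem _ (h1 a ha g)) hks) g)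
    refine ⟨fun l => if l = a then fun g => γ (T g) else d l, ?_, ?_⟩
    · intro l hl k hk g
      by_cases hla : l = a
      · subst hla
        simp only [if_true]
        congr 1
        simp only [hT, map_mul, h2 l ha k hk, mul_inv]
        rw [mul_mul_mul_comm, inv_mul_cancel, one_mul]
      · simp only [hla, if_false]
        exact hd1 l ((List.mem_cons.1 hl).resolve_left hla) k hk g
    · intro g
      rw [List.map_cons, List.sum_cons]
      simp only [if_true]
      have e : (ls.map fun l => (if l = a then fun g => γ (T g) else d l) g) =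
          ls.map fun l => d l g := by
        refine List.map_congr_left fun l hl => ?_
        rw [if_neg]
        rintro rfl
        exact hna hl
      rw [e, ← hd2 g]
      ring

end R3

end Pool.Agent.FS
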