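import Pool.Agent.FS.RNorm
import Pool.Agent.FS.RComb

set_option autoImplicit false

namespace Pool.Agent.FS

open Finset
open Pool.Agent.Helper9.Fermat (fib mem_fib)

section R4

variable {m : ℕ} [NeZero m]

namespace RLift

/-- `q x` determines `al x` -/
theorem al_mul_of {l : ℕ} {x y : ZMod m} (h : (qq m l : ZMod m) * x = (qq m l : ZMod m) * y) :
    al m l * x = al m l * y := by
  unfold al
  rw [mul_right_comm, h, mul_right_comm]

/-- `q x` determines `ide x` -/
theorem ide_mul_of {l : ℕ} {x y : ZMod m} (h : (qq m l : ZMod m) * x = (qq m l : ZMod m) * y) :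
    ide m l * x = ide m l * y := by
  unfold ide
  have hpos : 0 < (ordCompl[l] m).totient :=
    Nat.totient_pos.2 (Nat.ordCompl_pos l (NeZero.ne m))
  obtain ⟨t, ht⟩ : ∃ t, (ordCompl[l] m).totient = t + 1 := ⟨_, (Nat.succ_pred_eq_of_pos hpos).symm⟩
  rw [ht, pow_succ, mul_assoc, mul_assoc, h]

theorem be_mul_of {l : ℕ} {x y : ZMod m} (h : (qq m l : ZMod m) * x = (qq m l : ZMod m) * y) :
    be m l * x = be m l * y := by
  unfold be
  rw [mul_assoc, mul_assoc, ide_mul_of h]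

/-- multiplication by `q` kills the action of `Kl` -/
theorem qq_mul_emb {n l : ℕ} [NeZero n] (hn : Uni m n) (hl : l.Prime) (hln : l ∣ n)
    (k : (ZMod n)ˣ) (hk : k ∈ Kl n l) (g : (ZMod n)ˣ) :
    (qq m l : ZMod m) * emb m n ((k * g : (ZMod n)ˣ) : ZMod n) =
      (qq m l : ZMod m) * emb m n (g : ZMod n) := by
  have hq : n = qq m l * ordCompl[l] n := by
    rw [← uni_ordProj hn hl hln]
    exact (Nat.ordProj_mul_ordCompl_eq_self n l).symm
  rw [mul_emb_eq_iff hn.1 hq]
  change ZMod.unitsMap (Nat.ordCompl_dvd n l) k = 1 at hk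
  have h1 : ZMod.unitsMap (Nat.ordCompl_dvd n l) (k * g) =
      ZMod.unitsMap (Nat.ordCompl_dvd n l) g := by
    rw [map_mul, hk, one_mul]
  exact congrArg (fun u : (ZMod (ordCompl[l] n))ˣ => (u : ZMod (ordCompl[l] n))) h1

theorem ordCompl_ne_zero {n : ℕ} (l : ℕ) (hn : n ≠ 0) : ordCompl[l] n ≠ 0 :=
  (Nat.ordCompl_pos l hn).ne'

/-- the sum over a coset of a function of `c x` -/
theorem coset_mul {B : Type} [AddCommGroup B] {g : ZMod m → B} {n l l' : ℕ} [NeZero n] (hn : Uni m n)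
    (hl : l.Prime) (hl' : l'.Prime) (hln' : l' ∣ n) (hne : l' ≠ l) (c : ZMod m)
    (hc : ∀ x : ZMod m, addOrderOf (c * x) = ordCompl[l] (addOrderOf x)) (u : (ZMod n)ˣ) :
    ∃ v : (ZMod (ordCompl[l] n))ˣ, c * emb m n u = emb m (ordCompl[l] n) v ∧
      ∑ᶠ k : Kl n l', g (c * emb m n (((k : (ZMod n)ˣ) * u : (ZMod n)ˣ) : ZMod n)) =
      ∑ᶠ k : Kl (ordCompl[l] n) l',
        g (emb m (ordCompl[l] n) (((k : (ZMod (ordCompl[l] n))ˣ) * v : (ZMod (ordCompl[l] n))ˣ) :
          ZMod (ordCompl[l] n))) := by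
  have hn0 : n ≠ 0 := NeZero.ne n
  haveI : NeZero (ordCompl[l] n) := ⟨ordCompl_ne_zero l hn0⟩
  have hn' : Uni m (ordCompl[l] n) := uni_ordCompl hn hl
  have hord : addOrderOf (c * emb m n u) = ordCompl[l] n := by
    rw [hc, (exists_emb hn.1 _).2 ⟨u, rfl⟩]
  obtain ⟨v, hv⟩ := (exists_emb hn'.1 _).1 hord
  refine ⟨v, hv, ?_⟩
  have hl'n : l' ∣ ordCompl[l] n := by
    have h1 : l' ∣ ordProj[l] n * ordCompl[l] n := by
      rw [Nat.ordProj_mul_ordCompl_eq_self]
      exact hln'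
    refine (Nat.Coprime.dvd_of_dvd_mul_left ?_ h1)
    exact Nat.Coprime.pow_right _ ((Nat.coprime_primes hl' hl).2 hne)
  have h1 := rel_units (g := fun x => g (c * x)) hn hl' hln' u
  have h2 := rel_units (g := g) hn' hl' hl'n v
  rw [h1, h2, ← hv]
  refine finsum_congr fun k => ?_
  rw [mul_left_comm]

/-- the two conditions at level `n` -/
def Ok (φ ψ : ZMod m → ℤ) (r n : ℕ) : Prop :=
  (∀ l : ℕ, l.Prime → l ∣ n → l ≠ r → Rel ψ n l) ∧
    ∀ u : (ZMod n)ˣ, ∑ᶠ k : Kl n r, ψ (emb m n (((k : (ZMod n)ˣ) * u : (ZMod n)ˣ) : ZMod n)) =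
      φ (ide m r * emb m n u)

theorem ordCompl_lt {n l : ℕ} (hn : n ≠ 0) (hl : l.Prime) (hln : l ∣ n) : ordCompl[l] n < n := by
  refine Nat.div_lt_self (Nat.pos_of_ne_zero hn) ?_
  exact Nat.one_lt_pow (hl.factorization_pos_of_dvd hn hln).ne' hl.one_lt

theorem dvd_ordCompl {n l l' : ℕ} (hl : l.Prime) (hl' : l'.Prime) (hln' : l' ∣ n) (hne : l' ≠ l) :
    l' ∣ ordCompl[l] n := by
  have h1 : l' ∣ ordProj[l] n * ordCompl[l] n := by
    rw [Nat.ordProj_mul_ordCompl_eq_self]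
    exact hln'
  refine (Nat.Coprime.dvd_of_dvd_mul_left ?_ h1)
  exact Nat.Coprime.pow_right _ ((Nat.coprime_primes hl' hl).2 hne)

theorem step {r : ℕ} (hr : r.Prime) (φ : ZMod m → ℤ) (hφ : IsDist φ) (n : ℕ)
    (hn : Uni m n) (hrn : r ∣ n) (ψ : ZMod m → ℤ)
    (hψ : ∀ n' < n, Uni m n' → r ∣ n' → Ok φ ψ r n') :
    ∃ ψ' : ZMod m → ℤ, ∀ n' ≤ n, Uni m n' → r ∣ n' → Ok φ ψ' r n' := by
  classical
  have hm0 : m ≠ 0 := NeZero.ne m
  have hn0 : n ≠ 0 := fun h => hm0 (Nat.eq_zero_of_zero_dvd (h ▸ hn.1))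
  haveI : NeZero n := ⟨hn0⟩
  -- projections
  have hex : ∀ l : ℕ, ∃ κ : (ZMod n)ˣ →* (ZMod n)ˣ, l.Prime → (∀ g, κ g ∈ Kl n l) ∧
      (∀ g ∈ Kl n l, κ g = g) ∧ ∀ l' : ℕ, l'.Prime → l' ≠ l → ∀ g ∈ Kl n l', κ g = 1 := by
    intro l
    by_cases hl : l.Prime
    · obtain ⟨κ, hκ⟩ := exists_kap n l hl
      exact ⟨κ, fun _ => hκ⟩
    · exact ⟨1, fun h => absurd h hl⟩
  choose κ hκ using hex
  -- marginals
  obtain ⟨M, hM⟩ : ∃ M : ℕ → (ZMod n)ˣ → ℤ, ∀ l g, M l g =
      if l = r then φ (ide m r * emb m n g) else ψ (al m l * emb m n g) - ψ (be m l * emb m n g) :=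
    ⟨fun l g => if l = r then φ (ide m r * emb m n g) else
      ψ (al m l * emb m n g) - ψ (be m l * emb m n g), fun _ _ => rfl⟩
  have hpr : ∀ l ∈ n.primeFactors, l.Prime := fun l hl => Nat.prime_of_mem_primeFactors hl
  have hdv : ∀ l ∈ n.primeFactors, l ∣ n := fun l hl => Nat.dvd_of_mem_primeFactors hl
  have hMr : ∀ g, M r g = φ (ide m r * emb m n g) := fun g => by rw [hM, if_pos rfl]
  have hMl : ∀ l, l ≠ r → ∀ g, M l g = ψ (al m l * emb m n g) - ψ (be m l * emb m n g) :=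
    fun l hl g => by rw [hM, if_neg hl]
  -- mixed case with `r`
  have hcr : ∀ l ∈ n.primeFactors, l ≠ r → ∀ g,
      ∑ᶠ k : Kl n r, M l ((k : (ZMod n)ˣ) * g) = ∑ᶠ k : Kl n l, M r ((k : (ZMod n)ˣ) * g) := by
    intro l hl hlr g
    have hlp := hpr l hl
    have hln := hdv l hl
    have hr' : r ∣ ordCompl[l] n := dvd_ordCompl hlp hr hrn (Ne.symm hlr)
    have hok := hψ (ordCompl[l] n) (ordCompl_lt hn0 hlp hln) (uni_ordCompl hn hlp) hr'
    obtain ⟨v1, hv1, e1⟩ := coset_mul (g := ψ) hn hlp hr hrn (Ne.symm hlr) (al m l)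
      (fun x => addOrderOf_al_mul l hlp x) g
    obtain ⟨v2, hv2, e2⟩ := coset_mul (g := ψ) hn hlp hr hrn (Ne.symm hlr) (be m l)
      (fun x => addOrderOf_be_mul l hlp (hln.trans hn.1) x) g
    have hL : ∑ᶠ k : Kl n r, M l ((k : (ZMod n)ˣ) * g) =
        φ (ide m r * (al m l * emb m n g)) - φ (ide m r * (be m l * emb m n g)) := by
      have h1 : (fun k : Kl n r => M l ((k : (ZMod n)ˣ) * g)) = fun k : Kl n r =>
          ψ (al m l * emb m n (((k : (ZMod n)ˣ) * g : (ZMod n)ˣ) : ZMod n)) -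
          ψ (be m l * emb m n (((k : (ZMod n)ˣ) * g : (ZMod n)ˣ) : ZMod n)) := by
        funext k
        rw [hMl l hlr]
      rw [h1, finsum_sub_distrib (Set.toFinite _) (Set.toFinite _), e1, e2, hok.2 v1, hok.2 v2,
        ← hv1, ← hv2]
    have hR : ∑ᶠ k : Kl n l, M r ((k : (ZMod n)ˣ) * g) =
        φ (al m l * (ide m r * emb m n g)) - φ (be m l * (ide m r * emb m n g)) := by
      have h1 : (fun k : Kl n l => M r ((k : (ZMod n)ˣ) * g)) = fun k : Kl n l =>
          φ (ide m r * emb m n (((k : (ZMod n)ˣ) * g : (ZMod n)ˣ) : ZMod n)) := by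
        funext k
        rw [hMr]
      obtain ⟨v3, hv3, e3⟩ := coset_mul (g := φ) hn hr hlp hln hlr (ide m r)
        (fun x => addOrderOf_ide_mul r hr x) g
      have hln' : l ∣ ordCompl[r] n := dvd_ordCompl hr hlp hln hlr
      have h4 := rel_of_dist (g := φ) (uni_ordCompl hn hr) hlp hln'
        (hφ l hlp (hln.trans hn.1)) v3
      rw [h1, e3, h4, ← hv3]
    rw [hL, hR, mul_left_comm, mul_left_comm (ide m r)]
  obtain ⟨X, hX⟩ := marginal (Kl n) κ n.primeFactors
    (fun l hl => (hκ l (hpr l hl)).1) (fun l hl => (hκ l (hpr l hl)).2.1)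
    (fun l hl l' hl' hne => (hκ l (hpr l hl)).2.2 l' (hpr l' hl') hne) M
    (by
      intro l hl k hk g
      have h1 := qq_mul_emb hn (hpr l hl) (hdv l hl) k hk g
      by_cases hlr : l = r
      · subst hlr
        rw [hMr, hMr, ide_mul_of h1]
      · rw [hMl l hlr, hMl l hlr, al_mul_of h1, be_mul_of h1])
    (by
      intro l hl l' hl' hne g
      by_cases hlr : l = r
      · subst hlr
        exact (hcr l' hl' (Ne.symm hne) g).symm
      · by_cases hlr' : l' = r
        · subst hlr'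
          exact hcr l hl hlr g
        · -- both different from `r`
          have key : ∀ a b : ℕ, a ∈ n.primeFactors → b ∈ n.primeFactors → a ≠ b → a ≠ r → b ≠ r →
              ∑ᶠ k : Kl n b, M a ((k : (ZMod n)ˣ) * g) =
              (ψ (al m b * (al m a * emb m n g)) - ψ (be m b * (al m a * emb m n g))) -
              (ψ (al m b * (be m a * emb m n g)) - ψ (be m b * (be m a * emb m n g))) := by
            intro a b ha hb hab har hbr
            have hap := hpr a ha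
            have han := hdv a ha
            have hbp := hpr b hb
            have hbn := hdv b hb
            have hr' : r ∣ ordCompl[a] n := dvd_ordCompl hap hr hrn (Ne.symm har)
            have hb' : b ∣ ordCompl[a] n := dvd_ordCompl hap hbp hbn (Ne.symm hab)
            have hok := hψ (ordCompl[a] n) (ordCompl_lt hn0 hap han) (uni_ordCompl hn hap) hr'
            obtain ⟨v1, hv1, e1⟩ := coset_mul (g := ψ) hn hap hbp hbn (Ne.symm hab) (al m a)
              (fun x => addOrderOf_al_mul a hap x) g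
            obtain ⟨v2, hv2, e2⟩ := coset_mul (g := ψ) hn hap hbp hbn (Ne.symm hab) (be m a)
              (fun x => addOrderOf_be_mul a hap (han.trans hn.1) x) g
            have h1 : (fun k : Kl n b => M a ((k : (ZMod n)ˣ) * g)) = fun k : Kl n b =>
                ψ (al m a * emb m n (((k : (ZMod n)ˣ) * g : (ZMod n)ˣ) : ZMod n)) -
                ψ (be m a * emb m n (((k : (ZMod n)ˣ) * g : (ZMod n)ˣ) : ZMod n)) := by
              funext k
              rw [hMl a har]
            have r1 := hok.1 b hbp hb' hbr v1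
            have r2 := hok.1 b hbp hb' hbr v2
            rw [h1, finsum_sub_distrib (Set.toFinite _) (Set.toFinite _), e1, e2, r1, r2, ← hv1,
              ← hv2]
          rw [key l l' hl hl' hne hlr hlr', key l' l hl' hl (Ne.symm hne) hlr' hlr,
            mul_left_comm (al m l'), mul_left_comm (be m l'), mul_left_comm (al m l') (be m l),
            mul_left_comm (be m l') (be m l)]
          ring)
  -- the new function
  obtain ⟨ψ', h1, h2⟩ : ∃ ψ' : ZMod m → ℤ, (∀ g : (ZMod n)ˣ, ψ' (emb m n g) = X g) ∧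
      ∀ x, addOrderOf x ≠ n → ψ' x = ψ x := by
    refine ⟨fun x => if h : ∃ g : (ZMod n)ˣ, x = emb m n g then X h.choose else ψ x, ?_, ?_⟩
    · intro g
      have h : ∃ g' : (ZMod n)ˣ, emb m n g = emb m n g' := ⟨g, rfl⟩
      simp only
      rw [dif_pos h]
      congr 1
      exact (Units.val_injective (emb_inj hn.1 h.choose_spec)).symm
    · intro x hx
      simp only
      rw [dif_neg]
      intro h
      exact hx ((exists_emb hn.1 x).2 h)
  refine ⟨ψ', fun n' hn'n hn' hr' => ?_⟩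
  have hn'0 : n' ≠ 0 := fun h => hm0 (Nat.eq_zero_of_zero_dvd (h ▸ hn'.1))
  haveI : NeZero n' := ⟨hn'0⟩
  have hemb : ∀ u : (ZMod n')ˣ, addOrderOf (emb m n' u) = n' := fun u =>
    (exists_emb hn'.1 _).2 ⟨u, rfl⟩
  rcases Nat.lt_or_ge n' n with hlt | hge
  · obtain ⟨o1, o2⟩ := hψ n' hlt hn' hr'
    refine ⟨fun l hl hln hlr u => ?_, fun u => ?_⟩
    · have h3 := o1 l hl hln hlr u
      rw [h2 (al m l * emb m n' u) (by
        rw [addOrderOf_al_mul l hl, hemb]
        have := ordCompl_lt hn'0 hl hln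
        omega), h2 (be m l * emb m n' u) (by
        rw [addOrderOf_be_mul l hl (hln.trans hn'.1), hemb]
        have := ordCompl_lt hn'0 hl hln
        omega), ← h3]
      refine finsum_congr fun k => ?_
      exact h2 _ (by rw [hemb]; omega)
    · rw [← o2 u]
      refine finsum_congr fun k => ?_
      exact h2 _ (by rw [hemb]; omega)
  · have hnn : n' = n := le_antisymm hn'n hge
    subst hnn
    refine ⟨fun l hl hln hlr u => ?_, fun u => ?_⟩
    · have hmem : l ∈ n'.primeFactors := Nat.mem_primeFactors.2 ⟨hl, hln, hn'0⟩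
      have h3 := hX l hmem u
      rw [hMl l hlr] at h3
      rw [h2 (al m l * emb m n' u) (by
        rw [addOrderOf_al_mul l hl, hemb]
        have := ordCompl_lt hn'0 hl hln
        omega), h2 (be m l * emb m n' u) (by
        rw [addOrderOf_be_mul l hl (hln.trans hn'.1), hemb]
        have := ordCompl_lt hn'0 hl hln
        omega), ← h3]
      refine finsum_congr fun k => ?_
      exact h1 _
    · have hmem : r ∈ n'.primeFactors := Nat.mem_primeFactors.2 ⟨hr, hrn, hn'0⟩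
      have h3 := hX r hmem u
      rw [hMr] at h3
      rw [← h3]
      refine finsum_congr fun k => ?_
      exact h1 _

end RLift

theorem exists_lift {r : ℕ} (hr : r.Prime) (hrm : r ∣ m) (φ : ZMod m → ℤ) (hφ : IsDist φ) :
    ∃ ψ : ZMod m → ℤ,
      (∀ n l : ℕ, Uni m n → r ∣ n → l.Prime → l ∣ n → l ≠ r → Rel ψ n l) ∧
      ∀ n : ℕ, Uni m n → r ∣ n → ∀ u : (ZMod n)ˣ,
        ∑ᶠ k : Kl n r, ψ (emb m n (((k : (ZMod n)ˣ) * u : (ZMod n)ˣ) : ZMod n)) =
          φ (ide m r * emb m n u) := by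
  have key : ∀ N : ℕ, ∃ ψ : ZMod m → ℤ, ∀ n < N, Uni m n → r ∣ n → RLift.Ok φ ψ r n := by
    intro N
    induction N with
    | zero => exact ⟨0, fun n hn => absurd hn (Nat.not_lt_zero n)⟩
    | succ N ih =>
      obtain ⟨ψ, hψ⟩ := ih
      by_cases h : Uni m N ∧ r ∣ N
      · obtain ⟨ψ', h'⟩ := RLift.step hr φ hφ N h.1 h.2 ψ hψ
        exact ⟨ψ', fun n hn => h' n (Nat.lt_succ_iff.1 hn)⟩
      · refine ⟨ψ, fun n hn hu hrn => ?_⟩
        rcases Nat.lt_succ_iff_lt_or_eq.1 hn with h1 | h1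
        · exact hψ n h1 hu hrn
        · subst h1
          exact absurd ⟨hu, hrn⟩ h
  obtain ⟨ψ, hψ⟩ := key (m + 1)
  have hle : ∀ n, Uni m n → n < m + 1 := fun n hn =>
    Nat.lt_succ_of_le (Nat.le_of_dvd (Nat.pos_of_ne_zero (NeZero.ne m)) hn.1)
  exact ⟨ψ, fun n l hn hrn hl hln hlr => (hψ n (hle n hn) hn hrn).1 l hl hln hlr,
    fun n hn hrn => (hψ n (hle n hn) hn hrn).2⟩

end R4

end Pool.Agent.FS
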