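import Pool.Agent.FS.YEq

set_option autoImplicit false

namespace Pool.Agent.FS

open Finset
open Pool.Agent.Helper9.Fermat (fib mem_fib fib_card)

namespace KillAux

variable {m : ℕ} [NeZero m] {A : Type} [AddCommGroup A] (D : Datum m A) (L : Set ℕ)

/-- the values at the elements of `ℤ/N`, modulo the lower levels -/
def FB (N j : ℕ) : A ⧸ D.lev L := QuotientAddGroup.mk (D.f ((m / N * j : ℕ) : ZMod m))

lemma cast_eq {N : ℕ} (hN : N ∣ m) (j k : ℕ) (h : j ≡ k [MOD N]) :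
    ((m / N * j : ℕ) : ZMod m) = ((m / N * k : ℕ) : ZMod m) := by
  rw [ZMod.natCast_eq_natCast_iff]
  have h1 := Nat.ModEq.mul_left' (m / N) h
  rwa [Nat.div_mul_cancel hN] at h1

lemma FB_congr {N : ℕ} (hN : N ∣ m) {j k : ℕ} (h : j ≡ k [MOD N]) :
    FB D L N j = FB D L N k := by
  unfold FB
  rw [cast_eq hN j k h]

lemma FB_level {N r : ℕ} (hN : N * r ∣ m) (hr : 0 < r) (j : ℕ) :
    FB D L N j = FB D L (N * r) (r * j) := by
  unfold FB
  obtain ⟨k, hk⟩ := hN
  have hm0 : 0 < m := Nat.pos_of_ne_zero (NeZero.ne m)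
  have hN0 : 0 < N := Nat.pos_of_ne_zero (by rintro rfl; rw [zero_mul, zero_mul] at hk; omega)
  have e1 : m / N = r * k := by
    rw [hk, mul_assoc]; exact Nat.mul_div_cancel_left _ hN0
  have e2 : m / (N * r) = k := by
    rw [hk]; exact Nat.mul_div_cancel_left _ (Nat.mul_pos hN0 hr)
  rw [e1, e2]
  congr 3
  ring

lemma FB_neg {N : ℕ} (hN : N ∣ m) {j k : ℕ} (h : N ∣ j + k) : FB D L N j = - FB D L N k := by
  unfold FB
  rw [← QuotientAddGroup.mk_neg, ← D.odd]
  congr 2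
  rw [eq_neg_iff_add_eq_zero, ← Nat.cast_add, ← mul_add, ZMod.natCast_eq_zero_iff]
  obtain ⟨c, hc⟩ := h
  rw [hc, ← mul_assoc, Nat.div_mul_cancel hN]
  exact Dvd.intro _ rfl

lemma fib_eq' {r : ℕ} (hr : 0 < r) (hrm : r ∣ m) (y : ZMod m) :
    fib m r ((r : ZMod m) * y) = (range r).image fun i => y + ((i * (m / r) : ℕ) : ZMod m) := by
  symm
  apply eq_of_subset_of_card_le
  · intro z hz
    obtain ⟨i, -, rfl⟩ := mem_image.1 hz
    rw [mem_fib, mul_add]
    have : (r : ZMod m) * ((i * (m / r) : ℕ) : ZMod m) = 0 := by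
      rw [← Nat.cast_mul, ZMod.natCast_eq_zero_iff, mul_left_comm, Nat.mul_div_cancel' hrm]
      exact Dvd.intro_left _ rfl
    rw [this, add_zero]
  · rw [fib_card hr hrm, card_image_of_injOn, card_range]
    intro i hi j hj hij
    have hm0 : 0 < m := Nat.pos_of_ne_zero (NeZero.ne m)
    have h1 : ((i * (m / r) : ℕ) : ZMod m) = ((j * (m / r) : ℕ) : ZMod m) := add_left_cancel hij
    have hd : 0 < m / r := Nat.div_pos (Nat.le_of_dvd hm0 hrm) hr
    rw [ZMod.natCast_eq_natCast_iff', Nat.mod_eq_of_lt, Nat.mod_eq_of_lt] at h1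
    · exact Nat.eq_of_mul_eq_mul_right hd h1
    · calc j * (m / r) < r * (m / r) := Nat.mul_lt_mul_of_pos_right (mem_range.1 hj) hd
        _ = m := Nat.mul_div_cancel' hrm
    · calc i * (m / r) < r * (m / r) := Nat.mul_lt_mul_of_pos_right (mem_range.1 hi) hd
        _ = m := Nat.mul_div_cancel' hrm

lemma FB_dist {N r : ℕ} (hN : N ∣ m) (hr : r.Prime) (hrN : r ∣ N) (j : ℕ) :
    ∑ i ∈ range r, FB D L N (j + i * (N / r)) = FB D L N (r * j) := by
  have hrm : r ∣ m := hrN.trans hN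
  have hm0 : 0 < m := Nat.pos_of_ne_zero (NeZero.ne m)
  have h1 := D.dist r hr hrm ((m / N * j : ℕ) : ZMod m)
  rw [fib_eq' hr.pos hrm, sum_image] at h1
  · unfold FB
    have e2 : ((m / N * (r * j) : ℕ) : ZMod m) = (r : ZMod m) * ((m / N * j : ℕ) : ZMod m) := by
      push_cast
      ring
    rw [e2, ← h1]
    have : ∀ s : Finset ℕ, ∀ g : ℕ → A, (QuotientAddGroup.mk (∑ i ∈ s, g i) : A ⧸ D.lev L) =
        ∑ i ∈ s, QuotientAddGroup.mk (g i) := fun s g =>
      map_sum (QuotientAddGroup.mk' (D.lev L)) g s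
    rw [this]
    refine sum_congr rfl fun i _ => ?_
    congr 2
    rw [← Nat.cast_add]
    congr 1
    have : m / N * (N / r) = m / r := Nat.div_mul_div_comm hN hrN |>.trans (by
      rw [mul_comm N r]
      exact Nat.mul_div_mul_right _ _ (Nat.pos_of_dvd_of_pos hN hm0))
    rw [mul_add, mul_left_comm, this]
  · intro i hi j hj hij
    have h1 : ((i * (m / r) : ℕ) : ZMod m) = ((j * (m / r) : ℕ) : ZMod m) := add_left_cancel hij
    have hd : 0 < m / r := Nat.div_pos (Nat.le_of_dvd hm0 hrm) hr.pos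
    rw [ZMod.natCast_eq_natCast_iff', Nat.mod_eq_of_lt, Nat.mod_eq_of_lt] at h1
    · exact Nat.eq_of_mul_eq_mul_right hd h1
    · calc j * (m / r) < r * (m / r) := Nat.mul_lt_mul_of_pos_right (mem_range.1 hj) hd
        _ = m := Nat.mul_div_cancel' hrm
    · calc i * (m / r) < r * (m / r) := Nat.mul_lt_mul_of_pos_right (mem_range.1 hi) hd
        _ = m := Nat.mul_div_cancel' hrm

lemma FB_half {N : ℕ} (hN : N ∣ m) (h2 : 2 ∣ N) (j : ℕ) :
    FB D L N (j + N / 2) = FB D L N (2 * j) - FB D L N j := by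
  have h := FB_dist D L hN Nat.prime_two h2 j
  rw [sum_range_succ, sum_range_succ, range_zero, sum_empty, zero_mul, add_zero, one_mul,
    zero_add] at h
  rw [← h]
  abel

lemma FB_kill {N : ℕ} (hN : N ∣ m) {l : ℕ} (hl : l.Prime) (hL : qq m l ∈ L) {k j : ℕ}
    (h : N ∣ l ^ k * j) : FB D L N j = 0 := by
  unfold FB
  rw [QuotientAddGroup.eq_zero_iff]
  set z : ZMod m := ((m / N * j : ℕ) : ZMod m) with hz
  by_cases hz0 : z = 0
  · rw [hz0, D.zero]
    exact zero_mem _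
  have h1 : addOrderOf z ∣ l ^ k := by
    rw [addOrderOf_dvd_iff_nsmul_eq_zero, nsmul_eq_mul, hz, ← Nat.cast_mul,
      ZMod.natCast_eq_zero_iff]
    obtain ⟨c, hc⟩ := h
    rw [mul_left_comm, hc, ← mul_assoc, Nat.div_mul_cancel hN]
    exact Dvd.intro _ rfl
  have h2 : (addOrderOf z).primeFactors = {l} := by
    obtain ⟨i, -, hi⟩ := (Nat.dvd_prime_pow hl).1 h1
    have hi0 : i ≠ 0 := by
      rintro rfl
      rw [pow_zero, AddMonoid.addOrderOf_eq_one_iff] at hi
      exact hz0 hi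
    rw [hi, Nat.primeFactors_prime_pow hi0 hl]
  have h3 := f_mem_lev D z hz0
  rw [h2, prod_singleton] at h3
  refine AddSubgroup.closure_mono ?_ h3
  rintro a ⟨y, hy, rfl⟩
  refine ⟨y, ?_, rfl⟩
  rw [Set.mem_singleton_iff] at hy
  rw [hy]
  exact hL

lemma FB_kill2 {N : ℕ} (hN : N ∣ m) (hN2 : 2 ∣ N) {l : ℕ} (hl : l.Prime) (hL : qq m l ∈ L)
    {k j : ℕ} (h : N ∣ l ^ k * j) : FB D L N (j + N / 2) = 0 := by
  rw [FB_half D L hN hN2, FB_kill D L hN hl hL (k := k) (j := 2 * j) (by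
    rw [mul_left_comm]; exact h.mul_left 2), FB_kill D L hN hl hL h, sub_zero]

lemma val_emb {N : ℕ} (hN : N ∣ m) (t : ZMod m) (a : ℕ) :
    (t * ((m / N * a : ℕ) : ZMod m)).val = m / N * ((t.val % N * a) % N) := by
  have hm0 : 0 < m := Nat.pos_of_ne_zero (NeZero.ne m)
  have hN0 : 0 < N := Nat.pos_of_dvd_of_pos hN hm0
  have h1 : t * ((m / N * a : ℕ) : ZMod m) = ((m / N * ((t.val % N * a) % N) : ℕ) : ZMod m) := by
    rw [← cast_eq hN (t.val * a) _ ((Nat.mod_modEq _ _).trans ((Nat.mod_modEq _ _).mul_right a)).symm]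
    conv_lhs => rw [← ZMod.natCast_zmod_val t]
    push_cast
    ring
  rw [h1, ZMod.val_natCast, Nat.mod_eq_of_lt]
  have h2 : (t.val % N * a) % N < N := Nat.mod_lt _ hN0
  have h3 : 0 < m / N := Nat.div_pos (Nat.le_of_dvd hm0 hN) hN0
  calc m / N * ((t.val % N * a) % N) < m / N * N := Nat.mul_lt_mul_of_pos_left h2 h3
    _ = m := Nat.div_mul_cancel hN

/-- the check for a Hodge character with four elements -/
def chk (N a b c d : ℕ) : Bool :=
  decide (a % N ≠ 0 ∧ b % N ≠ 0 ∧ c % N ≠ 0 ∧ d % N ≠ 0 ∧ ∀ t ∈ range N, t.Coprime N →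
    2 * ((t * a) % N + (t * b) % N + (t * c) % N + (t * d) % N) = 4 * N)

lemma FB_surf {N : ℕ} (hN : N ∣ m) {a b c d : ℕ} (h : chk N a b c d = true) :
    FB D L N a + FB D L N b + FB D L N c + FB D L N d = 0 := by
  have hm0 : 0 < m := Nat.pos_of_ne_zero (NeZero.ne m)
  have hN0 : 0 < N := Nat.pos_of_dvd_of_pos hN hm0
  rw [chk, decide_eq_true_eq] at h
  obtain ⟨ha, hb, hc, hd, ht⟩ := h
  have hne : ∀ j : ℕ, j % N ≠ 0 → (0 : ZMod m) ≠ ((m / N * j : ℕ) : ZMod m) := by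
    intro j hj h0
    rw [eq_comm, ZMod.natCast_eq_zero_iff] at h0
    have h3 : 0 < m / N := Nat.div_pos (Nat.le_of_dvd hm0 hN) hN0
    have h4 : m / N * N ∣ m / N * j := by rwa [Nat.div_mul_cancel hN]
    exact hj (Nat.mod_eq_zero_of_dvd (Nat.dvd_of_mul_dvd_mul_left h3 h4))
  have key := D.surf {((m / N * a : ℕ) : ZMod m), ((m / N * b : ℕ) : ZMod m),
    ((m / N * c : ℕ) : ZMod m), ((m / N * d : ℕ) : ZMod m)} ?_ (by simp) ?_
  · simp only [Multiset.insert_eq_cons, Multiset.map_cons, Multiset.map_singleton,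
      Multiset.sum_cons, Multiset.sum_singleton] at key
    unfold FB
    rw [← QuotientAddGroup.mk_add, ← QuotientAddGroup.mk_add, ← QuotientAddGroup.mk_add,
      add_assoc, add_assoc, key]
    rfl
  · simp only [Multiset.insert_eq_cons, Multiset.mem_cons, Multiset.mem_singleton, not_or]
    exact ⟨hne a ha, hne b hb, hne c hc, hne d hd⟩
  · intro t
    simp only [Multiset.insert_eq_cons, Multiset.map_cons, Multiset.map_singleton,
      Multiset.sum_cons, Multiset.sum_singleton, Multiset.card_cons, Multiset.card_singleton]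
    rw [val_emb hN, val_emb hN, val_emb hN, val_emb hN]
    have hcop : ((t : ZMod m).val % N).Coprime N := by
      have h1 := ZMod.val_coe_unit_coprime t
      have h2 : (t : ZMod m).val.Coprime N := Nat.Coprime.coprime_dvd_right hN h1
      rw [Nat.Coprime, ← Nat.gcd_rec, Nat.gcd_comm]
      exact h2
    have h1 := ht _ (mem_range.2 (Nat.mod_lt _ hN0)) hcop
    have h2 : m / N * N = m := Nat.div_mul_cancel hN
    calc 2 * (m / N * ((t : ZMod m).val % N * a % N) + (m / N * ((t : ZMod m).val % N * b % N) +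
        (m / N * ((t : ZMod m).val % N * c % N) + m / N * ((t : ZMod m).val % N * d % N))))
        = m / N * (2 * (((t : ZMod m).val % N * a) % N + ((t : ZMod m).val % N * b) % N +
          ((t : ZMod m).val % N * c) % N + ((t : ZMod m).val % N * d) % N)) := by ring
      _ = m / N * (4 * N) := by rw [h1]
      _ = (m / N * N) * 4 := by ring
      _ = _ := by rw [h2]

section

variable {m : ℕ} [NeZero m] {A : Type} [AddCommGroup A] (D : Datum m A) (L : Set ℕ)

lemma Y_FB (l₁ l₂ N : ℕ) (hl₁ : l₁.Prime) (hl₂ : l₂.Prime) (hne : l₁ ≠ l₂)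
    (h₁ : hb l₁ ∣ m) (h₂ : hb l₂ ∣ m) (hN : hb l₁ * hb l₂ = N) (s : Finset ℕ)
    (hs : (range N).filter (fun w => w.Coprime N ∧ Half l₁ w ∧ Half l₂ w) = s)
    (h : ∑ w ∈ s, FB D L N w = 0) : D.Y l₁ l₂ ∈ D.lev L := by
  subst hN
  subst hs
  rw [Y_eq D l₁ l₂ hl₁ hl₂ hne h₁ h₂, ← QuotientAddGroup.eq_zero_iff, ← h]
  exact map_sum (QuotientAddGroup.mk' (D.lev L)) _ _

lemma Y23 (h₁ : 12 ∣ m) (hL₁ : qq m 2 ∈ L) (hL₂ : qq m 3 ∈ L) : FB D L 12 1 = 0 := by
  have e := FB_surf D L h₁ (a := 1) (b := 4) (c := 9) (d := 10) (by decide)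
  have k1 : FB D L 12 4 = 0 := FB_kill D L h₁ Nat.prime_three hL₂ (k := 1) (by decide)
  have k2 : FB D L 12 9 = 0 := FB_kill D L h₁ Nat.prime_two hL₁ (k := 2) (by decide)
  have k3 : FB D L 12 10 = 0 :=
    FB_kill2 D L h₁ (by decide) Nat.prime_three hL₂ (k := 1) (j := 4) (by decide)
  rwa [k1, k2, k3, add_zero, add_zero, add_zero] at e

lemma Y25 (h₁ : 20 ∣ m) (hL₁ : qq m 2 ∈ L) (hL₂ : qq m 5 ∈ L) :
    FB D L 20 1 + FB D L 20 17 = 0 := by
  have e := FB_surf D L h₁ (a := 1) (b := 4) (c := 17) (d := 18) (by decide)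
  have k1 : FB D L 20 4 = 0 := FB_kill D L h₁ Nat.prime_five hL₂ (k := 1) (by decide)
  have k3 : FB D L 20 18 = 0 :=
    FB_kill2 D L h₁ (by decide) Nat.prime_five hL₂ (k := 1) (j := 8) (by decide)
  rwa [k1, k3, add_zero, add_zero] at e

lemma Y27 (h₁ : 28 ∣ m) (hL₁ : qq m 2 ∈ L) (hL₂ : qq m 7 ∈ L) :
    FB D L 28 1 + (FB D L 28 9 + FB D L 28 17) = 0 := by
  have e := FB_surf D L h₁ (a := 1) (b := 9) (c := 21) (d := 25) (by decide)
  have k1 : FB D L 28 21 = 0 := FB_kill D L h₁ Nat.prime_two hL₁ (k := 2) (by decide)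
  have k4 : FB D L 28 (2 * 3) = 0 :=
    (FB_congr D L h₁ (by decide : 2 * 3 ≡ 20 + 28 / 2 [MOD 28])).trans
      (FB_kill2 D L h₁ (by decide) (by norm_num : Nat.Prime 7) hL₂ (k := 1) (j := 20) (by decide))
  have d1 : FB D L 28 17 = _ := FB_half D L h₁ (by decide) 3
  have n1 : FB D L 28 25 = - FB D L 28 3 := FB_neg D L h₁ (by decide)
  rw [k4, zero_sub] at d1
  rw [k1, n1, add_zero] at e
  rw [d1, ← e]
  abel

lemma Y35 (h₁ : 15 ∣ m) (hL₁ : qq m 3 ∈ L) (hL₂ : qq m 5 ∈ L) :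
    FB D L 15 1 + FB D L 15 7 = 0 := by
  have e := FB_surf D L h₁ (a := 1) (b := 6) (c := 10) (d := 13) (by decide)
  have k1 : FB D L 15 6 = 0 := FB_kill D L h₁ Nat.prime_five hL₂ (k := 1) (by decide)
  have k2 : FB D L 15 10 = 0 := FB_kill D L h₁ Nat.prime_three hL₁ (k := 1) (by decide)
  have k3 : FB D L 15 12 = 0 := FB_kill D L h₁ Nat.prime_five hL₂ (k := 1) (by decide)
  have k4 : FB D L 15 (3 * 2) = 0 := k1
  have d1 := FB_dist D L h₁ Nat.prime_three (by decide) 2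
  rw [sum_range_succ, sum_range_succ, sum_range_succ, range_zero, sum_empty, k4] at d1
  have d2 : FB D L 15 2 + FB D L 15 7 + FB D L 15 12 = 0 := by
    rw [← d1, zero_add]
  have n1 : FB D L 15 13 = - FB D L 15 2 := FB_neg D L h₁ (by decide)
  rw [k3, add_zero] at d2
  rw [k1, k2, n1, add_zero, add_zero] at e
  rw [eq_neg_of_add_eq_zero_right d2]
  exact e

lemma Y37 (h₁ : 21 ∣ m) (hL₁ : qq m 3 ∈ L) (hL₂ : qq m 7 ∈ L) :
    FB D L 21 1 + (FB D L 21 10 + FB D L 21 16) = 0 := by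
  have e := FB_surf D L h₁ (a := 1) (b := 10) (c := 15) (d := 16) (by decide)
  have k1 : FB D L 21 15 = 0 :=
    FB_kill D L h₁ (by norm_num : Nat.Prime 7) hL₂ (k := 1) (by decide)
  rw [k1, add_zero] at e
  rw [← e]
  abel

lemma Y311 (h₁ : 66 ∣ m) (hL₁ : qq m 3 ∈ L) (hL₂ : qq m 11 ∈ L) :
    FB D L 33 1 + (FB D L 33 4 + (FB D L 33 13 + (FB D L 33 16 + FB D L 33 25))) = 0 := by
  have h₀ : 33 ∣ m := (by decide : 33 ∣ 66).trans h₁
  have hp : Nat.Prime 11 := by norm_num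
  have e := FB_surf D L h₁ (a := 1) (b := 25) (c := 44) (d := 62) (by decide)
  have k1 : FB D L 66 44 = 0 := FB_kill D L h₁ Nat.prime_three hL₁ (k := 1) (by decide)
  have lev : ∀ j, FB D L 33 j = FB D L 66 (2 * j) := fun j =>
    FB_level D L (N := 33) (r := 2) h₁ (by decide) j
  -- the element 1
  have a1 : FB D L 66 1 = FB D L 33 1 + FB D L 33 16 := by
    have h := FB_half D L h₁ (by decide) 34
    have e1 : FB D L 66 (34 + 66 / 2) = FB D L 66 1 := FB_congr D L h₁ (by decide)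
    have e2 : FB D L 66 (2 * 34) = FB D L 33 1 :=
      (FB_congr D L h₁ (by decide : 2 * 34 ≡ 2 * 1 [MOD 66])).trans (lev 1).symm
    have e3 : FB D L 66 34 = FB D L 33 17 := (lev 17).symm
    have e4 : FB D L 33 17 = - FB D L 33 16 := FB_neg D L h₀ (by decide)
    rw [e1, e2, e3, e4, sub_neg_eq_add] at h
    exact h
  have a2 : FB D L 66 25 = FB D L 33 25 + FB D L 33 4 := by
    have h := FB_half D L h₁ (by decide) 58
    have e1 : FB D L 66 (58 + 66 / 2) = FB D L 66 25 := FB_congr D L h₁ (by decide)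
    have e2 : FB D L 66 (2 * 58) = FB D L 33 25 :=
      (FB_congr D L h₁ (by decide : 2 * 58 ≡ 2 * 25 [MOD 66])).trans (lev 25).symm
    have e3 : FB D L 66 58 = FB D L 33 29 := (lev 29).symm
    have e4 : FB D L 33 29 = - FB D L 33 4 := FB_neg D L h₀ (by decide)
    rw [e1, e2, e3, e4, sub_neg_eq_add] at h
    exact h
  have a3 : FB D L 66 62 = FB D L 33 13 := by
    have e3 : FB D L 66 62 = FB D L 33 31 := (lev 31).symm
    have e4 : FB D L 33 31 = - FB D L 33 2 := FB_neg D L h₀ (by decide)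
    have d1 := FB_dist D L h₀ Nat.prime_three (by decide) 2
    have k2 : FB D L 33 (3 * 2) = 0 := FB_kill D L h₀ hp hL₂ (k := 1) (by decide)
    have k3 : FB D L 33 (2 + 2 * (33 / 3)) = 0 := FB_kill D L h₀ hp hL₂ (k := 1) (by decide)
    rw [sum_range_succ, sum_range_succ, sum_range_succ, range_zero, sum_empty, k2, k3,
      add_zero, zero_add] at d1
    have d2 : FB D L 33 2 + FB D L 33 13 = 0 := d1
    rw [e3, e4, eq_neg_of_add_eq_zero_left d2, neg_neg]
  rw [a1, a2, k1, a3, add_zero] at e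
  rw [← e]
  abel

lemma Y313 (h₁ : 78 ∣ m) (hL₁ : qq m 3 ∈ L) (hL₂ : qq m 13 ∈ L) :
    FB D L 39 1 + (FB D L 39 4 + (FB D L 39 16 + (FB D L 39 19 +
      (FB D L 39 28 + FB D L 39 31)))) = 0 := by
  have h₀ : 39 ∣ m := (by decide : 39 ∣ 78).trans h₁
  have hp : Nat.Prime 13 := by norm_num
  have e := FB_surf D L h₁ (a := 1) (b := 32) (c := 61) (d := 62) (by decide)
  have lev : ∀ j, FB D L 39 j = FB D L 78 (2 * j) := fun j =>
    FB_level D L (N := 39) (r := 2) h₁ (by decide) j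
  have a1 : FB D L 78 1 = FB D L 39 1 + FB D L 39 19 := by
    have h := FB_half D L h₁ (by decide) 40
    have e1 : FB D L 78 (40 + 78 / 2) = FB D L 78 1 := FB_congr D L h₁ (by decide)
    have e2 : FB D L 78 (2 * 40) = FB D L 39 1 :=
      (FB_congr D L h₁ (by decide : 2 * 40 ≡ 2 * 1 [MOD 78])).trans (lev 1).symm
    have e3 : FB D L 78 40 = FB D L 39 20 := (lev 20).symm
    have e4 : FB D L 39 20 = - FB D L 39 19 := FB_neg D L h₀ (by decide)
    rw [e1, e2, e3, e4, sub_neg_eq_add] at h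
    exact h
  have a2 : FB D L 78 61 = FB D L 39 4 + FB D L 39 28 := by
    have h := FB_half D L h₁ (by decide) 22
    have e1 : FB D L 78 (22 + 78 / 2) = FB D L 78 61 := FB_congr D L h₁ (by decide)
    have e2 : FB D L 78 (2 * 22) = FB D L 39 22 := (lev 22).symm
    have e3 : FB D L 78 22 = FB D L 39 11 := (lev 11).symm
    have e4 : FB D L 39 11 = - FB D L 39 28 := FB_neg D L h₀ (by decide)
    have e5 : FB D L 39 22 = - FB D L 39 17 := FB_neg D L h₀ (by decide)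
    have d1 := FB_dist D L h₀ Nat.prime_three (by decide) 4
    have k2 : FB D L 39 (3 * 4) = 0 := FB_kill D L h₀ hp hL₂ (k := 1) (by decide)
    have k3 : FB D L 39 (4 + 2 * (39 / 3)) = 0 := FB_kill D L h₀ hp hL₂ (k := 1) (by decide)
    rw [sum_range_succ, sum_range_succ, sum_range_succ, range_zero, sum_empty, k2, k3,
      add_zero, zero_add] at d1
    have d2 : FB D L 39 4 + FB D L 39 17 = 0 := d1
    rw [e1, e2, e3, e4, e5, sub_neg_eq_add, eq_neg_of_add_eq_zero_right d2, neg_neg] at h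
    exact h
  have a3 : FB D L 78 32 = FB D L 39 16 := (lev 16).symm
  have a4 : FB D L 78 62 = FB D L 39 31 := (lev 31).symm
  rw [a1, a2, a3, a4] at e
  rw [← e]
  abel

end

end KillAux

open KillAux

variable {m : ℕ} [NeZero m] {A : Type} [AddCommGroup A] (D : Datum m A)

/-- Module M5b: the certificates -/
theorem Y_mem (hm : 2 ∣ m) (l₁ l₂ : ℕ)
    (hp : (l₁, l₂) ∈ [(2, 3), (2, 5), (2, 7), (3, 5), (3, 7), (3, 11), (3, 13)])
    (h₁ : hb l₁ ∣ m) (h₂ : hb l₂ ∣ m) (L : Set ℕ) (hL₁ : qq m l₁ ∈ L) (hL₂ : qq m l₂ ∈ L) :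
    D.Y l₁ l₂ ∈ D.lev L := by
  have p7 : Nat.Prime 7 := by norm_num
  have p11 : Nat.Prime 11 := by norm_num
  have p13 : Nat.Prime 13 := by norm_num
  simp only [List.mem_cons, Prod.mk.injEq, List.not_mem_nil, or_false] at hp
  rcases hp with ⟨rfl, rfl⟩ | ⟨rfl, rfl⟩ | ⟨rfl, rfl⟩ | ⟨rfl, rfl⟩ | ⟨rfl, rfl⟩ | ⟨rfl, rfl⟩ |
    ⟨rfl, rfl⟩
  · have hd : 12 ∣ m := Nat.Coprime.mul_dvd_of_dvd_of_dvd (by decide : Nat.Coprime 4 3) h₁ h₂
    refine Y_FB D L 2 3 12 Nat.prime_two Nat.prime_three (by decide) h₁ h₂ (by decide) {1}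
      (by decide +kernel) ?_
    rw [sum_singleton]
    exact Y23 D L hd hL₁ hL₂
  · have hd : 20 ∣ m := Nat.Coprime.mul_dvd_of_dvd_of_dvd (by decide : Nat.Coprime 4 5) h₁ h₂
    refine Y_FB D L 2 5 20 Nat.prime_two Nat.prime_five (by decide) h₁ h₂ (by decide) {1, 17}
      (by decide +kernel) ?_
    rw [sum_insert (by decide), sum_singleton]
    exact Y25 D L hd hL₁ hL₂
  · have hd : 28 ∣ m := Nat.Coprime.mul_dvd_of_dvd_of_dvd (by decide : Nat.Coprime 4 7) h₁ h₂
    refine Y_FB D L 2 7 28 Nat.prime_two p7 (by decide) h₁ h₂ (by decide) {1, 9, 17}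
      (by decide +kernel) ?_
    rw [sum_insert (by decide), sum_insert (by decide), sum_singleton]
    exact Y27 D L hd hL₁ hL₂
  · have hd : 15 ∣ m := Nat.Coprime.mul_dvd_of_dvd_of_dvd (by decide : Nat.Coprime 3 5) h₁ h₂
    refine Y_FB D L 3 5 15 Nat.prime_three Nat.prime_five (by decide) h₁ h₂ (by decide) {1, 7}
      (by decide +kernel) ?_
    rw [sum_insert (by decide), sum_singleton]
    exact Y35 D L hd hL₁ hL₂
  · have hd : 21 ∣ m := Nat.Coprime.mul_dvd_of_dvd_of_dvd (by decide : Nat.Coprime 3 7) h₁ h₂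
    refine Y_FB D L 3 7 21 Nat.prime_three p7 (by decide) h₁ h₂ (by decide) {1, 10, 16}
      (by decide +kernel) ?_
    rw [sum_insert (by decide), sum_insert (by decide), sum_singleton]
    exact Y37 D L hd hL₁ hL₂
  · have hd : 33 ∣ m := Nat.Coprime.mul_dvd_of_dvd_of_dvd (by decide : Nat.Coprime 3 11) h₁ h₂
    have hd2 : 66 ∣ m := Nat.Coprime.mul_dvd_of_dvd_of_dvd (by decide : Nat.Coprime 2 33) hm hd
    refine Y_FB D L 3 11 33 Nat.prime_three p11 (by decide) h₁ h₂ (by decide)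
      {1, 4, 13, 16, 25} (by decide +kernel) ?_
    rw [sum_insert (by decide), sum_insert (by decide), sum_insert (by decide),
      sum_insert (by decide), sum_singleton]
    exact Y311 D L hd2 hL₁ hL₂
  · have hd : 39 ∣ m := Nat.Coprime.mul_dvd_of_dvd_of_dvd (by decide : Nat.Coprime 3 13) h₁ h₂
    have hd2 : 78 ∣ m := Nat.Coprime.mul_dvd_of_dvd_of_dvd (by decide : Nat.Coprime 2 39) hm hd
    refine Y_FB D L 3 13 39 Nat.prime_three p13 (by decide) h₁ h₂ (by decide)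
      {1, 4, 16, 19, 28, 31} (by decide +kernel) ?_
    rw [sum_insert (by decide), sum_insert (by decide), sum_insert (by decide),
      sum_insert (by decide), sum_insert (by decide), sum_singleton]
    exact Y313 D L hd2 hL₁ hL₂

end Pool.Agent.FS
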