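import Pool.Agent.FS.RemoveA

set_option autoImplicit false

namespace Pool.Agent.FS

open Finset

variable {m : ℕ} [NeZero m] {A : Type} [AddCommGroup A] (D : Datum m A)

theorem dvd_qq' {l : ℕ} (hq : 3 ≤ qq m l) : l ∣ qq m l := by
  unfold qq at hq ⊢
  rcases Nat.eq_zero_or_pos (m.factorization l) with h | h
  · rw [h, pow_zero] at hq
    omega
  · exact dvd_pow_self l h.ne'

theorem hb_dvd_qq' {l : ℕ} (hq : 3 ≤ qq m l) : hb l ∣ qq m l := by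
  unfold hb
  split_ifs with h
  · subst h
    unfold qq at hq ⊢
    have h1 : 2 ≤ m.factorization 2 := by
      by_contra hcon
      have h2 : m.factorization 2 = 0 ∨ m.factorization 2 = 1 := by omega
      rcases h2 with h2 | h2 <;> rw [h2] at hq <;> omega
    exact pow_dvd_pow 2 h1
  · exact dvd_qq' hq

theorem qq_coprime {l l' : ℕ} (hl : l.Prime) (hl' : l'.Prime) (h : l ≠ l') :
    (qq m l).Coprime (qq m l') :=
  Nat.Coprime.pow _ _ ((Nat.coprime_primes hl hl').2 h)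

theorem not_dvd_qq {l l' : ℕ} (hl : l.Prime) (hl' : l'.Prime) (h : l ≠ l') : ¬ l ∣ qq m l' := by
  intro h1
  exact h ((Nat.prime_dvd_prime_iff_eq hl hl').1 (hl.dvd_of_dvd_pow h1))

theorem unitary {n : ℕ} (hn : n ∣ m) (h : ∀ l : ℕ, l.Prime → l ∣ n → qq m l ∣ n) :
    n.Coprime (m / n) := by
  have hm0 : m ≠ 0 := NeZero.ne m
  have hn0 : n ≠ 0 := fun h => hm0 (Nat.eq_zero_of_zero_dvd (h ▸ hn))
  refine coprime_div_of_unitary hm0 hn fun l hl hln => ?_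
  exact (hl.pow_dvd_iff_le_factorization hn0).1 (h l hl hln)

theorem modEq_of {n a b : ℕ} (hn : n = a * b) (hcop : a.Coprime b) {x y : ℕ}
    (h1 : x ≡ y [MOD a]) (h2 : x ≡ y [MOD b]) : x ≡ y [MOD n] := by
  subst hn
  exact (Nat.modEq_and_modEq_iff_modEq_mul hcop).1 ⟨h1, h2⟩

theorem difs_one {G : Type*} [Mul G] (k : G) (φ : G → ℤ) (g : G) :
    difs [k] φ g = φ g - φ (k * g) := rfl

/-- Module M4c (i): one prime -/
theorem remove1 (l : ℕ) (hl : l.Prime) (hq : 3 ≤ qq m l) (L : Set ℕ) (hL : ∀ n' ∈ L, ¬ l ∣ n')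
    (a : A) (ha : a ∈ D.lev (insert (qq m l) L)) (hW : ∀ t, D.W t a = 0) : a ∈ D.lev L := by
  set n := qq m l with hn
  have hn0 : n ≠ 0 := by omega
  haveI : NeZero n := ⟨hn0⟩
  have hnm : n ∣ m := qq_dvd m l
  have hpr : ∀ l' : ℕ, l'.Prime → l' ∣ n → l' = l := fun l' hl' h =>
    (Nat.prime_dvd_prime_iff_eq hl' hl).1 (hl'.dvd_of_dvd_pow h)
  have hu : n.Coprime (m / n) := unitary hnm fun l' hl' h => by rw [hpr l' hl' h]
  obtain ⟨N, b, hb, rfl⟩ := exists_coeff D hnm L ha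
  have hc1 : ordCompl[l] n = 1 := by
    have h1 : n = l ^ m.factorization l * 1 := by rw [mul_one]; rfl
    rw [h1]
    exact ordCompl_pow_mul hl (fun h => hl.one_lt.ne' (Nat.dvd_one.1 h))
  have hE : ∀ g, N (-1 * g) = N g := by
    intro g
    have h1 := mixed D hnm hu [l] (by simpa using ⟨hl, dvd_qq' hq⟩)
      (fun l' hl' h => by simp [hpr l' hl' h]) L (fun n' hn' => ⟨l, by simp, hL n' hn'⟩) N b hb hW
      [-1] (by
        refine List.Forall₂.cons ?_ List.Forall₂.nil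
        rw [mem_Kl, hc1]
        exact Nat.modEq_one) g
    rw [difs_one] at h1
    have h2 : (-1 : (ZMod n)ˣ) * (-1 * g) = g := by rw [← mul_assoc]; simp
    rw [h2] at h1
    omega
  rw [even_sum D hnm hq N hE, zero_add]
  exact hb

theorem Y_eq_sum {l₁ l₂ n : ℕ} [NeZero n] (hn : n = qq m l₁ * qq m l₂) :
    ∑ w ∈ univ.filter (fun w : (ZMod n)ˣ => Half l₁ (rr w) ∧ Half l₂ (rr w)),
      D.f (emb m n w) = D.Y l₁ l₂ := by
  unfold Datum.Y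
  rw [← hn]
  refine Finset.sum_bij (fun w _ => rr w) ?_ ?_ ?_ ?_
  · intro w hw
    rw [mem_filter] at hw ⊢
    exact ⟨mem_range.2 (ZMod.val_lt _), rr_coprime w, hw.2⟩
  · intro w _ w' _ h
    apply rr_inj
    rw [h]
  · intro k hk
    rw [mem_filter, mem_range] at hk
    have h1 : rr (ZMod.unitOfCoprime k hk.2.1) = k := by
      rw [rr, ZMod.coe_unitOfCoprime, ZMod.val_natCast, Nat.mod_eq_of_lt hk.1]
    refine ⟨ZMod.unitOfCoprime k hk.2.1, ?_, h1⟩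
    rw [mem_filter, h1]
    exact ⟨mem_univ _, hk.2.2⟩
  · intro w _
    rfl

/-- (ii): two primes -/
theorem remove2 (l₁ l₂ : ℕ) (hl₁ : l₁.Prime) (hl₂ : l₂.Prime) (hne : l₁ ≠ l₂)
    (hq₁ : 3 ≤ qq m l₁) (hq₂ : 3 ≤ qq m l₂) (L : Set ℕ) (h₁ : qq m l₁ ∈ L) (h₂ : qq m l₂ ∈ L)
    (hL : ∀ n' ∈ L, ¬ l₁ ∣ n' ∨ ¬ l₂ ∣ n') (hY : D.Y l₁ l₂ ∈ D.lev L)
    (a : A) (ha : a ∈ D.lev (insert (qq m l₁ * qq m l₂) L)) (hW : ∀ t, D.W t a = 0) :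
    a ∈ D.lev L := by
  classical
  set q₁ := qq m l₁ with hq₁'
  set q₂ := qq m l₂ with hq₂'
  obtain ⟨n, hn⟩ : ∃ n, n = q₁ * q₂ := ⟨_, rfl⟩
  have hn3 : 3 ≤ n := by rw [hn]; nlinarith
  haveI : NeZero n := ⟨by omega⟩
  have hcop : q₁.Coprime q₂ := qq_coprime hl₁ hl₂ hne
  have hnm : n ∣ m := by
    rw [hn]
    exact hcop.mul_dvd_of_dvd_of_dvd (qq_dvd m l₁) (qq_dvd m l₂)
  have hpr : ∀ l : ℕ, l.Prime → l ∣ n → l = l₁ ∨ l = l₂ := by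
    intro l hl h
    rw [hn] at h
    rcases hl.dvd_mul.1 h with h | h
    · exact Or.inl ((Nat.prime_dvd_prime_iff_eq hl hl₁).1 (hl.dvd_of_dvd_pow h))
    · exact Or.inr ((Nat.prime_dvd_prime_iff_eq hl hl₂).1 (hl.dvd_of_dvd_pow h))
  have hd1 : q₁ ∣ n := hn ▸ Dvd.intro q₂ rfl
  have hd2 : q₂ ∣ n := hn ▸ Dvd.intro_left q₁ rfl
  have hl1n : l₁ ∣ n := (dvd_qq' hq₁).trans hd1
  have hl2n : l₂ ∣ n := (dvd_qq' hq₂).trans hd2
  have hu : n.Coprime (m / n) := unitary hnm fun l hl h => by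
    rcases hpr l hl h with rfl | rfl
    · exact hd1
    · exact hd2
  have ho1 : ordCompl[l₁] n = q₂ := by
    rw [hn]
    exact ordCompl_pow_mul hl₁ (not_dvd_qq hl₁ hl₂ hne)
  have ho2 : ordCompl[l₂] n = q₁ := by
    rw [hn, mul_comm]
    exact ordCompl_pow_mul hl₂ (not_dvd_qq hl₂ hl₁ hne.symm)
  have hp1 : ordProj[l₁] n = q₁ := by
    have h := Nat.ordProj_mul_ordCompl_eq_self n l₁
    rw [ho1] at h
    rw [hn] at h ⊢
    exact Nat.eq_of_mul_eq_mul_right (by omega) h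
  have hp2 : ordProj[l₂] n = q₂ := by
    have h := Nat.ordProj_mul_ordCompl_eq_self n l₂
    rw [ho2] at h
    rw [hn] at h ⊢
    rw [mul_comm q₁ q₂] at h ⊢
    exact Nat.eq_of_mul_eq_mul_right (by omega) h
  rw [← hn] at ha
  obtain ⟨N, b, hb, rfl⟩ := exists_coeff D hnm L ha
  have hmix : ∀ k₁ ∈ Kl n l₁, ∀ k₂ ∈ Kl n l₂, ∀ g,
      difs [k₁, k₂] (fun g => N g - N (-1 * g)) g = 0 := fun k₁ hk₁ k₂ hk₂ g =>
    mixed D hnm hu [l₁, l₂] (by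
      intro l hl
      simp only [List.mem_cons, List.not_mem_nil, or_false] at hl
      rcases hl with rfl | rfl
      · exact ⟨hl₁, hl1n⟩
      · exact ⟨hl₂, hl2n⟩)
      (fun l hl h => by
        rcases hpr l hl h with rfl | rfl <;> simp) L
      (fun n' hn' => by
        rcases hL n' hn' with h | h
        · exact ⟨l₁, by simp, h⟩
        · exact ⟨l₂, by simp, h⟩) N b hb hW [k₁, k₂]
      (List.Forall₂.cons hk₁ (List.Forall₂.cons hk₂ List.Forall₂.nil)) g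
  have hsurj : ∀ g : (ZMod n)ˣ, ∃ k₁ ∈ Kl n l₁, ∃ k₂ ∈ Kl n l₂, g = k₁ * k₂ := by
    intro g
    obtain ⟨k₁, hk₁, e₁⟩ := exists_Kl hl₁ g
    obtain ⟨k₂, hk₂, e₂⟩ := exists_Kl hl₂ g
    rw [hp1] at e₁
    rw [hp2] at e₂
    refine ⟨k₁, hk₁, k₂, hk₂, ?_⟩
    apply rr_inj
    refine modEq_of hn hcop ?_ ?_
    · rw [mul_comm k₁ k₂]
      exact (e₁.symm).trans (Kl_mul_mod hk₂ (by rw [ho2]) k₁).symm
    · exact (e₂.symm).trans (Kl_mul_mod hk₁ (by rw [ho1]) k₂).symm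
  have hinj : ∀ k₁ ∈ Kl n l₁, ∀ k₂ ∈ Kl n l₂, k₁ * k₂ = 1 → k₁ = 1 ∧ k₂ = 1 := by
    intro k₁ hk₁ k₂ hk₂ h
    have h1 : rr k₂ ≡ 1 [MOD q₂] := by
      have h2 := Kl_mul_mod hk₁ (by rw [ho1] : q₂ ∣ _) k₂
      rw [h] at h2
      exact h2.symm.trans (rr_one.of_dvd hd2)
    have h2 : k₂ = 1 := by
      apply rr_inj
      exact modEq_of hn hcop ((Kl_mod hk₂ (by rw [ho2])).trans (rr_one.of_dvd hd1).symm)
        (h1.trans (rr_one.of_dvd hd2).symm)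
    rw [h2, mul_one] at h
    exact ⟨h, h2⟩
  obtain ⟨N₁, N₂, E, ε, hN₁, hN₂, hE, hN⟩ := comb2 (Kl n l₁) (Kl n l₂) hsurj hinj (-1) (by simp)
    {g | Half l₁ (rr g)} {g | Half l₂ (rr g)}
    (fun g => half_neg_iff hl₁ ((hb_dvd_qq' hq₁).trans hd1) g)
    (fun k hk g => half_mod (n := n) (hb_dvd_qq' hq₁) (Kl_mul_mod hk (by rw [ho2]) g))
    (fun g => half_neg_iff hl₂ ((hb_dvd_qq' hq₂).trans hd2) g)
    (fun k hk g => half_mod (n := n) (hb_dvd_qq' hq₂) (Kl_mul_mod hk (by rw [ho1]) g)) N hmix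
  have hsum : ∑ w : (ZMod n)ˣ, N w • D.f (emb m n w) =
      ∑ w : (ZMod n)ˣ, N₁ w • D.f (emb m n w) + ∑ w : (ZMod n)ˣ, N₂ w • D.f (emb m n w) +
        ∑ w : (ZMod n)ˣ, E w • D.f (emb m n w) + ε • D.Y l₁ l₂ := by
    rw [← Y_eq_sum D hn, sum_filter, smul_sum, ← sum_add_distrib, ← sum_add_distrib,
      ← sum_add_distrib]
    refine sum_congr rfl fun w _ => ?_
    rw [hN w]
    simp only [Set.mem_setOf_eq, add_smul]
    congr 1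
    split_ifs with h
    · rw [mul_one]
    · rw [mul_zero, zero_smul, smul_zero]
  rw [hsum, even_sum D hnm hn3 E hE, add_zero]
  refine add_mem (add_mem (add_mem ?_ ?_) (AddSubgroup.zsmul_mem _ hY ε)) hb
  · exact inv_sum_mem D hnm hu l₁ hl₁ hl1n L (Or.inl (by rw [ho1]; exact h₂)) N₁ hN₁
  · exact inv_sum_mem D hnm hu l₂ hl₂ hl2n L (Or.inl (by rw [ho2]; exact h₁)) N₂ hN₂

/-- (iii): three primes -/
theorem remove3 (l₁ l₂ l₃ : ℕ) (hl₁ : l₁.Prime) (hl₂ : l₂.Prime) (hl₃ : l₃.Prime)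
    (h12 : l₁ ≠ l₂) (h13 : l₁ ≠ l₃) (h23 : l₂ ≠ l₃)
    (hq₁ : 3 ≤ qq m l₁) (hq₂ : 3 ≤ qq m l₂) (hq₃ : 3 ≤ qq m l₃) (L : Set ℕ)
    (h₁ : qq m l₂ * qq m l₃ ∈ L) (h₂ : qq m l₁ * qq m l₃ ∈ L) (h₃ : qq m l₁ * qq m l₂ ∈ L)
    (hL : ∀ n' ∈ L, ¬ l₁ ∣ n' ∨ ¬ l₂ ∣ n' ∨ ¬ l₃ ∣ n')
    (a : A) (ha : a ∈ D.lev (insert (qq m l₁ * qq m l₂ * qq m l₃) L)) (hW : ∀ t, D.W t a = 0) :
    a ∈ D.lev L := by
  classical
  set q₁ := qq m l₁ with hq₁'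
  set q₂ := qq m l₂ with hq₂'
  set q₃ := qq m l₃ with hq₃'
  obtain ⟨n, hn⟩ : ∃ n, n = q₁ * q₂ * q₃ := ⟨_, rfl⟩
  have hn3 : 3 ≤ n := by
    rw [hn]
    have : 3 ≤ q₁ * q₂ := by nlinarith
    nlinarith
  haveI : NeZero n := ⟨by omega⟩
  have c12 : q₁.Coprime q₂ := qq_coprime hl₁ hl₂ h12
  have c13 : q₁.Coprime q₃ := qq_coprime hl₁ hl₃ h13
  have c23 : q₂.Coprime q₃ := qq_coprime hl₂ hl₃ h23
  have hnm : n ∣ m := by
    rw [hn]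
    exact (Nat.Coprime.mul_left c13 c23).mul_dvd_of_dvd_of_dvd
      (c12.mul_dvd_of_dvd_of_dvd (qq_dvd m l₁) (qq_dvd m l₂)) (qq_dvd m l₃)
  have hpr : ∀ l : ℕ, l.Prime → l ∣ n → l = l₁ ∨ l = l₂ ∨ l = l₃ := by
    intro l hl h
    rw [hn] at h
    rcases hl.dvd_mul.1 h with h | h
    · rcases hl.dvd_mul.1 h with h | h
      · exact Or.inl ((Nat.prime_dvd_prime_iff_eq hl hl₁).1 (hl.dvd_of_dvd_pow h))
      · exact Or.inr (Or.inl ((Nat.prime_dvd_prime_iff_eq hl hl₂).1 (hl.dvd_of_dvd_pow h)))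
    · exact Or.inr (Or.inr ((Nat.prime_dvd_prime_iff_eq hl hl₃).1 (hl.dvd_of_dvd_pow h)))
  have e1 : n = q₁ * (q₂ * q₃) := by rw [hn]; ring
  have e2 : n = q₂ * (q₁ * q₃) := by rw [hn]; ring
  have e3 : n = q₃ * (q₁ * q₂) := by rw [hn]; ring
  have hd1 : q₁ ∣ n := e1 ▸ Dvd.intro (q₂ * q₃) rfl
  have hd2 : q₂ ∣ n := e2 ▸ Dvd.intro (q₁ * q₃) rfl
  have hd3 : q₃ ∣ n := e3 ▸ Dvd.intro (q₁ * q₂) rfl
  have hl1n : l₁ ∣ n := (dvd_qq' hq₁).trans hd1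
  have hl2n : l₂ ∣ n := (dvd_qq' hq₂).trans hd2
  have hl3n : l₃ ∣ n := (dvd_qq' hq₃).trans hd3
  have hu : n.Coprime (m / n) := unitary hnm fun l hl h => by
    rcases hpr l hl h with rfl | rfl | rfl
    · exact hd1
    · exact hd2
    · exact hd3
  have hnd : ∀ {l l' l'' : ℕ}, l.Prime → l'.Prime → l''.Prime → l ≠ l' → l ≠ l'' →
      ¬ l ∣ qq m l' * qq m l'' := by
    intro l l' l'' hl hl' hl'' hne hne' h
    rcases hl.dvd_mul.1 h with h | h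
    · exact not_dvd_qq hl hl' hne h
    · exact not_dvd_qq hl hl'' hne' h
  have ho1 : ordCompl[l₁] n = q₂ * q₃ := by
    rw [e1]
    exact ordCompl_pow_mul hl₁ (hnd hl₁ hl₂ hl₃ h12 h13)
  have ho2 : ordCompl[l₂] n = q₁ * q₃ := by
    rw [e2]
    exact ordCompl_pow_mul hl₂ (hnd hl₂ hl₁ hl₃ h12.symm h23)
  have ho3 : ordCompl[l₃] n = q₁ * q₂ := by
    rw [e3]
    exact ordCompl_pow_mul hl₃ (hnd hl₃ hl₁ hl₂ h13.symm h23.symm)
  have hq12 : 0 < q₁ * q₂ := Nat.mul_pos (by omega) (by omega)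
  have hq13 : 0 < q₁ * q₃ := Nat.mul_pos (by omega) (by omega)
  have hq23 : 0 < q₂ * q₃ := Nat.mul_pos (by omega) (by omega)
  have hp1 : ordProj[l₁] n = q₁ := by
    have h := Nat.ordProj_mul_ordCompl_eq_self n l₁
    rw [ho1] at h
    exact Nat.eq_of_mul_eq_mul_right hq23 (h.trans e1)
  have hp2 : ordProj[l₂] n = q₂ := by
    have h := Nat.ordProj_mul_ordCompl_eq_self n l₂
    rw [ho2] at h
    exact Nat.eq_of_mul_eq_mul_right hq13 (h.trans e2)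
  have hp3 : ordProj[l₃] n = q₃ := by
    have h := Nat.ordProj_mul_ordCompl_eq_self n l₃
    rw [ho3] at h
    exact Nat.eq_of_mul_eq_mul_right hq12 (h.trans e3)
  have d21 : q₂ ∣ ordCompl[l₁] n := by rw [ho1]; exact Dvd.intro q₃ rfl
  have d31 : q₃ ∣ ordCompl[l₁] n := by rw [ho1]; exact Dvd.intro_left q₂ rfl
  have d12 : q₁ ∣ ordCompl[l₂] n := by rw [ho2]; exact Dvd.intro q₃ rfl
  have d32 : q₃ ∣ ordCompl[l₂] n := by rw [ho2]; exact Dvd.intro_left q₁ rfl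
  have d13 : q₁ ∣ ordCompl[l₃] n := by rw [ho3]; exact Dvd.intro q₂ rfl
  have d23 : q₂ ∣ ordCompl[l₃] n := by rw [ho3]; exact Dvd.intro_left q₁ rfl
  have hmod : ∀ {x y : ℕ}, x ≡ y [MOD q₁] → x ≡ y [MOD q₂] → x ≡ y [MOD q₃] → x ≡ y [MOD n] :=
    fun ha hb hc => modEq_of hn (Nat.Coprime.mul_left c13 c23)
      ((Nat.modEq_and_modEq_iff_modEq_mul c12).1 ⟨ha, hb⟩) hc
  rw [← hn] at ha
  obtain ⟨N, b, hbm, rfl⟩ := exists_coeff D hnm L ha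
  have hmix : ∀ k₁ ∈ Kl n l₁, ∀ k₂ ∈ Kl n l₂, ∀ k₃ ∈ Kl n l₃, ∀ g,
      difs [k₁, k₂, k₃] (fun g => N g - N (-1 * g)) g = 0 := fun k₁ hk₁ k₂ hk₂ k₃ hk₃ g =>
    mixed D hnm hu [l₁, l₂, l₃] (by
      intro l hl
      simp only [List.mem_cons, List.not_mem_nil, or_false] at hl
      rcases hl with rfl | rfl | rfl
      · exact ⟨hl₁, hl1n⟩
      · exact ⟨hl₂, hl2n⟩
      · exact ⟨hl₃, hl3n⟩)
      (fun l hl h => by
        rcases hpr l hl h with rfl | rfl | rfl <;> simp) L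
      (fun n' hn' => by
        rcases hL n' hn' with h | h | h
        · exact ⟨l₁, by simp, h⟩
        · exact ⟨l₂, by simp, h⟩
        · exact ⟨l₃, by simp, h⟩) N b hbm hW [k₁, k₂, k₃]
      (List.Forall₂.cons hk₁ (List.Forall₂.cons hk₂ (List.Forall₂.cons hk₃ List.Forall₂.nil))) g
  have hsurj : ∀ g : (ZMod n)ˣ, ∃ k₁ ∈ Kl n l₁, ∃ k₂ ∈ Kl n l₂, ∃ k₃ ∈ Kl n l₃,
      g = k₁ * k₂ * k₃ := by
    intro g
    obtain ⟨k₁, hk₁, e₁⟩ := exists_Kl hl₁ g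
    obtain ⟨k₂, hk₂, e₂⟩ := exists_Kl hl₂ g
    obtain ⟨k₃, hk₃, e₃⟩ := exists_Kl hl₃ g
    rw [hp1] at e₁
    rw [hp2] at e₂
    rw [hp3] at e₃
    refine ⟨k₁, hk₁, k₂, hk₂, k₃, hk₃, ?_⟩
    apply rr_inj
    refine hmod ?_ ?_ ?_
    · have h : k₁ * k₂ * k₃ = k₂ * (k₃ * k₁) := by rw [mul_comm k₁ k₂, mul_assoc, mul_comm k₁ k₃]
      rw [h]
      exact e₁.symm.trans ((Kl_mul_mod hk₂ d12 _).trans (Kl_mul_mod hk₃ d13 _)).symm
    · have h : k₁ * k₂ * k₃ = k₁ * (k₃ * k₂) := by rw [mul_assoc, mul_comm k₂ k₃]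
      rw [h]
      exact e₂.symm.trans ((Kl_mul_mod hk₁ d21 _).trans (Kl_mul_mod hk₃ d23 _)).symm
    · rw [mul_assoc]
      exact e₃.symm.trans ((Kl_mul_mod hk₁ d31 _).trans (Kl_mul_mod hk₂ d32 _)).symm
  have hinj : ∀ k₁ ∈ Kl n l₁, ∀ k₂ ∈ Kl n l₂, ∀ k₃ ∈ Kl n l₃, k₁ * k₂ * k₃ = 1 →
      k₁ = 1 ∧ k₂ = 1 ∧ k₃ = 1 := by
    intro k₁ hk₁ k₂ hk₂ k₃ hk₃ h
    have r1 : ∀ {d : ℕ}, d ∣ n → rr (1 : (ZMod n)ˣ) ≡ 1 [MOD d] := fun hd => rr_one.of_dvd hd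
    have h1 : k₁ = 1 := by
      apply rr_inj
      refine hmod ?_ ?_ ?_
      · have h2 : k₁ * k₂ * k₃ = k₂ * (k₃ * k₁) := by
          rw [mul_comm k₁ k₂, mul_assoc, mul_comm k₁ k₃]
        rw [h2] at h
        have h3 := (Kl_mul_mod hk₂ d12 (k₃ * k₁)).trans (Kl_mul_mod hk₃ d13 k₁)
        rw [h] at h3
        exact h3.symm
      · exact (Kl_mod hk₁ d21).trans (r1 hd2).symm
      · exact (Kl_mod hk₁ d31).trans (r1 hd3).symm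
    have h2 : k₂ = 1 := by
      apply rr_inj
      refine hmod ?_ ?_ ?_
      · exact (Kl_mod hk₂ d12).trans (r1 hd1).symm
      · rw [h1, one_mul, mul_comm] at h
        have h3 := Kl_mul_mod hk₃ d23 k₂
        rw [h] at h3
        exact h3.symm
      · exact (Kl_mod hk₂ d32).trans (r1 hd3).symm
    refine ⟨h1, h2, ?_⟩
    rwa [h1, h2, one_mul, one_mul] at h
  have hsup : ∀ {K K' : Subgroup (ZMod n)ˣ} {l q : ℕ}, hb l ∣ q →
      (∀ k ∈ K, ∀ g, rr (k * g) ≡ rr g [MOD q]) → (∀ k ∈ K', ∀ g, rr (k * g) ≡ rr g [MOD q]) →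
      ∀ k ∈ K ⊔ K', ∀ g, k * g ∈ {g : (ZMod n)ˣ | Half l (rr g)} ↔
        g ∈ {g : (ZMod n)ˣ | Half l (rr g)} := by
    intro K K' l q hq h h' k hk g
    obtain ⟨x, hx, y, hy, rfl⟩ := Subgroup.mem_sup.1 hk
    rw [mul_assoc]
    exact half_mod (n := n) hq ((h x hx _).trans (h' y hy g))
  obtain ⟨N₁, N₂, N₃, E, hN₁, hN₂, hN₃, hE, hN⟩ := comb3 (Kl n l₁) (Kl n l₂) (Kl n l₃)
    hsurj hinj (-1) (by simp)
    {g | Half l₁ (rr g)} {g | Half l₂ (rr g)} {g | Half l₃ (rr g)}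
    (fun g => half_neg_iff hl₁ ((hb_dvd_qq' hq₁).trans hd1) g)
    (hsup (hb_dvd_qq' hq₁) (fun k hk g => Kl_mul_mod hk d12 g) (fun k hk g => Kl_mul_mod hk d13 g))
    (fun g => half_neg_iff hl₂ ((hb_dvd_qq' hq₂).trans hd2) g)
    (hsup (hb_dvd_qq' hq₂) (fun k hk g => Kl_mul_mod hk d21 g) (fun k hk g => Kl_mul_mod hk d23 g))
    (fun g => half_neg_iff hl₃ ((hb_dvd_qq' hq₃).trans hd3) g)
    (hsup (hb_dvd_qq' hq₃) (fun k hk g => Kl_mul_mod hk d31 g) (fun k hk g => Kl_mul_mod hk d32 g))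
    N hmix
  have hsum : ∑ w : (ZMod n)ˣ, N w • D.f (emb m n w) =
      ∑ w : (ZMod n)ˣ, N₁ w • D.f (emb m n w) + ∑ w : (ZMod n)ˣ, N₂ w • D.f (emb m n w) +
        ∑ w : (ZMod n)ˣ, N₃ w • D.f (emb m n w) + ∑ w : (ZMod n)ˣ, E w • D.f (emb m n w) := by
    rw [← sum_add_distrib, ← sum_add_distrib, ← sum_add_distrib]
    refine sum_congr rfl fun w _ => ?_
    rw [hN w]
    simp only [add_smul]
  rw [hsum, even_sum D hnm hn3 E hE, add_zero]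
  refine add_mem (add_mem (add_mem ?_ ?_) ?_) hbm
  · exact inv_sum_mem D hnm hu l₁ hl₁ hl1n L (Or.inl (by rw [ho1]; exact h₁)) N₁ hN₁
  · exact inv_sum_mem D hnm hu l₂ hl₂ hl2n L (Or.inl (by rw [ho2]; exact h₂)) N₂ hN₂
  · exact inv_sum_mem D hnm hu l₃ hl₃ hl3n L (Or.inl (by rw [ho3]; exact h₃)) N₃ hN₃

end Pool.Agent.FS
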