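import Pool.Agent.FS.Quot
import Pool.Agent.FS.Remove
import Pool.Agent.FS.Kill

set_option autoImplicit false

namespace Pool.Agent.FS

open Finset

section chain

variable {m : ℕ} [NeZero m] {A : Type} [AddCommGroup A] (D : Datum m A)

/-- the `l`-part, if it is at least three, and one otherwise -/
def PP (m l : ℕ) : ℕ := if 3 ≤ qq m l then qq m l else 1

/-- the levels with one prime -/
def LS (m : ℕ) (s : Finset ℕ) : Set ℕ := {n | n = 1 ∨ ∃ l ∈ s, n = qq m l}

/-- the primes with local part at least three -/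
def prs (m : ℕ) : Finset ℕ := m.primeFactors.filter fun l => 3 ≤ qq m l

theorem mem_prs {l : ℕ} (hl : l.Prime) (h : 3 ≤ qq m l) : l ∈ prs m := by
  rw [prs, mem_filter, Nat.mem_primeFactors]
  exact ⟨⟨hl, (dvd_qq' h).trans (qq_dvd m l), NeZero.ne m⟩, h⟩

theorem singles (s : Finset ℕ) (hs : ∀ l ∈ s, l.Prime ∧ 3 ≤ qq m l) (a : A)
    (ha : a ∈ D.lev (LS m s)) (hW : ∀ t, D.W t a = 0) : a = 0 := by
  classical
  induction s using Finset.induction_on with
  | empty =>
    have h1 : D.lev (LS m ∅) ≤ ⊥ := by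
      unfold Datum.lev
      rw [AddSubgroup.closure_le]
      rintro b ⟨z, hz, rfl⟩
      have h2 : addOrderOf z = 1 := by
        rcases hz with hz | ⟨l, hl, _⟩
        · exact hz
        · exact absurd hl (notMem_empty l)
      rw [AddMonoid.addOrderOf_eq_one_iff] at h2
      rw [h2, D.zero]
      exact AddSubgroup.zero_mem _
    exact (AddSubgroup.mem_bot).1 (h1 ha)
  | insert l s hl ih =>
    refine ih (fun l' hl' => hs l' (mem_insert_of_mem hl')) ?_
    have h1 : LS m (insert l s) = insert (qq m l) (LS m s) := by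
      ext n
      simp only [LS, Set.mem_setOf_eq, Set.mem_insert_iff, mem_insert]
      constructor
      · rintro (h | ⟨l', rfl | h', h⟩)
        · exact Or.inr (Or.inl h)
        · exact Or.inl h
        · exact Or.inr (Or.inr ⟨l', h', h⟩)
      · rintro (h | h | ⟨l', h', h⟩)
        · exact Or.inr ⟨l, Or.inl rfl, h⟩
        · exact Or.inl h
        · exact Or.inr ⟨l', Or.inr h', h⟩
    rw [h1] at ha
    obtain ⟨hlp, hl3⟩ := hs l (mem_insert_self _ _)
    refine remove1 D l hlp hl3 (LS m s) ?_ a ha hW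
    rintro n' (rfl | ⟨l', hl', rfl⟩)
    · exact fun h => hlp.one_lt.ne' (Nat.dvd_one.1 h)
    · refine not_dvd_qq hlp (hs l' (mem_insert_of_mem hl')).1 ?_
      rintro rfl
      exact hl hl'

theorem PP_mem {l : ℕ} (hl : l.Prime) : PP m l ∈ LS m (prs m) := by
  unfold PP
  split_ifs with h
  · exact Or.inr ⟨l, mem_prs hl h, rfl⟩
  · exact Or.inl rfl

theorem prime_dvd_PP {l a : ℕ} (hl : l.Prime) (ha : a.Prime) (h : l ∣ PP m a) : l = a := by
  unfold PP at h
  split_ifs at h with h1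
  · by_contra hne
    exact not_dvd_qq hl ha hne h
  · exact absurd (Nat.dvd_one.1 h) hl.one_lt.ne'

theorem LS_not_dvd {l₁ l₂ : ℕ} (hl₁ : l₁.Prime) (hl₂ : l₂.Prime) (hne : l₁ ≠ l₂) :
    ∀ n' ∈ LS m (prs m), ¬ l₁ ∣ n' ∨ ¬ l₂ ∣ n' := by
  rintro n' (rfl | ⟨l, hl, rfl⟩)
  · exact Or.inl fun h => hl₁.one_lt.ne' (Nat.dvd_one.1 h)
  · have hlp : l.Prime := by
      rw [prs, mem_filter] at hl
      exact Nat.prime_of_mem_primeFactors hl.1
    by_cases h : l₁ = l
    · exact Or.inr (not_dvd_qq hl₂ hlp (by rintro rfl; exact hne h))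
    · exact Or.inl (not_dvd_qq hl₁ hlp h)

theorem PP_not_dvd {l a b : ℕ} (hl : l.Prime) (ha : a.Prime) (hb : b.Prime) (h1 : l ≠ a)
    (h2 : l ≠ b) : ¬ l ∣ PP m a * PP m b := by
  intro h
  rcases hl.dvd_mul.1 h with h | h
  · exact h1 (prime_dvd_PP hl ha h)
  · exact h2 (prime_dvd_PP hl hb h)

theorem PP_not_dvd3 {l a b c : ℕ} (hl : l.Prime) (ha : a.Prime) (hb : b.Prime) (hc : c.Prime)
    (h1 : l ≠ a) (h2 : l ≠ b) (h3 : l ≠ c) : ¬ l ∣ PP m a * PP m b * PP m c := by
  intro h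
  rcases hl.dvd_mul.1 h with h | h
  · exact PP_not_dvd hl ha hb h1 h2 h
  · exact h3 (prime_dvd_PP hl hc h)

theorem hb_dvd {l : ℕ} (h : 3 ≤ qq m l) : hb l ∣ m := (hb_dvd_qq' h).trans (qq_dvd m l)

theorem pairStep (hm : 2 ∣ m) {l₁ l₂ : ℕ} (hl₁ : l₁.Prime) (hl₂ : l₂.Prime) (hne : l₁ ≠ l₂)
    (hp : (l₁, l₂) ∈ [(2, 3), (2, 5), (2, 7), (3, 5), (3, 7), (3, 11), (3, 13)]) (L : Set ℕ)
    (hLS : LS m (prs m) ⊆ L) (hL : ∀ n' ∈ L, ¬ l₁ ∣ n' ∨ ¬ l₂ ∣ n') (a : A)
    (ha : a ∈ D.lev (insert (PP m l₁ * PP m l₂) L)) (hW : ∀ t, D.W t a = 0) : a ∈ D.lev L := by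
  by_cases h1 : 3 ≤ qq m l₁
  · by_cases h2 : 3 ≤ qq m l₂
    · have e1 : PP m l₁ = qq m l₁ := if_pos h1
      have e2 : PP m l₂ = qq m l₂ := if_pos h2
      rw [e1, e2] at ha
      have hq1 : qq m l₁ ∈ L := hLS (e1 ▸ PP_mem hl₁)
      have hq2 : qq m l₂ ∈ L := hLS (e2 ▸ PP_mem hl₂)
      exact remove2 D l₁ l₂ hl₁ hl₂ hne h1 h2 L hq1 hq2 hL
        (Y_mem D hm l₁ l₂ hp (hb_dvd h1) (hb_dvd h2) L hq1 hq2) a ha hW
    · have e2 : PP m l₂ = 1 := if_neg h2
      rw [e2, mul_one, Set.insert_eq_of_mem (hLS (PP_mem hl₁))] at ha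
      exact ha
  · have e1 : PP m l₁ = 1 := if_neg h1
    rw [e1, one_mul, Set.insert_eq_of_mem (hLS (PP_mem hl₂))] at ha
    exact ha

theorem tripleStep {l₁ l₂ l₃ : ℕ} (hl₁ : l₁.Prime) (hl₂ : l₂.Prime) (hl₃ : l₃.Prime)
    (h12 : l₁ ≠ l₂) (h13 : l₁ ≠ l₃) (h23 : l₂ ≠ l₃) (L : Set ℕ)
    (h₁ : PP m l₂ * PP m l₃ ∈ L) (h₂ : PP m l₁ * PP m l₃ ∈ L) (h₃ : PP m l₁ * PP m l₂ ∈ L)
    (hL : ∀ n' ∈ L, ¬ l₁ ∣ n' ∨ ¬ l₂ ∣ n' ∨ ¬ l₃ ∣ n') (a : A)
    (ha : a ∈ D.lev (insert (PP m l₁ * PP m l₂ * PP m l₃) L)) (hW : ∀ t, D.W t a = 0) :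
    a ∈ D.lev L := by
  by_cases h1 : 3 ≤ qq m l₁
  swap
  · have e1 : PP m l₁ = 1 := if_neg h1
    rw [e1, one_mul, Set.insert_eq_of_mem h₁] at ha
    exact ha
  by_cases h2 : 3 ≤ qq m l₂
  swap
  · have e1 : PP m l₂ = 1 := if_neg h2
    rw [e1, mul_one, Set.insert_eq_of_mem h₂] at ha
    exact ha
  by_cases h3 : 3 ≤ qq m l₃
  swap
  · have e1 : PP m l₃ = 1 := if_neg h3
    rw [e1, mul_one, Set.insert_eq_of_mem h₃] at ha
    exact ha
  have e1 : PP m l₁ = qq m l₁ := if_pos h1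
  have e2 : PP m l₂ = qq m l₂ := if_pos h2
  have e3 : PP m l₃ = qq m l₃ := if_pos h3
  rw [e1, e2, e3] at ha
  rw [e2, e3] at h₁
  rw [e1, e3] at h₂
  rw [e1, e2] at h₃
  exact remove3 D l₁ l₂ l₃ hl₁ hl₂ hl₃ h12 h13 h23 h1 h2 h3 L h₁ h₂ h₃ hL a ha hW

/-- the chain of levels -/
def LL0 (m : ℕ) : Set ℕ := LS m (prs m)
/-- the chain of levels -/
def LL1 (m : ℕ) : Set ℕ := insert (PP m 3 * PP m 13) (LL0 m)
/-- the chain of levels -/
def LL2 (m : ℕ) : Set ℕ := insert (PP m 3 * PP m 11) (LL1 m)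
/-- the chain of levels -/
def LL3 (m : ℕ) : Set ℕ := insert (PP m 3 * PP m 7) (LL2 m)
/-- the chain of levels -/
def LL4 (m : ℕ) : Set ℕ := insert (PP m 3 * PP m 5) (LL3 m)
/-- the chain of levels -/
def LL5 (m : ℕ) : Set ℕ := insert (PP m 2 * PP m 7) (LL4 m)
/-- the chain of levels -/
def LL6 (m : ℕ) : Set ℕ := insert (PP m 2 * PP m 5) (LL5 m)
/-- the chain of levels -/
def LL7 (m : ℕ) : Set ℕ := insert (PP m 2 * PP m 3) (LL6 m)
/-- the chain of levels -/
def LL8 (m : ℕ) : Set ℕ := insert (PP m 2 * PP m 3 * PP m 7) (LL7 m)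
/-- the chain of levels -/
def LL9 (m : ℕ) : Set ℕ := insert (PP m 2 * PP m 3 * PP m 5) (LL8 m)

theorem chain (hm : 2 ∣ m) (a : A) (ha : a ∈ D.lev (LL9 m)) (hW : ∀ t, D.W t a = 0) : a = 0 := by
  have p2 : Nat.Prime 2 := by norm_num
  have p3 : Nat.Prime 3 := by norm_num
  have p5 : Nat.Prime 5 := by norm_num
  have p7 : Nat.Prime 7 := by norm_num
  have p11 : Nat.Prime 11 := by norm_num
  have p13 : Nat.Prime 13 := by norm_num
  have s0 : LS m (prs m) ⊆ LL0 m := Set.Subset.refl (LS m (prs m))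
  have s1 : LL0 m ⊆ LL1 m := Set.subset_insert _ _
  have s2 : LL1 m ⊆ LL2 m := Set.subset_insert _ _
  have s3 : LL2 m ⊆ LL3 m := Set.subset_insert _ _
  have s4 : LL3 m ⊆ LL4 m := Set.subset_insert _ _
  have s5 : LL4 m ⊆ LL5 m := Set.subset_insert _ _
  have s6 : LL5 m ⊆ LL6 m := Set.subset_insert _ _
  have s7 : LL6 m ⊆ LL7 m := Set.subset_insert _ _
  have s8 : LL7 m ⊆ LL8 m := Set.subset_insert _ _
  -- remove `{2, 3, 5}`
  have a8 : a ∈ D.lev (LL8 m) := by
    refine tripleStep D p2 p3 p5 (by norm_num) (by norm_num) (by norm_num) (LL8 m)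
      ?_ ?_ ?_ ?_ a ha hW
    · exact s8 (s7 (s6 (s5 (Set.mem_insert _ _))))
    · exact s8 (s7 (Set.mem_insert _ _))
    · exact s8 (Set.mem_insert _ _)
    · rintro n' (rfl | rfl | rfl | rfl | rfl | rfl | rfl | rfl | h)
      · exact Or.inr (Or.inr (PP_not_dvd3 p5 p2 p3 p7 (by norm_num) (by norm_num) (by norm_num)))
      · exact Or.inr (Or.inr (PP_not_dvd p5 p2 p3 (by norm_num) (by norm_num)))
      · exact Or.inr (Or.inl (PP_not_dvd p3 p2 p5 (by norm_num) (by norm_num)))
      · exact Or.inr (Or.inl (PP_not_dvd p3 p2 p7 (by norm_num) (by norm_num)))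
      · exact Or.inl (PP_not_dvd p2 p3 p5 (by norm_num) (by norm_num))
      · exact Or.inl (PP_not_dvd p2 p3 p7 (by norm_num) (by norm_num))
      · exact Or.inl (PP_not_dvd p2 p3 p11 (by norm_num) (by norm_num))
      · exact Or.inl (PP_not_dvd p2 p3 p13 (by norm_num) (by norm_num))
      · rcases LS_not_dvd p2 p3 (by norm_num) n' h with h | h
        · exact Or.inl h
        · exact Or.inr (Or.inl h)
  have a7 : a ∈ D.lev (LL7 m) := by
    refine tripleStep D p2 p3 p7 (by norm_num) (by norm_num) (by norm_num) (LL7 m)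
      ?_ ?_ ?_ ?_ a a8 hW
    · exact s7 (s6 (s5 (s4 (Set.mem_insert _ _))))
    · exact s7 (s6 (Set.mem_insert _ _))
    · exact Set.mem_insert _ _
    · rintro n' (rfl | rfl | rfl | rfl | rfl | rfl | rfl | h)
      · exact Or.inr (Or.inr (PP_not_dvd p7 p2 p3 (by norm_num) (by norm_num)))
      · exact Or.inr (Or.inl (PP_not_dvd p3 p2 p5 (by norm_num) (by norm_num)))
      · exact Or.inr (Or.inl (PP_not_dvd p3 p2 p7 (by norm_num) (by norm_num)))
      · exact Or.inl (PP_not_dvd p2 p3 p5 (by norm_num) (by norm_num))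
      · exact Or.inl (PP_not_dvd p2 p3 p7 (by norm_num) (by norm_num))
      · exact Or.inl (PP_not_dvd p2 p3 p11 (by norm_num) (by norm_num))
      · exact Or.inl (PP_not_dvd p2 p3 p13 (by norm_num) (by norm_num))
      · rcases LS_not_dvd p2 p3 (by norm_num) n' h with h | h
        · exact Or.inl h
        · exact Or.inr (Or.inl h)
  have a6 : a ∈ D.lev (LL6 m) := by
    refine pairStep D hm p2 p3 (by norm_num) (by simp) (LL6 m)
      (s0.trans (s1.trans (s2.trans (s3.trans (s4.trans (s5.trans s6)))))) ?_ a a7 hW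
    rintro n' (rfl | rfl | rfl | rfl | rfl | rfl | h)
    · exact Or.inr (PP_not_dvd p3 p2 p5 (by norm_num) (by norm_num))
    · exact Or.inr (PP_not_dvd p3 p2 p7 (by norm_num) (by norm_num))
    · exact Or.inl (PP_not_dvd p2 p3 p5 (by norm_num) (by norm_num))
    · exact Or.inl (PP_not_dvd p2 p3 p7 (by norm_num) (by norm_num))
    · exact Or.inl (PP_not_dvd p2 p3 p11 (by norm_num) (by norm_num))
    · exact Or.inl (PP_not_dvd p2 p3 p13 (by norm_num) (by norm_num))
    · exact LS_not_dvd p2 p3 (by norm_num) n' h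
  have a5 : a ∈ D.lev (LL5 m) := by
    refine pairStep D hm p2 p5 (by norm_num) (by simp) (LL5 m)
      (s0.trans (s1.trans (s2.trans (s3.trans (s4.trans s5))))) ?_ a a6 hW
    rintro n' (rfl | rfl | rfl | rfl | rfl | h)
    · exact Or.inr (PP_not_dvd p5 p2 p7 (by norm_num) (by norm_num))
    · exact Or.inl (PP_not_dvd p2 p3 p5 (by norm_num) (by norm_num))
    · exact Or.inl (PP_not_dvd p2 p3 p7 (by norm_num) (by norm_num))
    · exact Or.inl (PP_not_dvd p2 p3 p11 (by norm_num) (by norm_num))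
    · exact Or.inl (PP_not_dvd p2 p3 p13 (by norm_num) (by norm_num))
    · exact LS_not_dvd p2 p5 (by norm_num) n' h
  have a4 : a ∈ D.lev (LL4 m) := by
    refine pairStep D hm p2 p7 (by norm_num) (by simp) (LL4 m)
      (s0.trans (s1.trans (s2.trans (s3.trans s4)))) ?_ a a5 hW
    rintro n' (rfl | rfl | rfl | rfl | h)
    · exact Or.inl (PP_not_dvd p2 p3 p5 (by norm_num) (by norm_num))
    · exact Or.inl (PP_not_dvd p2 p3 p7 (by norm_num) (by norm_num))
    · exact Or.inl (PP_not_dvd p2 p3 p11 (by norm_num) (by norm_num))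
    · exact Or.inl (PP_not_dvd p2 p3 p13 (by norm_num) (by norm_num))
    · exact LS_not_dvd p2 p7 (by norm_num) n' h
  have a3 : a ∈ D.lev (LL3 m) := by
    refine pairStep D hm p3 p5 (by norm_num) (by simp) (LL3 m)
      (s0.trans (s1.trans (s2.trans s3))) ?_ a a4 hW
    rintro n' (rfl | rfl | rfl | h)
    · exact Or.inr (PP_not_dvd p5 p3 p7 (by norm_num) (by norm_num))
    · exact Or.inr (PP_not_dvd p5 p3 p11 (by norm_num) (by norm_num))
    · exact Or.inr (PP_not_dvd p5 p3 p13 (by norm_num) (by norm_num))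
    · exact LS_not_dvd p3 p5 (by norm_num) n' h
  have a2 : a ∈ D.lev (LL2 m) := by
    refine pairStep D hm p3 p7 (by norm_num) (by simp) (LL2 m)
      (s0.trans (s1.trans s2)) ?_ a a3 hW
    rintro n' (rfl | rfl | h)
    · exact Or.inr (PP_not_dvd p7 p3 p11 (by norm_num) (by norm_num))
    · exact Or.inr (PP_not_dvd p7 p3 p13 (by norm_num) (by norm_num))
    · exact LS_not_dvd p3 p7 (by norm_num) n' h
  have a1 : a ∈ D.lev (LL1 m) := by
    refine pairStep D hm p3 p11 (by norm_num) (by simp) (LL1 m) (s0.trans s1) ?_ a a2 hW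
    rintro n' (rfl | h)
    · exact Or.inr (PP_not_dvd p11 p3 p13 (by norm_num) (by norm_num))
    · exact LS_not_dvd p3 p11 (by norm_num) n' h
  have a0 : a ∈ D.lev (LL0 m) := by
    refine pairStep D hm p3 p13 (by norm_num) (by simp) (LL0 m) s0 ?_ a a1 hW
    exact LS_not_dvd p3 p13 (by norm_num)
  refine singles D (prs m) ?_ a a0 hW
  intro l hl
  rw [prs, mem_filter] at hl
  exact ⟨Nat.prime_of_mem_primeFactors hl.1, hl.2⟩

end chain

/-- allowed sets of primes -/
def Al (T : Finset ℕ) : Prop :=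
  T ⊆ {2, 3, 5} ∨ T ⊆ {2, 3, 7} ∨ T ⊆ {3, 11} ∨ T ⊆ {3, 13} ∨ T.card ≤ 1

theorem Al.mono {T T' : Finset ℕ} (h : Al T) (hT : T' ⊆ T) : Al T' := by
  rcases h with h | h | h | h | h
  · exact Or.inl (hT.trans h)
  · exact Or.inr (Or.inl (hT.trans h))
  · exact Or.inr (Or.inr (Or.inl (hT.trans h)))
  · exact Or.inr (Or.inr (Or.inr (Or.inl (hT.trans h))))
  · exact Or.inr (Or.inr (Or.inr (Or.inr ((card_le_card hT).trans h))))

section final

variable {m : ℕ} [NeZero m] {A : Type} [AddCommGroup A] (D : Datum m A)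

theorem prod_subset_eq {T U : Finset ℕ} (h : T ⊆ U) (g : ℕ → ℕ) :
    ∏ l ∈ T, g l = ∏ l ∈ U, if l ∈ T then g l else 1 := by
  rw [Finset.prod_ite_mem, Finset.inter_eq_right.2 h]

theorem prod_mem (T : Finset ℕ) (hT : Al T) (hp : ∀ l ∈ T, l.Prime) :
    ∏ l ∈ T, PP m l ∈ LL9 m := by
  have s0 : LS m (prs m) ⊆ LL0 m := Set.Subset.refl (LS m (prs m))
  have s1 : LL0 m ⊆ LL1 m := Set.subset_insert _ _
  have s2 : LL1 m ⊆ LL2 m := Set.subset_insert _ _
  have s3 : LL2 m ⊆ LL3 m := Set.subset_insert _ _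
  have s4 : LL3 m ⊆ LL4 m := Set.subset_insert _ _
  have s5 : LL4 m ⊆ LL5 m := Set.subset_insert _ _
  have s6 : LL5 m ⊆ LL6 m := Set.subset_insert _ _
  have s7 : LL6 m ⊆ LL7 m := Set.subset_insert _ _
  have s8 : LL7 m ⊆ LL8 m := Set.subset_insert _ _
  have s9 : LL8 m ⊆ LL9 m := Set.subset_insert _ _
  have t7 := s8.trans s9
  have t6 := s7.trans t7
  have t5 := s6.trans t6
  have t4 := s5.trans t5
  have t3 := s4.trans t4
  have t2 := s3.trans t3
  have t1 := s2.trans t2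
  have t0 := s1.trans t1
  have tS := s0.trans t0
  have hone : (1 : ℕ) ∈ LL9 m := tS (Or.inl rfl)
  have hP : ∀ l : ℕ, l.Prime → PP m l ∈ LL9 m := fun l hl => tS (PP_mem hl)
  have p2 : Nat.Prime 2 := by norm_num
  have p3 : Nat.Prime 3 := by norm_num
  have p5 : Nat.Prime 5 := by norm_num
  have p7 : Nat.Prime 7 := by norm_num
  have p11 : Nat.Prime 11 := by norm_num
  have p13 : Nat.Prime 13 := by norm_num
  have m235 : PP m 2 * (PP m 3 * PP m 5) ∈ LL9 m := by
    rw [← mul_assoc]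
    exact Set.mem_insert _ _
  have m237 : PP m 2 * (PP m 3 * PP m 7) ∈ LL9 m := by
    rw [← mul_assoc]
    exact s9 (Set.mem_insert _ _)
  have m23 : PP m 2 * PP m 3 ∈ LL9 m := t7 (Set.mem_insert _ _)
  have m25 : PP m 2 * PP m 5 ∈ LL9 m := t6 (Set.mem_insert _ _)
  have m27 : PP m 2 * PP m 7 ∈ LL9 m := t5 (Set.mem_insert _ _)
  have m35 : PP m 3 * PP m 5 ∈ LL9 m := t4 (Set.mem_insert _ _)
  have m37 : PP m 3 * PP m 7 ∈ LL9 m := t3 (Set.mem_insert _ _)
  have m311 : PP m 3 * PP m 11 ∈ LL9 m := t2 (Set.mem_insert _ _)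
  have m313 : PP m 3 * PP m 13 ∈ LL9 m := t1 (Set.mem_insert _ _)
  rcases hT with h | h | h | h | h
  · rw [prod_subset_eq h, prod_insert (by decide), prod_insert (by decide), prod_singleton]
    split_ifs <;> (try simp only [mul_one, one_mul]) <;> first | assumption | exact hP _ (by norm_num)
  · rw [prod_subset_eq h, prod_insert (by decide), prod_insert (by decide), prod_singleton]
    split_ifs <;> (try simp only [mul_one, one_mul]) <;> first | assumption | exact hP _ (by norm_num)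
  · rw [prod_subset_eq h, prod_insert (by decide), prod_singleton]
    split_ifs <;> (try simp only [mul_one, one_mul]) <;> first | assumption | exact hP _ (by norm_num)
  · rw [prod_subset_eq h, prod_insert (by decide), prod_singleton]
    split_ifs <;> (try simp only [mul_one, one_mul]) <;> first | assumption | exact hP _ (by norm_num)
  · rcases Nat.le_one_iff_eq_zero_or_eq_one.1 h with h | h
    · rw [card_eq_zero] at h
      rw [h, prod_empty]
      exact hone
    · obtain ⟨l, rfl⟩ := card_eq_one.1 h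
      rw [prod_singleton]
      exact hP l (hp l (mem_singleton_self l))

theorem qq_ge {l : ℕ} (hl : l.Prime) (hlm : hb l ∣ m) : 3 ≤ qq m l := by
  have hm0 : m ≠ 0 := NeZero.ne m
  have h1 := hb_pos hl
  refine h1.trans (Nat.le_of_dvd (Nat.ordProj_pos m l) ?_)
  unfold hb at hlm ⊢
  split_ifs at hlm ⊢ with h2
  · subst h2
    have h3 : 2 ≤ m.factorization 2 :=
      (Nat.prime_two.pow_dvd_iff_le_factorization hm0).1 (by norm_num; exact hlm)
    exact pow_dvd_pow 2 h3
  · exact dvd_pow_self l (hl.factorization_pos_of_dvd hm0 hlm).ne'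

/-- elements of odd order or of order divisible by four -/
theorem f_mem_of_order (y : ZMod m) (h2 : ¬ 2 ∣ addOrderOf y ∨ 4 ∣ addOrderOf y)
    (hA : Al (addOrderOf y).primeFactors) : D.f y ∈ D.lev (LL9 m) := by
  have hm0 : m ≠ 0 := NeZero.ne m
  by_cases hy : y = 0
  · rw [hy, D.zero]
    exact zero_mem _
  have hem : addOrderOf y ∣ m := by
    have := addOrderOf_dvd_card (x := y)
    rwa [ZMod.card] at this
  have h := f_mem_lev D y hy
  refine lev_mono D ?_ h
  rw [Set.singleton_subset_iff]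
  have h1 : ∏ l ∈ (addOrderOf y).primeFactors, qq m l =
      ∏ l ∈ (addOrderOf y).primeFactors, PP m l := by
    refine prod_congr rfl fun l hl => ?_
    have hlp := Nat.prime_of_mem_primeFactors hl
    have hld := Nat.dvd_of_mem_primeFactors hl
    have h3 : 3 ≤ qq m l := by
      refine qq_ge hlp ?_
      unfold hb
      split_ifs with hl2
      · rcases h2 with h2 | h2
        · exact absurd (hl2 ▸ hld) h2
        · exact h2.trans hem
      · exact hld.trans hem
    exact (if_pos h3).symm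
  rw [h1]
  exact prod_mem _ hA fun l hl => Nat.prime_of_mem_primeFactors hl

theorem f_mem_of_mul (e : ℕ) (he : ¬ 2 ∣ e) (hA : Al e.primeFactors) (y : ZMod m)
    (hy : (e : ZMod m) * y = 0) : D.f y ∈ D.lev (LL9 m) := by
  have he0 : e ≠ 0 := by rintro rfl; exact he (dvd_zero 2)
  have h1 : addOrderOf y ∣ e := by
    rw [addOrderOf_dvd_iff_nsmul_eq_zero, nsmul_eq_mul]
    exact hy
  refine f_mem_of_order D y (Or.inl fun h => he (h.trans h1)) (hA.mono ?_)
  exact Nat.primeFactors_mono h1 he0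

theorem f_good (hm : 2 ∣ m) (x : ZMod m) (hx : Good (addOrderOf x)) :
    D.f x ∈ D.lev (LL9 m) := by
  have hm0 : m ≠ 0 := NeZero.ne m
  have hpos : 0 < addOrderOf x := addOrderOf_pos x
  obtain ⟨e', he', hA⟩ := hx
  change Al e'.primeFactors at hA
  have hsub : ∀ e₁ : ℕ, ¬ 2 ∣ e₁ → e₁ ∣ addOrderOf x → e₁.primeFactors ⊆ e'.primeFactors := by
    intro e₁ h2 hd l hl
    have hlp := Nat.prime_of_mem_primeFactors hl
    have hld := Nat.dvd_of_mem_primeFactors hl
    have hl2 : l ≠ 2 := by rintro rfl; exact h2 hld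
    rcases he' with he' | he'
    · rw [he'] at hd hpos
      exact Nat.mem_primeFactors.2 ⟨hlp, hld.trans hd, hpos.ne'⟩
    · rw [he'] at hd hpos
      have h3 : l ∣ e' := by
        rcases hlp.dvd_mul.1 (hld.trans hd) with h | h
        · exact absurd ((Nat.prime_dvd_prime_iff_eq hlp Nat.prime_two).1 h) hl2
        · exact h
      exact Nat.mem_primeFactors.2 ⟨hlp, h3, by rintro rfl; simp at hpos⟩
  by_cases h2 : 2 ∣ addOrderOf x
  · by_cases h4 : 4 ∣ addOrderOf x
    · refine f_mem_of_order D x (Or.inr h4) (hA.mono ?_)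
      rcases he' with he' | he'
      · rw [he']
      · rw [he'] at h4 ⊢
        have h5 : 2 ∣ e' := by omega
        have he0 : e' ≠ 0 := by rintro rfl; rw [he'] at hpos; simp at hpos
        rw [Nat.primeFactors_mul (by norm_num) he0, Nat.prime_two.primeFactors]
        refine union_subset ?_ subset_rfl
        rw [singleton_subset_iff]
        exact Nat.mem_primeFactors.2 ⟨Nat.prime_two, h5, he0⟩
    · -- order `2 e₁` with `e₁` odd
      obtain ⟨e₁, he₁⟩ := h2
      have hodd : ¬ 2 ∣ e₁ := fun h => h4 (by rw [he₁]; obtain ⟨c, rfl⟩ := h; exact ⟨c, by ring⟩)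
      have hA1 : Al e₁.primeFactors := hA.mono (hsub e₁ hodd (he₁ ▸ Dvd.intro_left 2 rfl))
      set h := ((m / 2 : ℕ) : ZMod m) with hh
      have hh2 : h + h = 0 := by
        have := Pool.Agent.Helper9.Fermat.half_neg (m := m) hm
        rw [neg_eq_iff_add_eq_zero] at this
        exact this
      -- `e₁ x = m / 2`
      have h1 : (e₁ : ZMod m) * x = h := by
        have h3 : ((2 : ℕ) : ZMod m) * ((e₁ : ZMod m) * x) = 0 := by
          rw [← mul_assoc, ← Nat.cast_mul, ← he₁, ← nsmul_eq_mul]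
          exact addOrderOf_nsmul_eq_zero x
        have h4' : (e₁ : ZMod m) * x ≠ 0 := by
          intro h5
          rw [← nsmul_eq_mul, ← addOrderOf_dvd_iff_nsmul_eq_zero, he₁] at h5
          have he1 : 0 < e₁ := Nat.pos_of_ne_zero (by rintro rfl; exact hodd (dvd_zero 2))
          have := Nat.le_of_dvd he1 h5
          omega
        have h6 : (e₁ : ZMod m) * x ∈ Pool.Agent.Helper9.Fermat.fib m 2 (((2 : ℕ) : ZMod m) * 0) := by
          rw [Pool.Agent.Helper9.Fermat.mem_fib, h3, mul_zero]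
        have h7 : Pool.Agent.Helper9.Fermat.fib m 2 (((2 : ℕ) : ZMod m) * 0) = {0, h} := by
          symm
          refine Finset.eq_of_subset_of_card_le ?_ ?_
          · intro z hz
            rw [mem_insert, mem_singleton] at hz
            rw [Pool.Agent.Helper9.Fermat.mem_fib]
            rcases hz with rfl | rfl
            · rfl
            · push_cast
              linear_combination hh2
          · rw [Pool.Agent.Helper9.Fermat.fib_card (by norm_num) hm,
              card_pair (Pool.Agent.Helper9.Fermat.half_ne hm).symm]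
        rw [h7, mem_insert, mem_singleton] at h6
        exact h6.resolve_left h4'
      obtain ⟨c, hc⟩ : ∃ c, e₁ = 2 * c + 1 := ⟨e₁ / 2, by omega⟩
      have h5 : (e₁ : ZMod m) * (x + h) = 0 := by
        have h6 : (e₁ : ZMod m) * h = h := by
          rw [hc]
          push_cast
          linear_combination (c : ZMod m) * hh2
        rw [mul_add, h1, h6, hh2]
      have hx' : x = (x + h) + h := by rw [add_assoc, hh2, add_zero]
      rw [hx', f_half D hm (x + h)]
      refine sub_mem (f_mem_of_mul D e₁ hodd hA1 _ ?_) (f_mem_of_mul D e₁ hodd hA1 _ h5)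
      linear_combination 2 * h5
  · refine f_mem_of_order D x (Or.inl h2) (hA.mono (hsub _ h2 dvd_rfl))

/-- Module M6 -/
theorem zero_of_good (hm : 2 ∣ m) (a : A)
    (ha : a ∈ AddSubgroup.closure {a | ∃ x : ZMod m, Good (addOrderOf x) ∧ a = D.f x})
    (hW : ∀ t, D.W t a = 0) : a = 0 := by
  refine chain D hm a ?_ hW
  refine (AddSubgroup.closure_le _).2 ?_ ha
  rintro b ⟨x, hx, rfl⟩
  exact f_good D hm x hx

end final

theorem main (m : ℕ) [NeZero m] (hm : Even m) (S : Multiset (ZMod m)) (h0 : (0 : ZMod m) ∉ S)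
    (heven : Even S.card) (hgood : ∀ x ∈ S, Good (addOrderOf x)) (hS : IsHodge S) : Gen m S := by
  obtain ⟨A, _, D, hD⟩ := exists_datum m hm
  refine hD S h0 heven ?_
  refine zero_of_good D hm.two_dvd _ ?_ fun t => ?_
  · refine AddSubgroup.multiset_sum_mem _ _ ?_
    intro a ha
    rw [Multiset.mem_map] at ha
    obtain ⟨x, hx, rfl⟩ := ha
    exact AddSubgroup.subset_closure ⟨x, hgood x hx, rfl⟩
  · rw [map_multiset_sum, Multiset.map_map]
    have h1 : S.map (D.W t ∘ D.f) = S.map fun x => 2 * (((t : ZMod m) * x).val : ℤ) - m := by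
      refine Multiset.map_congr rfl fun x hx => ?_
      have hx0 : (t : ZMod m) * x ≠ 0 := by
        intro h
        have h2 := (t.isUnit.mul_right_eq_zero).1 h
        exact h0 (h2 ▸ hx)
      rw [Function.comp_apply, D.wf, sw, if_neg hx0]
    rw [h1]
    have h2 : ∀ (U : Multiset (ZMod m)),
        (U.map fun x => 2 * (((t : ZMod m) * x).val : ℤ) - m).sum =
          2 * (((U.map fun x => ((t : ZMod m) * x).val).sum : ℕ) : ℤ) - m * U.card := by
      intro U
      induction U using Multiset.induction_on with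
      | empty => simp
      | cons x U ih =>
        rw [Multiset.map_cons, Multiset.sum_cons, ih, Multiset.map_cons, Multiset.sum_cons,
          Multiset.card_cons]
        push_cast
        ring
    rw [h2]
    have h3 := hS t
    have h4 : (2 : ℤ) * (((S.map fun x => ((t : ZMod m) * x).val).sum : ℕ) : ℤ) =
        m * S.card := by exact_mod_cast h3
    rw [h4, sub_self]

end Pool.Agent.FS
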