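import Pool.Agent.FS.Defs

set_option autoImplicit false

namespace Pool.Agent.FS

open Finset

section Abs

variable {α β γ : Type*}

open Classical in
/-- the abstract form of `comb2` -/
theorem comb2_abs (c₁ : α → α) (c₂ : β → β) (hc₁ : ∀ a, c₁ (c₁ a) = a) (hc₂ : ∀ b, c₂ (c₂ b) = b)
    (a₀ : α) (b₀ : β) (H₁ : Set α) (H₂ : Set β) (h₁ : ∀ a, c₁ a ∈ H₁ ↔ a ∉ H₁)
    (h₂ : ∀ b, c₂ b ∈ H₂ ↔ b ∉ H₂) (ν : α → β → ℤ) (ho : ∀ a b, ν (c₁ a) (c₂ b) = - ν a b)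
    (hm : ∀ a a' b b', ν a b - ν a' b - ν a b' + ν a' b' = 0) :
    ∃ (n₁ : β → ℤ) (n₂ : α → ℤ) (ε : ℤ), ∀ a b, ν a b = (n₁ b - n₁ (c₂ b)) + (n₂ a - n₂ (c₁ a)) +
      ε * ((if a ∈ H₁ ∧ b ∈ H₂ then 1 else 0) - (if c₁ a ∈ H₁ ∧ c₂ b ∈ H₂ then 1 else 0)) := by
  set p : α → ℤ := fun a => ν a b₀ - ν (c₁ a) b₀ with hp
  set q : β → ℤ := fun b => ν a₀ b - ν a₀ (c₂ b) with hq
  have h2 : ∀ a b, 2 * ν a b = p a + q b := by
    intro a b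
    have e1 := ho (c₁ a) b
    rw [hc₁] at e1
    have e2 := hm a (c₁ a) b b₀
    have e3 := hm a a₀ b (c₂ b)
    simp only [hp, hq]
    linarith
  have hpc : ∀ a, p (c₁ a) = - p a := by
    intro a; simp only [hp, hc₁]; ring
  have hqc : ∀ b, q (c₂ b) = - q b := by
    intro b; simp only [hq, hc₂]; ring
  set ε := p a₀ % 2 with hε
  have hpe : ∀ a, p a = 2 * ((p a - ε) / 2) + ε := by
    intro a
    have e1 := h2 a b₀
    have e2 := h2 a₀ b₀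
    omega
  have hqe : ∀ b, q b = 2 * ((q b - ε) / 2) + ε := by
    intro b
    have e2 := h2 a₀ b
    omega
  refine ⟨fun b => if b ∈ H₂ then (q b - ε) / 2 else 0, fun a => if a ∈ H₁ then (p a - ε) / 2 else 0,
    ε, fun a b => ?_⟩
  have e1 := h2 a b
  have e2 := hpe a
  have e3 := hqe b
  have e4 := hpe (c₁ a)
  have e5 := hqe (c₂ b)
  have e6 := hpc a
  have e7 := hqc b
  by_cases ha : a ∈ H₁ <;> by_cases hb : b ∈ H₂ <;>
    simp only [h₁, h₂, ha, hb, not_true_eq_false, not_false_eq_true, if_true, if_false, and_self,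
      and_true, and_false] <;> omega

open Classical in
/-- the abstract form of `comb3` -/
theorem comb3_abs (c₁ : α → α) (c₂ : β → β) (c₃ : γ → γ) (hc₁ : ∀ a, c₁ (c₁ a) = a)
    (hc₂ : ∀ b, c₂ (c₂ b) = b) (hc₃ : ∀ g, c₃ (c₃ g) = g)
    (a₀ : α) (b₀ : β) (g₀ : γ) (H₁ : Set α) (H₂ : Set β) (H₃ : Set γ)
    (h₁ : ∀ a, c₁ a ∈ H₁ ↔ a ∉ H₁) (h₂ : ∀ b, c₂ b ∈ H₂ ↔ b ∉ H₂) (h₃ : ∀ g, c₃ g ∈ H₃ ↔ g ∉ H₃)
    (ν : α → β → γ → ℤ) (ho : ∀ a b g, ν (c₁ a) (c₂ b) (c₃ g) = - ν a b g)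
    (hm : ∀ a a' b b' g g', (ν a b g - ν a' b g - ν a b' g + ν a' b' g) -
      (ν a b g' - ν a' b g' - ν a b' g' + ν a' b' g') = 0) :
    ∃ (n₁ : β → γ → ℤ) (n₂ : α → γ → ℤ) (n₃ : α → β → ℤ), ∀ a b g,
      ν a b g = (n₁ b g - n₁ (c₂ b) (c₃ g)) + (n₂ a g - n₂ (c₁ a) (c₃ g)) +
        (n₃ a b - n₃ (c₁ a) (c₂ b)) := by
  set ν₁ : β → γ → ℤ := fun b g => if b ∈ H₂ then ν a₀ b g else ν (c₁ a₀) b g with hν₁
  have oν₁ : ∀ b g, ν₁ (c₂ b) (c₃ g) = - ν₁ b g := by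
    intro b g
    have e1 := ho a₀ b g
    have e2 := ho (c₁ a₀) b g
    rw [hc₁] at e2
    by_cases hb : b ∈ H₂
    · simp only [hν₁, h₂, hb, not_true_eq_false, if_false, if_true]; exact e1
    · simp only [hν₁, h₂, hb, not_false_eq_true, if_false, if_true]; exact e2
  set D : β → γ → ℤ := fun b g => ν a₀ b g - ν (c₁ a₀) b g with hD
  have eD : ∀ b g, D (c₂ b) (c₃ g) = D b g := by
    intro b g
    have e1 := ho a₀ b g
    have e2 := ho (c₁ a₀) b g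
    rw [hc₁] at e2
    simp only [hD]; linarith
  set u : β → ℤ := fun b => D b g₀ with hu
  set v : γ → ℤ := fun g => D b₀ g - D b₀ g₀ with hv
  have hDuv : ∀ b g, D b g = u b + v g := by
    intro b g
    have e := hm a₀ (c₁ a₀) b b₀ g g₀
    simp only [hu, hv, hD]; linarith
  have ev : ∀ g, v (c₃ g) = v g := by
    intro g
    have e1 := eD b₀ g
    have e2 := eD b₀ (c₃ g)
    rw [hc₃] at e2
    rw [hDuv, hDuv] at e1 e2
    linarith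
  set w : β → γ → ℤ := fun b g => if b ∈ H₂ then (if g ∈ H₃ then 0 else - v g) else
    (if g ∈ H₃ then v g else 0) with hw
  have ow : ∀ b g, w (c₂ b) (c₃ g) = - w b g := by
    intro b g
    by_cases hb : b ∈ H₂ <;> by_cases hg : g ∈ H₃ <;>
      simp [hw, h₂, h₃, hb, hg, ev]
  set μ : α → β → γ → ℤ := fun a b g => ν a b g - ν₁ b g - w b g with hμ
  have oμ : ∀ a b g, μ (c₁ a) (c₂ b) (c₃ g) = - μ a b g := by
    intro a b g
    simp only [hμ, ho, oν₁, ow]; ring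
  have hμ0 : ∀ b g, μ a₀ b g = (if b ∈ H₂ then 0 else u b) + (if g ∈ H₃ then 0 else v g) := by
    intro b g
    have e := hDuv b g
    simp only [hD] at e
    by_cases hb : b ∈ H₂ <;> by_cases hg : g ∈ H₃ <;>
      simp only [hμ, hν₁, hw, hb, hg, if_true, if_false] <;> linarith
  have hμm : ∀ a b b' g g', μ a b g - μ a b' g - μ a b g' + μ a b' g' = 0 := by
    intro a b b' g g'
    have e := hm a a₀ b b' g g'
    have e1 : μ a₀ b g - μ a₀ b' g - μ a₀ b g' + μ a₀ b' g' = 0 := by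
      rw [hμ0, hμ0, hμ0, hμ0]; ring
    simp only [hμ] at e1 ⊢
    linarith
  set P : α → β → ℤ := fun a b => μ a b g₀ with hP
  set Q : α → γ → ℤ := fun a g => μ a b₀ g - μ a b₀ g₀ with hQ
  have hPQ : ∀ a b g, μ a b g = P a b + Q a g := by
    intro a b g
    have e := hμm a b b₀ g g₀
    simp only [hP, hQ]; linarith
  set κ : α → ℤ := fun a => P a b₀ + P (c₁ a) (c₂ b₀) with hκ
  have hκQ : ∀ a g, κ a = - Q a g - Q (c₁ a) (c₃ g) := by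
    intro a g
    have e := oμ a b₀ g
    rw [hPQ, hPQ] at e
    simp only [hκ]; linarith
  have hκP : ∀ a b, κ a = P a b + P (c₁ a) (c₂ b) := by
    intro a b
    have e := oμ a b g₀
    rw [hPQ, hPQ] at e
    have e2 := hκQ a g₀
    linarith
  have hκc : ∀ a, κ (c₁ a) = κ a := by
    intro a
    have e1 := hκP a b₀
    have e2 := hκP (c₁ a) (c₂ b₀)
    rw [hc₁, hc₂] at e2
    linarith
  refine ⟨fun b g => if b ∈ H₂ then ν₁ b g + w b g else 0,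
    fun a g => if a ∈ H₁ then Q a g + κ a else 0, fun a b => if a ∈ H₁ then P a b - κ a else 0,
    fun a b g => ?_⟩
  have e0 : ν a b g = μ a b g + ν₁ b g + w b g := by simp only [hμ]; ring
  have e1 := hPQ a b g
  have e2 := hκQ a g
  have e3 := hκP a b
  have e4 := hκc a
  have e5 := oν₁ b g
  have e6 := ow b g
  clear_value ν₁ D u v w μ P Q κ
  by_cases ha : a ∈ H₁ <;> by_cases hb : b ∈ H₂ <;>
    simp only [h₁, h₂, ha, hb, not_true_eq_false, not_false_eq_true, if_true, if_false] <;> linarith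

end Abs

variable {G : Type*} [CommGroup G]

open Classical in
/-- Module M3a: two factors. -/
theorem comb2 (K₁ K₂ : Subgroup G) (hs : ∀ g : G, ∃ k₁ ∈ K₁, ∃ k₂ ∈ K₂, g = k₁ * k₂)
    (hi : ∀ k₁ ∈ K₁, ∀ k₂ ∈ K₂, k₁ * k₂ = 1 → k₁ = 1 ∧ k₂ = 1) (c : G) (hc : c * c = 1)
    (H₁ H₂ : Set G) (h₁ : ∀ g, c * g ∈ H₁ ↔ g ∉ H₁) (h₁' : ∀ k ∈ K₂, ∀ g, k * g ∈ H₁ ↔ g ∈ H₁)
    (h₂ : ∀ g, c * g ∈ H₂ ↔ g ∉ H₂) (h₂' : ∀ k ∈ K₁, ∀ g, k * g ∈ H₂ ↔ g ∈ H₂) (N : G → ℤ)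
    (hN : ∀ k₁ ∈ K₁, ∀ k₂ ∈ K₂, ∀ g, difs [k₁, k₂] (fun g => N g - N (c * g)) g = 0) :
    ∃ (N₁ N₂ E : G → ℤ) (ε : ℤ), (∀ k ∈ K₁, ∀ g, N₁ (k * g) = N₁ g) ∧
      (∀ k ∈ K₂, ∀ g, N₂ (k * g) = N₂ g) ∧ (∀ g, E (c * g) = E g) ∧
      ∀ g, N g = N₁ g + N₂ g + E g + ε * (if g ∈ H₁ ∧ g ∈ H₂ then 1 else 0) := by
  have hs' : ∀ g : G, ∃ k : K₁ × K₂, g = k.1 * k.2 := by
    intro g
    obtain ⟨k₁, m₁, k₂, m₂, h⟩ := hs g
    exact ⟨(⟨k₁, m₁⟩, ⟨k₂, m₂⟩), h⟩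
  choose π hπ using hs'
  have huniq : ∀ (a a' : K₁) (b b' : K₂), (a : G) * (b : G) = (a' : G) * (b' : G) → a = a' ∧ b = b' := by
    intro a a' b b' h
    have h1 : ((a * a'⁻¹ : K₁) : G) * ((b * b'⁻¹ : K₂) : G) = 1 := by
      push_cast
      calc (a : G) * (a' : G)⁻¹ * (b * (b' : G)⁻¹) = ((a : G) * b) * ((a' : G) * b')⁻¹ := by
            rw [mul_inv]; exact mul_mul_mul_comm _ _ _ _
        _ = 1 := by rw [h, mul_inv_cancel]
    obtain ⟨e1, e2⟩ := hi _ (a * a'⁻¹).2 _ (b * b'⁻¹).2 h1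
    have e1' : a * a'⁻¹ = 1 := Subtype.ext e1
    have e2' : b * b'⁻¹ = 1 := Subtype.ext e2
    exact ⟨mul_inv_eq_one.1 e1', mul_inv_eq_one.1 e2'⟩
  have hπ1 : ∀ (a : K₁) (b : K₂), π ((a : G) * b) = (a, b) := by
    intro a b
    obtain ⟨e1, e2⟩ := huniq _ _ _ _ (hπ ((a : G) * b))
    exact Prod.ext e1.symm e2.symm
  obtain ⟨⟨γ₁, γ₂⟩, hγ⟩ : ∃ k : K₁ × K₂, c = k.1 * k.2 := ⟨π c, hπ c⟩
  simp only at hγ
  have hγ2 : γ₁ * γ₁ = 1 ∧ γ₂ * γ₂ = 1 := by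
    apply huniq
    push_cast
    rw [mul_mul_mul_comm, ← hγ, hc, mul_one]
  have hcab : ∀ (a : K₁) (b : K₂), c * ((a : G) * b) = ((γ₁ * a : K₁) : G) * ((γ₂ * b : K₂) : G) := by
    intro a b
    push_cast
    rw [hγ]
    exact mul_mul_mul_comm _ _ _ _
  have hH1 : ∀ (a : K₁) (b : K₂), (a : G) * b ∈ H₁ ↔ (a : G) ∈ H₁ := by
    intro a b
    rw [mul_comm]
    exact h₁' _ b.2 _
  have hH2 : ∀ (a : K₁) (b : K₂), (a : G) * b ∈ H₂ ↔ (b : G) ∈ H₂ := by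
    intro a b
    exact h₂' _ a.2 _
  obtain ⟨n₁, n₂, ε, hn⟩ := comb2_abs (fun a : K₁ => γ₁ * a) (fun b : K₂ => γ₂ * b)
    (fun a => by rw [← mul_assoc, hγ2.1, one_mul]) (fun b => by rw [← mul_assoc, hγ2.2, one_mul])
    1 1 {a | (a : G) ∈ H₁} {b | (b : G) ∈ H₂} (by
      intro a
      have e := h₁ ((a : G) * (1 : K₂))
      rw [hcab, hH1, hH1] at e
      exact e) (by
      intro b
      have e := h₂ (((1 : K₁) : G) * b)
      rw [hcab, hH2, hH2] at e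
      exact e) (fun a b => N ((a : G) * b) - N (c * ((a : G) * b))) (by
      intro a b
      rw [← hcab, ← mul_assoc c c, hc, one_mul]
      ring) (by
      intro a a' b b'
      have e := hN _ (a' * a⁻¹).2 _ (b' * b⁻¹).2 ((a : G) * b)
      simp only [difs, List.foldr, dif] at e
      have e1 : ((b' * b⁻¹ : K₂) : G) * ((a : G) * b) = (a : G) * b' := by
        push_cast
        rw [mul_comm (b' : G), mul_assoc, mul_left_comm (b' : G), mul_comm (b' : G) (b : G),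
          mul_left_comm (a : G), inv_mul_cancel_left]
      have e2 : ((a' * a⁻¹ : K₁) : G) * ((a : G) * b) = (a' : G) * b := by
        push_cast
        rw [mul_assoc, inv_mul_cancel_left]
      have e3 : ((b' * b⁻¹ : K₂) : G) * ((a' : G) * b) = (a' : G) * b' := by
        push_cast
        rw [mul_comm (b' : G), mul_assoc, mul_left_comm (b' : G), mul_comm (b' : G) (b : G),
          mul_left_comm (a' : G), inv_mul_cancel_left]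
      rw [e1, e2, e3] at e
      linarith)
  simp only [Set.mem_ofPred_eq] at hn
  refine ⟨fun g => n₁ (π g).2, fun g => n₂ (π g).1, fun g => N g - n₁ (π g).2 - n₂ (π g).1 -
    ε * (if g ∈ H₁ ∧ g ∈ H₂ then 1 else 0), ε, ?_, ?_, ?_, fun g => by ring⟩
  · intro k hk g
    have e : k * g = ((⟨k, hk⟩ * (π g).1 : K₁) : G) * (π g).2 := by
      conv_lhs => rw [hπ g]
      push_cast
      rw [mul_assoc]
    beta_reduce
    rw [e, hπ1]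
  · intro k hk g
    have e : k * g = ((π g).1 : G) * ((⟨k, hk⟩ * (π g).2 : K₂) : G) := by
      conv_lhs => rw [hπ g]
      push_cast
      rw [mul_left_comm]
    beta_reduce
    rw [e, hπ1]
  · intro g
    obtain ⟨a, b, rfl⟩ : ∃ (a : K₁) (b : K₂), g = (a : G) * b := ⟨_, _, hπ g⟩
    have e := hn a b
    simp only [hcab, hπ1, hH1, hH2] at e ⊢
    linarith

open Classical in
/-- Module M3b: three factors. -/
theorem comb3 (K₁ K₂ K₃ : Subgroup G)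
    (hs : ∀ g : G, ∃ k₁ ∈ K₁, ∃ k₂ ∈ K₂, ∃ k₃ ∈ K₃, g = k₁ * k₂ * k₃)
    (hi : ∀ k₁ ∈ K₁, ∀ k₂ ∈ K₂, ∀ k₃ ∈ K₃, k₁ * k₂ * k₃ = 1 → k₁ = 1 ∧ k₂ = 1 ∧ k₃ = 1)
    (c : G) (hc : c * c = 1) (H₁ H₂ H₃ : Set G)
    (h₁ : ∀ g, c * g ∈ H₁ ↔ g ∉ H₁) (h₁' : ∀ k ∈ K₂ ⊔ K₃, ∀ g, k * g ∈ H₁ ↔ g ∈ H₁)
    (h₂ : ∀ g, c * g ∈ H₂ ↔ g ∉ H₂) (h₂' : ∀ k ∈ K₁ ⊔ K₃, ∀ g, k * g ∈ H₂ ↔ g ∈ H₂)
    (h₃ : ∀ g, c * g ∈ H₃ ↔ g ∉ H₃) (h₃' : ∀ k ∈ K₁ ⊔ K₂, ∀ g, k * g ∈ H₃ ↔ g ∈ H₃)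
    (N : G → ℤ)
    (hN : ∀ k₁ ∈ K₁, ∀ k₂ ∈ K₂, ∀ k₃ ∈ K₃, ∀ g,
      difs [k₁, k₂, k₃] (fun g => N g - N (c * g)) g = 0) :
    ∃ N₁ N₂ N₃ E : G → ℤ, (∀ k ∈ K₁, ∀ g, N₁ (k * g) = N₁ g) ∧
      (∀ k ∈ K₂, ∀ g, N₂ (k * g) = N₂ g) ∧ (∀ k ∈ K₃, ∀ g, N₃ (k * g) = N₃ g) ∧
      (∀ g, E (c * g) = E g) ∧ ∀ g, N g = N₁ g + N₂ g + N₃ g + E g := by
  have hs' : ∀ g : G, ∃ k : K₁ × K₂ × K₃, g = k.1 * k.2.1 * k.2.2 := by
    intro g
    obtain ⟨k₁, m₁, k₂, m₂, k₃, m₃, h⟩ := hs g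
    exact ⟨(⟨k₁, m₁⟩, ⟨k₂, m₂⟩, ⟨k₃, m₃⟩), h⟩
  choose π hπ using hs'
  have huniq : ∀ (a a' : K₁) (b b' : K₂) (d d' : K₃), (a : G) * (b : G) * (d : G) = (a' : G) * (b' : G) * (d' : G) →
      a = a' ∧ b = b' ∧ d = d' := by
    intro a a' b b' d d' h
    have h1 : ((a * a'⁻¹ : K₁) : G) * ((b * b'⁻¹ : K₂) : G) * ((d * d'⁻¹ : K₃) : G) = 1 := by
      push_cast
      calc (a : G) * (a' : G)⁻¹ * (b * (b' : G)⁻¹) * (d * (d' : G)⁻¹)
          = ((a : G) * b * d) * ((a' : G) * b' * d')⁻¹ := by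
            rw [mul_inv, mul_inv, mul_mul_mul_comm (a : G), mul_mul_mul_comm ((a : G) * b)]
        _ = 1 := by rw [h, mul_inv_cancel]
    obtain ⟨e1, e2, e3⟩ := hi _ (a * a'⁻¹).2 _ (b * b'⁻¹).2 _ (d * d'⁻¹).2 h1
    have e1' : a * a'⁻¹ = 1 := Subtype.ext e1
    have e2' : b * b'⁻¹ = 1 := Subtype.ext e2
    have e3' : d * d'⁻¹ = 1 := Subtype.ext e3
    exact ⟨mul_inv_eq_one.1 e1', mul_inv_eq_one.1 e2', mul_inv_eq_one.1 e3'⟩
  have hπ1 : ∀ (a : K₁) (b : K₂) (d : K₃), π ((a : G) * b * d) = (a, b, d) := by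
    intro a b d
    obtain ⟨e1, e2, e3⟩ := huniq _ _ _ _ _ _ (hπ ((a : G) * b * d))
    exact Prod.ext e1.symm (Prod.ext e2.symm e3.symm)
  obtain ⟨⟨γ₁, γ₂, γ₃⟩, hγ⟩ : ∃ k : K₁ × K₂ × K₃, c = k.1 * k.2.1 * k.2.2 := ⟨π c, hπ c⟩
  simp only at hγ
  have hcab : ∀ (a : K₁) (b : K₂) (d : K₃), c * ((a : G) * b * d) =
      ((γ₁ * a : K₁) : G) * ((γ₂ * b : K₂) : G) * ((γ₃ * d : K₃) : G) := by
    intro a b d
    push_cast
    rw [hγ, mul_mul_mul_comm, mul_mul_mul_comm (γ₁ : G)]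
  have hγ2 : γ₁ * γ₁ = 1 ∧ γ₂ * γ₂ = 1 ∧ γ₃ * γ₃ = 1 := by
    apply huniq
    rw [← hcab, ← hγ, hc]
    simp
  have hH1 : ∀ (a : K₁) (b : K₂) (d : K₃), (a : G) * b * d ∈ H₁ ↔ (a : G) ∈ H₁ := by
    intro a b d
    rw [mul_assoc, mul_comm]
    exact h₁' _ (Subgroup.mul_mem _ (Subgroup.mem_sup_left b.2) (Subgroup.mem_sup_right d.2)) _
  have hH2 : ∀ (a : K₁) (b : K₂) (d : K₃), (a : G) * b * d ∈ H₂ ↔ (b : G) ∈ H₂ := by
    intro a b d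
    rw [mul_right_comm]
    exact h₂' _ (Subgroup.mul_mem _ (Subgroup.mem_sup_left a.2) (Subgroup.mem_sup_right d.2)) _
  have hH3 : ∀ (a : K₁) (b : K₂) (d : K₃), (a : G) * b * d ∈ H₃ ↔ (d : G) ∈ H₃ := by
    intro a b d
    exact h₃' _ (Subgroup.mul_mem _ (Subgroup.mem_sup_left a.2) (Subgroup.mem_sup_right b.2)) _
  have mv1 : ∀ (a a' : K₁) (b : K₂) (d : K₃),
      ((a' * a⁻¹ : K₁) : G) * ((a : G) * b * d) = (a' : G) * b * d := by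
    intro a a' b d
    push_cast
    rw [mul_assoc (a : G), mul_assoc (a' : G) ((a : G)⁻¹), inv_mul_cancel_left, mul_assoc]
  have mv2 : ∀ (a : K₁) (b b' : K₂) (d : K₃),
      ((b' * b⁻¹ : K₂) : G) * ((a : G) * b * d) = (a : G) * b' * d := by
    intro a b b' d
    push_cast
    rw [mul_comm (a : G) b, mul_assoc (b : G), mul_assoc (b' : G) ((b : G)⁻¹),
      inv_mul_cancel_left, ← mul_assoc, mul_comm (b' : G)]
  have mv3 : ∀ (a : K₁) (b : K₂) (d d' : K₃),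
      ((d' * d⁻¹ : K₃) : G) * ((a : G) * b * d) = (a : G) * b * d' := by
    intro a b d d'
    push_cast
    rw [mul_comm ((a : G) * b) (d : G), mul_assoc (d' : G) ((d : G)⁻¹),
      inv_mul_cancel_left, mul_comm (d' : G)]
  obtain ⟨n₁, n₂, n₃, hn⟩ := comb3_abs (fun a : K₁ => γ₁ * a) (fun b : K₂ => γ₂ * b)
    (fun d : K₃ => γ₃ * d)
    (fun a => by rw [← mul_assoc, hγ2.1, one_mul]) (fun b => by rw [← mul_assoc, hγ2.2.1, one_mul])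
    (fun d => by rw [← mul_assoc, hγ2.2.2, one_mul])
    1 1 1 {a | (a : G) ∈ H₁} {b | (b : G) ∈ H₂} {d | (d : G) ∈ H₃} (by
      intro a
      have e := h₁ ((a : G) * (1 : K₂) * (1 : K₃))
      rw [hcab, hH1, hH1] at e
      exact e) (by
      intro b
      have e := h₂ (((1 : K₁) : G) * b * (1 : K₃))
      rw [hcab, hH2, hH2] at e
      exact e) (by
      intro d
      have e := h₃ (((1 : K₁) : G) * (1 : K₂) * d)
      rw [hcab, hH3, hH3] at e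
      exact e) (fun a b d => N ((a : G) * b * d) - N (c * ((a : G) * b * d))) (by
      intro a b d
      rw [← hcab, ← mul_assoc c c, hc, one_mul]
      ring) (by
      intro a a' b b' d d'
      have e := hN _ (a' * a⁻¹).2 _ (b' * b⁻¹).2 _ (d' * d⁻¹).2 ((a : G) * b * d)
      simp only [difs, List.foldr, dif] at e
      rw [mv1, mv2, mv2, mv3, mv3, mv3, mv3] at e
      linarith)
  refine ⟨fun g => n₁ (π g).2.1 (π g).2.2, fun g => n₂ (π g).1 (π g).2.2,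
    fun g => n₃ (π g).1 (π g).2.1, fun g => N g - n₁ (π g).2.1 (π g).2.2 - n₂ (π g).1 (π g).2.2 -
    n₃ (π g).1 (π g).2.1, ?_, ?_, ?_, ?_, fun g => by ring⟩
  · intro k hk g
    have e : k * g = ((⟨k, hk⟩ * (π g).1 : K₁) : G) * (π g).2.1 * (π g).2.2 := by
      conv_lhs => rw [hπ g]
      push_cast
      simp only [mul_assoc]
    beta_reduce
    rw [e, hπ1]
  · intro k hk g
    have e : k * g = ((π g).1 : G) * ((⟨k, hk⟩ * (π g).2.1 : K₂) : G) * (π g).2.2 := by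
      conv_lhs => rw [hπ g]
      push_cast
      simp only [mul_assoc, mul_left_comm k]
    beta_reduce
    rw [e, hπ1]
  · intro k hk g
    have e : k * g = ((π g).1 : G) * (π g).2.1 * ((⟨k, hk⟩ * (π g).2.2 : K₃) : G) := by
      conv_lhs => rw [hπ g]
      push_cast
      rw [mul_left_comm]
    beta_reduce
    rw [e, hπ1]
  · intro g
    obtain ⟨a, b, d, rfl⟩ : ∃ (a : K₁) (b : K₂) (d : K₃), g = (a : G) * b * d := ⟨_, _, _, hπ g⟩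
    have e := hn a b d
    simp only [hcab, hπ1] at e ⊢
    linarith

end Pool.Agent.FS
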