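import Pool.Agent.Helper9.Fermat.GenA

/-!
# Hodge characters of Fermat varieties: definitions

`Gen m` is the smallest system of multisets of nonzero elements of `ℤ/m` containing the pairs, the
standard elements of Aoki and the Hodge characters of the Fermat surface, closed under joins and
cancellation of pairs.
-/

set_option autoImplicit false

namespace Pool.Agent.FS

open Finset
open Pool.Agent.Helper9.Fermat (fib)

/-- Hodge characters: for all units `t` the representatives of the elements `t x`, `x ∈ S`, have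
mean value `m / 2`. -/
def IsHodge {m : ℕ} (S : Multiset (ZMod m)) : Prop :=
  ∀ t : (ZMod m)ˣ, 2 * (S.map fun x => ((t : ZMod m) * x).val).sum = m * S.card

/-- The smallest system of multisets of elements of `ℤ/m` which contains the pairs `{x, -x}`,
`x ≠ 0`, the standard elements (all `z` with `r z = r x`, and `- r x`, and `m / 2` if `r = 2`), `r`
a prime dividing `m`, `r x ≠ 0`, and the Hodge characters with four elements, all nonzero, and is
closed under joins and cancellation of pairs. -/
inductive Gen (m : ℕ) [NeZero m] : Multiset (ZMod m) → Prop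
  | pair (x : ZMod m) (hx : x ≠ 0) : Gen m {x, -x}
  | standard (r : ℕ) (hr : r.Prime) (hrm : r ∣ m) (x : ZMod m) (hx : (r : ZMod m) * x ≠ 0) :
      Gen m ((univ.filter fun z : ZMod m => (r : ZMod m) * z = r * x).val + {-(r * x)} +
        (if r = 2 then {((m / 2 : ℕ) : ZMod m)} else 0))
  | surface (S : Multiset (ZMod m)) (h0 : (0 : ZMod m) ∉ S) (hc : S.card = 4)
      (hS : IsHodge S) : Gen m S
  | join (S T : Multiset (ZMod m)) (hS : Gen m S) (hT : Gen m T) : Gen m (S + T)
  | cancel (S : Multiset (ZMod m)) (x : ZMod m) (hx : x ≠ 0) (hS : Gen m (S + {x, -x})) :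
      Gen m S

/-- The orders allowed in the main theorem: `e` or `e / 2` is a number whose prime factors lie in
`{2, 3, 5}`, in `{2, 3, 7}`, in `{3, 11}` or in `{3, 13}`, or which has at most one prime factor. -/
def Good (e : ℕ) : Prop :=
  ∃ e' : ℕ, (e = e' ∨ e = 2 * e') ∧
    (e'.primeFactors ⊆ {2, 3, 5} ∨ e'.primeFactors ⊆ {2, 3, 7} ∨ e'.primeFactors ⊆ {3, 11} ∨
      e'.primeFactors ⊆ {3, 13} ∨ e'.primeFactors.card ≤ 1)

/-! ### notions used in the proof -/

/-- the sawtooth function -/
def sw {m : ℕ} (x : ZMod m) : ℤ := if x = 0 then 0 else 2 * (x.val : ℤ) - m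

/-- An odd distribution on `ℤ/m` with the sawtooth weights, on which the Hodge characters with
four elements vanish. -/
structure Datum (m : ℕ) [NeZero m] (A : Type) [AddCommGroup A] where
  f : ZMod m → A
  W : (ZMod m)ˣ → A →+ ℤ
  zero : f 0 = 0
  odd : ∀ x, f (-x) = - f x
  dist : ∀ r : ℕ, r.Prime → r ∣ m → ∀ y : ZMod m,
    ∑ z ∈ fib m r ((r : ZMod m) * y), f z = f ((r : ZMod m) * y)
  wf : ∀ (t : (ZMod m)ˣ) (x : ZMod m), W t (f x) = sw ((t : ZMod m) * x)
  surf : ∀ S : Multiset (ZMod m), (0 : ZMod m) ∉ S → S.card = 4 → IsHodge S → (S.map f).sum = 0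

/-- the `l`-part of `m` -/
def qq (m l : ℕ) : ℕ := ordProj[l] m

/-- the inclusion of `ℤ/n` in `ℤ/m`, `n ∣ m` -/
def emb (m n : ℕ) (w : ZMod n) : ZMod m := ((m / n * w.val : ℕ) : ZMod m)

/-- the base level of a prime -/
def hb (l : ℕ) : ℕ := if l = 2 then 4 else l

/-- half systems -/
def Half (l w : ℕ) : Prop := 2 * (w % hb l) < hb l

instance (l w : ℕ) : Decidable (Half l w) := by unfold Half; infer_instance

/-- the units congruent to `1` modulo the part of `n` prime to `l` -/
def Kl (n l : ℕ) : Subgroup (ZMod n)ˣ := (ZMod.unitsMap (Nat.ordCompl_dvd n l)).ker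

/-- difference operators -/
def dif {G : Type*} [Mul G] (k : G) (φ : G → ℤ) : G → ℤ := fun t => φ t - φ (k * t)

/-- iterated difference operators -/
def difs {G : Type*} [Mul G] (ks : List G) (φ : G → ℤ) : G → ℤ := ks.foldr dif φ

namespace Datum

variable {m : ℕ} [NeZero m] {A : Type} [AddCommGroup A] (D : Datum m A)

/-- the subgroup generated by the values at the elements with order in `L` -/
def lev (L : Set ℕ) : AddSubgroup A :=
  AddSubgroup.closure {a | ∃ z : ZMod m, addOrderOf z ∈ L ∧ a = D.f z}

/-- the class which remains for two primes -/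
noncomputable def Y (l₁ l₂ : ℕ) : A :=
  ∑ w ∈ (range (qq m l₁ * qq m l₂)).filter
    (fun w => w.Coprime (qq m l₁ * qq m l₂) ∧ Half l₁ w ∧ Half l₂ w),
      D.f ((m / (qq m l₁ * qq m l₂) * w : ℕ) : ZMod m)

end Datum

end Pool.Agent.FS
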