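import Pool.Agent.FS.Defs
import Pool.Agent.Helper9.Fermat.GenC

set_option autoImplicit false

namespace Pool.Agent.FS

open Finset
open Pool.Agent.Helper9.Fermat (fib mem_fib)

variable {m : ℕ} [NeZero m] {A : Type} [AddCommGroup A] (D : Datum m A)

/-! ### the distribution relation -/

theorem exists_mul_of_mul_eq_zero {a b : ℕ} (ha : a ≠ 0) (hab : a * b ∣ m) (v : ZMod m)
    (hv : (a : ZMod m) * v = 0) : ∃ v' : ZMod m, v = (b : ZMod m) * v' := by
  obtain ⟨c, hc⟩ := hab
  have h1 : ((a * v.val : ℕ) : ZMod m) = 0 := by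
    push_cast
    rw [ZMod.natCast_zmod_val]
    exact hv
  rw [ZMod.natCast_eq_zero_iff] at h1
  have h2 : b * c ∣ v.val := by
    refine Nat.dvd_of_mul_dvd_mul_left (Nat.pos_of_ne_zero ha) ?_
    rw [← mul_assoc, ← hc]
    exact h1
  obtain ⟨k, hk⟩ := h2
  refine ⟨((c * k : ℕ) : ZMod m), ?_⟩
  rw [← Nat.cast_mul, ← mul_assoc, ← hk, ZMod.natCast_zmod_val]

/-- Module M4a (i): the distribution relation for all divisors. -/
theorem dist_gen (d : ℕ) (hd : d ∣ m) (y : ZMod m) :
    ∑ z ∈ fib m d ((d : ZMod m) * y), D.f z = D.f ((d : ZMod m) * y) := by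
  induction d using Nat.recOnMul generalizing y with
  | zero => exact absurd (Nat.eq_zero_of_zero_dvd hd) (NeZero.ne m)
  | one =>
    have h : fib m 1 (((1 : ℕ) : ZMod m) * y) = {y} := by
      ext z
      rw [mem_fib, mem_singleton, Nat.cast_one, one_mul, one_mul]
    rw [h, sum_singleton, Nat.cast_one, one_mul]
  | prime r hr => exact D.dist r hr hd y
  | mul a b iha ihb =>
    have ha0 : a ≠ 0 := by
      rintro rfl
      rw [zero_mul] at hd
      exact absurd (Nat.eq_zero_of_zero_dvd hd) (NeZero.ne m)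
    have hda : a ∣ m := (Dvd.intro b rfl).trans hd
    have hdb : b ∣ m := (Dvd.intro_left a rfl).trans hd
    have e1 : ((a * b : ℕ) : ZMod m) * y = (a : ZMod m) * ((b : ZMod m) * y) := by
      push_cast
      ring
    rw [e1, ← iha hda ((b : ZMod m) * y)]
    have e2 : fib m (a * b) ((a : ZMod m) * ((b : ZMod m) * y)) =
        (fib m a ((a : ZMod m) * ((b : ZMod m) * y))).biUnion fun w => fib m b w := by
      ext z
      rw [mem_biUnion, mem_fib]
      constructor
      · intro hz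
        refine ⟨(b : ZMod m) * z, ?_, ?_⟩
        · rw [mem_fib, ← hz]
          push_cast
          ring
        · rw [mem_fib]
      · rintro ⟨w, hw, hz⟩
        rw [mem_fib] at hw hz
        rw [← hw, ← hz]
        push_cast
        ring
    rw [e2, sum_biUnion]
    · refine sum_congr rfl fun w hw => ?_
      rw [mem_fib] at hw
      obtain ⟨v, hv⟩ := exists_mul_of_mul_eq_zero (a := a) (b := b) ha0 hd (w - (b : ZMod m) * y)
        (by rw [mul_sub, hw, sub_self])
      have hw' : w = (b : ZMod m) * (v + y) := by linear_combination hv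
      rw [hw']
      exact ihb hdb (v + y)
    · intro w _ w' _ hww
      rw [Function.onFun, Finset.disjoint_left]
      intro z hz hz'
      rw [mem_fib] at hz hz'
      exact hww (hz.symm.trans hz')

/-- (vi): the distribution relation for `2` -/
theorem f_half (hm : 2 ∣ m) (x : ZMod m) :
    D.f (x + ((m / 2 : ℕ) : ZMod m)) = D.f (2 * x) - D.f x := by
  have hne : x ≠ x + ((m / 2 : ℕ) : ZMod m) := by
    intro h
    have h1 : ((m / 2 : ℕ) : ZMod m) = 0 := by linear_combination -h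
    exact Pool.Agent.Helper9.Fermat.half_ne hm h1
  have h := D.dist 2 Nat.prime_two hm x
  have hf : fib m 2 (((2 : ℕ) : ZMod m) * x) = {x, x + ((m / 2 : ℕ) : ZMod m)} := by
    symm
    refine Finset.eq_of_subset_of_card_le ?_ ?_
    · intro z hz
      rw [mem_insert, mem_singleton] at hz
      rw [mem_fib]
      rcases hz with rfl | rfl
      · rfl
      · have h2 : ((m / 2 : ℕ) : ZMod m) + ((m / 2 : ℕ) : ZMod m) = 0 := by
          have := Pool.Agent.Helper9.Fermat.half_neg (m := m) hm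
          rw [neg_eq_iff_add_eq_zero] at this
          exact this
        push_cast at h2 ⊢
        linear_combination h2
    · rw [Pool.Agent.Helper9.Fermat.fib_card (by norm_num) hm, card_pair hne]
  rw [hf, sum_pair hne] at h
  have e2 : ((2 : ℕ) : ZMod m) = 2 := by norm_num
  rw [e2] at h
  rw [← h]
  abel

/-! ### elements of given order -/

/-- (ii): the elements of order `n` -/
theorem exists_emb {n : ℕ} [NeZero n] (hn : n ∣ m) (z : ZMod m) :
    addOrderOf z = n ↔ ∃ w : (ZMod n)ˣ, z = emb m n w := by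
  have hm0 : m ≠ 0 := NeZero.ne m
  have hn0 : n ≠ 0 := NeZero.ne n
  obtain ⟨c, hc⟩ := hn
  have hmn : m / n = c := by rw [hc]; exact Nat.mul_div_cancel_left c (Nat.pos_of_ne_zero hn0)
  have hc0 : 0 < c := Nat.pos_of_ne_zero (by rintro rfl; rw [mul_zero] at hc; exact hm0 hc)
  constructor
  · intro h
    have h1 : addOrderOf ((z.val : ℕ) : ZMod m) = m / m.gcd z.val := ZMod.addOrderOf_coe _ hm0
    rw [ZMod.natCast_zmod_val, h] at h1
    have h2 : m.gcd z.val ∣ m := Nat.gcd_dvd_left _ _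
    have h3 : m.gcd z.val = c := by
      have h4 : n * m.gcd z.val = m := by
        conv_rhs => rw [← Nat.div_mul_cancel h2]
        rw [← h1]
      have h5 : n * m.gcd z.val = n * c := h4.trans hc
      exact Nat.eq_of_mul_eq_mul_left (Nat.pos_of_ne_zero hn0) h5
    obtain ⟨k, hk⟩ : c ∣ z.val := h3 ▸ Nat.gcd_dvd_right _ _
    have h5 : n.Coprime k := by
      have h4 : m.gcd z.val = c * n.gcd k := by
        rw [hk]
        conv_lhs => rw [hc, mul_comm n c, Nat.gcd_mul_left]
      have h5 : c * n.gcd k = c * 1 := by rw [← h4, h3, mul_one]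
      exact Nat.eq_of_mul_eq_mul_left hc0 h5
    have hkn : k < n := by
      have h6 : z.val < m := ZMod.val_lt z
      have h7 : c * k < c * n := by
        calc c * k = z.val := hk.symm
          _ < m := h6
          _ = c * n := by rw [hc, mul_comm]
      exact Nat.lt_of_mul_lt_mul_left h7
    refine ⟨ZMod.unitOfCoprime k h5.symm, ?_⟩
    rw [emb, ZMod.coe_unitOfCoprime, ZMod.val_natCast, Nat.mod_eq_of_lt hkn, hmn, ← hk,
      ZMod.natCast_zmod_val]
  · rintro ⟨w, rfl⟩
    rw [emb, ZMod.addOrderOf_coe _ hm0, hmn]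
    have h1 : n.gcd (w : ZMod n).val = 1 := (ZMod.val_coe_unit_coprime w).symm
    have h2 : m.gcd (c * (w : ZMod n).val) = c := by
      conv_lhs => rw [hc, mul_comm n c, Nat.gcd_mul_left, h1, mul_one]
    rw [h2, hc]
    exact Nat.mul_div_cancel n hc0

/-- (iii): coefficients -/
theorem exists_coeff {n : ℕ} [NeZero n] (hn : n ∣ m) (L : Set ℕ) {a : A}
    (ha : a ∈ D.lev (insert n L)) :
    ∃ N : (ZMod n)ˣ → ℤ, ∃ b ∈ D.lev L, a = ∑ w : (ZMod n)ˣ, N w • D.f (emb m n w) + b := by
  classical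
  induction ha using AddSubgroup.closure_induction with
  | mem x hx =>
    obtain ⟨z, hz, rfl⟩ := hx
    rcases hz with hz | hz
    · obtain ⟨w, rfl⟩ := (exists_emb hn z).1 hz
      refine ⟨Pi.single w 1, 0, zero_mem _, ?_⟩
      rw [add_zero, Finset.sum_eq_single w]
      · rw [Pi.single_eq_same, one_smul]
      · intro u _ hu
        rw [Pi.single_eq_of_ne hu, zero_smul]
      · intro h
        exact absurd (mem_univ _) h
    · exact ⟨0, D.f z, AddSubgroup.subset_closure ⟨z, hz, rfl⟩, by simp⟩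
  | zero => exact ⟨0, 0, zero_mem _, by simp⟩
  | add x y _ _ ihx ihy =>
    obtain ⟨N, b, hb, rfl⟩ := ihx
    obtain ⟨N', b', hb', rfl⟩ := ihy
    refine ⟨N + N', b + b', add_mem hb hb', ?_⟩
    simp only [Pi.add_apply, add_smul, sum_add_distrib]
    abel
  | neg x _ ih =>
    obtain ⟨N, b, hb, rfl⟩ := ih
    refine ⟨-N, -b, neg_mem hb, ?_⟩
    simp only [Pi.neg_apply, neg_smul, sum_neg_distrib]
    abel

theorem lev_mono {L L' : Set ℕ} (h : L ⊆ L') : D.lev L ≤ D.lev L' :=
  AddSubgroup.closure_mono fun _ ⟨z, hz, e⟩ => ⟨z, h hz, e⟩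

theorem f_mem {L : Set ℕ} {z : ZMod m} (h : addOrderOf z ∈ L) : D.f z ∈ D.lev L :=
  AddSubgroup.subset_closure ⟨z, h, rfl⟩

/-! ### raising the order -/

theorem qq_dvd (m l : ℕ) : qq m l ∣ m := Nat.ordProj_dvd m l

theorem prod_qq_dvd (s : Finset ℕ) (hs : ∀ l ∈ s, l.Prime) : ∏ l ∈ s, qq m l ∣ m := by
  refine Finset.prod_dvd_of_isRelPrime ?_ fun l _ => qq_dvd m l
  intro l hl l' hl' hne
  refine Nat.coprime_iff_isRelPrime.1 ?_
  exact Nat.Coprime.pow _ _ ((Nat.coprime_primes (hs l hl) (hs l' hl')).2 hne)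

theorem dvd_prod_qq {e : ℕ} (he : e ∣ m) : e ∣ ∏ l ∈ e.primeFactors, qq m l := by
  have hm0 : m ≠ 0 := NeZero.ne m
  have he0 : e ≠ 0 := fun h => hm0 (Nat.eq_zero_of_zero_dvd (h ▸ he))
  conv_lhs => rw [← Nat.prod_factorization_pow_eq_self he0]
  rw [Finsupp.prod, Nat.support_factorization]
  refine Finset.prod_dvd_prod_of_dvd _ _ fun l _ => ?_
  exact pow_dvd_pow l ((Nat.factorization_le_iff_dvd he0 hm0).2 he l)

/-- (v): raising the order -/
theorem f_mem_lev (x : ZMod m) (_hx : x ≠ 0) :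
    D.f x ∈ D.lev {∏ l ∈ (addOrderOf x).primeFactors, qq m l} := by
  have hm0 : m ≠ 0 := NeZero.ne m
  set e := addOrderOf x with he
  set n := ∏ l ∈ e.primeFactors, qq m l with hn
  have hem : e ∣ m := by
    have := addOrderOf_dvd_card (x := x)
    rwa [ZMod.card] at this
  have he0 : e ≠ 0 := fun h => hm0 (Nat.eq_zero_of_zero_dvd (h ▸ hem))
  have hnm : n ∣ m := prod_qq_dvd _ fun l hl => Nat.prime_of_mem_primeFactors hl
  have hn0 : n ≠ 0 := fun h => hm0 (Nat.eq_zero_of_zero_dvd (h ▸ hnm))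
  obtain ⟨d, hd⟩ : e ∣ n := dvd_prod_qq hem
  have hd0 : d ≠ 0 := by rintro rfl; exact hn0 (by rw [hd, mul_zero])
  -- primes dividing `d` divide `e`
  have hpr : ∀ l : ℕ, l.Prime → l ∣ d → l ∣ e := by
    intro l hl hld
    have h1 : l ∣ n := hld.trans (hd ▸ Dvd.intro_left e rfl)
    rw [hn, Prime.dvd_finsetProd_iff hl.prime] at h1
    obtain ⟨l', hl', h2⟩ := h1
    have h3 : l ∣ l' := hl.dvd_of_dvd_pow h2
    have h4 := (Nat.prime_dvd_prime_iff_eq hl (Nat.prime_of_mem_primeFactors hl')).1 h3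
    rw [h4]
    exact Nat.dvd_of_mem_primeFactors hl'
  -- `x` is divisible by `d`
  obtain ⟨x0, hx0⟩ : ∃ x0 : ZMod m, x = (d : ZMod m) * x0 := by
    obtain ⟨k, hk⟩ := hnm
    refine exists_mul_of_mul_eq_zero (a := e) (b := d) he0 ?_ x ?_
    · rw [← hd]
      exact Dvd.intro k hk.symm
    · rw [← nsmul_eq_mul, he]
      exact addOrderOf_nsmul_eq_zero x
  have hdm : d ∣ m := (hd ▸ Dvd.intro_left e rfl : d ∣ n).trans hnm
  rw [hx0, ← dist_gen D d hdm x0]
  refine sum_mem fun z hz => ?_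
  rw [mem_fib, ← hx0] at hz
  refine f_mem D ?_
  rw [Set.mem_singleton_iff]
  -- the order of `z`
  have h1 : addOrderOf (d • z) = addOrderOf z / (addOrderOf z).gcd d := addOrderOf_nsmul' z hd0
  rw [nsmul_eq_mul, hz, ← he] at h1
  set g := (addOrderOf z).gcd d with hg
  have hz0 : addOrderOf z ≠ 0 := (addOrderOf_pos z).ne'
  have hg0 : 0 < g := Nat.gcd_pos_of_pos_right _ (Nat.pos_of_ne_zero hd0)
  obtain ⟨N', hN'⟩ : g ∣ addOrderOf z := Nat.gcd_dvd_left _ _
  obtain ⟨d', hd'⟩ : g ∣ d := Nat.gcd_dvd_right _ _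
  have h2 : e = N' := by
    rw [h1, hN']
    exact Nat.mul_div_cancel_left N' hg0
  have h3 : N'.Coprime d' := by
    have h4 : g * N'.gcd d' = g * 1 := by
      rw [← Nat.gcd_mul_left, ← hN', ← hd', mul_one]
    exact Nat.eq_of_mul_eq_mul_left hg0 h4
  have h5 : d' = 1 := by
    by_contra hne
    obtain ⟨l, hl, hld⟩ := Nat.exists_prime_and_dvd hne
    have h6 : l ∣ e := hpr l hl (hld.trans (hd' ▸ Dvd.intro_left g rfl))
    rw [h2] at h6
    exact Nat.not_coprime_of_dvd_of_dvd hl.one_lt h6 hld h3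
  rw [hN', ← h2, hd, mul_comm g e]
  rw [h5, mul_one] at hd'
  rw [← hd']

end Pool.Agent.FS
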