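import Pool.Agent.FS.Defs

set_option autoImplicit false

namespace Pool.Agent.FS

open Finset
open Pool.Agent.Helper9.Fermat (fib mem_fib fib_card fib_sum half_ne half_neg)

namespace Quot

noncomputable section

variable {m : ℕ} [NeZero m]

/-- Elements of `Gen` do not contain zero and have even cardinality. -/
theorem basic {S : Multiset (ZMod m)} (h : Gen m S) : (0 : ZMod m) ∉ S ∧ Even S.card := by
  induction h with
  | pair x hx =>
    refine ⟨?_, by simp⟩
    simp only [Multiset.insert_eq_cons, Multiset.mem_cons, Multiset.mem_singleton, not_or]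
    refine ⟨hx.symm, ?_⟩
    intro h
    rw [eq_comm, neg_eq_zero] at h
    exact hx h
  | standard r hr hrm x hx =>
    have hc := fib_card (m := m) hr.pos hrm x
    change 0 ∉ (fib m r (r * x)).val + _ + _ ∧ Even (Multiset.card ((fib m r (r * x)).val + _ + _))
    by_cases h2 : r = 2
    · subst h2
      rw [if_pos rfl]
      refine ⟨?_, ?_⟩
      · rw [Multiset.mem_add, Multiset.mem_add, not_or, not_or, Finset.mem_val, mem_fib,
          Multiset.mem_singleton, Multiset.mem_singleton, mul_zero]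
        refine ⟨⟨hx.symm, ?_⟩, (half_ne hrm).symm⟩
        intro h
        rw [eq_comm, neg_eq_zero] at h
        exact hx h
      · rw [Multiset.card_add, Multiset.card_add, Multiset.card_singleton, Multiset.card_singleton,
          Finset.card_val, hc]
        decide
    · rw [if_neg h2, add_zero]
      refine ⟨?_, ?_⟩
      · rw [Multiset.mem_add, not_or, Finset.mem_val, mem_fib,
          Multiset.mem_singleton, mul_zero]
        refine ⟨hx.symm, ?_⟩
        intro h
        rw [eq_comm, neg_eq_zero] at h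
        exact hx h
      · rw [Multiset.card_add, Multiset.card_singleton, Finset.card_val, hc]
        exact (hr.odd_of_ne_two h2).add_one
  | surface S h0 hc hS => exact ⟨h0, by rw [hc]; decide⟩
  | join S T _ _ ihS ihT =>
    refine ⟨?_, ?_⟩
    · rw [Multiset.mem_add, not_or]
      exact ⟨ihS.1, ihT.1⟩
    · rw [Multiset.card_add]
      exact ihS.2.add ihT.2
  | cancel S x hx _ ih =>
    refine ⟨?_, ?_⟩
    · intro h
      exact ih.1 (Multiset.mem_add.2 (Or.inl h))
    · have h1 := ih.2
      rw [Multiset.card_add] at h1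
      have h2 : Multiset.card ({x, -x} : Multiset (ZMod m)) = 2 := by simp
      rw [h2, Nat.even_add] at h1
      exact h1.2 (by decide)

theorem fib_neg (r : ℕ) (y : ZMod m) :
    (fib m r y).val.map (fun z => -z) = (fib m r (-y)).val := by
  have h : fib m r (-y) = (fib m r y).map (Equiv.neg (ZMod m)).toEmbedding := by
    ext z
    rw [mem_fib, Finset.mem_map]
    constructor
    · intro hz
      refine ⟨-z, ?_, ?_⟩
      · rw [mem_fib, mul_neg, hz, neg_neg]
      · simp
    · rintro ⟨w, hw, rfl⟩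
      rw [mem_fib] at hw
      simp [hw]
  rw [h, Finset.map_val]
  rfl

omit [NeZero m] in
theorem isHodge_neg {S : Multiset (ZMod m)} (h : IsHodge S) :
    IsHodge (S.map fun z => -z) := by
  intro t
  have h1 := h (-t)
  rw [Multiset.map_map, Multiset.card_map]
  have h2 : ((fun x : ZMod m => ((t : ZMod m) * x).val) ∘ fun z => -z) =
      fun x => (((-t : (ZMod m)ˣ) : ZMod m) * x).val := by
    funext x
    simp
  rw [h2]
  exact h1

theorem neg {S : Multiset (ZMod m)} (h : Gen m S) : Gen m (S.map fun z => -z) := by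
  induction h with
  | pair x hx =>
    have h := Gen.pair (-x) (neg_ne_zero.2 hx)
    simpa using h
  | surface S h0 hc hS =>
    refine Gen.surface _ ?_ ?_ (isHodge_neg hS)
    · rw [Multiset.mem_map]
      rintro ⟨z, hz, hz0⟩
      rw [neg_eq_zero] at hz0
      rw [hz0] at hz
      exact h0 hz
    · rw [Multiset.card_map, hc]
  | standard r hr hrm x hx =>
    have h := Gen.standard r hr hrm (-x) (by rw [mul_neg]; exact neg_ne_zero.2 hx)
    change Gen m ((fib m r (r * -x)).val + _ + _) at h
    change Gen m (((fib m r (r * x)).val + _ + _).map _)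
    have h5 : fib m r (-(r * x)) = fib m r (r * -x) := by rw [mul_neg]
    rw [Multiset.map_add, Multiset.map_add, fib_neg, h5]
    have h3 : Multiset.map (fun z : ZMod m => -z) {-(r * x)} = {-(r * -x)} := by simp
    have h4 : Multiset.map (fun z : ZMod m => -z) (if r = 2 then {((m / 2 : ℕ) : ZMod m)} else 0) =
        (if r = 2 then {((m / 2 : ℕ) : ZMod m)} else 0) := by
      by_cases h2 : r = 2
      · subst h2
        rw [if_pos rfl, Multiset.map_singleton, half_neg hrm]
      · rw [if_neg h2, Multiset.map_zero]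
    rw [h3, h4]
    exact h
  | join S T _ _ ihS ihT =>
    rw [Multiset.map_add]
    exact Gen.join _ _ ihS ihT
  | cancel S x hx _ ih =>
    refine Gen.cancel _ (-x) (neg_ne_zero.2 hx) ?_
    rw [Multiset.map_add] at ih
    simpa using ih

theorem cancel_all (T : Multiset (ZMod m)) (h0 : (0 : ZMod m) ∉ T) (S : Multiset (ZMod m))
    (h : Gen m (S + (T + T.map fun z => -z))) : Gen m S := by
  induction T using Multiset.induction_on with
  | empty => simpa using h
  | cons x T ih =>
    have hx : x ≠ 0 := by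
      rintro rfl
      exact h0 (Multiset.mem_cons_self _ _)
    refine ih (fun h1 => h0 (Multiset.mem_cons_of_mem h1)) ?_
    refine Gen.cancel _ x hx ?_
    have h1 : S + (T + T.map fun z => -z) + {x, -x} =
        S + ((x ::ₘ T) + (x ::ₘ T).map fun z => -z) := by
      rw [Multiset.map_cons, Multiset.insert_eq_cons, ← Multiset.singleton_add x {-x},
        ← Multiset.singleton_add x T, ← Multiset.singleton_add (-x) (T.map _)]
      abel
    rw [h1]
    exact h

theorem gen_zero (hm : 1 < m) : Gen m 0 := by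
  have : Fact (1 < m) := ⟨hm⟩
  refine Gen.cancel 0 1 one_ne_zero ?_
  rw [zero_add]
  exact Gen.pair 1 one_ne_zero

/-- the multiplicity function of a multiset -/
def cnt (S : Multiset (ZMod m)) : ZMod m → ℤ := fun x => (S.count x : ℤ)

omit [NeZero m] in
theorem cnt_add (S T : Multiset (ZMod m)) : cnt (S + T) = cnt S + cnt T := by
  funext x
  simp [cnt]

omit [NeZero m] in
theorem cnt_zero : cnt (0 : Multiset (ZMod m)) = 0 := by
  funext x
  simp [cnt]

omit [NeZero m] in
theorem cnt_singleton (x : ZMod m) : cnt ({x} : Multiset (ZMod m)) = Pi.single x 1 := by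
  funext y
  simp only [cnt, Multiset.count_singleton, Pi.single_apply]
  split_ifs <;> simp

omit [NeZero m] in
theorem cnt_eq (S : Multiset (ZMod m)) :
    cnt S = (S.map fun x => (Pi.single x 1 : ZMod m → ℤ)).sum := by
  induction S using Multiset.induction_on with
  | empty => simp [cnt_zero]
  | cons x T ih =>
    rw [← Multiset.singleton_add, cnt_add, ih, cnt_singleton, Multiset.map_add, Multiset.sum_add]
    simp

/-- the subgroup generated by the members of `Gen` and the class of `0` -/
def subA (m : ℕ) [NeZero m] : AddSubgroup (ZMod m → ℤ) :=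
  AddSubgroup.closure ({f | ∃ S, Gen m S ∧ f = cnt S} ∪ {Pi.single 0 1})

theorem cnt_mem {S : Multiset (ZMod m)} (h : Gen m S) : cnt S ∈ subA m :=
  AddSubgroup.subset_closure (Or.inl ⟨S, h, rfl⟩)

theorem exists_of_mem (hm : 1 < m) {f : ZMod m → ℤ} (hf : f ∈ subA m) :
    ∃ S T : Multiset (ZMod m), Gen m S ∧ Gen m T ∧ ∃ n : ℤ,
      f = cnt S - cnt T + n • Pi.single (0 : ZMod m) 1 := by
  induction hf using AddSubgroup.closure_induction with
  | mem x hx =>
    rcases hx with ⟨S, hS, rfl⟩ | hx
    · exact ⟨S, 0, hS, gen_zero hm, 0, by rw [cnt_zero]; simp⟩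
    · rw [Set.mem_singleton_iff] at hx
      exact ⟨0, 0, gen_zero hm, gen_zero hm, 1, by rw [hx]; simp⟩
  | zero => exact ⟨0, 0, gen_zero hm, gen_zero hm, 0, by simp⟩
  | add x y _ _ ihx ihy =>
    obtain ⟨S, T, hS, hT, n, rfl⟩ := ihx
    obtain ⟨S', T', hS', hT', n', rfl⟩ := ihy
    refine ⟨S + S', T + T', Gen.join _ _ hS hS', Gen.join _ _ hT hT', n + n', ?_⟩
    rw [cnt_add, cnt_add, add_smul]
    abel
  | neg x _ ih =>
    obtain ⟨S, T, hS, hT, n, rfl⟩ := ih
    refine ⟨T, S, hT, hS, -n, ?_⟩
    rw [neg_smul]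
    abel

/-- A multiset without zero whose multiplicity function is in the group is a member of `Gen`. -/
theorem gen_of_mem (hm : 1 < m) {S : Multiset (ZMod m)}
    (h0 : (0 : ZMod m) ∉ S) (h : cnt S ∈ subA m) : Gen m S := by
  obtain ⟨S1, S2, h1, h2, n, hn⟩ := exists_of_mem hm h
  have h3 : n = 0 := by
    have h4 := congrFun hn 0
    have h5 : cnt S1 (0 : ZMod m) = 0 := by
      simp only [cnt]
      rw [Multiset.count_eq_zero_of_notMem (basic h1).1]
      rfl
    have h6 : cnt S2 (0 : ZMod m) = 0 := by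
      simp only [cnt]
      rw [Multiset.count_eq_zero_of_notMem (basic h2).1]
      rfl
    have h7 : cnt S (0 : ZMod m) = 0 := by
      simp only [cnt]
      rw [Multiset.count_eq_zero_of_notMem h0]
      rfl
    simp only [Pi.add_apply, Pi.sub_apply, Pi.smul_apply, Pi.single_eq_same, h5, h6, h7] at h4
    simpa using h4.symm
  subst h3
  have h4 : S + S2 = S1 := by
    ext x
    have h5 := congrFun hn x
    simp only [cnt, Pi.add_apply, Pi.sub_apply, zero_smul, Pi.zero_apply, add_zero] at h5
    rw [Multiset.count_add]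
    omega
  refine cancel_all S2 (basic h2).1 S ?_
  rw [← add_assoc, h4]
  exact Gen.join _ _ h1 (neg h2)

/-- the quotient group -/
abbrev QA (m : ℕ) [NeZero m] := (ZMod m → ℤ) ⧸ subA m

/-- the class of a generator -/
def ee {m : ℕ} [NeZero m] (x : ZMod m) : QA m :=
  QuotientAddGroup.mk' (subA m) (Pi.single x 1)

/-- the class of a multiset -/
def cl {m : ℕ} [NeZero m] (S : Multiset (ZMod m)) : QA m :=
  QuotientAddGroup.mk' (subA m) (cnt S)

theorem cl_eq (S : Multiset (ZMod m)) : cl S = (S.map ee).sum := by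
  rw [cl, cnt_eq, map_multiset_sum, Multiset.map_map]
  rfl

theorem cl_eq_zero {S : Multiset (ZMod m)} (h : Gen m S) : cl S = 0 := by
  rw [cl, QuotientAddGroup.mk'_apply, QuotientAddGroup.eq_zero_iff]
  exact cnt_mem h

theorem gen_of_cl (hm : 1 < m) {S : Multiset (ZMod m)}
    (h0 : (0 : ZMod m) ∉ S) (h : cl S = 0) : Gen m S := by
  rw [cl, QuotientAddGroup.mk'_apply, QuotientAddGroup.eq_zero_iff] at h
  exact gen_of_mem hm h0 h

theorem ee_zero : ee (0 : ZMod m) = 0 := by
  rw [ee, QuotientAddGroup.mk'_apply, QuotientAddGroup.eq_zero_iff]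
  exact AddSubgroup.subset_closure (Or.inr rfl)

theorem ee_neg (x : ZMod m) : ee (-x) = - ee x := by
  by_cases hx : x = 0
  · rw [hx, neg_zero, ee_zero, neg_zero]
  · have h := cl_eq_zero (Gen.pair x hx)
    rw [cl_eq] at h
    simp only [Multiset.insert_eq_cons, Multiset.map_cons, Multiset.map_singleton,
      Multiset.sum_cons, Multiset.sum_singleton] at h
    rw [eq_neg_iff_add_eq_zero, add_comm]
    exact h

/-- the distribution relation -/
theorem ee_dist {r : ℕ} (hr : r.Prime) (hrm : r ∣ m) (x : ZMod m) (hx : (r : ZMod m) * x ≠ 0) :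
    ee ((r : ZMod m) * x) = ∑ z ∈ fib m r (r * x), ee z +
      (if r = 2 then ee ((m / 2 : ℕ) : ZMod m) else 0) := by
  have h := cl_eq_zero (Gen.standard r hr hrm x hx)
  change cl ((fib m r (r * x)).val + _ + _) = 0 at h
  rw [cl_eq, Multiset.map_add, Multiset.map_add, Multiset.sum_add, Multiset.sum_add,
    Multiset.map_singleton, Multiset.sum_singleton, ee_neg] at h
  have h2 : (Multiset.map ee (if r = 2 then {((m / 2 : ℕ) : ZMod m)} else 0)).sum =
      (if r = 2 then ee ((m / 2 : ℕ) : ZMod m) else 0) := by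
    by_cases h2 : r = 2
    · rw [if_pos h2, if_pos h2, Multiset.map_singleton, Multiset.sum_singleton]
    · rw [if_neg h2, if_neg h2, Multiset.map_zero, Multiset.sum_zero]
  rw [h2] at h
  rw [← sub_eq_zero, ← neg_eq_zero]
  refine Eq.trans ?_ h
  rw [Finset.sum]
  abel

/-- the additive extension of a function -/
def ext (w : ZMod m → ℤ) : (ZMod m → ℤ) →+ ℤ where
  toFun f := ∑ x, f x • w x
  map_zero' := by simp
  map_add' f g := by simp [add_mul, sum_add_distrib]

theorem ext_single (w : ZMod m → ℤ) (x : ZMod m) :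
    ext w (Pi.single x 1) = w x := by
  change ∑ y, (Pi.single x 1 : ZMod m → ℤ) y • w y = w x
  rw [Finset.sum_eq_single x]
  · simp
  · intro y _ hy
    rw [Pi.single_eq_of_ne hy, zero_smul]
  · intro h
    exact absurd (mem_univ x) h

theorem ext_cnt (w : ZMod m → ℤ) (S : Multiset (ZMod m)) :
    ext w (cnt S) = (S.map w).sum := by
  rw [cnt_eq, map_multiset_sum, Multiset.map_map]
  congr 1
  refine Multiset.map_congr rfl fun x _ => ?_
  exact ext_single w x

theorem ext_ker (w : ZMod m → ℤ) (h0 : w 0 = 0)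
    (h : ∀ S, Gen m S → (S.map w).sum = 0) : subA m ≤ (ext w).ker := by
  rw [subA, AddSubgroup.closure_le]
  rintro f (⟨S, hS, rfl⟩ | hf)
  · change ext w (cnt S) = 0
    rw [ext_cnt, h S hS]
  · rw [Set.mem_singleton_iff] at hf
    change ext w f = 0
    rw [hf, ext_single, h0]

omit [NeZero m] in
theorem sw_zero : sw (0 : ZMod m) = 0 := if_pos rfl

omit [NeZero m] in
theorem sw_of_ne {y : ZMod m} (hy : y ≠ 0) : sw y = 2 * (y.val : ℤ) - m := if_neg hy

theorem sw_neg (y : ZMod m) : sw (-y) = - sw y := by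
  by_cases hy : y = 0
  · subst hy
    rw [neg_zero, sw_zero, neg_zero]
  · rw [sw_of_ne hy, sw_of_ne (neg_ne_zero.2 hy)]
    have h1 : NeZero y := ⟨hy⟩
    rw [ZMod.val_neg_of_ne_zero, Nat.cast_sub (ZMod.val_lt y).le]
    ring

theorem sw_fib {r : ℕ} (hr : 0 < r) (hrm : r ∣ m) (x : ZMod m) (hx : (r : ZMod m) * x ≠ 0) :
    ∑ z ∈ fib m r (r * x), sw z = sw ((r : ZMod m) * x) := by
  have h1 : ∀ z ∈ fib m r (r * x), sw z = 2 * (z.val : ℤ) - m := by
    intro z hz
    refine sw_of_ne ?_
    rintro rfl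
    rw [mem_fib, mul_zero] at hz
    exact hx hz.symm
  rw [sum_congr rfl h1, sum_sub_distrib, sum_const, fib_card hr hrm, sw_of_ne hx, ← mul_sum]
  have h2 := fib_sum hr hrm x
  have h3 : (2 : ℤ) * ∑ z ∈ fib m r (r * x), (z.val : ℤ) =
      2 * (((r : ZMod m) * x).val : ℤ) + m * (r - 1) := by
    have h4 : ((2 * ∑ z ∈ fib m r (r * x), z.val : ℕ) : ℤ) =
        ((2 * ((r : ZMod m) * x).val + m * (r - 1) : ℕ) : ℤ) := by rw [h2]
    push_cast [Nat.cast_sub (Nat.one_le_iff_ne_zero.2 hr.ne')] at h4
    exact h4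
  rw [h3, nsmul_eq_mul]
  ring

theorem sw_fib_unit {r : ℕ} (hr : 0 < r) (hrm : r ∣ m) (x : ZMod m) (hx : (r : ZMod m) * x ≠ 0)
    (v : (ZMod m)ˣ) :
    ∑ z ∈ fib m r (r * x), sw ((v : ZMod m) * z) = sw ((v : ZMod m) * ((r : ZMod m) * x)) := by
  have h1 : (r : ZMod m) * ((v : ZMod m) * x) ≠ 0 := by
    intro h
    apply hx
    have h2 : (v : ZMod m) * ((r : ZMod m) * x) = 0 := by
      rw [← h]
      ring
    exact (v.isUnit.mul_right_eq_zero).1 h2
  have h2 := sw_fib hr hrm ((v : ZMod m) * x) h1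
  have h3 : (v : ZMod m) * ((r : ZMod m) * x) = (r : ZMod m) * ((v : ZMod m) * x) := by ring
  rw [h3, ← h2]
  refine Finset.sum_nbij' (fun z => (v : ZMod m) * z) (fun z => ((v⁻¹ : (ZMod m)ˣ) : ZMod m) * z)
    ?_ ?_ ?_ ?_ ?_
  · intro z hz
    rw [mem_fib] at hz ⊢
    linear_combination (v : ZMod m) * hz
  · intro z hz
    rw [mem_fib] at hz ⊢
    have h4 : ((v⁻¹ : (ZMod m)ˣ) : ZMod m) * (v : ZMod m) = 1 := Units.inv_mul v
    linear_combination ((v⁻¹ : (ZMod m)ˣ) : ZMod m) * hz + (r * x : ZMod m) * h4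
  · intro z _
    exact Units.inv_mul_cancel_left v z
  · intro z _
    exact Units.mul_inv_cancel_left v z
  · intro z _
    rfl

theorem sw_half (h2 : 2 ∣ m) (t : ZMod m) : sw (t * ((m / 2 : ℕ) : ZMod m)) = 0 := by
  have h := sw_neg (t * ((m / 2 : ℕ) : ZMod m))
  rw [← mul_neg, half_neg h2] at h
  omega

theorem sw_gen (t : (ZMod m)ˣ) (S : Multiset (ZMod m)) (hS : Gen m S) :
    (S.map fun x => sw ((t : ZMod m) * x)).sum = 0 := by
  induction hS with
  | pair x hx =>
    simp only [Multiset.insert_eq_cons, Multiset.map_cons, Multiset.map_singleton,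
      Multiset.sum_cons, Multiset.sum_singleton, mul_neg, sw_neg]
    ring
  | standard r hr hrm x hx =>
    have h1 := sw_fib_unit hr.pos hrm x hx t
    change (Multiset.map (fun x => sw ((t : ZMod m) * x)) ((fib m r (r * x)).val + _ + _)).sum = 0
    rw [Multiset.map_add, Multiset.map_add, Multiset.sum_add, Multiset.sum_add,
      Multiset.map_singleton, Multiset.sum_singleton, mul_neg, sw_neg]
    have h2 : (Multiset.map (fun x => sw ((t : ZMod m) * x))
        (if r = 2 then {((m / 2 : ℕ) : ZMod m)} else 0)).sum = 0 := by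
      by_cases h2 : r = 2
      · subst h2
        rw [if_pos rfl, Multiset.map_singleton, Multiset.sum_singleton, sw_half hrm]
      · rw [if_neg h2, Multiset.map_zero, Multiset.sum_zero]
    rw [h2, add_zero]
    have h3 : (Multiset.map (fun x => sw ((t : ZMod m) * x)) (fib m r (r * x)).val).sum =
        ∑ z ∈ fib m r (r * x), sw ((t : ZMod m) * z) := rfl
    rw [h3, h1]
    ring
  | surface S h0 hc hS =>
    have h1 := hS t
    rw [hc] at h1
    have h2 : S.map (fun x => sw ((t : ZMod m) * x)) =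
        S.map (fun x => 2 * ((((t : ZMod m) * x).val : ℕ) : ℤ) - m) := by
      refine Multiset.map_congr rfl fun x hx => ?_
      apply sw_of_ne
      intro h
      apply h0
      rw [t.isUnit.mul_right_eq_zero] at h
      rw [← h]
      exact hx
    have h3 : ∀ T : Multiset (ZMod m), (T.map (fun x => 2 * ((((t : ZMod m) * x).val : ℕ) : ℤ) - m)).sum =
        2 * (((T.map fun x => ((t : ZMod m) * x).val).sum : ℕ) : ℤ) - m * (T.card : ℤ) := by
      intro T
      induction T using Multiset.induction_on with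
      | empty => simp
      | cons x T ih =>
        rw [Multiset.map_cons, Multiset.sum_cons, ih, Multiset.map_cons, Multiset.sum_cons,
          Multiset.card_cons]
        push_cast
        ring
    rw [h2, h3, hc]
    have h4 : ((2 * (S.map fun x => ((t : ZMod m) * x).val).sum : ℕ) : ℤ) = ((m * 4 : ℕ) : ℤ) := by
      rw [h1]
    push_cast at h4 ⊢
    linarith
  | join S T _ _ ihS ihT => rw [Multiset.map_add, Multiset.sum_add, ihS, ihT, add_zero]
  | cancel S x hx _ ih =>
    rw [Multiset.map_add, Multiset.sum_add] at ih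
    simp only [Multiset.insert_eq_cons, Multiset.map_cons, Multiset.map_singleton,
      Multiset.sum_cons, Multiset.sum_singleton, mul_neg, sw_neg] at ih
    linarith

/-- the homomorphism on the quotient given by the sawtooth weights -/
def ww (m : ℕ) [NeZero m] (t : (ZMod m)ˣ) : QA m →+ ℤ :=
  QuotientAddGroup.lift (subA m) (ext fun x => sw ((t : ZMod m) * x))
    (ext_ker _ (by rw [mul_zero, sw_zero]) (sw_gen t))

theorem ww_ee (t : (ZMod m)ˣ) (x : ZMod m) : ww m t (ee x) = sw ((t : ZMod m) * x) :=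
  ext_single _ x

/-- the odd distribution -/
def ff {m : ℕ} [NeZero m] (x : ZMod m) : QA m :=
  if x = 0 then 0 else ee x + ee ((m / 2 : ℕ) : ZMod m)

theorem ff_of_ne {x : ZMod m} (hx : x ≠ 0) : ff x = ee x + ee ((m / 2 : ℕ) : ZMod m) := if_neg hx

theorem ff_zero : ff (0 : ZMod m) = 0 := if_pos rfl

theorem two_half (h2 : 2 ∣ m) :
    ee ((m / 2 : ℕ) : ZMod m) + ee ((m / 2 : ℕ) : ZMod m) = 0 := by
  have h := ee_neg ((m / 2 : ℕ) : ZMod m)
  rw [half_neg h2] at h
  exact eq_neg_iff_add_eq_zero.mp h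

theorem ff_neg (h2 : 2 ∣ m) (x : ZMod m) : ff (-x) = - ff x := by
  by_cases hx : x = 0
  · rw [hx, neg_zero, ff_zero, neg_zero]
  · rw [ff_of_ne hx, ff_of_ne (neg_ne_zero.2 hx), ee_neg, neg_add]
    congr 1
    exact eq_neg_of_add_eq_zero_left (two_half h2)

theorem nsmul_half (h2 : 2 ∣ m) {k : ℕ} (hk : Even k) :
    k • ee ((m / 2 : ℕ) : ZMod m) = 0 := by
  obtain ⟨j, rfl⟩ := hk
  rw [← two_mul, mul_comm, mul_nsmul', two_nsmul, two_half h2]
  simp

theorem ff_dist (h2 : 2 ∣ m) {r : ℕ} (hr : r.Prime) (hrm : r ∣ m) (y : ZMod m) :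
    ∑ z ∈ fib m r ((r : ZMod m) * y), ff z = ff ((r : ZMod m) * y) := by
  by_cases hy : (r : ZMod m) * y = 0
  · rw [hy, ff_zero]
    refine Finset.sum_involution (fun z _ => -z) ?_ ?_ ?_ ?_
    · intro z _
      rw [ff_neg h2, add_neg_cancel]
    · intro z _ hz hneg
      apply hz
      rcases (ZMod.neg_eq_self_iff z).mp hneg with h0 | h0
      · rw [h0, ff_zero]
      · have h3 : z = ((m / 2 : ℕ) : ZMod m) := by
          have h4 : m / 2 = z.val := by omega
          rw [h4, ZMod.natCast_zmod_val]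
        rw [h3, ff_of_ne (half_ne h2), two_half h2]
    · intro z hz
      rw [mem_fib] at hz ⊢
      rw [mul_neg, hz, neg_zero]
    · intro z _
      exact neg_neg z
  · have h1 : ∀ z ∈ fib m r (r * y), ff z = ee z + ee ((m / 2 : ℕ) : ZMod m) := by
      intro z hz
      refine ff_of_ne ?_
      rintro rfl
      rw [mem_fib, mul_zero] at hz
      exact hy hz.symm
    rw [sum_congr rfl h1, sum_add_distrib, sum_const, fib_card hr.pos hrm, ff_of_ne hy,
      ee_dist hr hrm y hy]
    by_cases hr2 : r = 2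
    · subst hr2
      rw [if_pos rfl, two_nsmul, add_assoc]
    · rw [if_neg hr2, add_zero]
      obtain ⟨j, hj⟩ := hr.odd_of_ne_two hr2
      rw [hj, add_nsmul, one_nsmul, nsmul_half h2 (even_two_mul j), zero_add]

theorem ff_sum (S : Multiset (ZMod m)) (h0 : (0 : ZMod m) ∉ S) :
    (S.map ff).sum = cl S + S.card • ee ((m / 2 : ℕ) : ZMod m) := by
  rw [cl_eq]
  induction S using Multiset.induction_on with
  | empty => simp
  | cons x T ih =>
    have hx : x ≠ 0 := by
      rintro rfl
      exact h0 (Multiset.mem_cons_self _ _)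
    rw [Multiset.map_cons, Multiset.sum_cons, ih (fun h => h0 (Multiset.mem_cons_of_mem h)),
      Multiset.map_cons, Multiset.sum_cons, Multiset.card_cons, ff_of_ne hx, add_nsmul, one_nsmul]
    abel

/-- the datum -/
def dd (m : ℕ) [NeZero m] (h2 : 2 ∣ m) : Datum m (QA m) where
  f := ff
  W := ww m
  zero := ff_zero
  odd := ff_neg h2
  dist := fun _ hr hrm y => ff_dist h2 hr hrm y
  wf := by
    intro t x
    by_cases hx : x = 0
    · rw [hx, ff_zero, map_zero, mul_zero, sw_zero]
    · rw [ff_of_ne hx, map_add, ww_ee, ww_ee, sw_half h2, add_zero]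
  surf := by
    intro S h0 hc hS
    rw [ff_sum S h0, cl_eq_zero (Gen.surface S h0 hc hS), hc, nsmul_half h2 (by decide), add_zero]

end

end Quot

/-- Module M1: the group attached to the system `Gen`. -/
theorem exists_datum (m : ℕ) [NeZero m] (hm : Even m) :
    ∃ (A : Type) (_ : AddCommGroup A) (D : Datum m A),
      ∀ S : Multiset (ZMod m), (0 : ZMod m) ∉ S → Even S.card → (S.map D.f).sum = 0 → Gen m S := by
  have h2 : 2 ∣ m := hm.two_dvd
  have h1 : 1 < m := by
    have := NeZero.pos m
    obtain ⟨j, hj⟩ := h2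
    omega
  refine ⟨Quot.QA m, inferInstance, Quot.dd m h2, ?_⟩
  intro S h0 hS hsum
  have h3 : (S.map Quot.ff).sum = 0 := hsum
  rw [Quot.ff_sum S h0, Quot.nsmul_half h2 hS, add_zero] at h3
  exact Quot.gen_of_cl h1 h0 h3

end Pool.Agent.FS
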