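import Pool.Agent.FS.Main

/-!
# Removal of large primes: definitions

`r` is a prime which is large compared to the length of a Hodge character. The elements of order
divisible by `r` are removed from the character.
-/

set_option autoImplicit false

namespace Pool.Agent.FS

open Finset
open Pool.Agent.Helper9.Fermat (fib mem_fib)

/-- unitary divisors -/
def Uni (m n : ℕ) : Prop := n ∣ m ∧ n.Coprime (m / n)

/-- distributions -/
def IsDist {m : ℕ} [NeZero m] {B : Type} [AddCommGroup B] (g : ZMod m → B) : Prop :=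
  ∀ r : ℕ, r.Prime → r ∣ m → ∀ y : ZMod m,
    ∑ z ∈ fib m r ((r : ZMod m) * y), g z = g ((r : ZMod m) * y)

/-- the idempotent which is `0` on the `l`-part and `1` on the rest -/
def ide (m l : ℕ) : ZMod m := (qq m l : ZMod m) ^ (ordCompl[l] m).totient

/-- `q` on the part prime to `l` -/
def al (m l : ℕ) : ZMod m := (qq m l : ZMod m) * ide m l

/-- `q / l` on the part prime to `l` -/
def be (m l : ℕ) : ZMod m := ((qq m l / l : ℕ) : ZMod m) * ide m l

/-- the norm relation for the prime `l` and the elements of order `n` -/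
def Rel {m : ℕ} {B : Type} [AddCommGroup B] (g : ZMod m → B) (n l : ℕ) : Prop :=
  ∀ u : (ZMod n)ˣ, ∑ᶠ k : Kl n l, g (emb m n (((k : (ZMod n)ˣ) * u : (ZMod n)ˣ) : ZMod n)) =
    g (al m l * emb m n u) - g (be m l * emb m n u)

/-- An odd function which satisfies the norm relations for the primes different from `r` at the
unitary levels divisible by `r`, with two families of weights. -/
structure RDatum (m r : ℕ) [NeZero m] (B : Type) [AddCommGroup B] where
  F : ZMod m → B
  W : (ZMod m)ˣ → B →+ ℤ
  W' : (ZMod m)ˣ → B →+ ℤ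
  odd : ∀ x, F (-x) = - F x
  rel : ∀ n l : ℕ, Uni m n → r ∣ n → l.Prime → l ∣ n → l ≠ r → Rel F n l
  wf : ∀ (t : (ZMod m)ˣ) (x : ZMod m), W t (F x) = sw ((t : ZMod m) * x)
  wf' : ∀ (t : (ZMod m)ˣ) (x : ZMod m), W' t (F x) = sw ((t : ZMod m) * (ide m r * x))

/-- the subgroup generated by the values at the elements with order in `L` -/
def RDatum.lev {m r : ℕ} [NeZero m] {B : Type} [AddCommGroup B] (R : RDatum m r B) (L : Set ℕ) :
    AddSubgroup B :=
  AddSubgroup.closure {b | ∃ x : ZMod m, addOrderOf x ∈ L ∧ b = R.F x}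

/-- A bounded odd integral distribution from which the sawtooth sums can be recovered. -/
structure Pack (m : ℕ) [NeZero m] (C : ℕ) where
  φ : ZMod m → ℤ
  odd : ∀ x, φ (-x) = - φ x
  dist : IsDist φ
  bound : ∀ x, |φ x| ≤ C
  sep : ∀ a : (ZMod m → ℤ) →+ ℤ,
    (∀ u : (ZMod m)ˣ, a (fun x => φ ((u : ZMod m) * x)) = 0) →
    ∀ u : (ZMod m)ˣ, a (fun x => sw ((u : ZMod m) * x)) = 0

/-- the smallest unitary divisor of `m` which is a multiple of `e` -/
def upl (m e : ℕ) : ℕ := ∏ l ∈ e.primeFactors, qq m l

/-- the elements of unitary order above `x` -/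
noncomputable def Up {m : ℕ} [NeZero m] (x : ZMod m) : Finset (ZMod m) :=
  univ.filter fun w => ((upl m (addOrderOf x) / addOrderOf x : ℕ) : ZMod m) * w = x

end Pool.Agent.FS
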