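import Pool.Agent.FS.RNorm

set_option autoImplicit false

namespace Pool.Agent.FS

open Finset
open Pool.Agent.Helper9.Fermat (fib mem_fib)

section

variable {m r : ℕ} [NeZero m] {B : Type} [AddCommGroup B] (R : RDatum m r B)

/-- the argument of `mixed` for an arbitrary function of lower terms -/
theorem RMixed_gen {n : ℕ} [NeZero n] (hn : n ∣ m) (hu : n.Coprime (m / n)) (ls : List ℕ)
    (hlp : ∀ l ∈ ls, l.Prime ∧ l ∣ n) (hls : ∀ l : ℕ, l.Prime → l ∣ n → l ∈ ls)
    (N : (ZMod n)ˣ → ℤ) (β : (ZMod m)ˣ → ℤ)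
    (hβ : ∀ κs : List (ZMod m)ˣ,
      (∀ l ∈ ls, ∃ κ ∈ κs, ∀ z : ZMod m, ¬ l ∣ addOrderOf z → (κ : ZMod m) * z = z) →
      difs κs β = 0)
    (hW : ∀ t : (ZMod m)ˣ, ∑ w : (ZMod n)ˣ, N w * sw ((t : ZMod m) * emb m n w) + β t = 0)
    (ks : List (ZMod n)ˣ) (hks : List.Forall₂ (fun l k => k ∈ Kl n l) ls ks)
    (g : (ZMod n)ˣ) : difs ks (fun g => N g - N (-1 * g)) g = 0 := by
  have hm0 : 0 < m := Nat.pos_of_ne_zero (NeZero.ne m)
  have hn0 : 0 < n := Nat.pos_of_ne_zero (NeZero.ne n)
  have hq : 0 < m / n := Nat.div_pos (Nat.le_of_dvd hm0 hn) hn0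
  by_cases h1 : n = 1
  · subst h1
    have e1 : (fun g : (ZMod 1)ˣ => N g - N (-1 * g)) = 0 := by
      funext g
      have : -1 * g = g := Subsingleton.elim _ _
      rw [this, sub_self]; rfl
    rw [e1, Mixed_difs_zero]; rfl
  -- the sawtooth sums
  set c : (ZMod n)ˣ → ℤ := fun u => 2 * ((u : ZMod n).val : ℤ) - n with hc
  have hval : ∀ t : (ZMod m)ˣ, ∑ w : (ZMod n)ˣ, N w * sw ((t : ZMod m) * emb m n w) =
      ((m / n : ℕ) : ℤ) * ∑ w, N w * c (ZMod.unitsMap hn t * w) := by
    intro t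
    rw [Finset.mul_sum]
    apply Finset.sum_congr rfl
    intro w _
    rw [Mixed_mul_emb hn, ← Units.val_mul, Mixed_sw_emb hn h1, hc]
    ring
  -- the lists of inverses
  have key : ∀ ks : List (ZMod n)ˣ, List.Forall₂ (fun l k => k ∈ Kl n l) ls ks →
      ∀ s, ∑ w, difs (ks.map fun k => k⁻¹) N w * c (s * w) = 0 := by
    intro ks hks s
    obtain ⟨κs, h2, h3⟩ := Mixed_lift_list hn hu ls hlp ks hks
    obtain ⟨t, rfl⟩ := ZMod.unitsMap_surjective hn s
    have e1 := hβ κs h3
    have e2 : β =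
        -(fun t => ((m / n : ℕ) : ℤ) * ∑ w, N w * c (ZMod.unitsMap hn t * w)) := by
      funext t
      have := hW t
      rw [hval] at this
      simp only [Pi.neg_apply]
      linear_combination this
    rw [e2, Mixed_difs_neg, neg_eq_zero,
      Mixed_difs_comp (ZMod.unitsMap hn) κs
        (fun s => ((m / n : ℕ) : ℤ) * ∑ w, N w * c (s * w)), h2] at e1
    have e3 : (fun s : (ZMod n)ˣ => ((m / n : ℕ) : ℤ) * ∑ w, N w * c (s * w)) =
        fun s => ∑ w, (((m / n : ℕ) : ℤ) * N w) * c (s * w) := by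
      funext s
      rw [Finset.mul_sum]
      exact Finset.sum_congr rfl fun w _ => by ring
    rw [e3, Mixed_difs_conv] at e1
    have e4 := congrFun e1 t
    simp only [Pi.zero_apply] at e4
    have e5 : ∀ (ks : List (ZMod n)ˣ), difs ks (fun w => ((m / n : ℕ) : ℤ) * N w) =
        fun w => ((m / n : ℕ) : ℤ) * difs ks N w := by
      intro ks
      induction ks with
      | nil => rfl
      | cons k ks ih =>
        rw [Mixed_difs_cons, ih, Mixed_difs_cons]
        funext w
        simp only [dif]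
        ring
    rw [e5] at e4
    simp only [mul_assoc] at e4
    rw [← Finset.mul_sum] at e4
    rcases mul_eq_zero.mp e4 with h | h
    · exact absurd h (by exact_mod_cast hq.ne')
    · exact h
  -- the odd part vanishes, for inverses
  have key2 : ∀ ks : List (ZMod n)ˣ, List.Forall₂ (fun l k => k ∈ Kl n l) ls ks →
      ∀ u, dif (-1 : (ZMod n)ˣ) (difs (ks.map fun k => k⁻¹) N) u = 0 := by
    intro ks hks
    set β₀ := difs (ks.map fun k => k⁻¹) N with hβ₀
    apply saw_inj_n n
    · intro u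
      simp only [dif]
      rw [show (-1 : (ZMod n)ˣ) * -u = u by simp, show (-1 : (ZMod n)ˣ) * u = -u by simp]
      ring
    · intro t
      have e1 := key ks hks t
      have e2 := key ks hks (-t)
      have e3 : ∑ w, β₀ (-1 * w) * c (t * w) = ∑ w, β₀ w * c (-t * w) := by
        rw [← Equiv.sum_comp (Equiv.neg (ZMod n)ˣ)]
        apply Finset.sum_congr rfl
        intro w _
        rw [Equiv.neg_apply, show (-1 : (ZMod n)ˣ) * -w = w by simp, mul_neg, neg_mul]
      have e4 : ∀ u, dif (-1 : (ZMod n)ˣ) β₀ u *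
          (2 * (((t * u : (ZMod n)ˣ) : ZMod n).val : ℤ) - n) =
          β₀ u * c (t * u) - β₀ (-1 * u) * c (t * u) := by
        intro u
        simp only [dif, hc]
        ring
      rw [Finset.sum_congr rfl fun u _ => e4 u, Finset.sum_sub_distrib, e1, e3, e2, sub_zero]
    · intro l hl hln u
      -- a factor of the list
      obtain ⟨k, hk, hkl⟩ : ∃ k ∈ ks.map fun k => k⁻¹, k ∈ Kl n l := by
        obtain ⟨k, hk, hkl⟩ := Mixed_forall_mem hks (hls l hl hln)
        exact ⟨k⁻¹, List.mem_map.mpr ⟨k, hk, rfl⟩, (Kl n l).inv_mem hkl⟩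
      obtain ⟨ks', hks'⟩ := Mixed_difs_mem hk
      have e1 : dif (-1 : (ZMod n)ˣ) β₀ = dif k (dif (-1) (difs ks' N)) := by
        rw [hβ₀, hks' N, Mixed_dif_comm]
      rw [e1]
      exact Mixed_coset_sum ⟨k, hkl⟩ _ u
  have hks' : List.Forall₂ (fun l k => k ∈ Kl n l) ls (ks.map fun k => k⁻¹) := by
    rw [List.forall₂_map_right_iff]
    refine hks.imp ?_
    intro l k hk
    exact (Kl n l).inv_mem hk
  have e1 := key2 _ hks' g
  have e2 : (ks.map fun k => k⁻¹).map (fun k => k⁻¹) = ks := by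
    rw [List.map_map]
    simp
  rw [e2, ← Mixed_difs_dif] at e1
  exact e1

omit [NeZero m] in
/-- the lower terms are killed -/
theorem RMixed_lower (F : ZMod m → B) (V : (ZMod m)ˣ → B →+ ℤ) (e : ZMod m)
    (hV : ∀ (t : (ZMod m)ˣ) (x : ZMod m), V t (F x) = sw ((t : ZMod m) * (e * x)))
    (ls : List ℕ) (L : Set ℕ) (hL : ∀ n' ∈ L, ∃ l ∈ ls, ¬ l ∣ n')
    (κs : List (ZMod m)ˣ)
    (hκ : ∀ l ∈ ls, ∃ κ ∈ κs, ∀ z : ZMod m, ¬ l ∣ addOrderOf z → (κ : ZMod m) * z = z)
    {b : B} (hb : b ∈ AddSubgroup.closure {b | ∃ x : ZMod m, addOrderOf x ∈ L ∧ b = F x}) :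
    difs κs (fun t => V t b) = 0 := by
  induction hb using AddSubgroup.closure_induction with
  | mem x hx =>
    obtain ⟨z, hz, rfl⟩ := hx
    obtain ⟨l, hl, hlz⟩ := hL _ hz
    obtain ⟨κ, hκ1, hκ2⟩ := hκ l hl
    apply Mixed_difs_kill hκ1
    funext t
    simp only [dif, hV, Pi.zero_apply]
    have hez : ¬ l ∣ addOrderOf (e * z) := by
      intro h
      apply hlz
      refine h.trans ?_
      rw [addOrderOf_dvd_iff_nsmul_eq_zero, nsmul_eq_mul, mul_left_comm, ← nsmul_eq_mul,
        addOrderOf_nsmul_eq_zero, mul_zero]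
    have : ((κ * t : (ZMod m)ˣ) : ZMod m) * (e * z) = (t : ZMod m) * (e * z) := by
      rw [Units.val_mul, mul_comm (κ : ZMod m), mul_assoc, hκ2 _ hez]
    rw [this, sub_self]
  | zero =>
    have : (fun t : (ZMod m)ˣ => V t (0 : B)) = 0 := by
      funext t; simp
    rw [this, Mixed_difs_zero]
  | add x y _ _ hx hy =>
    have : (fun t : (ZMod m)ˣ => V t (x + y)) =
        (fun t => V t x) + (fun t => V t y) := by
      funext t; simp
    rw [this, Mixed_difs_add, hx, hy, add_zero]
  | neg x _ hx =>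
    have : (fun t : (ZMod m)ˣ => V t (-x)) = -(fun t => V t x) := by
      funext t; simp
    rw [this, Mixed_difs_neg, hx, neg_zero]

/-- translations commute with difference operators -/
theorem RMixed_difs_shift {G : Type*} [CommGroup G] (u : G) (ks : List G) (φ : G → ℤ) :
    difs ks (fun t => φ (t * u)) = fun t => difs ks φ (t * u) := by
  induction ks with
  | nil => rfl
  | cons k ks ih =>
    rw [Mixed_difs_cons, ih, Mixed_difs_cons]
    funext t
    simp only [dif, mul_assoc]

/-- sums over fibres -/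
theorem RMixed_difs_push {G H : Type*} [CommGroup G] [CommGroup H] [Fintype G] [DecidableEq H]
    (π : G →* H) (ks : List G) (φ : G → ℤ) (v : H) :
    difs (ks.map π) (fun v => ∑ w ∈ univ.filter (fun w => π w = v), φ w) v =
      ∑ w ∈ univ.filter (fun w => π w = v), difs ks φ w := by
  induction ks generalizing v with
  | nil => rfl
  | cons k ks ih =>
    rw [List.map_cons, Mixed_difs_cons, Mixed_difs_cons]
    simp only [dif]
    rw [ih, ih, Finset.sum_sub_distrib]
    congr 1
    symm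
    refine Finset.sum_nbij' (fun w => k * w) (fun w => k⁻¹ * w) ?_ ?_ ?_ ?_ ?_
    · intro w hw
      rw [mem_filter] at hw ⊢
      exact ⟨mem_univ _, by rw [map_mul, hw.2]⟩
    · intro w hw
      rw [mem_filter] at hw ⊢
      exact ⟨mem_univ _, by rw [map_mul, hw.2, map_inv, inv_mul_cancel_left]⟩
    · intro w _
      exact inv_mul_cancel_left _ _
    · intro w _
      exact mul_inv_cancel_left _ _
    · intro w _
      rfl

/-- multiplication by the `r`-part -/
theorem RMixed_qq_mul_emb (hr : r.Prime) {n : ℕ} [NeZero n] (hn : Uni m n) (hrn : r ∣ n)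
    (w : (ZMod n)ˣ) : (qq m r : ZMod m) * emb m n (w : ZMod n) =
      emb m (ordCompl[r] n) (ZMod.unitsMap (Nat.ordCompl_dvd n r) w : (ZMod (ordCompl[r] n))ˣ) := by
  have hm0 : 0 < m := Nat.pos_of_ne_zero (NeZero.ne m)
  have hn0 : 0 < n := Nat.pos_of_ne_zero (NeZero.ne n)
  have : NeZero (ordCompl[r] n) := ⟨(Nat.ordCompl_pos r hn0.ne').ne'⟩
  have hq : qq m r = ordProj[r] n := (uni_ordProj hn hr hrn).symm
  have h1 : ordCompl[r] n ∣ m := (Nat.ordCompl_dvd n r).trans hn.1
  have h2 : m / ordCompl[r] n = qq m r * (m / n) := by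
    apply Nat.div_eq_of_eq_mul_left (Nat.ordCompl_pos r hn0.ne')
    have h3 := Nat.ordProj_mul_ordCompl_eq_self n r
    calc m = m / n * n := (Nat.div_mul_cancel hn.1).symm
      _ = m / n * (ordProj[r] n * ordCompl[r] n) := by rw [h3]
      _ = qq m r * (m / n) * ordCompl[r] n := by rw [hq]; ring
  unfold emb
  rw [h2, ← Nat.cast_mul, ZMod.natCast_eq_natCast_iff, ← mul_assoc]
  have e1 : ((ZMod.unitsMap (Nat.ordCompl_dvd n r) w : (ZMod (ordCompl[r] n))ˣ) :
      ZMod (ordCompl[r] n)) = (((w : ZMod n).val : ℕ) : ZMod (ordCompl[r] n)) := by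
    rw [ZMod.unitsMap_val, ZMod.natCast_val]
  have e2 : (w : ZMod n).val ≡ ((ZMod.unitsMap (Nat.ordCompl_dvd n r) w :
      (ZMod (ordCompl[r] n))ˣ) : ZMod (ordCompl[r] n)).val [MOD ordCompl[r] n] := by
    rw [e1, ZMod.val_natCast]
    exact (Nat.mod_modEq _ _).symm
  have e3 := e2.mul_left' (m / ordCompl[r] n)
  rw [Nat.div_mul_cancel h1, h2] at e3
  exact e3

/-- Module R6 -/
theorem RDatum.mixed (hr : r.Prime) {n : ℕ} [NeZero n] (hn : Uni m n) (hrn : r ∣ n)
    (ls : List ℕ) (hls : ∀ l ∈ ls, l.Prime ∧ l ∣ n ∧ l ≠ r)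
    (hall : ∀ l : ℕ, l.Prime → l ∣ n → l ≠ r → l ∈ ls) (L : Set ℕ)
    (hL : ∀ n' ∈ L, ∃ l ∈ ls, ¬ l ∣ n') (N : (ZMod n)ˣ → ℤ) (b : B) (hb : b ∈ R.lev L)
    (hW : ∀ t : (ZMod m)ˣ, R.W t (∑ w : (ZMod n)ˣ, N w • R.F (emb m n w) + b) = 0)
    (hW' : ∀ t : (ZMod m)ˣ, R.W' t (∑ w : (ZMod n)ˣ, N w • R.F (emb m n w) + b) = 0)
    (ks : List (ZMod n)ˣ) (hks : List.Forall₂ (fun l k => k ∈ Kl n l) ls ks)
    (g : (ZMod n)ˣ) : difs ks (fun g => N g - N (-1 * g)) g = 0 := by
  classical
  have hn0 : 0 < n := Nat.pos_of_ne_zero (NeZero.ne n)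
  set n' := ordCompl[r] n with hn'
  have : NeZero n' := ⟨(Nat.ordCompl_pos r hn0.ne').ne'⟩
  have hun' : Uni m n' := uni_ordCompl hn hr
  set π : (ZMod n)ˣ →* (ZMod n')ˣ := ZMod.unitsMap (Nat.ordCompl_dvd n r) with hπ
  set D' : (ZMod n)ˣ → ℤ := difs ks (fun g => N g - N (-1 * g)) with hD'
  have hneg : π (-1) = -1 := by
    apply Units.ext
    rw [hπ, ZMod.unitsMap_val, Units.val_neg, Units.val_one, Units.val_neg, Units.val_one,
      ZMod.cast_neg (Nat.ordCompl_dvd n r), ZMod.cast_one (Nat.ordCompl_dvd n r)]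
  -- invariance
  have hA : ∀ k ∈ Kl n r, ∀ g, D' (k * g) = D' g := by
    intro k hk g
    have h1 : difs (k :: ks) (fun g => N g - N (-1 * g)) g = 0 := by
      refine RMixed_gen hn.1 hn.2 (r :: ls) ?_ ?_ N (fun t => R.W t b) ?_ ?_ (k :: ks)
        (List.Forall₂.cons hk hks) g
      · intro l hl
        rcases List.mem_cons.mp hl with h | h
        · subst h
          exact ⟨hr, hrn⟩
        · exact ⟨(hls l h).1, (hls l h).2.1⟩
      · intro l hl hln
        by_cases h : l = r
        · subst h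
          exact List.mem_cons_self
        · exact List.mem_cons_of_mem _ (hall l hl hln h)
      · intro κs hκs
        refine RMixed_lower R.F R.W 1 (fun t x => ?_) ls L hL κs
          (fun l hl => hκs l (List.mem_cons_of_mem _ hl)) hb
        rw [one_mul, R.wf]
      · intro t
        have := hW t
        rw [map_add, map_sum] at this
        rw [← this]
        congr 1
        refine Finset.sum_congr rfl fun w _ => ?_
        rw [map_zsmul, R.wf, smul_eq_mul]
    rw [Mixed_difs_cons] at h1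
    simp only [dif] at h1
    rw [← hD'] at h1
    linarith
  -- the sums over the fibres
  have hB : ∀ v : (ZMod n')ˣ, ∑ w ∈ univ.filter (fun w => π w = v), D' w = 0 := by
    intro v
    obtain ⟨u, hu⟩ := exists_unit_al (m := m) r hr
    rw [hD', ← RMixed_difs_push π]
    have h1 : difs (ks.map π) (fun v => (∑ w ∈ univ.filter (fun w => π w = v), N w) -
        (∑ w ∈ univ.filter (fun w => π w = -1 * v), N w)) v = 0 := by
      refine RMixed_gen hun'.1 hun'.2 ls ?_ ?_
        (fun v => ∑ w ∈ univ.filter (fun w => π w = v), N w) (fun t => R.W' (t * u) b) ?_ ?_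
        (ks.map π) ?_ v
      · intro l hl
        obtain ⟨h2, h3, h4⟩ := hls l hl
        refine ⟨h2, ?_⟩
        rw [← Nat.ordProj_mul_ordCompl_eq_self n r] at h3
        rcases (Nat.Prime.dvd_mul h2).mp h3 with h | h
        · exact absurd ((Nat.prime_dvd_prime_iff_eq h2 hr).mp (h2.dvd_of_dvd_pow h)) h4
        · exact h
      · intro l hl hln
        refine hall l hl (hln.trans (Nat.ordCompl_dvd n r)) ?_
        rintro rfl
        exact Nat.not_dvd_ordCompl hl hn0.ne' hln
      · intro κs hκs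
        have h2 := RMixed_lower R.F R.W' (ide m r) (fun t x => R.wf' t x) ls L hL κs hκs hb
        rw [RMixed_difs_shift u κs (fun t => R.W' t b), h2]
        rfl
      · intro t
        have h2 := hW' (t * u)
        rw [map_add, map_sum] at h2
        rw [← h2]
        congr 1
        have h3 : ∀ w : (ZMod n)ˣ, (R.W' (t * u)) (N w • R.F (emb m n w)) =
            N w * sw ((t : ZMod m) * emb m n' ((π w : (ZMod n')ˣ) : ZMod n')) := by
          intro w
          rw [map_zsmul, R.wf', smul_eq_mul, Units.val_mul, mul_assoc, ← hu]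
          congr 3
          rw [al, mul_assoc, qq_mul_ide_mul r hr]
          exact RMixed_qq_mul_emb hr hn hrn w
        rw [Finset.sum_congr rfl fun w _ => h3 w]
        rw [← Finset.sum_fiberwise_of_maps_to (s := univ) (t := univ) (g := fun w => π w)
          (fun w _ => mem_univ _)]
        refine Finset.sum_congr rfl fun v _ => ?_
        rw [Finset.sum_mul]
        refine Finset.sum_congr rfl fun w hw => ?_
        rw [(mem_filter.mp hw).2]
      · rw [List.forall₂_map_right_iff]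
        refine hks.imp ?_
        intro l k hk
        have h2 : ordCompl[l] n' ∣ ordCompl[l] n := Nat.ordCompl_dvd_ordCompl_of_dvd (Nat.ordCompl_dvd n r) l
        have h3 : ZMod.unitsMap (Nat.ordCompl_dvd n l) k = 1 := hk
        show ZMod.unitsMap (Nat.ordCompl_dvd n' l) (π k) = 1
        have h4 : ZMod.unitsMap (Nat.ordCompl_dvd n' l) (π k) =
            ZMod.unitsMap h2 (ZMod.unitsMap (Nat.ordCompl_dvd n l) k) := by
          rw [hπ, ← MonoidHom.comp_apply, ← MonoidHom.comp_apply, ZMod.unitsMap_comp,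
            ZMod.unitsMap_comp]
        rw [h4, h3, map_one]
    rw [← h1]
    congr 2
    funext v
    rw [Finset.sum_sub_distrib]
    congr 1
    refine Finset.sum_nbij' (fun w => -1 * w) (fun w => -1 * w) ?_ ?_ ?_ ?_ ?_
    · intro w hw
      rw [mem_filter] at hw ⊢
      refine ⟨mem_univ _, ?_⟩
      rw [map_mul, hw.2, hneg]
    · intro w hw
      rw [mem_filter] at hw ⊢
      refine ⟨mem_univ _, ?_⟩
      rw [map_mul, hw.2, hneg]
      simp
    · intro w _
      simp
    · intro w _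
      simp
    · intro w _
      rfl
  -- conclusion
  have hC : ∑ w ∈ univ.filter (fun w => π w = π g), D' w =
      (univ.filter (fun w => π w = π g)).card • D' g := by
    rw [← Finset.sum_const]
    refine Finset.sum_congr rfl fun w hw => ?_
    have h1 : w * g⁻¹ ∈ Kl n r := by
      show π (w * g⁻¹) = 1
      rw [map_mul, (mem_filter.mp hw).2, ← map_mul, mul_inv_cancel, map_one]
    have h2 := hA _ h1 g
    rw [inv_mul_cancel_right] at h2
    exact h2
  rw [hB] at hC
  have hpos : 0 < (univ.filter (fun w => π w = π g)).card :=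
    Finset.card_pos.mpr ⟨g, mem_filter.mpr ⟨mem_univ _, rfl⟩⟩
  rcases smul_eq_zero.mp hC.symm with h | h
  · exact absurd h hpos.ne'
  · exact h

end

end Pool.Agent.FS
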