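import Pool.Agent.FS.RLow
import Pool.Agent.FS.RMixed

set_option autoImplicit false

namespace Pool.Agent.FS

open Finset
open Pool.Agent.Helper9.Fermat (fib mem_fib)

section

variable {m r : ℕ} [NeZero m] {B : Type} [AddCommGroup B] (R : RDatum m r B)

theorem RDatum.lev_mono {L L' : Set ℕ} (h : L ⊆ L') : R.lev L ≤ R.lev L' :=
  AddSubgroup.closure_mono fun _ ⟨z, hz, e⟩ => ⟨z, h hz, e⟩

theorem RDatum.exists_coeff {n : ℕ} [NeZero n] (hn : n ∣ m) (L : Set ℕ) {a : B}
    (ha : a ∈ R.lev (insert n L)) :
    ∃ N : (ZMod n)ˣ → ℤ, ∃ b ∈ R.lev L, a = ∑ w : (ZMod n)ˣ, N w • R.F (emb m n w) + b := by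
  classical
  induction ha using AddSubgroup.closure_induction with
  | mem x hx =>
    obtain ⟨z, hz, rfl⟩ := hx
    rcases hz with hz | hz
    · obtain ⟨w, rfl⟩ := (exists_emb hn z).1 hz
      refine ⟨Pi.single w 1, 0, zero_mem _, ?_⟩
      rw [add_zero, Finset.sum_eq_single w]
      · rw [Pi.single_eq_same, one_smul]
      · intro u _ hu
        rw [Pi.single_eq_of_ne hu, zero_smul]
      · intro h
        exact absurd (mem_univ _) h
    · exact ⟨0, R.F z, AddSubgroup.subset_closure ⟨z, hz, rfl⟩, by simp⟩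
  | zero => exact ⟨0, 0, zero_mem _, by simp⟩
  | add x y _ _ ihx ihy =>
    obtain ⟨N, b, hb, rfl⟩ := ihx
    obtain ⟨N', b', hb', rfl⟩ := ihy
    refine ⟨N + N', b + b', add_mem hb hb', ?_⟩
    simp only [Pi.add_apply, add_smul, sum_add_distrib]
    abel
  | neg x _ ih =>
    obtain ⟨N, b, hb, rfl⟩ := ih
    refine ⟨-N, -b, neg_mem hb, ?_⟩
    simp only [Pi.neg_apply, neg_smul, sum_neg_distrib]
    abel

/-- restriction to a half system -/
theorem RInj_half {n : ℕ} [NeZero n] (hn : n ∣ m) (p : (ZMod n)ˣ → Prop) [DecidablePred p]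
    (hp : ∀ g, p (-1 * g) ↔ ¬ p g) (N : (ZMod n)ˣ → ℤ) :
    ∑ w : (ZMod n)ˣ, (if p w then N w - N (-1 * w) else 0) • R.F (emb m n w) =
      ∑ w : (ZMod n)ˣ, N w • R.F (emb m n w) := by
  have h1 : ∑ w : (ZMod n)ˣ, (if p w then N (-1 * w) else 0) • R.F (emb m n w) =
      - ∑ w : (ZMod n)ˣ, (if p w then 0 else N w) • R.F (emb m n w) := by
    rw [← Equiv.sum_comp (Equiv.mulLeft (-1 : (ZMod n)ˣ)), ← sum_neg_distrib]
    refine sum_congr rfl fun w _ => ?_
    rw [Equiv.coe_mulLeft, emb_neg hn, R.odd, smul_neg]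
    congr 1
    have e : (-1 : (ZMod n)ˣ) * (-1 * w) = w := by rw [← mul_assoc]; simp
    rw [e]
    by_cases h : p w
    · rw [if_pos h, if_neg ((not_congr (hp w)).2 (not_not.2 h))]
    · rw [if_neg h, if_pos ((hp w).2 h)]
  have h2 : ∀ w : (ZMod n)ˣ, (if p w then N w - N (-1 * w) else 0) • R.F (emb m n w) =
      (if p w then N w else 0) • R.F (emb m n w) -
        (if p w then N (-1 * w) else 0) • R.F (emb m n w) := by
    intro w
    rw [← sub_smul]
    by_cases h : p w
    · simp only [if_pos h]
    · simp only [if_neg h, sub_zero]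
  rw [sum_congr rfl fun w _ => h2 w, sum_sub_distrib, h1, sub_neg_eq_add, ← sum_add_distrib]
  refine sum_congr rfl fun w _ => ?_
  rw [← add_smul]
  by_cases h : p w
  · rw [if_pos h, if_pos h, add_zero]
  · rw [if_neg h, if_neg h, zero_add]

theorem RInj_difs {G : Type} [CommGroup G] (p : G → Prop) [DecidablePred p] (K : ℕ → Subgroup G)
    (ls : List ℕ) (hp : ∀ l ∈ ls, ∀ k ∈ K l, ∀ g, p (k * g) ↔ p g) (φ : G → ℤ) (ks : List G)
    (hks : List.Forall₂ (fun l k => k ∈ K l) ls ks) (g : G) :
    difs ks (fun g => if p g then φ g else 0) g = if p g then difs ks φ g else 0 := by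
  induction hks generalizing g with
  | nil => rfl
  | @cons l k ls ks h _ ih =>
    have ih' := ih fun l hl => hp l (List.mem_cons_of_mem _ hl)
    rw [Mixed_difs_cons, Mixed_difs_cons]
    simp only [dif]
    rw [ih', ih']
    have h1 := hp l List.mem_cons_self k h g
    by_cases h2 : p g
    · rw [if_pos h2, if_pos (h1.2 h2), if_pos h2]
    · rw [if_neg h2, if_neg (fun h3 => h2 (h1.1 h3)), if_neg h2, sub_zero]

/-- Module R7 -/
theorem RDatum.inj (hr : r.Prime) (hr3 : 3 ≤ r) (a : B)
    (ha : a ∈ R.lev {n | Uni m n ∧ r ∣ n}) (hW : ∀ t, R.W t a = 0) (hW' : ∀ t, R.W' t a = 0) :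
    a = 0 := by
  classical
  have hm0 : m ≠ 0 := NeZero.ne m
  have key : ∀ N : ℕ, ∀ a ∈ R.lev {n | (Uni m n ∧ r ∣ n) ∧ n ≤ N}, (∀ t, R.W t a = 0) →
      (∀ t, R.W' t a = 0) → a = 0 := by
    intro N
    induction N with
    | zero =>
      intro a ha _ _
      have h1 : R.lev {n | (Uni m n ∧ r ∣ n) ∧ n ≤ 0} ≤ ⊥ := by
        unfold RDatum.lev
        rw [AddSubgroup.closure_le]
        rintro b ⟨z, ⟨⟨⟨hz, _⟩, _⟩, hz0⟩, rfl⟩
        rw [Nat.le_zero.1 hz0] at hz
        exact absurd (Nat.eq_zero_of_zero_dvd hz) hm0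
      exact (AddSubgroup.mem_bot).1 (h1 ha)
    | succ N ih =>
      intro a ha hW hW'
      by_cases hN : Uni m (N + 1) ∧ r ∣ N + 1
      · obtain ⟨hu, hrn⟩ := hN
        obtain ⟨n, hnN⟩ : ∃ n, n = N + 1 := ⟨_, rfl⟩
        rw [← hnN] at hu hrn
        haveI : NeZero n := ⟨by omega⟩
        have hset : {n | (Uni m n ∧ r ∣ n) ∧ n ≤ N + 1} =
            insert n {n | (Uni m n ∧ r ∣ n) ∧ n ≤ N} := by
          ext n'
          simp only [Set.mem_ofPred_eq, Set.mem_insert_iff]
          constructor
          · rintro ⟨h1, h2⟩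
            rcases Nat.lt_or_ge N n' with h | h
            · exact Or.inl (by omega)
            · exact Or.inr ⟨h1, h⟩
          · rintro (h | ⟨h1, h2⟩)
            · subst h
              exact ⟨⟨hu, hrn⟩, by omega⟩
            · exact ⟨h1, by omega⟩
        rw [hset] at ha
        obtain ⟨β, b, hbm, rfl⟩ := R.exists_coeff hu.1 _ ha
        -- the primes
        set ls : List ℕ := (n.primeFactors.erase r).toList with hls
        have hmem : ∀ l, l ∈ ls ↔ l.Prime ∧ l ∣ n ∧ l ≠ r := by
          intro l
          rw [hls, Finset.mem_toList, Finset.mem_erase, Nat.mem_primeFactors]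
          constructor
          · rintro ⟨h1, h2, h3, _⟩
            exact ⟨h2, h3, h1⟩
          · rintro ⟨h1, h2, h3⟩
            exact ⟨h3, h1, h2, NeZero.ne n⟩
        have hmix := R.mixed hr hu hrn ls (fun l hl => (hmem l).1 hl)
          (fun l h1 h2 h3 => (hmem l).2 ⟨h1, h2, h3⟩) {n | (Uni m n ∧ r ∣ n) ∧ n ≤ N}
          (by
            rintro n' ⟨⟨hu', hr'⟩, hn'⟩
            by_contra hcon
            push Not at hcon
            have h1 : n ∣ n' := by
              have h2 : ∀ l : ℕ, l.Prime → l ∣ n → l ∣ n' := by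
                intro l hl hln
                by_cases h : l = r
                · rw [h]; exact hr'
                · exact hcon l ((hmem l).2 ⟨hl, hln, h⟩)
              have hn'0 : n' ≠ 0 := fun h => hm0 (Nat.eq_zero_of_zero_dvd (h ▸ hu'.1))
              rw [← Nat.factorization_le_iff_dvd (NeZero.ne n) hn'0]
              intro l
              by_cases hl : l.Prime
              · by_cases hln : l ∣ n
                · have e1 : ∀ k : ℕ, Uni m k → l ∣ k → k.factorization l =
                      m.factorization l := by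
                    intro k hk hlk
                    have := uni_ordProj hk hl hlk
                    rw [qq] at this
                    exact Nat.pow_right_injective hl.two_le this
                  rw [e1 n hu hln, e1 n' hu' (h2 l hl hln)]
                · rw [Nat.factorization_eq_zero_of_not_dvd hln]
                  exact Nat.zero_le _
              · rw [Nat.factorization_eq_zero_of_not_prime _ hl]
                exact Nat.zero_le _
            have h3 := Nat.le_of_dvd (Nat.pos_of_ne_zero fun h =>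
              hm0 (Nat.eq_zero_of_zero_dvd (h ▸ hu'.1))) h1
            omega)
          β b hbm hW hW'
        -- the half system
        have hhb : hb r = r := by
          unfold hb
          rw [if_neg (by omega)]
        have hhb' : hb r ∣ n := by rw [hhb]; exact hrn
        have hK : ∀ l ∈ ls, ∀ k ∈ Kl n l, ∀ g, Half r (rr (k * g)) ↔ Half r (rr g) := by
          intro l hl k hk g
          obtain ⟨h1, h2, h3⟩ := (hmem l).1 hl
          refine half_mod (n := n) (n' := r) (by rw [hhb]) (Kl_mul_mod hk ?_ g)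
          exact (Nat.Coprime.dvd_of_dvd_mul_left
            (((Nat.coprime_primes hr h1).2 (Ne.symm h3)).pow_right _)
            (by rw [Nat.ordProj_mul_ordCompl_eq_self]; exact hrn))
        have hlow := R.low hr hu hrn ls (Finset.nodup_toList _) (fun l hl => (hmem l).1 hl)
          (fun w => if Half r (rr w) then β w - β (-1 * w) else 0) (by
            intro ks hks g
            rw [RInj_difs (fun w => Half r (rr w)) (Kl n) ls hK (fun w => β w - β (-1 * w)) ks
              hks g]
            by_cases h : Half r (rr g)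
            · rw [if_pos h]
              exact hmix ks hks g
            · rw [if_neg h])
        rw [RInj_half R hu.1 (fun w => Half r (rr w)) (half_neg_iff hr hhb') β] at hlow
        refine ih _ (add_mem (R.lev_mono ?_ hlow) hbm) hW hW'
        rintro n' ⟨l, hl, rfl⟩
        obtain ⟨h1, h2, h3⟩ := (hmem l).1 hl
        refine ⟨⟨uni_ordCompl hu h1, ?_⟩, ?_⟩
        · exact (Nat.Coprime.dvd_of_dvd_mul_left
            (((Nat.coprime_primes hr h1).2 (Ne.symm h3)).pow_right _)
            (by rw [Nat.ordProj_mul_ordCompl_eq_self]; exact hrn))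
        · have h4 : ordCompl[l] n < n := Nat.div_lt_self (Nat.pos_of_ne_zero (NeZero.ne n))
            (Nat.one_lt_pow (h1.factorization_pos_of_dvd (NeZero.ne n) h2).ne' h1.one_lt)
          omega
      · have hset : {n | (Uni m n ∧ r ∣ n) ∧ n ≤ N + 1} = {n | (Uni m n ∧ r ∣ n) ∧ n ≤ N} := by
          ext n'
          simp only [Set.mem_ofPred_eq]
          constructor
          · rintro ⟨h1, h2⟩
            refine ⟨h1, ?_⟩
            by_contra h3
            have : n' = N + 1 := by omega
            exact hN (this ▸ h1)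
          · rintro ⟨h1, h2⟩
            exact ⟨h1, by omega⟩
        rw [hset] at ha
        exact ih a ha hW hW'
  refine key m a (R.lev_mono ?_ ha) hW hW'
  rintro n ⟨h1, h2⟩
  exact ⟨⟨h1, h2⟩, Nat.le_of_dvd (Nat.pos_of_ne_zero hm0) h1.1⟩

end

end Pool.Agent.FS
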