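import Pool.Agent.FS.RNorm
import Pool.Agent.FS.RComb

set_option autoImplicit false

namespace Pool.Agent.FS

open Finset
open Pool.Agent.Helper9.Fermat (fib mem_fib)

section

variable {m r : ℕ} [NeZero m] {B : Type} [AddCommGroup B] (R : RDatum m r B)

theorem RLow_mem_lev {L : Set ℕ} {x : ZMod m} (hx : addOrderOf x ∈ L) : R.F x ∈ R.lev L :=
  AddSubgroup.subset_closure ⟨x, hx, rfl⟩

theorem RLow_coset_mem {n : ℕ} [NeZero n] (hn : Uni m n) (hrn : r ∣ n) {l : ℕ} (hl : l.Prime)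
    (hln : l ∣ n) (hlr : l ≠ r) {L : Set ℕ} (hL : ordCompl[l] n ∈ L) (u : (ZMod n)ˣ) :
    ∑ᶠ k : Kl n l, R.F (emb m n (((k : (ZMod n)ˣ) * u : (ZMod n)ˣ) : ZMod n)) ∈ R.lev L := by
  have ho : addOrderOf (emb m n (u : ZMod n)) = n := (exists_emb hn.1 _).2 ⟨u, rfl⟩
  rw [R.rel n l hn hrn hl hln hlr u]
  refine sub_mem (RLow_mem_lev R ?_) (RLow_mem_lev R ?_)
  · rw [addOrderOf_al_mul l hl, ho]
    exact hL
  · rw [addOrderOf_be_mul l hl (hln.trans hn.1), ho]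
    exact hL

open Classical in
theorem RLow_inv_sum_mem {n : ℕ} [NeZero n] (hn : Uni m n) (hrn : r ∣ n) {l : ℕ} (hl : l.Prime)
    (hln : l ∣ n) (hlr : l ≠ r) {L : Set ℕ} (hL : ordCompl[l] n ∈ L)
    (N : (ZMod n)ˣ → ℤ) (hN : ∀ k ∈ Kl n l, ∀ g, N (k * g) = N g) :
    ∑ w : (ZMod n)ˣ, N w • R.F (emb m n w) ∈ R.lev L := by
  rw [← Finset.sum_fiberwise univ (fun u : (ZMod n)ˣ => (u : (ZMod n)ˣ ⧸ Kl n l))]
  refine sum_mem fun y _ => ?_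
  have h1 : ∀ w ∈ univ.filter (fun u : (ZMod n)ˣ => (u : (ZMod n)ˣ ⧸ Kl n l) = y),
      w * y.out⁻¹ ∈ Kl n l := by
    intro w hw
    rw [mem_filter] at hw
    have h2 : ((w : (ZMod n)ˣ) : (ZMod n)ˣ ⧸ Kl n l) = ((y.out : (ZMod n)ˣ) : _ ⧸ Kl n l) := by
      rw [hw.2, QuotientGroup.out_eq']
    have h3 := QuotientGroup.eq.1 h2.symm
    rwa [mul_comm] at h3
  have h2 : ∑ w ∈ univ.filter (fun u : (ZMod n)ˣ => (u : (ZMod n)ˣ ⧸ Kl n l) = y),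
      N w • R.F (emb m n w) = N y.out •
        ∑ᶠ k : Kl n l, R.F (emb m n (((k : (ZMod n)ˣ) * y.out : (ZMod n)ˣ) : ZMod n)) := by
    rw [finsum_eq_sum_of_fintype, smul_sum]
    symm
    refine Finset.sum_bij (fun k _ => (k : (ZMod n)ˣ) * y.out) ?_ ?_ ?_ ?_
    · intro k _
      rw [mem_filter]
      refine ⟨mem_univ _, ?_⟩
      have h5 : (((k : (ZMod n)ˣ)) : (ZMod n)ˣ ⧸ Kl n l) = 1 := (QuotientGroup.eq_one_iff _).2 k.2
      have h6 : (((k : (ZMod n)ˣ) * y.out : (ZMod n)ˣ) : (ZMod n)ˣ ⧸ Kl n l) =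
          ((k : (ZMod n)ˣ) : (ZMod n)ˣ ⧸ Kl n l) * ((y.out : (ZMod n)ˣ) : (ZMod n)ˣ ⧸ Kl n l) := rfl
      rw [h6, h5, QuotientGroup.out_eq']
      exact one_mul y
    · intro k _ k' _ h
      exact Subtype.ext (mul_right_cancel h)
    · intro w hw
      exact ⟨⟨w * y.out⁻¹, h1 w hw⟩, mem_univ _, by simp⟩
    · intro k _
      rw [hN k k.2]
  rw [h2]
  exact AddSubgroup.zsmul_mem _ (RLow_coset_mem R hn hrn hl hln hlr hL _) _

/-- Module R5 -/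
theorem RDatum.low (hr : r.Prime) {n : ℕ} [NeZero n] (hn : Uni m n) (hrn : r ∣ n) (ls : List ℕ)
    (hnd : ls.Nodup) (hls : ∀ l ∈ ls, l.Prime ∧ l ∣ n ∧ l ≠ r) (γ : (ZMod n)ˣ → ℤ)
    (hγ : ∀ ks : List (ZMod n)ˣ, List.Forall₂ (fun l k => k ∈ Kl n l) ls ks →
      ∀ g, difs ks γ g = 0) :
    ∑ w : (ZMod n)ˣ, γ w • R.F (emb m n w) ∈ R.lev {n' | ∃ l ∈ ls, n' = ordCompl[l] n} := by
  classical
  obtain ⟨κ, hκ⟩ : ∃ κ : ℕ → (ZMod n)ˣ →* (ZMod n)ˣ, ∀ l : ℕ, l.Prime →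
      (∀ g, κ l g ∈ Kl n l) ∧ (∀ g ∈ Kl n l, κ l g = g) ∧
        ∀ l' : ℕ, l'.Prime → l' ≠ l → ∀ g ∈ Kl n l', κ l g = 1 := by
    have h : ∀ l : ℕ, ∃ κ : (ZMod n)ˣ →* (ZMod n)ˣ, l.Prime →
      (∀ g, κ g ∈ Kl n l) ∧ (∀ g ∈ Kl n l, κ g = g) ∧
        ∀ l' : ℕ, l'.Prime → l' ≠ l → ∀ g ∈ Kl n l', κ g = 1 := by
      intro l
      by_cases hl : l.Prime
      · obtain ⟨κ, h1⟩ := exists_kap n l hl
        exact ⟨κ, fun _ => h1⟩
      · exact ⟨1, fun h => absurd h hl⟩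
    choose κ hκ using h
    exact ⟨κ, hκ⟩
  obtain ⟨d, hd1, hd2⟩ := combn (Kl n) κ ls hnd (fun l hl => (hκ l (hls l hl).1).1)
    (fun l hl => (hκ l (hls l hl).1).2.1)
    (fun l hl l' hl' hne => (hκ l (hls l hl).1).2.2 l' (hls l' hl').1 hne) γ hγ
  have h1 : ∀ ls' : List ℕ, (∀ l ∈ ls', l ∈ ls) →
      ∑ w : (ZMod n)ˣ, ((ls'.map fun l => d l w).sum) • R.F (emb m n w) ∈
        R.lev {n' | ∃ l ∈ ls, n' = ordCompl[l] n} := by
    intro ls'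
    induction ls' with
    | nil =>
      intro _
      simp
    | cons l ls' ih =>
      intro hl
      have h2 : ∑ w : (ZMod n)ˣ, (((l :: ls').map fun l => d l w).sum) • R.F (emb m n w) =
          ∑ w : (ZMod n)ˣ, d l w • R.F (emb m n w) +
            ∑ w : (ZMod n)ˣ, ((ls'.map fun l => d l w).sum) • R.F (emb m n w) := by
        rw [← Finset.sum_add_distrib]
        refine Finset.sum_congr rfl fun w _ => ?_
        rw [List.map_cons, List.sum_cons, add_smul]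
      rw [h2]
      have h3 := hl l List.mem_cons_self
      refine add_mem ?_ (ih fun l' hl' => hl l' (List.mem_cons_of_mem _ hl'))
      have h6 : ordCompl[l] n ∈ {n' | ∃ l ∈ ls, n' = ordCompl[l] n} := ⟨l, h3, rfl⟩
      exact RLow_inv_sum_mem R hn hrn (hls l h3).1 (hls l h3).2.1 (hls l h3).2.2 h6
        (d l) (hd1 l h3)
  have h4 := h1 ls fun l hl => hl
  have h5 : ∑ w : (ZMod n)ˣ, γ w • R.F (emb m n w) =
      ∑ w : (ZMod n)ˣ, ((ls.map fun l => d l w).sum) • R.F (emb m n w) :=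
    Finset.sum_congr rfl fun w _ => by rw [hd2 w]
  rw [h5]
  exact h4

end

end Pool.Agent.FS
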