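import Pool.Agent.FS.RDefs

set_option autoImplicit false

namespace Pool.Agent.FS

open Finset
open Pool.Agent.Helper9.Fermat (fib mem_fib)

section R1

variable {m : ℕ} [NeZero m]

/-! ### distributions -/

theorem RNorm_dist_mul {B : Type} [AddCommGroup B] {g : ZMod m → B} {a b : ℕ}
    (iha : ∀ y : ZMod m, ∑ z ∈ fib m a ((a : ZMod m) * y), g z = g ((a : ZMod m) * y))
    (ihb : ∀ y : ZMod m, ∑ z ∈ fib m b ((b : ZMod m) * y), g z = g ((b : ZMod m) * y))
    (hd : a * b ∣ m) (y : ZMod m) :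
    ∑ z ∈ fib m (a * b) (((a * b : ℕ) : ZMod m) * y), g z = g (((a * b : ℕ) : ZMod m) * y) := by
  have ha0 : a ≠ 0 := by
    rintro rfl
    rw [zero_mul] at hd
    exact absurd (Nat.eq_zero_of_zero_dvd hd) (NeZero.ne m)
  have e1 : ((a * b : ℕ) : ZMod m) * y = (a : ZMod m) * ((b : ZMod m) * y) := by
    push_cast
    ring
  rw [e1, ← iha ((b : ZMod m) * y)]
  have e2 : fib m (a * b) ((a : ZMod m) * ((b : ZMod m) * y)) =
      (fib m a ((a : ZMod m) * ((b : ZMod m) * y))).biUnion fun w => fib m b w := by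
    ext z
    rw [mem_biUnion, mem_fib]
    constructor
    · intro hz
      refine ⟨(b : ZMod m) * z, ?_, ?_⟩
      · rw [mem_fib, ← hz]
        push_cast
        ring
      · rw [mem_fib]
    · rintro ⟨w, hw, hz⟩
      rw [mem_fib] at hw hz
      rw [← hw, ← hz]
      push_cast
      ring
  rw [e2, sum_biUnion]
  · refine sum_congr rfl fun w hw => ?_
    rw [mem_fib] at hw
    obtain ⟨v, hv⟩ := exists_mul_of_mul_eq_zero (a := a) (b := b) ha0 hd (w - (b : ZMod m) * y)
      (by rw [mul_sub, hw, sub_self])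
    have hw' : w = (b : ZMod m) * (v + y) := by linear_combination hv
    rw [hw']
    exact ihb (v + y)
  · intro w _ w' _ hww
    rw [Function.onFun, Finset.disjoint_left]
    intro z hz hz'
    rw [mem_fib] at hz hz'
    exact hww (hz.symm.trans hz')

theorem RNorm_dist_one {B : Type} [AddCommGroup B] {g : ZMod m → B} (y : ZMod m) :
    ∑ z ∈ fib m 1 (((1 : ℕ) : ZMod m) * y), g z = g (((1 : ℕ) : ZMod m) * y) := by
  have h : fib m 1 (((1 : ℕ) : ZMod m) * y) = {y} := by
    ext z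
    rw [mem_fib, mem_singleton, Nat.cast_one, one_mul, one_mul]
  rw [h, sum_singleton, Nat.cast_one, one_mul]

/-- the distribution relation for all divisors (as `dist_gen`) -/
theorem isDist_gen {B : Type} [AddCommGroup B] {g : ZMod m → B} (hg : IsDist g) (d : ℕ)
    (hd : d ∣ m) (y : ZMod m) :
    ∑ z ∈ fib m d ((d : ZMod m) * y), g z = g ((d : ZMod m) * y) := by
  induction d using Nat.recOnMul generalizing y with
  | zero => exact absurd (Nat.eq_zero_of_zero_dvd hd) (NeZero.ne m)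
  | one => exact RNorm_dist_one y
  | prime r hr => exact hg r hr hd y
  | mul a b iha ihb =>
    exact RNorm_dist_mul (fun y => iha ((Dvd.intro b rfl).trans hd) y)
      (fun y => ihb ((Dvd.intro_left a rfl).trans hd) y) hd y

theorem RNorm_dist_pow {B : Type} [AddCommGroup B] {g : ZMod m → B} {l : ℕ}
    (hg : ∀ y : ZMod m, ∑ z ∈ fib m l ((l : ZMod m) * y), g z = g ((l : ZMod m) * y))
    (k : ℕ) (hd : l ^ k ∣ m) (y : ZMod m) :
    ∑ z ∈ fib m (l ^ k) (((l ^ k : ℕ) : ZMod m) * y), g z = g (((l ^ k : ℕ) : ZMod m) * y) := by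
  induction k generalizing y with
  | zero => rw [pow_zero]; exact RNorm_dist_one y
  | succ k ih =>
    rw [pow_succ] at hd ⊢
    exact RNorm_dist_mul (fun y => ih ((Dvd.intro _ rfl).trans hd) y) hg hd y

/-! ### the idempotents -/

theorem RNorm_qq_mul (l : ℕ) : qq m l * ordCompl[l] m = m := Nat.ordProj_mul_ordCompl_eq_self m l

theorem RNorm_tot (l : ℕ) : ∃ k, (ordCompl[l] m).totient = k + 1 :=
  ⟨_, (Nat.succ_pred_eq_of_pos (Nat.totient_pos.2 (Nat.ordCompl_pos l (NeZero.ne m)))).symm⟩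

theorem RNorm_qq_dvd (l : ℕ) : qq m l ∣ m := Dvd.intro _ (RNorm_qq_mul l)

theorem RNorm_qq_pos (l : ℕ) : 0 < qq m l := Nat.ordProj_pos m l

theorem RNorm_qq_coprime {l : ℕ} (hl : l.Prime) : (qq m l).Coprime (ordCompl[l] m) :=
  Nat.Coprime.pow_left _ (Nat.coprime_ordCompl hl (NeZero.ne m))

theorem RNorm_qq_ide (l : ℕ) (hl : l.Prime) : (qq m l : ZMod m) * ide m l = qq m l := by
  have h1 : qq m l ^ (ordCompl[l] m).totient ≡ 1 [MOD ordCompl[l] m] :=
    Nat.ModEq.pow_totient (RNorm_qq_coprime hl)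
  have h2 := Nat.ModEq.mul_left' (qq m l) h1
  rw [RNorm_qq_mul l, mul_one, ← ZMod.natCast_eq_natCast_iff] at h2
  rw [ide]
  push_cast at h2
  exact h2

theorem RNorm_compl_ide (l : ℕ) : ((ordCompl[l] m : ℕ) : ZMod m) * ide m l = 0 := by
  obtain ⟨k, hk⟩ := RNorm_tot (m := m) l
  have h1 : ((ordCompl[l] m : ℕ) : ZMod m) * (qq m l : ZMod m) = 0 := by
    rw [← Nat.cast_mul, mul_comm, RNorm_qq_mul l, ZMod.natCast_self]
  rw [ide, hk, pow_succ]
  linear_combination (qq m l : ZMod m) ^ k * h1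

theorem ide_mul_self (l : ℕ) (hl : l.Prime) : ide m l * ide m l = ide m l := by
  obtain ⟨k, hk⟩ := RNorm_tot (m := m) l
  have h1 := RNorm_qq_ide (m := m) l hl
  have e : ide m l = (qq m l : ZMod m) ^ k * (qq m l : ZMod m) := by rw [ide, hk, pow_succ]
  calc ide m l * ide m l = (qq m l : ZMod m) ^ k * (qq m l : ZMod m) * ide m l := by rw [← e]
    _ = (qq m l : ZMod m) ^ k * ((qq m l : ZMod m) * ide m l) := by ring
    _ = ide m l := by rw [h1, ← e]

/-- `ide m l` is `0` on the `l`-part and `1` on the rest -/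
theorem qq_mul_ide_mul (l : ℕ) (hl : l.Prime) (x : ZMod m) :
    (qq m l : ZMod m) * (ide m l * x) = (qq m l : ZMod m) * x := by
  rw [← mul_assoc, RNorm_qq_ide l hl]

theorem RNorm_ord_dvd (x : ZMod m) : addOrderOf x ∣ m := by
  apply addOrderOf_dvd_of_nsmul_eq_zero
  rw [nsmul_eq_mul, ZMod.natCast_self, zero_mul]

/-- if `m' x = 0` with `m'` the part of `m` prime to `l`, then `e_l x = x` -/
theorem RNorm_ide_fix (l : ℕ) (hl : l.Prime) (x : ZMod m)
    (hx : ((ordCompl[l] m : ℕ) : ZMod m) * x = 0) : ide m l * x = x := by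
  have h1 : qq m l ^ (ordCompl[l] m).totient ≡ 1 [MOD ordCompl[l] m] :=
    Nat.ModEq.pow_totient (RNorm_qq_coprime hl)
  obtain ⟨c, hc⟩ := (Nat.modEq_iff_dvd.1 h1.symm)
  have h2 : ide m l - 1 = ((ordCompl[l] m : ℕ) : ZMod m) * (c : ZMod m) := by
    have h3 := congrArg (Int.cast : ℤ → ZMod m) hc
    rw [ide]
    simp only [Int.cast_sub, Int.cast_natCast, Int.cast_mul, Nat.cast_pow] at h3
    simpa using h3
  linear_combination x * h2 + (c : ZMod m) * hx

theorem RNorm_fix_iff (l : ℕ) (hl : l.Prime) (x : ZMod m) (hx : ¬ l ∣ addOrderOf x) :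
    ((ordCompl[l] m : ℕ) : ZMod m) * x = 0 := by
  have h1 : addOrderOf x ∣ ordCompl[l] m := by
    have h2 : (addOrderOf x).Coprime (qq m l) := by
      apply Nat.Coprime.pow_right
      exact ((Nat.Prime.coprime_iff_not_dvd hl).2 hx).symm
    apply h2.dvd_of_dvd_mul_left
    rw [RNorm_qq_mul l]
    exact RNorm_ord_dvd x
  rw [← nsmul_eq_mul, ← addOrderOf_dvd_iff_nsmul_eq_zero]
  exact h1

theorem ide_mul_eq_self (l : ℕ) (hl : l.Prime) (x : ZMod m) (hx : ¬ l ∣ addOrderOf x) :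
    ide m l * x = x := RNorm_ide_fix l hl x (RNorm_fix_iff l hl x hx)

theorem RNorm_ordProj_dvd (l : ℕ) (x : ZMod m) : ordProj[l] (addOrderOf x) ∣ qq m l := by
  have hm0 : m ≠ 0 := NeZero.ne m
  have h0 : addOrderOf x ≠ 0 := (addOrderOf_pos x).ne'
  rw [qq]
  apply pow_dvd_pow
  exact (Nat.factorization_le_iff_dvd h0 hm0).2 (RNorm_ord_dvd x) l

theorem addOrderOf_ide_mul (l : ℕ) (hl : l.Prime) (x : ZMod m) :
    addOrderOf (ide m l * x) = ordCompl[l] (addOrderOf x) := by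
  have h0 : addOrderOf x ≠ 0 := (addOrderOf_pos x).ne'
  have hcop : (qq m l).Coprime (ordCompl[l] (addOrderOf x)) :=
    Nat.Coprime.pow_left _ (Nat.coprime_ordCompl hl h0)
  apply Nat.dvd_antisymm
  · rw [addOrderOf_dvd_iff_nsmul_eq_zero, nsmul_eq_mul]
    -- `q o' x = 0`
    have h1 : (qq m l : ZMod m) * (((ordCompl[l] (addOrderOf x) : ℕ) : ZMod m) * x) = 0 := by
      obtain ⟨c, hc⟩ := RNorm_ordProj_dvd l x
      have h2 : ((addOrderOf x : ℕ) : ZMod m) * x = 0 := by
        rw [← nsmul_eq_mul]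
        exact addOrderOf_nsmul_eq_zero x
      have h3 : ((addOrderOf x : ℕ) : ZMod m) = ((ordProj[l] (addOrderOf x) : ℕ) : ZMod m) *
          ((ordCompl[l] (addOrderOf x) : ℕ) : ZMod m) := by
        rw [← Nat.cast_mul, Nat.ordProj_mul_ordCompl_eq_self]
      have h4 : (qq m l : ZMod m) = ((ordProj[l] (addOrderOf x) : ℕ) : ZMod m) * (c : ZMod m) := by
        rw [← Nat.cast_mul, ← hc]
      rw [h4]
      rw [h3] at h2
      linear_combination (c : ZMod m) * h2
    obtain ⟨k, hk⟩ := RNorm_tot (m := m) l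
    rw [ide, hk, pow_succ]
    linear_combination (qq m l : ZMod m) ^ k * h1
  · have h1 : addOrderOf x ∣ qq m l * addOrderOf (ide m l * x) := by
      rw [addOrderOf_dvd_iff_nsmul_eq_zero, nsmul_eq_mul]
      have h2 : ((addOrderOf (ide m l * x) : ℕ) : ZMod m) * (ide m l * x) = 0 := by
        rw [← nsmul_eq_mul]
        exact addOrderOf_nsmul_eq_zero _
      push_cast
      have h3 := qq_mul_ide_mul (m := m) l hl x
      linear_combination (qq m l : ZMod m) * h2 -
        ((addOrderOf (ide m l * x) : ℕ) : ZMod m) * h3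
    exact hcop.symm.dvd_of_dvd_mul_left ((Nat.ordCompl_dvd _ l).trans h1)

theorem RNorm_al (l : ℕ) (hl : l.Prime) (x : ZMod m) : al m l * x = (qq m l : ZMod m) * x := by
  rw [al, mul_assoc, qq_mul_ide_mul l hl]

theorem RNorm_ord_nsmul {d : ℕ} (y : ZMod m) (h : (addOrderOf y).Coprime d) :
    addOrderOf ((d : ZMod m) * y) = addOrderOf y := by
  rw [← nsmul_eq_mul]
  exact Nat.Coprime.addOrderOf_nsmul h

theorem addOrderOf_al_mul (l : ℕ) (hl : l.Prime) (x : ZMod m) :
    addOrderOf (al m l * x) = ordCompl[l] (addOrderOf x) := by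
  have h0 : addOrderOf x ≠ 0 := (addOrderOf_pos x).ne'
  rw [al, mul_assoc, RNorm_ord_nsmul, addOrderOf_ide_mul l hl]
  rw [addOrderOf_ide_mul l hl]
  exact (Nat.Coprime.pow_left _ (Nat.coprime_ordCompl hl h0)).symm

theorem RNorm_qq_div (l : ℕ) (hl : l.Prime) (hlm : l ∣ m) :
    ∃ a, qq m l = l ^ (a + 1) ∧ qq m l / l = l ^ a := by
  have hm0 : m ≠ 0 := NeZero.ne m
  obtain ⟨a, ha⟩ : ∃ a, m.factorization l = a + 1 := by
    refine ⟨m.factorization l - 1, ?_⟩
    have := hl.factorization_pos_of_dvd hm0 hlm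
    omega
  refine ⟨a, by rw [qq, ha], ?_⟩
  rw [qq, ha, pow_succ]
  exact Nat.mul_div_cancel _ hl.pos

/-- for `l ∣ m` only (otherwise `be m l = 0`) -/
theorem addOrderOf_be_mul (l : ℕ) (hl : l.Prime) (hlm : l ∣ m) (x : ZMod m) :
    addOrderOf (be m l * x) = ordCompl[l] (addOrderOf x) := by
  have h0 : addOrderOf x ≠ 0 := (addOrderOf_pos x).ne'
  obtain ⟨a, -, ha⟩ := RNorm_qq_div (m := m) l hl hlm
  rw [be, ha, mul_assoc, RNorm_ord_nsmul, addOrderOf_ide_mul l hl]
  rw [addOrderOf_ide_mul l hl]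
  exact (Nat.Coprime.pow_left _ (Nat.coprime_ordCompl hl h0)).symm

/-- a number prime to the part of `m` off `l` acts as a unit there -/
theorem RNorm_exists_unit (l : ℕ) (hl : l.Prime) (d : ℕ) (hd : d.Coprime (ordCompl[l] m)) :
    ∃ u : (ZMod m)ˣ, ∀ x : ZMod m, (d : ZMod m) * (ide m l * x) = (u : ZMod m) * (ide m l * x) := by
  -- the element `1 + (d - 1) e`
  have hi := ide_mul_self (m := m) l hl
  obtain ⟨d', hd'⟩ : ∃ d' : ℕ, d * d' ≡ 1 [MOD ordCompl[l] m] := by
    haveI : NeZero (ordCompl[l] m) := ⟨(Nat.ordCompl_pos l (NeZero.ne m)).ne'⟩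
    refine ⟨((d : ZMod (ordCompl[l] m))⁻¹).val, ?_⟩
    rw [← ZMod.natCast_eq_natCast_iff]
    push_cast
    rw [ZMod.natCast_zmod_val]
    exact ZMod.coe_mul_inv_eq_one d hd
  have h1 : (d : ZMod m) * (d' : ZMod m) * ide m l = ide m l := by
    obtain ⟨c, hc⟩ := Nat.modEq_iff_dvd.1 hd'
    have h2 : 1 - (d : ZMod m) * (d' : ZMod m) = ((ordCompl[l] m : ℕ) : ZMod m) * (c : ZMod m) := by
      have h3 := congrArg (Int.cast : ℤ → ZMod m) hc
      simp only [Int.cast_sub, Int.cast_natCast, Int.cast_mul, Nat.cast_mul, Nat.cast_one] at h3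
      simpa using h3
    linear_combination -(ide m l) * h2 - (c : ZMod m) * RNorm_compl_ide (m := m) l
  refine ⟨⟨1 + ((d : ZMod m) - 1) * ide m l, 1 + ((d' : ZMod m) - 1) * ide m l, ?_, ?_⟩, ?_⟩
  · linear_combination h1 + ((d : ZMod m) - 1) * ((d' : ZMod m) - 1) * hi
  · linear_combination h1 + ((d : ZMod m) - 1) * ((d' : ZMod m) - 1) * hi
  · intro x
    show (d : ZMod m) * (ide m l * x) = (1 + ((d : ZMod m) - 1) * ide m l) * (ide m l * x)
    linear_combination -((d : ZMod m) - 1) * x * hi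

/-- multiplication by `al`, `be` is multiplication by a unit, up to `ide` -/
theorem exists_unit_al (l : ℕ) (hl : l.Prime) : ∃ u : (ZMod m)ˣ, ∀ x : ZMod m,
    al m l * x = (u : ZMod m) * (ide m l * x) := by
  obtain ⟨u, hu⟩ := RNorm_exists_unit (m := m) l hl (qq m l) (RNorm_qq_coprime hl)
  exact ⟨u, fun x => by rw [al, mul_assoc]; exact hu x⟩

theorem exists_unit_be (l : ℕ) (hl : l.Prime) (hlm : l ∣ m) : ∃ u : (ZMod m)ˣ, ∀ x : ZMod m,
    be m l * x = (u : ZMod m) * (ide m l * x) := by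
  obtain ⟨a, -, ha⟩ := RNorm_qq_div (m := m) l hl hlm
  obtain ⟨u, hu⟩ := RNorm_exists_unit (m := m) l hl (qq m l / l) (by
    rw [ha]
    exact Nat.Coprime.pow_left _ (Nat.coprime_ordCompl hl (NeZero.ne m)))
  exact ⟨u, fun x => by rw [be, mul_assoc]; exact hu x⟩

/-- units congruent to `1` off `l` fix the part prime to `l` -/
theorem Kl_mul_ide (l : ℕ) (hl : l.Prime) (k : (ZMod m)ˣ) (hk : k ∈ Kl m l) (x : ZMod m) :
    (k : ZMod m) * (ide m l * x) = ide m l * x := by
  rw [mem_Kl] at hk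
  obtain ⟨c, hc⟩ := Nat.modEq_iff_dvd.1 hk
  have h2 : 1 - (k : ZMod m) = ((ordCompl[l] m : ℕ) : ZMod m) * (c : ZMod m) := by
    have h3 := congrArg (Int.cast : ℤ → ZMod m) hc
    simp only [Int.cast_sub, Int.cast_natCast, Int.cast_mul, Nat.cast_one, Int.cast_one, rr,
      ZMod.natCast_zmod_val] at h3
    simpa using h3
  linear_combination -(ide m l * x) * h2 - (c : ZMod m) * x * RNorm_compl_ide (m := m) l


omit [NeZero m] in
theorem uni_pos {n : ℕ} (hm : m ≠ 0) (hn : Uni m n) : n ≠ 0 := by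
  rintro rfl
  exact hm (Nat.eq_zero_of_zero_dvd hn.1)

theorem uni_ordCompl {n l : ℕ} (hn : Uni m n) (hl : l.Prime) : Uni m (ordCompl[l] n) := by
  have hm0 : m ≠ 0 := NeZero.ne m
  have hn0 : n ≠ 0 := uni_pos hm0 hn
  obtain ⟨⟨c, hc⟩, hcop⟩ := hn
  have hmn : m / n = c := by rw [hc]; exact Nat.mul_div_cancel_left c (Nat.pos_of_ne_zero hn0)
  rw [hmn] at hcop
  have hp := Nat.ordProj_mul_ordCompl_eq_self n l
  have hpos : 0 < ordCompl[l] n := Nat.ordCompl_pos l hn0
  refine ⟨(Nat.ordCompl_dvd n l).trans (Dvd.intro c hc.symm), ?_⟩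
  have h1 : m / (ordCompl[l] n) = ordProj[l] n * c := by
    apply Nat.div_eq_of_eq_mul_right hpos
    calc m = n * c := hc
      _ = ordProj[l] n * ordCompl[l] n * c := by rw [hp]
      _ = ordCompl[l] n * (ordProj[l] n * c) := by ring
  rw [h1]
  apply Nat.Coprime.mul_right
  · exact (Nat.Coprime.pow_left _ (Nat.coprime_ordCompl hl hn0)).symm
  · exact Nat.Coprime.coprime_dvd_left (Nat.ordCompl_dvd n l) hcop

theorem uni_ordProj {n l : ℕ} (hn : Uni m n) (hl : l.Prime) (hln : l ∣ n) :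
    ordProj[l] n = qq m l := by
  have hm0 : m ≠ 0 := NeZero.ne m
  have hn0 : n ≠ 0 := uni_pos hm0 hn
  obtain ⟨⟨c, hc⟩, hcop⟩ := hn
  have hmn : m / n = c := by rw [hc]; exact Nat.mul_div_cancel_left c (Nat.pos_of_ne_zero hn0)
  have hc0 : c ≠ 0 := by rintro rfl; rw [mul_zero] at hc; exact hm0 hc
  rw [hmn] at hcop
  have hlc : ¬ l ∣ c := by
    intro h
    have h2 := Nat.dvd_gcd hln h
    rw [hcop] at h2
    exact hl.one_lt.ne' (Nat.dvd_one.1 h2)
  have h1 : m.factorization l = n.factorization l := by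
    rw [hc, Nat.factorization_mul hn0 hc0]
    show n.factorization l + c.factorization l = _
    rw [Nat.factorization_eq_zero_of_not_dvd hlc, add_zero]
  rw [qq, h1]

theorem card_Kl (l : ℕ) (hl : l.Prime) (hlm : l ∣ m) :
    Nat.card (Kl m l) = qq m l / l * (l - 1) := by
  have hm0 : m ≠ 0 := NeZero.ne m
  have hpos : 0 < ordCompl[l] m := Nat.ordCompl_pos l hm0
  haveI : NeZero (ordCompl[l] m) := ⟨hpos.ne'⟩
  have h1 := Subgroup.card_eq_card_quotient_mul_card_subgroup (Kl m l)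
  have h2 : Nat.card ((ZMod m)ˣ ⧸ Kl m l) = Nat.card (ZMod (ordCompl[l] m))ˣ :=
    Nat.card_congr (QuotientGroup.quotientKerEquivOfSurjective _
      (ZMod.unitsMap_surjective (Nat.ordCompl_dvd m l))).toEquiv
  rw [h2, Nat.card_eq_fintype_card, Nat.card_eq_fintype_card, ZMod.card_units_eq_totient,
    ZMod.card_units_eq_totient] at h1
  obtain ⟨a, ha⟩ : ∃ a, m.factorization l = a + 1 := by
    refine ⟨m.factorization l - 1, ?_⟩
    have := hl.factorization_pos_of_dvd hm0 hlm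
    omega
  have h3 : m.totient = (l ^ a * (l - 1)) * (ordCompl[l] m).totient := by
    conv_lhs => rw [← Nat.ordProj_mul_ordCompl_eq_self m l]
    rw [Nat.totient_mul (Nat.Coprime.pow_left _ (Nat.coprime_ordCompl hl hm0)), ha,
      Nat.totient_prime_pow_succ hl]
  have h4 : qq m l / l = l ^ a := by
    rw [qq, ha, pow_succ]
    exact Nat.mul_div_cancel _ hl.pos
  rw [h4]
  have h5 : 0 < (ordCompl[l] m).totient := Nat.totient_pos.2 hpos
  rw [h3, mul_comm] at h1
  exact (Nat.eq_of_mul_eq_mul_left h5 h1).symm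

omit [NeZero m] in
theorem emb_modEq {n a b : ℕ} (hn : n ∣ m) (h : a ≡ b [MOD n]) :
    ((m / n * a : ℕ) : ZMod m) = ((m / n * b : ℕ) : ZMod m) := by
  rw [ZMod.natCast_eq_natCast_iff]
  have h1 := Nat.ModEq.mul_left' (m / n) h
  rwa [Nat.div_mul_cancel hn] at h1

/-- the same for the units of `ℤ/m` -/
theorem rel_units {B : Type} [AddCommGroup B] {g : ZMod m → B} {n l : ℕ} (hn : Uni m n)
    (hl : l.Prime) (hln : l ∣ n) (u : (ZMod n)ˣ) :
    ∑ᶠ k : Kl n l, g (emb m n (((k : (ZMod n)ˣ) * u : (ZMod n)ˣ) : ZMod n)) =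
      ∑ᶠ k : Kl m l, g (((k : (ZMod m)ˣ) : ZMod m) * emb m n u) := by
  have hm0 : m ≠ 0 := NeZero.ne m
  have hn0 : n ≠ 0 := uni_pos hm0 hn
  haveI : NeZero n := ⟨hn0⟩
  have hqq := uni_ordProj hn hl hln
  obtain ⟨hnm, hcop⟩ := hn
  obtain ⟨c, hc⟩ := id hnm
  have hmn : m / n = c := by rw [hc]; exact Nat.mul_div_cancel_left c (Nat.pos_of_ne_zero hn0)
  have hc0 : c ≠ 0 := by rintro rfl; rw [mul_zero] at hc; exact hm0 hc
  rw [hmn] at hcop
  -- residues
  have hres : ∀ k : (ZMod m)ˣ, rr (ZMod.unitsMap hnm k) ≡ rr k [MOD n] := by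
    intro k
    rw [← ZMod.natCast_eq_natCast_iff, rr, rr, ZMod.natCast_zmod_val, ZMod.unitsMap_def,
      Units.coe_map]
    change (ZMod.castHom hnm (ZMod n)) (k : ZMod m) = _
    rw [ZMod.castHom_apply, ZMod.natCast_val]
  have hlc : ¬ l ∣ c := by
    intro h
    have h2 := Nat.dvd_gcd hln h
    rw [hcop] at h2
    exact hl.one_lt.ne' (Nat.dvd_one.1 h2)
  have hfac : m.factorization l = n.factorization l := by
    rw [hc, Nat.factorization_mul hn0 hc0]
    show n.factorization l + c.factorization l = _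
    rw [Nat.factorization_eq_zero_of_not_dvd hlc, add_zero]
  have hcompl : ordCompl[l] m = ordCompl[l] n * c := by
    rw [hfac]
    apply Nat.div_eq_of_eq_mul_right (Nat.ordProj_pos n l)
    rw [← mul_assoc, Nat.ordProj_mul_ordCompl_eq_self]
    exact hc
  have hmem : ∀ k ∈ Kl m l, ZMod.unitsMap hnm k ∈ Kl n l := by
    intro k hk
    rw [mem_Kl] at hk ⊢
    rw [hcompl] at hk
    exact ((hres k).of_dvd (Nat.ordCompl_dvd n l)).trans (hk.of_dvd (Dvd.intro c rfl))
  let e : Kl m l → Kl n l := fun k => ⟨ZMod.unitsMap hnm k, hmem k k.2⟩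
  have hinj : Function.Injective e := by
    intro k k' h
    have h1 : ZMod.unitsMap hnm (k : (ZMod m)ˣ) = ZMod.unitsMap hnm (k' : (ZMod m)ˣ) :=
      congrArg Subtype.val h
    have h2 : rr (k : (ZMod m)ˣ) ≡ rr (k' : (ZMod m)ˣ) [MOD n] :=
      (hres k).symm.trans (by rw [h1]; exact hres k')
    have h3 : rr (k : (ZMod m)ˣ) ≡ rr (k' : (ZMod m)ˣ) [MOD c] := by
      have a1 := mem_Kl.1 k.2
      have a2 := mem_Kl.1 k'.2
      rw [hcompl] at a1 a2
      exact (a1.of_dvd (Dvd.intro_left _ rfl)).trans (a2.of_dvd (Dvd.intro_left _ rfl)).symm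
    apply Subtype.ext
    apply rr_inj
    have h4 := (Nat.modEq_and_modEq_iff_modEq_mul hcop).1 ⟨h2, h3⟩
    have h5 : ∀ x y : ℕ, x ≡ y [MOD n * c] → x ≡ y [MOD m] := by
      intro x y hxy
      rw [hc]
      exact hxy
    exact h5 _ _ h4
  have hbij : Function.Bijective e := by
    apply hinj.bijective_of_nat_card_le
    have hqn : qq n l = qq m l := by rw [← hqq, qq]
    rw [card_Kl l hl hln, card_Kl l hl (hln.trans hnm), hqn]
  symm
  refine finsum_eq_of_bijective e hbij ?_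
  intro k
  congr 1
  show ((k : (ZMod m)ˣ) : ZMod m) * emb m n u = emb m n ((ZMod.unitsMap hnm k * u : (ZMod n)ˣ) : ZMod n)
  have h1 : (((ZMod.unitsMap hnm (k : (ZMod m)ˣ)) * u : (ZMod n)ˣ) : ZMod n).val ≡
      rr (k : (ZMod m)ˣ) * (u : ZMod n).val [MOD n] :=
    (rr_mul _ _).trans ((hres k).mul_right _)
  rw [emb, emb, emb_modEq hnm h1]
  push_cast
  rw [rr, ZMod.natCast_zmod_val]
  ring


/-- **norm formula** -/
theorem rel_of_dist {B : Type} [AddCommGroup B] {g : ZMod m → B} {n l : ℕ} (hn : Uni m n)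
    (hl : l.Prime) (hln : l ∣ n)
    (hg : ∀ y : ZMod m, ∑ z ∈ fib m l ((l : ZMod m) * y), g z = g ((l : ZMod m) * y)) :
    Rel g n l := by
  classical
  intro w
  have hm0 : m ≠ 0 := NeZero.ne m
  have hn0 : n ≠ 0 := uni_pos hm0 hn
  haveI : NeZero n := ⟨hn0⟩
  have hqq := uni_ordProj hn hl hln
  obtain ⟨hnm, hu⟩ := hn
  have hlm : l ∣ m := hln.trans hnm
  set n' := ordCompl[l] n with hn'
  obtain ⟨a, ha⟩ : ∃ a, n.factorization l = a + 1 := by
    refine ⟨n.factorization l - 1, ?_⟩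
    have := hl.factorization_pos_of_dvd hn0 hln
    omega
  set q := l ^ (a + 1) with hq
  have hqn : n = q * n' := by
    rw [hq, ← ha]
    exact (Nat.ordProj_mul_ordCompl_eq_self n l).symm
  have hqqq : qq m l = q := by rw [← hqq, ha]
  have hqdiv : qq m l / l = l ^ a := by
    rw [hqqq, hq, pow_succ]
    exact Nat.mul_div_cancel _ hl.pos
  have hcop : l.Coprime n' := Nat.coprime_ordCompl hl hn0
  have hql : q = l ^ a * l := pow_succ l a
  have hqm : q ∣ m := (hqn ▸ Dvd.intro n' rfl : q ∣ n).trans hnm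
  have hqlm : l ^ a ∣ m := (hql ▸ Dvd.intro l rfl : l ^ a ∣ q).trans hqm
  have hn'0 : n' ≠ 0 := by rintro h; rw [h, mul_zero] at hqn; exact hn0 hqn
  haveI : NeZero n' := ⟨hn'0⟩
  set z0 : ZMod m := emb m n (w : ZMod n) with hz0
  have hord0 : addOrderOf z0 = n := (exists_emb hnm z0).2 ⟨w, rfl⟩
  set z1 : ZMod m := ide m l * z0 with hz1
  have hqz : (q : ZMod m) * z1 = (q : ZMod m) * z0 := by
    rw [hz1, ← hqqq]
    exact qq_mul_ide_mul l hl z0
  have hlq : (q : ZMod m) = ((l ^ a : ℕ) : ZMod m) * (l : ZMod m) := by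
    rw [hql]
    push_cast
    ring
  have hordz1 : addOrderOf z1 = n' := by rw [hz1, addOrderOf_ide_mul l hl, hord0]
  have hn'z1 : (n' : ZMod m) * z1 = 0 := by
    rw [← nsmul_eq_mul, ← hordz1]
    exact addOrderOf_nsmul_eq_zero z1
  have hnz0 : (n' : ZMod m) * ((q : ZMod m) * z0) = 0 := by
    rw [← hqz]
    linear_combination (q : ZMod m) * hn'z1
  -- cancellation of `l` on the elements killed by `n'`
  have hcanc : ∀ y : ZMod m, (n' : ZMod m) * y = 0 → (l : ZMod m) * y = 0 → y = 0 := by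
    intro y h1 h2
    have h3 : addOrderOf y ∣ n' := by
      rw [addOrderOf_dvd_iff_nsmul_eq_zero, nsmul_eq_mul]
      exact h1
    have h4 : addOrderOf y ∣ l := by
      rw [addOrderOf_dvd_iff_nsmul_eq_zero, nsmul_eq_mul]
      exact h2
    have h5 : addOrderOf y ∣ 1 := by
      have := Nat.dvd_gcd h4 h3
      rwa [hcop] at this
    rw [Nat.dvd_one, AddMonoid.addOrderOf_eq_one_iff] at h5
    exact h5
  have ho1 : addOrderOf ((q : ZMod m) * z0) = n' := by
    rw [← nsmul_eq_mul, addOrderOf_nsmul' z0 (pow_ne_zero _ hl.ne_zero), hord0, hqn,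
      Nat.gcd_eq_right (Dvd.intro n' rfl), Nat.mul_div_cancel_left n' (pow_pos hl.pos _)]
  -- the characterisation of the elements of smaller order
  have hX2 : (fib m q ((q : ZMod m) * z0)).filter (fun z => ¬ addOrderOf z = n) =
      fib m (l ^ a) (((l ^ a : ℕ) : ZMod m) * z1) := by
    ext z
    rw [mem_filter, mem_fib, mem_fib]
    constructor
    · rintro ⟨hz, ho⟩
      have h1 : addOrderOf z ∣ n := by
        rw [addOrderOf_dvd_iff_nsmul_eq_zero, nsmul_eq_mul]
        have h2 : (n : ZMod m) = (n' : ZMod m) * (q : ZMod m) := by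
          rw [← Nat.cast_mul, mul_comm n' q, ← hqn]
        rw [h2, mul_assoc, hz, hnz0]
      have h2 : n' ∣ addOrderOf z := by
        rw [← ho1, ← hz, ← nsmul_eq_mul]
        exact addOrderOf_smul_dvd q
      obtain ⟨N, hN⟩ := h2
      have h3 : N ∣ l ^ (a + 1) := by
        rw [hN, hqn, mul_comm n' N] at h1
        exact Nat.dvd_of_mul_dvd_mul_right (Nat.pos_of_ne_zero hn'0) h1
      obtain ⟨j, hj, rfl⟩ := (Nat.dvd_prime_pow hl).1 h3
      have h4 : j ≤ a := by
        rcases Nat.lt_or_ge j (a + 1) with h | h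
        · omega
        · exfalso
          apply ho
          have : j = a + 1 := by omega
          rw [hN, this, hqn, mul_comm]
      have h5 : (n' : ZMod m) * (((l ^ a : ℕ) : ZMod m) * z) = 0 := by
        have h6 : addOrderOf z ∣ n' * l ^ a := by
          rw [hN]
          exact Nat.mul_dvd_mul_left n' (pow_dvd_pow l h4)
        rw [addOrderOf_dvd_iff_nsmul_eq_zero, nsmul_eq_mul] at h6
        push_cast at h6 ⊢
        linear_combination h6
      have h7 : ((l ^ a : ℕ) : ZMod m) * z - ((l ^ a : ℕ) : ZMod m) * z1 = 0 := by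
        apply hcanc
        · linear_combination h5 - ((l ^ a : ℕ) : ZMod m) * hn'z1
        · linear_combination hz - hqz - (z - z1) * hlq
      exact sub_eq_zero.1 h7
    · intro hz
      have h1 : (q : ZMod m) * z = (q : ZMod m) * z0 := by
        linear_combination (l : ZMod m) * hz + hqz + (z - z1) * hlq
      refine ⟨h1, ?_⟩
      intro ho
      have h3 : ((n' * l ^ a : ℕ) : ZMod m) * z = 0 := by
        push_cast at hz ⊢
        linear_combination (n' : ZMod m) * hz + (l : ZMod m) ^ a * hn'z1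
      rw [← nsmul_eq_mul, ← addOrderOf_dvd_iff_nsmul_eq_zero, ho, hqn, mul_comm n' (l ^ a)] at h3
      have h4 := Nat.dvd_of_mul_dvd_mul_right (Nat.pos_of_ne_zero hn'0) h3
      have h5 := Nat.le_of_dvd (pow_pos hl.pos a) h4
      rw [hql] at h5
      have h6 := hl.two_le
      have h7 : 0 < l ^ a := pow_pos hl.pos a
      nlinarith
  have hsplit := Finset.sum_filter_add_sum_filter_not (fib m q ((q : ZMod m) * z0))
    (fun z => addOrderOf z = n) g
  rw [hX2, RNorm_dist_pow hg (a + 1) hqm z0, RNorm_dist_pow hg a hqlm z1] at hsplit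
  -- the sum over the coset
  have hcoset : ∑ᶠ k : Kl n l, g (emb m n (((k : (ZMod n)ˣ) * w : (ZMod n)ˣ) : ZMod n)) =
      ∑ z ∈ (fib m q ((q : ZMod m) * z0)).filter (fun z => addOrderOf z = n), g z := by
    rw [finsum_eq_sum_of_fintype]
    refine Finset.sum_bij (fun k _ => emb m n (((k : (ZMod n)ˣ) * w : (ZMod n)ˣ) : ZMod n))
      ?_ ?_ ?_ ?_
    · intro k _
      rw [mem_filter, mem_fib]
      refine ⟨?_, (exists_emb hnm _).2 ⟨_, rfl⟩⟩
      rw [hz0, mul_emb_eq_iff hnm hqn]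
      have hk := k.2
      change ZMod.unitsMap (Nat.ordCompl_dvd n l) (k : (ZMod n)ˣ) = 1 at hk
      have h1 : ZMod.unitsMap (Nat.ordCompl_dvd n l) ((k : (ZMod n)ˣ) * w) =
          ZMod.unitsMap (Nat.ordCompl_dvd n l) w := by
        rw [map_mul, hk, one_mul]
      have h2 := congrArg (fun u : (ZMod n')ˣ => (u : ZMod n')) h1
      exact h2
    · intro k _ k' _ h
      have h1 := emb_inj hnm h
      have h2 := Units.val_injective h1
      exact Subtype.ext (mul_right_cancel h2)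
    · intro z hz
      rw [mem_filter, mem_fib] at hz
      obtain ⟨u, hu'⟩ := (exists_emb hnm z).1 hz.2
      have h1 := hz.1
      rw [hu', hz0, mul_emb_eq_iff hnm hqn] at h1
      have h2 : u * w⁻¹ ∈ Kl n l := by
        change ZMod.unitsMap (Nat.ordCompl_dvd n l) (u * (w : (ZMod n)ˣ)⁻¹) = 1
        rw [map_mul, map_inv, mul_inv_eq_one]
        ext
        exact h1
      refine ⟨⟨u * w⁻¹, h2⟩, mem_univ _, ?_⟩
      rw [hu']
      congr 1
      simp
    · intro k _
      rfl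
  rw [hcoset, eq_sub_of_add_eq hsplit]
  congr 2
  · rw [RNorm_al l hl, hqqq]
  · rw [be, hqdiv, mul_assoc]

end R1

end Pool.Agent.FS
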