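import Pool.Agent.FS.RNorm

set_option autoImplicit false

namespace Pool.Agent.FS

open Finset
open Pool.Agent.Helper9.Fermat (fib mem_fib)

section R8

variable {m : ℕ} [NeZero m]

omit [NeZero m] in
theorem RUp_prime_dvd_upl {e l : ℕ} (hl : l.Prime) (h : l ∣ upl m e) : l ∈ e.primeFactors := by
  rw [upl, Prime.dvd_finsetProd_iff hl.prime] at h
  obtain ⟨l', hl', h2⟩ := h
  have h3 : l ∣ l' := hl.dvd_of_dvd_pow h2
  have h4 := (Nat.prime_dvd_prime_iff_eq hl (Nat.prime_of_mem_primeFactors hl')).1 h3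
  rw [h4]
  exact hl'

theorem upl_uni {e : ℕ} (he : e ∣ m) : Uni m (upl m e) ∧ e ∣ upl m e ∧
    (upl m e).primeFactors = e.primeFactors := by
  have hm0 : m ≠ 0 := NeZero.ne m
  have h1 : upl m e ∣ m := prod_qq_dvd _ fun l hl => Nat.prime_of_mem_primeFactors hl
  have h2 : e ∣ upl m e := dvd_prod_qq he
  have h0 : upl m e ≠ 0 := fun h => hm0 (Nat.eq_zero_of_zero_dvd (h ▸ h1))
  refine ⟨⟨h1, unitary h1 fun l hl h => ?_⟩, h2, ?_⟩
  · exact Finset.dvd_prod_of_mem (fun l => qq m l) (RUp_prime_dvd_upl hl h)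
  · refine Finset.Subset.antisymm ?_ (Nat.primeFactors_mono h2 h0)
    intro l hl
    exact RUp_prime_dvd_upl (Nat.prime_of_mem_primeFactors hl) (Nat.dvd_of_mem_primeFactors hl)

theorem RUp_order_dvd (x : ZMod m) : addOrderOf x ∣ m := by
  have := addOrderOf_dvd_card (x := x)
  rwa [ZMod.card] at this

theorem RUp_upl_eq (x : ZMod m) :
    addOrderOf x * (upl m (addOrderOf x) / addOrderOf x) = upl m (addOrderOf x) :=
  Nat.mul_div_cancel' (upl_uni (RUp_order_dvd x)).2.1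

theorem RUp_mem {x w : ZMod m} :
    w ∈ Up x ↔ ((upl m (addOrderOf x) / addOrderOf x : ℕ) : ZMod m) * w = x := by
  simp [Up]

theorem Up_order (x w : ZMod m) (hw : w ∈ Up x) : addOrderOf w = upl m (addOrderOf x) := by
  have hm0 : m ≠ 0 := NeZero.ne m
  rw [RUp_mem] at hw
  have hU := RUp_upl_eq x
  have hpf := (upl_uni (RUp_order_dvd x)).2.2
  have he0 : addOrderOf x ≠ 0 := fun h => hm0 (Nat.eq_zero_of_zero_dvd (h ▸ RUp_order_dvd x))
  have hU0 : upl m (addOrderOf x) ≠ 0 := fun h =>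
    hm0 (Nat.eq_zero_of_zero_dvd (h ▸ (upl_uni (RUp_order_dvd x)).1.1))
  set e := addOrderOf x with he
  set d := upl m e / e with hd
  have ho0 : addOrderOf w ≠ 0 := fun h => hm0 (Nat.eq_zero_of_zero_dvd (h ▸ RUp_order_dvd w))
  have h1 : e = addOrderOf w / (addOrderOf w).gcd d := by
    rw [he, ← hw, ← nsmul_eq_mul]
    exact addOrderOf_nsmul w
  obtain ⟨o', d', hcop, ho, hdd⟩ := Nat.exists_coprime (addOrderOf w) d
  have hg0 : 0 < (addOrderOf w).gcd d := Nat.gcd_pos_of_pos_left _ (Nat.pos_of_ne_zero ho0)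
  set g := (addOrderOf w).gcd d with hg
  have h2 : e = o' := by
    rw [h1]
    conv_lhs => rw [ho]
    exact Nat.mul_div_cancel _ hg0
  have h3 : d' = 1 := by
    by_contra hcon
    obtain ⟨l, hl, hld⟩ := Nat.exists_prime_and_dvd hcon
    have h4 : l ∣ upl m e := by
      rw [← hU, hdd]
      exact (hld.mul_right g).mul_left e
    have h5 : l ∣ e := Nat.dvd_of_mem_primeFactors (RUp_prime_dvd_upl hl h4)
    rw [h2] at h5
    exact hl.one_lt.ne' (Nat.Coprime.eq_one_of_dvd (hcop.coprime_dvd_left h5) hld)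
  rw [h3, one_mul] at hdd
  rw [ho, ← h2, ← hU, ← hdd]

theorem RUp_exists (x : ZMod m) :
    ∃ y : ZMod m, x = ((upl m (addOrderOf x) / addOrderOf x : ℕ) : ZMod m) * y := by
  have hm0 : m ≠ 0 := NeZero.ne m
  have he0 : addOrderOf x ≠ 0 := fun h => hm0 (Nat.eq_zero_of_zero_dvd (h ▸ RUp_order_dvd x))
  refine exists_mul_of_mul_eq_zero he0 ?_ x ?_
  · rw [RUp_upl_eq]
    exact (upl_uni (RUp_order_dvd x)).1.1
  · rw [← nsmul_eq_mul]
    exact addOrderOf_nsmul_eq_zero x

theorem RUp_dvd (x : ZMod m) : upl m (addOrderOf x) / addOrderOf x ∣ m :=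
  (Dvd.intro_left _ (RUp_upl_eq x)).trans (upl_uni (RUp_order_dvd x)).1.1

theorem RUp_eq_fib (x : ZMod m) : Up x = fib m (upl m (addOrderOf x) / addOrderOf x) x := by
  ext w
  rw [RUp_mem, mem_fib]

theorem Up_sum {B : Type} [AddCommGroup B] {g : ZMod m → B} (hg : IsDist g) (x : ZMod m) :
    ∑ w ∈ Up x, g w = g x := by
  obtain ⟨y, hy⟩ := RUp_exists x
  have h := isDist_gen hg _ (RUp_dvd x) y
  rw [← hy] at h
  rw [RUp_eq_fib, h]

omit [NeZero m] in
theorem RUp_addOrderOf_unit_mul (t : (ZMod m)ˣ) (x : ZMod m) :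
    addOrderOf ((t : ZMod m) * x) = addOrderOf x := by
  refine Nat.dvd_antisymm ?_ ?_
  · rw [addOrderOf_dvd_iff_nsmul_eq_zero, nsmul_eq_mul]
    have h : ((addOrderOf x : ℕ) : ZMod m) * x = 0 := by
      rw [← nsmul_eq_mul]
      exact addOrderOf_nsmul_eq_zero x
    linear_combination (t : ZMod m) * h
  · rw [addOrderOf_dvd_iff_nsmul_eq_zero, nsmul_eq_mul]
    have h : ((addOrderOf ((t : ZMod m) * x) : ℕ) : ZMod m) * ((t : ZMod m) * x) = 0 := by
      rw [← nsmul_eq_mul]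
      exact addOrderOf_nsmul_eq_zero _
    have h2 : ((t⁻¹ : (ZMod m)ˣ) : ZMod m) * (t : ZMod m) = 1 := Units.inv_mul t
    linear_combination ((t⁻¹ : (ZMod m)ˣ) : ZMod m) * h -
      ((addOrderOf ((t : ZMod m) * x) : ℕ) : ZMod m) * x * h2

theorem Up_unit (t : (ZMod m)ˣ) {B : Type} [AddCommGroup B] (g : ZMod m → B) (x : ZMod m) :
    ∑ w ∈ Up ((t : ZMod m) * x), g w = ∑ w ∈ Up x, g ((t : ZMod m) * w) := by
  have h2 : ((t⁻¹ : (ZMod m)ˣ) : ZMod m) * (t : ZMod m) = 1 := Units.inv_mul t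
  symm
  refine Finset.sum_nbij' (fun w => (t : ZMod m) * w)
    (fun w => ((t⁻¹ : (ZMod m)ˣ) : ZMod m) * w) ?_ ?_ ?_ ?_ ?_
  · intro w hw
    rw [RUp_mem] at hw ⊢
    rw [RUp_addOrderOf_unit_mul]
    linear_combination (t : ZMod m) * hw
  · intro w hw
    rw [RUp_mem] at hw ⊢
    rw [RUp_addOrderOf_unit_mul] at hw
    linear_combination ((t⁻¹ : (ZMod m)ˣ) : ZMod m) * hw + x * h2
  · intro w _
    change ((t⁻¹ : (ZMod m)ˣ) : ZMod m) * ((t : ZMod m) * w) = w
    linear_combination w * h2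
  · intro w _
    change (t : ZMod m) * (((t⁻¹ : (ZMod m)ˣ) : ZMod m) * w) = w
    linear_combination w * h2
  · intro w _
    rfl

theorem RUp_ide_zero {r a : ℕ} (hr : r.Prime) {v : ZMod m} (h : ((r ^ a : ℕ) : ZMod m) * v = 0) :
    ide m r * v = 0 := by
  have h1 : addOrderOf v ∣ r ^ a := by
    rw [addOrderOf_dvd_iff_nsmul_eq_zero, nsmul_eq_mul]
    exact h
  obtain ⟨b, _, hb⟩ := (Nat.dvd_prime_pow hr).1 h1
  have h2 := addOrderOf_ide_mul r hr v
  rw [hb] at h2
  have h3 : ordCompl[r] (r ^ b) = 1 := by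
    rw [hr.factorization_pow, Finsupp.single_eq_same]
    exact Nat.div_self (pow_pos hr.pos b)
  rw [h3] at h2
  exact AddMonoid.addOrderOf_eq_one_iff.1 h2

theorem RUp_ide_self {r d : ℕ} (hr : r.Prime) (hd : ¬ r ∣ d) {v : ZMod m}
    (h : (d : ZMod m) * v = 0) : ide m r * v = v := by
  refine ide_mul_eq_self r hr v fun hcon => hd (hcon.trans ?_)
  rw [addOrderOf_dvd_iff_nsmul_eq_zero, nsmul_eq_mul]
  exact h

theorem RUp_key {r a d : ℕ} (hr : r.Prime) (hd : ¬ r ∣ d) (hdm : r ^ a * d ∣ m)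
    {φ : ZMod m → ℤ} (hφ : IsDist φ) (y : ZMod m) :
    ∑ w ∈ fib m (r ^ a * d) (((r ^ a * d : ℕ) : ZMod m) * y), φ (ide m r * w) =
      (r ^ a : ℕ) * φ ((d : ZMod m) * (ide m r * y)) := by
  have hE : ide m r * ide m r = ide m r := ide_mul_self r hr
  have hra : r ^ a ∣ m := (Dvd.intro d rfl).trans hdm
  have hd' : d ∣ m := (Dvd.intro_left _ rfl).trans hdm
  have hc : (fib m (r ^ a) (((r ^ a : ℕ) : ZMod m) * 0)).card = r ^ a :=
    Pool.Agent.Helper9.Fermat.fib_card (pow_pos hr.pos a) hra 0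
  have h1 := isDist_gen hφ d hd' (ide m r * y)
  rw [← h1]
  have h2 : ((r ^ a : ℕ) : ℤ) * ∑ z ∈ fib m d ((d : ZMod m) * (ide m r * y)), φ z =
      ∑ p ∈ fib m (r ^ a) (((r ^ a : ℕ) : ZMod m) * 0) ×ˢ
        fib m d ((d : ZMod m) * (ide m r * y)), φ p.2 := by
    rw [Finset.sum_product]
    simp only
    rw [Finset.sum_const, hc, nsmul_eq_mul]
  rw [h2]
  refine Finset.sum_nbij' (fun w => ((w - y) - ide m r * (w - y), ide m r * w))
    (fun p => (y - ide m r * y) + p.1 + p.2) ?_ ?_ ?_ ?_ ?_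
  · intro w hw
    rw [mem_fib] at hw
    rw [Finset.mem_product, mem_fib, mem_fib]
    push_cast at hw ⊢
    constructor
    · change ((r : ZMod m) ^ a) * ((w - y) - ide m r * (w - y)) = (r : ZMod m) ^ a * 0
      have h3 : ide m r * (((r : ZMod m) ^ a) * ((w - y) - ide m r * (w - y))) =
          ((r : ZMod m) ^ a) * ((w - y) - ide m r * (w - y)) := by
        refine RUp_ide_self (d := d) hr hd ?_
        linear_combination (1 - ide m r) * hw
      have h4 : ide m r * (((r : ZMod m) ^ a) * ((w - y) - ide m r * (w - y))) = 0 := by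
        linear_combination - ((r : ZMod m) ^ a) * (w - y) * hE
      rw [mul_zero, ← h3, h4]
    · change (d : ZMod m) * (ide m r * w) = (d : ZMod m) * (ide m r * y)
      have h3 : ide m r * ((d : ZMod m) * (ide m r * (w - y))) = 0 := by
        refine RUp_ide_zero (a := a) hr ?_
        push_cast
        linear_combination ide m r * hw
      linear_combination h3 - (d : ZMod m) * (w - y) * hE
  · intro p hp
    rw [Finset.mem_product, mem_fib, mem_fib] at hp
    obtain ⟨hp1, hp2⟩ := hp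
    rw [mem_fib]
    push_cast at hp1 hp2 ⊢
    linear_combination (d : ZMod m) * hp1 + (r : ZMod m) ^ a * hp2
  · intro w _
    change (y - ide m r * y) + ((w - y) - ide m r * (w - y)) + ide m r * w = w
    ring
  · intro p hp
    rw [Finset.mem_product, mem_fib, mem_fib] at hp
    obtain ⟨hp1, hp2⟩ := hp
    have h3 : ide m r * p.1 = 0 := by
      refine RUp_ide_zero (a := a) hr ?_
      rw [hp1, mul_zero]
    have h4 : ide m r * (p.2 - ide m r * y) = p.2 - ide m r * y := by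
      refine RUp_ide_self (d := d) hr hd ?_
      linear_combination hp2
    have h5 : ide m r * p.2 = p.2 := by linear_combination h4 + y * hE
    refine Prod.ext ?_ ?_
    · change (((y - ide m r * y) + p.1 + p.2) - y) -
        ide m r * (((y - ide m r * y) + p.1 + p.2) - y) = p.1
      linear_combination - h3 - h5 + y * hE
    · change ide m r * ((y - ide m r * y) + p.1 + p.2) = p.2
      linear_combination h3 + h5 - y * hE
  · intro w _
    rfl

theorem Up_bound {r : ℕ} (hr : r.Prime) {φ : ZMod m → ℤ} (hφ : IsDist φ) {C : ℕ}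
    (hC : ∀ x, |φ x| ≤ C) (x : ZMod m) (hx : r ∣ addOrderOf x) :
    |∑ w ∈ Up x, φ (ide m r * w)| ≤ ((C * (qq m r / r) : ℕ) : ℤ) := by
  have hm0 : m ≠ 0 := NeZero.ne m
  obtain ⟨y, hy⟩ := RUp_exists x
  have hdm := RUp_dvd x
  have hUe := RUp_upl_eq x
  have hUm := (upl_uni (RUp_order_dvd x)).1.1
  rw [RUp_eq_fib]
  set n := upl m (addOrderOf x) / addOrderOf x with hn
  have hn0 : n ≠ 0 := fun h => hm0 (Nat.eq_zero_of_zero_dvd (h ▸ hdm))
  have hsplit : r ^ n.factorization r * (ordCompl[r] n) = n := Nat.ordProj_mul_ordCompl_eq_self n r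
  have hcop : ¬ r ∣ ordCompl[r] n := Nat.not_dvd_ordCompl hr hn0
  have hkey := RUp_key (m := m) hr hcop (hsplit.symm ▸ hdm) hφ y
  rw [hsplit, ← hy] at hkey
  rw [hkey, abs_mul]
  have hle : r ^ n.factorization r ≤ qq m r / r := by
    have h1 : r ^ (n.factorization r + 1) ∣ m := by
      refine dvd_trans ?_ hUm
      rw [← hUe, pow_succ']
      exact mul_dvd_mul hx (Nat.ordProj_dvd n r)
    have h2 : n.factorization r + 1 ≤ m.factorization r :=
      (hr.pow_dvd_iff_le_factorization hm0).1 h1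
    rw [Nat.le_div_iff_mul_le hr.pos, ← pow_succ]
    exact Nat.pow_le_pow_right hr.pos h2
  have h3 : |((r ^ n.factorization r : ℕ) : ℤ)| = ((r ^ n.factorization r : ℕ) : ℤ) :=
    abs_of_nonneg (Int.natCast_nonneg _)
  rw [h3, mul_comm C, Nat.cast_mul]
  exact mul_le_mul (by exact_mod_cast hle) (hC _) (abs_nonneg _) (Int.natCast_nonneg _)

end R8

end Pool.Agent.FS
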