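import Pool.Agent.FS.RPack
import Pool.Agent.FS.RUp

/-!
# Bounded distributions for odd orders

If `m` is twice an odd number there is a distribution with values `1`, `-1` at the elements of odd
order.
-/

set_option autoImplicit false

namespace Pool.Agent.FS

open Finset
open Pool.Agent.Helper9.Fermat (fib mem_fib)

/-- As `Pack`; the bound is required for the elements with `P` only. -/
structure PackP (m : ℕ) [NeZero m] (C : ℕ) (P : ZMod m → Prop) where
  φ : ZMod m → ℤ
  odd : ∀ x, φ (-x) = - φ x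
  dist : IsDist φ
  bound : ∀ x, P x → |φ x| ≤ C
  sep : ∀ a : (ZMod m → ℤ) →+ ℤ,
    (∀ u : (ZMod m)ˣ, a (fun x => φ ((u : ZMod m) * x)) = 0) →
    ∀ u : (ZMod m)ˣ, a (fun x => sw ((u : ZMod m) * x)) = 0

section

variable {m : ℕ} [NeZero m]

def Pack.toPackP {C : ℕ} (P : Pack m C) : PackP m C fun _ => True where
  φ := P.φ
  odd := P.odd
  dist := P.dist
  bound x _ := P.bound x
  sep := P.sep

/-- `Up_bound` with a weaker hypothesis -/
theorem Up_bound' {r : ℕ} (hr : r.Prime) {φ : ZMod m → ℤ} (hφ : IsDist φ) {C : ℕ} (x : ZMod m)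
    (hx : r ∣ addOrderOf x) (hC : ∀ y, addOrderOf y ∣ addOrderOf x → |φ y| ≤ C) :
    |∑ w ∈ Up x, φ (ide m r * w)| ≤ ((C * (qq m r / r) : ℕ) : ℤ) := by
  have hm0 : m ≠ 0 := NeZero.ne m
  obtain ⟨y, hy⟩ := RUp_exists x
  have hdm := RUp_dvd x
  have hUe := RUp_upl_eq x
  have hUm := (upl_uni (RUp_order_dvd x)).1.1
  rw [RUp_eq_fib]
  set n := upl m (addOrderOf x) / addOrderOf x with hn
  have hn0 : n ≠ 0 := fun h => hm0 (Nat.eq_zero_of_zero_dvd (h ▸ hdm))
  have hsplit : r ^ n.factorization r * (ordCompl[r] n) = n := Nat.ordProj_mul_ordCompl_eq_self n r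
  have hcop : ¬ r ∣ ordCompl[r] n := Nat.not_dvd_ordCompl hr hn0
  have hkey := RUp_key (m := m) hr hcop (hsplit.symm ▸ hdm) hφ y
  rw [hsplit, ← hy] at hkey
  rw [hkey, abs_mul]
  have hle : r ^ n.factorization r ≤ qq m r / r := by
    have h1 : r ^ (n.factorization r + 1) ∣ m := by
      refine dvd_trans ?_ hUm
      rw [← hUe, pow_succ']
      exact mul_dvd_mul hx (Nat.ordProj_dvd n r)
    have h2 : n.factorization r + 1 ≤ m.factorization r :=
      (hr.pow_dvd_iff_le_factorization hm0).1 h1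
    rw [Nat.le_div_iff_mul_le hr.pos, ← pow_succ]
    exact Nat.pow_le_pow_right hr.pos h2
  have h3 : |((r ^ n.factorization r : ℕ) : ℤ)| = ((r ^ n.factorization r : ℕ) : ℤ) :=
    abs_of_nonneg (Int.natCast_nonneg _)
  have h4 : addOrderOf (((ordCompl[r] n : ℕ) : ZMod m) * (ide m r * y)) ∣ addOrderOf x := by
    rw [addOrderOf_dvd_iff_nsmul_eq_zero, nsmul_eq_mul]
    have hE : ide m r * ide m r = ide m r := ide_mul_self r hr
    set v : ZMod m := (addOrderOf x : ZMod m) *
      (((ordCompl[r] n : ℕ) : ZMod m) * (ide m r * y)) with hv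
    have h5 : ((r ^ n.factorization r : ℕ) : ZMod m) * v = 0 := by
      have h6 : ((r ^ n.factorization r : ℕ) : ZMod m) * ((ordCompl[r] n : ℕ) : ZMod m) =
          (n : ZMod m) := by
        rw [← Nat.cast_mul, hsplit]
      have h7 : (addOrderOf x : ZMod m) * x = 0 := by
        rw [← nsmul_eq_mul]
        exact addOrderOf_nsmul_eq_zero x
      have h8 : ((r ^ n.factorization r : ℕ) : ZMod m) * v =
          ide m r * ((addOrderOf x : ZMod m) * ((n : ZMod m) * y)) := by
        rw [hv, ← h6]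
        ring
      rw [h8, ← hy, h7, mul_zero]
    have h9 := RUp_ide_zero hr h5
    have h10 : ide m r * v = v := by
      rw [hv]
      linear_combination (addOrderOf x : ZMod m) * ((ordCompl[r] n : ℕ) : ZMod m) * y * hE
    rw [← h10, h9]
  rw [h3, mul_comm C, Nat.cast_mul]
  exact mul_le_mul (by exact_mod_cast hle) (hC _ h4) (abs_nonneg _) (Int.natCast_nonneg _)

/-- `φ x = (sw (t x) - 2 sw x) / m`, `t = m / 2 + 2` -/
theorem exists_packOdd (hm : 2 ∣ m) (h4 : ¬ 4 ∣ m) :
    Nonempty (PackP m 1 fun x => ¬ 2 ∣ addOrderOf x) := by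
  classical
  have hm0 : 0 < m := Nat.pos_of_ne_zero (NeZero.ne m)
  obtain ⟨c, hc⟩ := hm
  have hcodd : ¬ 2 ∣ c := by
    rintro ⟨d, hd⟩
    exact h4 ⟨d, by rw [hc, hd]; ring⟩
  have hcop : (c + 2).Coprime m := by
    rw [hc, Nat.coprime_mul_iff_right]
    constructor
    · rw [Nat.coprime_comm, Nat.Prime.coprime_iff_not_dvd Nat.prime_two]
      omega
    · rw [Nat.coprime_comm]
      have : c.Coprime 2 := by
        rw [Nat.coprime_comm, Nat.Prime.coprime_iff_not_dvd Nat.prime_two]
        exact hcodd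
      simpa using this
  set t : (ZMod m)ˣ := ZMod.unitOfCoprime (c + 2) hcop with ht
  have htv : (t : ZMod m) = ((c + 2 : ℕ) : ZMod m) := ZMod.coe_unitOfCoprime _ _
  -- values of `t x`
  have hval : ∀ x : ZMod m, ∃ k : ℤ, (((t : ZMod m) * x).val : ℤ) = (c + 2) * x.val - m * k := by
    intro x
    have h1 : ((((t : ZMod m) * x).val : ℤ) : ZMod m) = (((c + 2) * x.val : ℤ) : ZMod m) := by
      push_cast
      rw [ZMod.natCast_zmod_val, ZMod.natCast_zmod_val, htv]
      push_cast
      ring
    rw [ZMod.intCast_eq_intCast_iff_dvd_sub] at h1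
    obtain ⟨k, hk⟩ := h1
    exact ⟨k, by linarith⟩
  have hne : ∀ x : ZMod m, x ≠ 0 → (t : ZMod m) * x ≠ 0 := by
    intro x hx h
    exact hx ((Units.mul_right_eq_zero t).1 h)
  have hdvd : ∀ x : ZMod m, (m : ℤ) ∣ sw ((t : ZMod m) * x) - 2 * sw x := by
    intro x
    by_cases hx : x = 0
    · rw [hx, mul_zero]
      simp [sw]
    · obtain ⟨k, hk⟩ := hval x
      rw [sw, if_neg (hne x hx), sw, if_neg hx, hk]
      refine ⟨(x.val : ℤ) - 2 * k + 1, ?_⟩
      have hc' : (m : ℤ) = 2 * c := by exact_mod_cast hc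
      rw [hc']
      ring
  choose φ hφ using hdvd
  have hmz : (m : ℤ) ≠ 0 := by exact_mod_cast hm0.ne'
  refine ⟨⟨φ, ?_, ?_, ?_, ?_⟩⟩
  · intro x
    apply mul_left_cancel₀ hmz
    have h1 := hφ x
    have h2 := hφ (-x)
    rw [mul_neg, Quot.sw_neg, Quot.sw_neg] at h2
    linear_combination - h1 - h2
  · intro l hl hlm y
    apply mul_left_cancel₀ hmz
    rw [mul_sum, sum_congr rfl fun z _ => (hφ z).symm, ← hφ, sum_sub_distrib, ← mul_sum]
    have h1 := isDist_sw_unit t l hl hlm y
    have h2 := isDist_sw_unit (1 : (ZMod m)ˣ) l hl hlm y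
    simp only [Units.val_one, one_mul] at h2
    rw [h1, h2]
  · intro x hx
    by_cases hx0 : x = 0
    · have h1 := hφ x
      rw [hx0, mul_zero] at h1
      simp only [sw, if_true, mul_zero, sub_zero] at h1
      have h2 : φ 0 = 0 := by
        rcases mul_eq_zero.1 h1.symm with h | h
        · exact absurd h hmz
        · exact h
      rw [hx0, h2]
      simp
    · -- `x.val` is even
      have hev : 2 ∣ x.val := by
        have h1 : (addOrderOf x : ZMod m) * x = 0 := by
          rw [← nsmul_eq_mul]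
          exact addOrderOf_nsmul_eq_zero x
        have h2 : ((addOrderOf x * x.val : ℕ) : ZMod m) = 0 := by
          rw [Nat.cast_mul, ZMod.natCast_zmod_val]
          exact h1
        rw [ZMod.natCast_eq_zero_iff] at h2
        have h3 : 2 ∣ addOrderOf x * x.val := (Dvd.intro c hc.symm).trans h2
        rcases Nat.prime_two.dvd_mul.1 h3 with h | h
        · exact absurd h hx
        · exact h
      obtain ⟨w, hw⟩ := hev
      obtain ⟨k, hk⟩ := hval x
      have h1 := hφ x
      rw [sw, if_neg (hne x hx0), sw, if_neg hx0] at h1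
      have hlt := ZMod.val_lt ((t : ZMod m) * x)
      have hlt2 := ZMod.val_lt x
      have hc' : (m : ℤ) = 2 * c := by exact_mod_cast hc
      -- `val (t x) = 2 val x - m (k - w)`
      set j : ℤ := k - w with hj
      have h5 : (((t : ZMod m) * x).val : ℤ) = 2 * x.val - m * j := by
        rw [hk, hj, hw, hc']
        push_cast
        ring
      have hj0 : 0 ≤ j := by
        by_contra hneg
        have h6 : j ≤ -1 := by omega
        have h7 : (((t : ZMod m) * x).val : ℤ) < m := by exact_mod_cast hlt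
        have h8 : (0 : ℤ) ≤ x.val := Int.natCast_nonneg _
        nlinarith
      have hj1 : j ≤ 1 := by
        by_contra hneg
        have h6 : 2 ≤ j := by omega
        have h7 : (0 : ℤ) ≤ ((t : ZMod m) * x).val := Int.natCast_nonneg _
        have h8 : (x.val : ℤ) < m := by exact_mod_cast hlt2
        nlinarith
      have h9 : (m : ℤ) * φ x = m * (1 - 2 * j) := by
        rw [← h1, h5]
        ring
      have h10 := mul_left_cancel₀ hmz h9
      rw [h10]
      have : j = 0 ∨ j = 1 := by omega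
      rcases this with h | h <;> rw [h] <;> simp
  · intro a ha
    -- `a (sw (t u x)) = 2 a (sw (u x))`
    set b : (ZMod m)ˣ → ℤ := fun u => a (fun x => sw ((u : ZMod m) * x)) with hb
    have h1 : ∀ u : (ZMod m)ˣ, b (t * u) = 2 * b u := by
      intro u
      have h2 : (fun x => sw (((t * u : (ZMod m)ˣ) : ZMod m) * x)) =
          (fun x => sw ((u : ZMod m) * x)) + (fun x => sw ((u : ZMod m) * x)) +
            m • (fun x => φ ((u : ZMod m) * x)) := by
        funext x
        have h3 := hφ ((u : ZMod m) * x)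
        rw [Pi.add_apply, Pi.add_apply, Pi.smul_apply, nsmul_eq_mul, Units.val_mul, mul_assoc]
        linarith
      change a _ = 2 * a _
      rw [h2, map_add, map_add, map_nsmul, ha u, smul_zero]
      ring
    obtain ⟨u₀, -, hu₀⟩ := Finset.exists_max_image (univ : Finset (ZMod m)ˣ) (fun u => |b u|)
      ⟨1, mem_univ 1⟩
    have h3 := hu₀ (t * u₀) (mem_univ _)
    rw [h1, abs_mul, abs_two] at h3
    have h4 : |b u₀| ≤ 0 := by
      have := abs_nonneg (b u₀)
      linarith
    intro u
    have h5 := hu₀ u (mem_univ _)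
    have h6 : |b u| ≤ 0 := h5.trans h4
    exact abs_eq_zero.1 (le_antisymm h6 (abs_nonneg _))

end

end Pool.Agent.FS
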