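import Pool.Agent.FS.RDefs

set_option autoImplicit false

namespace Pool.Agent.FS

open Finset
open Pool.Agent.Helper9.Fermat (fib mem_fib)
open Pool.Agent.FS.Quot (sw_zero sw_neg sw_of_ne sw_fib_unit)

section R2

variable {m : ℕ} [NeZero m]

theorem isDist_sw_unit (t : (ZMod m)ˣ) : IsDist fun x : ZMod m => sw ((t : ZMod m) * x) := by
  intro r hr hrm y
  by_cases hy : (r : ZMod m) * y = 0
  · rw [hy]
    change _ = sw ((t : ZMod m) * 0)
    rw [mul_zero, sw_zero]
    refine Finset.sum_involution (fun z _ => -z) ?_ ?_ ?_ ?_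
    · intro z _
      rw [mul_neg, sw_neg, add_neg_cancel]
    · intro z _ hz hneg
      apply hz
      have h1 := sw_neg ((t : ZMod m) * z)
      rw [← mul_neg, hneg] at h1
      omega
    · intro z hz
      rw [mem_fib] at hz ⊢
      rw [mul_neg, hz, neg_zero]
    · intro z _
      exact neg_neg z
  · exact sw_fib_unit hr.pos hrm y hy t

theorem RPack.isDist_sw : IsDist fun x : ZMod m => sw x := by
  have h := isDist_sw_unit (1 : (ZMod m)ˣ)
  simpa only [Units.val_one, one_mul] using h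

theorem RPack.abs_sw_lt (x : ZMod m) : |sw x| < m := by
  have hm : 0 < (m : ℤ) := by exact_mod_cast Nat.pos_of_ne_zero (NeZero.ne m)
  by_cases hx : x = 0
  · rw [hx, sw_zero, abs_zero]
    exact hm
  · rw [sw_of_ne hx, abs_lt]
    have h1 : (x.val : ℤ) < m := by exact_mod_cast ZMod.val_lt x
    have h2 : 0 < x.val := Nat.pos_of_ne_zero fun h => hx ((ZMod.val_eq_zero x).1 h)
    constructor <;> omega

/-- construction of a pack from a distribution with values divisible by `2 m` -/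
theorem RPack.mk (C : ℕ) (g : ZMod m → ℤ) (hg : IsDist g) (hodd : ∀ x, g (-x) = - g x)
    (hdiv : ∀ x, (2 * m : ℤ) ∣ g x) (hb : ∀ x, |g x| < 2 * m * (C + 1))
    (hsep : ∀ a : (ZMod m → ℤ) →+ ℤ,
      (∀ u : (ZMod m)ˣ, a (fun x => g ((u : ZMod m) * x)) = 0) →
      ∀ u : (ZMod m)ˣ, a (fun x => sw ((u : ZMod m) * x)) = 0) : Nonempty (Pack m C) := by
  have hm : 0 < (m : ℤ) := by exact_mod_cast Nat.pos_of_ne_zero (NeZero.ne m)
  have h2m : (2 * m : ℤ) ≠ 0 := by omega
  choose φ hφ using hdiv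
  refine ⟨⟨φ, ?_, ?_, ?_, ?_⟩⟩
  · intro x
    apply mul_left_cancel₀ h2m
    rw [mul_neg, ← hφ, ← hφ, hodd]
  · intro r hr hrm y
    apply mul_left_cancel₀ h2m
    rw [mul_sum, ← hφ, ← hg r hr hrm y]
    exact sum_congr rfl fun z _ => (hφ z).symm
  · intro x
    have h1 := hb x
    rw [hφ, abs_mul, abs_of_pos (by omega : (0 : ℤ) < 2 * m)] at h1
    have h2 : |φ x| < C + 1 := lt_of_mul_lt_mul_left h1 (by omega)
    omega
  · intro a ha
    apply hsep a
    intro u
    have h1 : (fun x => g ((u : ZMod m) * x)) = (2 * m : ℤ) • fun x => φ ((u : ZMod m) * x) := by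
      funext x
      rw [hφ]
      rfl
    rw [h1, map_zsmul, ha u, smul_zero]

omit [NeZero m] in
/-- a function on a finite group which is small compared to its values -/
theorem RPack.eq_zero_of_max (A : (ZMod m)ˣ → ℤ) (k j : ℤ) (hjk : j < k)
    (h : ∀ M : ℤ, (∀ u, |A u| ≤ M) → ∀ u, k * |A u| ≤ j * M) : ∀ u, A u = 0 := by
  obtain ⟨u0, hu0⟩ := Finite.exists_max fun u => |A u|
  have h1 := h |A u0| hu0 u0
  have h2 : 0 ≤ |A u0| := abs_nonneg _
  have h3 : |A u0| = 0 := by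
    by_contra h4
    have h5 : 0 < |A u0| := lt_of_le_of_ne h2 (Ne.symm h4)
    nlinarith
  intro u
  have h6 := hu0 u
  rw [h3] at h6
  exact abs_eq_zero.1 (le_antisymm h6 (abs_nonneg _))

/-- the odd part plus `2` and minus `2` are units -/
theorem RPack.exists_units (hm : Even m) :
    ∃ t₁ t₂ : (ZMod m)ˣ, (t₁ : ZMod m) = (t₂ : ZMod m) + 4 := by
  have hm0 : m ≠ 0 := NeZero.ne m
  have h2m : 2 ≤ m := by
    obtain ⟨k, hk⟩ := hm
    omega
  set c := ordCompl[2] m with hc
  have hcodd : ¬ 2 ∣ c := Nat.not_dvd_ordCompl Nat.prime_two hm0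
  have hpc : ∀ p : ℕ, p.Prime → p ∣ m → p ≠ 2 → p ∣ c := by
    intro p hp hpm hp2
    have h1 : p ∣ 2 ^ m.factorization 2 * c := by
      rw [Nat.ordProj_mul_ordCompl_eq_self]
      exact hpm
    rcases hp.dvd_mul.1 h1 with h | h
    · exact absurd ((Nat.prime_dvd_prime_iff_eq hp Nat.prime_two).1 (hp.dvd_of_dvd_pow h)) hp2
    · exact h
  have h1 : (c + 2).Coprime m := by
    apply Nat.Coprime.symm
    apply Nat.coprime_of_dvd
    intro p hp hpm hpc2
    by_cases hp2 : p = 2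
    · subst hp2
      omega
    · have h2 : p ∣ 2 := (Nat.dvd_add_right (hpc p hp hpm hp2)).1 hpc2
      exact hp2 ((Nat.prime_dvd_prime_iff_eq hp Nat.prime_two).1 h2)
  have h2 : (c + (2 * m - 2)).Coprime m := by
    apply Nat.Coprime.symm
    apply Nat.coprime_of_dvd
    intro p hp hpm hpc2
    by_cases hp2 : p = 2
    · subst hp2
      omega
    · have h3 : p ∣ 2 * m - 2 := (Nat.dvd_add_right (hpc p hp hpm hp2)).1 hpc2
      have h4 : p ∣ 2 := by
        have h5 : p ∣ (2 * m - 2) + 2 := by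
          rw [Nat.sub_add_cancel (by omega)]
          exact hpm.mul_left 2
        exact (Nat.dvd_add_right h3).1 h5
      exact hp2 ((Nat.prime_dvd_prime_iff_eq hp Nat.prime_two).1 h4)
  refine ⟨ZMod.unitOfCoprime _ h1, ZMod.unitOfCoprime _ h2, ?_⟩
  rw [ZMod.coe_unitOfCoprime, ZMod.coe_unitOfCoprime]
  rw [Nat.cast_add, Nat.cast_add, Nat.cast_sub (by omega), Nat.cast_mul, ZMod.natCast_self]
  push_cast
  ring

/-- `φ x = (sw (t₁ x) - sw (t₂ x) - 4 sw x) / (2 m)`, `t₁ = c + 2`, `t₂ = c - 2`, `c` the odd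
part of `m` -/
theorem exists_pack4 (hm : Even m) : Nonempty (Pack m 2) := by
  obtain ⟨t₁, t₂, ht⟩ := RPack.exists_units hm
  refine RPack.mk 2 (fun x => sw ((t₁ : ZMod m) * x) - sw ((t₂ : ZMod m) * x) - 4 * sw x)
    ?_ ?_ ?_ ?_ ?_
  · intro r hr hrm y
    rw [sum_sub_distrib, sum_sub_distrib, ← mul_sum]
    rw [isDist_sw_unit t₁ r hr hrm y, isDist_sw_unit t₂ r hr hrm y, RPack.isDist_sw r hr hrm y]
  · intro x
    rw [mul_neg, mul_neg, sw_neg, sw_neg, sw_neg]
    ring
  · intro x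
    by_cases hx : x = 0
    · rw [hx, mul_zero, mul_zero, sw_zero]
      simp
    · have h1 : (t₁ : ZMod m) * x ≠ 0 := fun h => hx ((t₁.isUnit.mul_right_eq_zero).1 h)
      have h2 : (t₂ : ZMod m) * x ≠ 0 := fun h => hx ((t₂.isUnit.mul_right_eq_zero).1 h)
      rw [sw_of_ne hx, sw_of_ne h1, sw_of_ne h2]
      have h3 : (m : ℤ) ∣ (((t₁ : ZMod m) * x).val : ℤ) - ((t₂ : ZMod m) * x).val - 4 * x.val := by
        rw [← ZMod.intCast_zmod_eq_zero_iff_dvd]
        push_cast
        rw [ZMod.natCast_zmod_val, ZMod.natCast_zmod_val, ZMod.natCast_zmod_val, ht]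
        ring
      obtain ⟨k, hk⟩ := h3
      refine ⟨k + 2, ?_⟩
      linear_combination 2 * hk
  · intro x
    have h1 := abs_lt.1 (RPack.abs_sw_lt ((t₁ : ZMod m) * x))
    have h2 := abs_lt.1 (RPack.abs_sw_lt ((t₂ : ZMod m) * x))
    have h3 := abs_lt.1 (RPack.abs_sw_lt x)
    rw [abs_lt]
    push_cast
    constructor <;> linarith
  · intro a ha
    refine RPack.eq_zero_of_max (fun u : (ZMod m)ˣ => a fun x : ZMod m => sw ((u : ZMod m) * x)) 4 2 (by norm_num) ?_
    intro M hM u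
    have h1 := ha u
    have h2 : (fun x : ZMod m => sw ((t₁ : ZMod m) * ((u : ZMod m) * x)) -
        sw ((t₂ : ZMod m) * ((u : ZMod m) * x)) - 4 * sw ((u : ZMod m) * x)) =
        (fun x => sw (((t₁ * u : (ZMod m)ˣ) : ZMod m) * x)) -
          (fun x => sw (((t₂ * u : (ZMod m)ˣ) : ZMod m) * x)) -
          (4 : ℤ) • fun x => sw ((u : ZMod m) * x) := by
      funext x
      simp only [Pi.sub_apply, Pi.smul_apply, Units.val_mul, mul_assoc, smul_eq_mul]
    rw [h2, map_sub, map_sub, map_zsmul] at h1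
    have h3 := abs_le.1 (hM (t₁ * u))
    have h4 := abs_le.1 (hM (t₂ * u))
    simp only [smul_eq_mul] at h1
    have h5 : |4 * a fun x => sw ((u : ZMod m) * x)| ≤ 2 * M := by
      rw [abs_le]
      constructor <;> linarith
    rw [abs_mul] at h5
    simpa using h5

/-- `φ x = (sw (3 x) - 3 sw x) / (2 m)` -/
theorem exists_pack3 (hm : Even m) (h3 : ¬ 3 ∣ m) : Nonempty (Pack m 1) := by
  have hcop : (3 : ℕ).Coprime m := (Nat.Prime.coprime_iff_not_dvd Nat.prime_three).2 h3
  obtain ⟨t, ht⟩ : ∃ t : (ZMod m)ˣ, (t : ZMod m) = 3 :=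
    ⟨ZMod.unitOfCoprime 3 hcop, by rw [ZMod.coe_unitOfCoprime]; norm_num⟩
  refine RPack.mk 1 (fun x => sw ((t : ZMod m) * x) - 3 * sw x) ?_ ?_ ?_ ?_ ?_
  · intro r hr hrm y
    rw [sum_sub_distrib, ← mul_sum]
    rw [isDist_sw_unit t r hr hrm y, RPack.isDist_sw r hr hrm y]
  · intro x
    rw [mul_neg, sw_neg, sw_neg]
    ring
  · intro x
    by_cases hx : x = 0
    · rw [hx, mul_zero, sw_zero]
      simp
    · have h1 : (t : ZMod m) * x ≠ 0 := fun h => hx ((t.isUnit.mul_right_eq_zero).1 h)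
      rw [sw_of_ne hx, sw_of_ne h1]
      have h3 : (m : ℤ) ∣ (((t : ZMod m) * x).val : ℤ) - 3 * x.val := by
        rw [← ZMod.intCast_zmod_eq_zero_iff_dvd]
        push_cast
        rw [ZMod.natCast_zmod_val, ZMod.natCast_zmod_val, ht]
        ring
      obtain ⟨k, hk⟩ := h3
      refine ⟨k + 1, ?_⟩
      linear_combination 2 * hk
  · intro x
    have h1 := abs_lt.1 (RPack.abs_sw_lt ((t : ZMod m) * x))
    have h3 := abs_lt.1 (RPack.abs_sw_lt x)
    rw [abs_lt]
    push_cast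
    constructor <;> linarith
  · intro a ha
    refine RPack.eq_zero_of_max (fun u : (ZMod m)ˣ => a fun x : ZMod m => sw ((u : ZMod m) * x)) 3 1 (by norm_num) ?_
    intro M hM u
    have h1 := ha u
    have h2 : (fun x : ZMod m => sw ((t : ZMod m) * ((u : ZMod m) * x)) -
        3 * sw ((u : ZMod m) * x)) =
        (fun x => sw (((t * u : (ZMod m)ˣ) : ZMod m) * x)) -
          (3 : ℤ) • fun x => sw ((u : ZMod m) * x) := by
      funext x
      simp only [Pi.sub_apply, Pi.smul_apply, Units.val_mul, mul_assoc, smul_eq_mul]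
    rw [h2, map_sub, map_zsmul] at h1
    have h3 := abs_le.1 (hM (t * u))
    simp only [smul_eq_mul] at h1
    have h5 : |3 * a fun x => sw ((u : ZMod m) * x)| ≤ 1 * M := by
      rw [abs_le]
      constructor <;> linarith
    rw [abs_mul] at h5
    simpa using h5

end R2

end Pool.Agent.FS
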