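import Pool.Agent.FS.RInj
import Pool.Agent.FS.RLift
import Pool.Agent.FS.RUp
import Pool.Agent.FS.RPack
import Pool.Agent.FS.ROdd

set_option autoImplicit false

namespace Pool.Agent.FS

open Finset
open Pool.Agent.Helper9.Fermat (fib mem_fib)

section GG

variable {m : ℕ} [NeZero m]

/-- the sum over the elements of unitary order above the elements of `T` -/
noncomputable def GG (T : Multiset (ZMod m)) {B : Type} [AddCommGroup B] (g : ZMod m → B) : B :=
  (T.map fun x => ∑ w ∈ Up x, g w).sum

variable (T : Multiset (ZMod m)) {B : Type} [AddCommGroup B]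

theorem GG_congr {g g' : ZMod m → B} (h : ∀ x ∈ T, ∀ w ∈ Up x, g w = g' w) :
    GG T g = GG T g' := by
  unfold GG
  refine congrArg Multiset.sum (Multiset.map_congr rfl fun x hx => sum_congr rfl fun w hw => ?_)
  exact h x hx w hw

theorem GG_add (g g' : ZMod m → B) : GG T (fun w => g w + g' w) = GG T g + GG T g' := by
  unfold GG
  simp only [sum_add_distrib, Multiset.sum_map_add]

theorem GG_sub (g g' : ZMod m → B) : GG T (fun w => g w - g' w) = GG T g - GG T g' := by
  have h := GG_add T (fun w => g w - g' w) g'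
  simp only [sub_add_cancel] at h
  rw [h, add_sub_cancel_right]

theorem GG_sum {ι : Type} (s : Finset ι) (g : ι → ZMod m → B) :
    GG T (fun w => ∑ i ∈ s, g i w) = ∑ i ∈ s, GG T (g i) := by
  classical
  induction s using Finset.induction_on with
  | empty =>
    simp only [sum_empty]
    unfold GG
    simp
  | insert i s hi ih =>
    simp only [sum_insert hi]
    rw [GG_add, ih]

theorem GG_map {B' : Type} [AddCommGroup B'] (φ : B →+ B') (g : ZMod m → B) :
    φ (GG T g) = GG T (fun w => φ (g w)) := by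
  unfold GG
  rw [map_multiset_sum, Multiset.map_map]
  refine congrArg Multiset.sum (Multiset.map_congr rfl fun x _ => ?_)
  rw [Function.comp_apply, map_sum]

theorem GG_dist {g : ZMod m → B} (hg : IsDist g) : GG T g = (T.map g).sum := by
  unfold GG
  exact congrArg Multiset.sum (Multiset.map_congr rfl fun x _ => Up_sum hg x)

theorem GG_mem (H : AddSubgroup B) (g : ZMod m → B) (h : ∀ x ∈ T, ∀ w ∈ Up x, g w ∈ H) :
    GG T g ∈ H := by
  unfold GG
  refine AddSubgroup.multiset_sum_mem _ _ ?_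
  intro b hb
  rw [Multiset.mem_map] at hb
  obtain ⟨x, hx, rfl⟩ := hb
  exact sum_mem fun w hw => h x hx w hw

/-- scaling by a unit -/
theorem isDist_unit {g : ZMod m → B} (hg : IsDist g) (u : (ZMod m)ˣ) :
    IsDist fun x => g ((u : ZMod m) * x) := by
  intro l hl hlm y
  have h := hg l hl hlm ((u : ZMod m) * y)
  have e : (l : ZMod m) * ((u : ZMod m) * y) = (u : ZMod m) * ((l : ZMod m) * y) := by ring
  rw [e] at h
  change _ = g ((u : ZMod m) * ((l : ZMod m) * y))
  rw [← h]
  refine sum_bij (fun z _ => (u : ZMod m) * z) ?_ ?_ ?_ ?_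
  · intro z hz
    rw [mem_fib] at hz ⊢
    rw [← hz]
    ring
  · intro z _ z' _ hzz
    exact (Units.mul_right_inj u).1 hzz
  · intro z hz
    rw [mem_fib] at hz
    refine ⟨((u⁻¹ : (ZMod m)ˣ) : ZMod m) * z, ?_, ?_⟩
    · rw [mem_fib]
      have h1 : (l : ZMod m) * (((u⁻¹ : (ZMod m)ˣ) : ZMod m) * z) =
          ((u⁻¹ : (ZMod m)ˣ) : ZMod m) * ((l : ZMod m) * z) := by ring
      rw [h1, hz, ← mul_assoc, Units.inv_mul, one_mul]
    · rw [← mul_assoc, Units.mul_inv, one_mul]
  · intro z _
    rfl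

end GG

section R9

variable {m : ℕ} [NeZero m] {A : Type} [AddCommGroup A] (D : Datum m A)

theorem D_isDist : IsDist D.f := D.dist

/-- the distribution relation for `l ≠ r` after the projection off `r` -/
theorem ide_dist {r l : ℕ} (hr : r.Prime) (hl : l.Prime) (hlm : l ∣ m) (hne : l ≠ r)
    {B : Type} [AddCommGroup B] {g : ZMod m → B} (hg : IsDist g) (y : ZMod m) :
    ∑ z ∈ fib m l ((l : ZMod m) * y), g (ide m r * z) = g (ide m r * ((l : ZMod m) * y)) := by
  have h := hg l hl hlm (ide m r * y)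
  have e : (l : ZMod m) * (ide m r * y) = ide m r * ((l : ZMod m) * y) := by ring
  rw [e] at h
  rw [← h]
  -- an element killed by `l` is fixed by `ide m r`
  have hfix : ∀ v : ZMod m, (l : ZMod m) * v = 0 → ide m r * v = v := by
    intro v hv
    refine ide_mul_eq_self r hr v ?_
    intro hdv
    have h1 : addOrderOf v ∣ l := by
      rw [addOrderOf_dvd_iff_nsmul_eq_zero, nsmul_eq_mul]
      exact hv
    have h2 := (Nat.prime_dvd_prime_iff_eq hr hl).1 (hdv.trans h1)
    exact hne h2.symm
  refine sum_bij (fun z _ => ide m r * z) ?_ ?_ ?_ ?_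
  · intro z hz
    rw [mem_fib] at hz ⊢
    rw [← hz]
    ring
  · intro z hz z' hz' hzz
    rw [mem_fib] at hz hz'
    have h1 := hfix (z - z') (by rw [mul_sub, hz, hz', sub_self])
    rw [mul_sub] at h1
    have h2 : ide m r * z = ide m r * z' := hzz
    rw [h2, sub_self] at h1
    exact (sub_eq_zero.1 h1.symm)
  · intro z hz
    rw [mem_fib] at hz
    have h1 := hfix (z - ide m r * y) (by rw [mul_sub, hz]; ring)
    refine ⟨y + (z - ide m r * y), ?_, ?_⟩
    · rw [mem_fib, mul_add, mul_sub, hz]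
      ring
    · change ide m r * (y + (z - ide m r * y)) = z
      rw [mul_add, h1]
      ring
  · intro z _
    rfl

/-- the datum of a lift -/
noncomputable def liftDatum {r : ℕ} (hr : r.Prime) (ψ : ZMod m → ℤ)
    (hψ : ∀ n l : ℕ, Uni m n → r ∣ n → l.Prime → l ∣ n → l ≠ r → Rel ψ n l) :
    RDatum m r (A × A × ℤ) where
  F x := (D.f x, D.f (ide m r * x), ψ x - ψ (-x))
  W t := (D.W t).comp (AddMonoidHom.fst A (A × ℤ))
  W' t := (D.W t).comp ((AddMonoidHom.fst A ℤ).comp (AddMonoidHom.snd A (A × ℤ)))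
  odd x := by
    rw [mul_neg, D.odd, D.odd, neg_neg]
    ext1
    · rfl
    · ext1
      · rfl
      · simp
  rel n l hn hrn hl hln hne := by
    intro u
    have hlm : l ∣ m := hln.trans hn.1
    have hn0 : n ≠ 0 := by
      rintro rfl
      exact NeZero.ne m (Nat.eq_zero_of_zero_dvd hn.1)
    haveI : NeZero n := ⟨hn0⟩
    have h1 := rel_of_dist hn hl hln (g := D.f) (D.dist l hl hlm) u
    have h2 := rel_of_dist hn hl hln (g := fun x => D.f (ide m r * x))
      (fun y => ide_dist hr hl hlm hne (D_isDist D) y) u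
    have h3 := hψ n l hn hrn hl hln hne u
    have h4 := hψ n l hn hrn hl hln hne (-1 * u)
    have e1 : ∀ k : Kl n l, ψ (emb m n (((k : (ZMod n)ˣ) * (-1 * u) : (ZMod n)ˣ) : ZMod n)) =
        ψ (-emb m n (((k : (ZMod n)ˣ) * u : (ZMod n)ˣ) : ZMod n)) := by
      intro k
      rw [← emb_neg hn.1, mul_left_comm]
    rw [finsum_congr e1, emb_neg hn.1, mul_neg, mul_neg] at h4
    classical
    rw [finsum_eq_sum_of_fintype] at h1 h2 h3 h4 ⊢
    refine Prod.ext ?_ (Prod.ext ?_ ?_)
    · rw [Prod.fst_sum]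
      exact h1
    · rw [Prod.snd_sum, Prod.fst_sum]
      exact h2
    · rw [Prod.snd_sum, Prod.snd_sum]
      change ∑ k : Kl n l, (ψ _ - ψ _) = (ψ _ - ψ _) - (ψ _ - ψ _)
      rw [sum_sub_distrib, h3, h4]
      ring
  wf t x := D.wf t x
  wf' t x := D.wf t (ide m r * x)

theorem remove_prime {C : ℕ} {Q : ZMod m → Prop} (P : PackP m C Q) {r : ℕ} (hr : r.Prime)
    (hr3 : 3 ≤ r) (hrm : r ∣ m) (S : Multiset (ZMod m))
    (hSr : 2 * C * (S.filter fun x => r ∣ addOrderOf x).card + 1 < r)
    (hQ : ∀ x ∈ S, ∀ y, addOrderOf y ∣ addOrderOf x → Q y)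
    (hW : ∀ t, D.W t (S.map D.f).sum = 0) :
    ((S.filter fun x => r ∣ addOrderOf x).map D.f).sum = 0 := by
  classical
  set T := S.filter fun x => r ∣ addOrderOf x with hT
  have hTr : ∀ x ∈ T, r ∣ addOrderOf x := fun x hx => (Multiset.mem_filter.1 hx).2
  have hq : r ∣ qq m r := by
    have h1 : 1 ≤ m.factorization r := hr.factorization_pos_of_dvd (NeZero.ne m) hrm
    exact dvd_pow_self r (by omega)
  have hq0 : 0 < qq m r / r := Nat.div_pos (Nat.le_of_dvd (Nat.pow_pos hr.pos) hq) hr.pos
  -- orders of the elements above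
  have hUp : ∀ x ∈ T, ∀ w ∈ Up x, Uni m (addOrderOf w) ∧ r ∣ addOrderOf w := by
    intro x hx w hw
    have hxm : addOrderOf x ∣ m := by
      have := addOrderOf_dvd_card (x := x)
      rwa [ZMod.card] at this
    obtain ⟨h1, h2, _⟩ := upl_uni hxm
    rw [Up_order x w hw]
    exact ⟨h1, (hTr x hx).trans h2⟩
  -- orders and units
  have hordu : ∀ (h : (ZMod m)ˣ) (w : ZMod m), addOrderOf ((h : ZMod m) * w) = addOrderOf w := by
    intro h w
    refine Nat.dvd_antisymm ?_ ?_
    · rw [addOrderOf_dvd_iff_nsmul_eq_zero, nsmul_eq_mul, mul_left_comm, ← nsmul_eq_mul _ w,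
        addOrderOf_nsmul_eq_zero, mul_zero]
    · rw [addOrderOf_dvd_iff_nsmul_eq_zero, nsmul_eq_mul]
      have h1 := addOrderOf_nsmul_eq_zero ((h : ZMod m) * w)
      rw [nsmul_eq_mul, mul_left_comm] at h1
      exact (Units.mul_right_eq_zero h).1 h1
  -- the weights of `S` and of `T`
  have hsum : ∀ t : (ZMod m)ˣ, (S.map fun x => sw ((t : ZMod m) * x)).sum = 0 := by
    intro t
    have h1 := hW t
    rw [map_multiset_sum, Multiset.map_map] at h1
    rw [← h1]
    exact congrArg Multiset.sum (Multiset.map_congr rfl fun x _ => (D.wf t x).symm)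
  have hsplit : ∀ t : (ZMod m)ˣ, (T.map fun x => sw ((t : ZMod m) * x)).sum +
      ((S.filter fun x => ¬ r ∣ addOrderOf x).map fun x => sw ((t : ZMod m) * x)).sum = 0 := by
    intro t
    rw [← Multiset.sum_add, ← Multiset.map_add, Multiset.filter_add_not, hsum t]
  have hK : ∀ t h : (ZMod m)ˣ, h ∈ Kl m r → (T.map fun x => sw (((t * h : (ZMod m)ˣ) : ZMod m) * x)).sum =
      (T.map fun x => sw ((t : ZMod m) * x)).sum := by
    intro t h hh
    have h1 := hsplit (t * h)
    have h2 := hsplit t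
    have h3 : ((S.filter fun x => ¬ r ∣ addOrderOf x).map
        fun x => sw (((t * h : (ZMod m)ˣ) : ZMod m) * x)) =
        ((S.filter fun x => ¬ r ∣ addOrderOf x).map fun x => sw ((t : ZMod m) * x)) := by
      refine Multiset.map_congr rfl fun x hx => ?_
      have hx2 := (Multiset.mem_filter.1 hx).2
      have h4 := Kl_mul_ide r hr h hh x
      rw [ide_mul_eq_self r hr x hx2] at h4
      rw [Units.val_mul, mul_assoc, h4]
    rw [h3] at h1
    linarith
  -- the invariance under `Kl m r`
  have inv : ∀ (ψ : ZMod m → ℤ)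
      (hψ : ∀ n l : ℕ, Uni m n → r ∣ n → l.Prime → l ∣ n → l ≠ r → Rel ψ n l),
      ∀ h ∈ Kl m r, GG T (fun w => (liftDatum D hr ψ hψ).F ((h : ZMod m) * w)) =
        GG T (liftDatum D hr ψ hψ).F := by
    intro ψ hψ h hh
    set R := liftDatum D hr ψ hψ with hR
    rw [← sub_eq_zero]
    refine R.inj hr hr3 _ (sub_mem ?_ ?_) ?_ ?_
    · refine GG_mem T _ _ fun x hx w hw => AddSubgroup.subset_closure ⟨_, ?_, rfl⟩
      change Uni m _ ∧ r ∣ _
      rw [hordu]
      exact hUp x hx w hw
    · exact GG_mem T _ _ fun x hx w hw => AddSubgroup.subset_closure ⟨_, hUp x hx w hw, rfl⟩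
    · intro t
      rw [map_sub, GG_map, GG_map]
      have e1 : (fun w => R.W t (R.F ((h : ZMod m) * w))) =
          fun w => sw (((t * h : (ZMod m)ˣ) : ZMod m) * w) := by
        funext w
        rw [R.wf, Units.val_mul, mul_assoc]
      have e2 : (fun w => R.W t (R.F w)) = fun w => sw ((t : ZMod m) * w) := by
        funext w
        rw [R.wf]
      rw [e1, e2, GG_dist T (isDist_sw_unit (t * h)), GG_dist T (isDist_sw_unit t), hK t h hh,
        sub_self]
    · intro t
      rw [map_sub, GG_map, GG_map]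
      have e1 : (fun w => R.W' t (R.F ((h : ZMod m) * w))) = fun w => R.W' t (R.F w) := by
        funext w
        rw [R.wf', R.wf', mul_left_comm (ide m r) (h : ZMod m) w, Kl_mul_ide r hr h hh]
      rw [e1, sub_self]
  -- sums over `Kl m r`
  have hKsum : ∀ (B : Type) [AddCommGroup B] (g g' : ZMod m → B),
      (∀ n : ℕ, Uni m n → r ∣ n → ∀ u : (ZMod n)ˣ,
        ∑ᶠ k : Kl n r, g (emb m n (((k : (ZMod n)ˣ) * u : (ZMod n)ˣ) : ZMod n)) =
          g' (emb m n u)) →
      ∑ h : Kl m r, GG T (fun w => g (((h : (ZMod m)ˣ) : ZMod m) * w)) = GG T g' := by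
    intro B _ g g' hg
    rw [← GG_sum T univ fun (h : Kl m r) w => g (((h : (ZMod m)ˣ) : ZMod m) * w)]
    refine GG_congr T fun x hx w hw => ?_
    obtain ⟨h1, h2⟩ := hUp x hx w hw
    have hn0 : addOrderOf w ≠ 0 := by
      intro h
      rw [h] at h1
      exact NeZero.ne m (Nat.eq_zero_of_zero_dvd h1.1)
    haveI : NeZero (addOrderOf w) := ⟨hn0⟩
    obtain ⟨u, hu⟩ := (exists_emb h1.1 w).1 rfl
    have h3 := rel_units (g := g) h1 hr h2 u
    rw [hg _ h1 h2 u, finsum_eq_sum_of_fintype, ← hu] at h3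
    exact h3.symm
  -- bounded distributions vanish
  have van : ∀ φ : ZMod m → ℤ, IsDist φ → (∀ x, φ (-x) = - φ x) →
      (∀ x ∈ T, ∀ y, addOrderOf y ∣ addOrderOf x → |φ y| ≤ C) →
      GG T (fun w => φ (ide m r * w)) = 0 := by
    intro φ hφ hodd hbd
    obtain ⟨ψ, hψ, hψs⟩ := exists_lift hr hrm φ hφ
    set g : ZMod m → ℤ := fun w => ψ w - ψ (-w) with hg
    have hinv : ∀ h ∈ Kl m r, GG T (fun w => g ((h : ZMod m) * w)) = GG T g := by
      intro h hh
      have h1 := congrArg (fun p : A × A × ℤ => p.2.2) (inv ψ hψ h hh)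
      have h2 : ∀ G : ZMod m → A × A × ℤ, (GG T G).2.2 = GG T fun w => (G w).2.2 := by
        intro G
        exact GG_map T ((AddMonoidHom.snd A ℤ).comp (AddMonoidHom.snd A (A × ℤ))) G
      simp only [h2] at h1
      exact h1
    have hs := hKsum ℤ g (fun w => 2 * φ (ide m r * w)) (by
      intro n hn hrn u
      have hn0 : n ≠ 0 := by
        rintro rfl
        exact NeZero.ne m (Nat.eq_zero_of_zero_dvd hn.1)
      haveI : NeZero n := ⟨hn0⟩
      have h1 := hψs n hn hrn u
      have h2 := hψs n hn hrn (-1 * u)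
      have e1 : ∀ k : Kl n r, ψ (emb m n (((k : (ZMod n)ˣ) * (-1 * u) : (ZMod n)ˣ) : ZMod n)) =
          ψ (-emb m n (((k : (ZMod n)ˣ) * u : (ZMod n)ˣ) : ZMod n)) := by
        intro k
        rw [← emb_neg hn.1, mul_left_comm]
      rw [finsum_congr e1, emb_neg hn.1, mul_neg, hodd] at h2
      rw [finsum_eq_sum_of_fintype] at h1 h2 ⊢
      rw [sum_sub_distrib, h1, h2]
      ring)
    rw [sum_congr rfl fun (h : Kl m r) _ => hinv h h.2, sum_const, card_univ,
      ← Nat.card_eq_fintype_card, card_Kl r hr hrm, nsmul_eq_mul] at hs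
    have h2 : GG T (fun w => 2 * φ (ide m r * w)) = 2 * GG T (fun w => φ (ide m r * w)) :=
      (GG_map T (AddMonoidHom.mulLeft (2 : ℤ)) fun w => φ (ide m r * w)).symm
    rw [h2] at hs
    -- the bound
    have hb : |GG T (fun w => φ (ide m r * w))| ≤ (T.card : ℤ) * ((C * (qq m r / r) : ℕ) : ℤ) := by
      unfold GG
      have h3 : ∀ U : Multiset (ZMod m), (∀ x ∈ U, r ∣ addOrderOf x ∧
          ∀ y, addOrderOf y ∣ addOrderOf x → |φ y| ≤ C) →
          |(U.map fun x => ∑ w ∈ Up x, φ (ide m r * w)).sum| ≤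
            (U.card : ℤ) * ((C * (qq m r / r) : ℕ) : ℤ) := by
        intro U
        induction U using Multiset.induction_on with
        | empty => intro _; simp
        | cons x U ih =>
          intro hU
          rw [Multiset.map_cons, Multiset.sum_cons, Multiset.card_cons]
          have h4' := hU x (Multiset.mem_cons_self _ _)
          have h4 := Up_bound' hr hφ x h4'.1 h4'.2
          have h5 := ih fun y hy => hU y (Multiset.mem_cons_of_mem hy)
          refine (abs_add_le _ _).trans ?_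
          push_cast at h4 h5 ⊢
          linarith
      exact h3 T fun x hx => ⟨hTr x hx, hbd x hx⟩
    have hgz : GG T g = 0 := by
      by_contra hne
      have h1 : 1 ≤ |GG T g| := Int.one_le_abs hne
      have h3 : ((qq m r / r * (r - 1) : ℕ) : ℤ) * |GG T g| ≤
          2 * ((T.card : ℤ) * ((C * (qq m r / r) : ℕ) : ℤ)) := by
        have h4 := congrArg abs hs
        rw [abs_mul, abs_mul, Nat.abs_cast, abs_two] at h4
        rw [h4]
        exact mul_le_mul_of_nonneg_left hb (by norm_num)
      have h5 : ((qq m r / r * (r - 1) : ℕ) : ℤ) ≤ ((qq m r / r * (r - 1) : ℕ) : ℤ) * |GG T g| :=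
        le_mul_of_one_le_right (Nat.cast_nonneg _) h1
      have h6 : ((qq m r / r * (r - 1) : ℕ) : ℤ) ≤
          ((2 * (T.card * (C * (qq m r / r))) : ℕ) : ℤ) := by
        refine (h5.trans h3).trans (le_of_eq ?_)
        push_cast
        ring
      have h7 : qq m r / r * (r - 1) ≤ 2 * (T.card * (C * (qq m r / r))) := by exact_mod_cast h6
      have h8 : 2 * (T.card * (C * (qq m r / r))) = qq m r / r * (2 * C * T.card) := by ring
      rw [h8] at h7
      have h9 := Nat.le_of_mul_le_mul_left h7 hq0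
      omega
    rw [hgz, mul_zero] at hs
    omega
  -- the second weights vanish
  have hW2 : ∀ u : (ZMod m)ˣ, GG T (fun w => sw ((u : ZMod m) * (ide m r * w))) = 0 := by
    let a : (ZMod m → ℤ) →+ ℤ :=
      { toFun := fun g => GG T (fun w => g (ide m r * w))
        map_zero' := by
          unfold GG
          simp
        map_add' := fun g g' => GG_add T _ _ }
    exact P.sep a fun u => van (fun x => P.φ ((u : ZMod m) * x)) (isDist_unit P.dist u)
      (fun x => by rw [mul_neg, P.odd]) fun x hx y hy => P.bound _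
        (hQ x (Multiset.mem_of_mem_filter hx) _ (by rw [hordu]; exact hy))
  -- the first weights vanish
  have hW1 : ∀ t : (ZMod m)ˣ, GG T (fun w => sw ((t : ZMod m) * w)) = 0 := by
    intro t
    have hs := hKsum ℤ (fun w => sw ((t : ZMod m) * w))
      (fun w => sw ((t : ZMod m) * (al m r * w)) - sw ((t : ZMod m) * (be m r * w))) (by
      intro n hn hrn u
      have hn0 : n ≠ 0 := by
        rintro rfl
        exact NeZero.ne m (Nat.eq_zero_of_zero_dvd hn.1)
      haveI : NeZero n := ⟨hn0⟩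
      exact rel_of_dist (g := fun w => sw ((t : ZMod m) * w)) hn hr hrn
        ((isDist_sw_unit t) r hr hrm) u)
    obtain ⟨ua, hua⟩ := exists_unit_al (m := m) r hr
    obtain ⟨ub, hub⟩ := exists_unit_be (m := m) r hr hrm
    have e1 : GG T (fun w => sw ((t : ZMod m) * (al m r * w)) -
        sw ((t : ZMod m) * (be m r * w))) = 0 := by
      rw [GG_sub]
      have e2 := hW2 (t * ua)
      have e3 := hW2 (t * ub)
      simp only [Units.val_mul, mul_assoc, ← hua, ← hub] at e2 e3
      rw [e2, e3, sub_zero]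
    rw [e1] at hs
    have e4 : ∀ h : Kl m r, GG T (fun w => sw ((t : ZMod m) * (((h : (ZMod m)ˣ) : ZMod m) * w))) =
        GG T (fun w => sw ((t : ZMod m) * w)) := by
      intro h
      have e5 := hK t h h.2
      rw [← GG_dist T (isDist_sw_unit (t * (h : (ZMod m)ˣ))),
        ← GG_dist T (isDist_sw_unit t)] at e5
      simp only [Units.val_mul, mul_assoc] at e5
      exact e5
    rw [sum_congr rfl fun h _ => e4 h, sum_const, card_univ, ← Nat.card_eq_fintype_card,
      card_Kl r hr hrm, nsmul_eq_mul] at hs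
    rcases mul_eq_zero.1 hs with h | h
    · exfalso
      have h1 : 0 < qq m r / r * (r - 1) := Nat.mul_pos hq0 (by omega)
      have h2 : qq m r / r * (r - 1) = 0 := by exact_mod_cast h
      omega
    · exact h
  -- the end
  obtain ⟨ψ, hψ, _⟩ := exists_lift hr hrm P.φ P.dist
  set R := liftDatum D hr ψ hψ with hR
  have hz : GG T R.F = 0 := by
    refine R.inj hr hr3 _ ?_ ?_ ?_
    · exact GG_mem T _ _ fun x hx w hw => AddSubgroup.subset_closure ⟨_, hUp x hx w hw, rfl⟩
    · intro t
      rw [GG_map, ← hW1 t]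
      exact GG_congr T fun x _ w _ => R.wf t w
    · intro t
      rw [GG_map, ← hW2 t]
      exact GG_congr T fun x _ w _ => R.wf' t w
  have h1 := congrArg (AddMonoidHom.fst A (A × ℤ)) hz
  rw [GG_map, map_zero] at h1
  rw [← GG_dist T (D_isDist D)]
  exact h1

end R9

end Pool.Agent.FS
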