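import Pool.Agent.FS.Units
import Pool.Agent.FS.Mixed
import Pool.Agent.FS.Comb

/-! Preparations for the removal of a support. -/

set_option autoImplicit false

namespace Pool.Agent.FS

open Finset

theorem coprime_div_of_unitary {n m : ℕ} (hm : m ≠ 0) (hn : n ∣ m)
    (h : ∀ l : ℕ, l.Prime → l ∣ n → m.factorization l ≤ n.factorization l) :
    n.Coprime (m / n) := by
  obtain ⟨c, rfl⟩ := hn
  have hn0 : n ≠ 0 := fun h => hm (by rw [h, zero_mul])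
  have hc0 : c ≠ 0 := fun h => hm (by rw [h, mul_zero])
  rw [Nat.mul_div_cancel_left c (Nat.pos_of_ne_zero hn0)]
  by_contra hcon
  obtain ⟨l, hl, h1, h2⟩ := Nat.Prime.not_coprime_iff_dvd.1 hcon
  have h3 := h l hl h1
  rw [Nat.factorization_mul hn0 hc0, Finsupp.add_apply] at h3
  have h4 := hl.factorization_pos_of_dvd hc0 h2
  omega

theorem ordCompl_pow_mul {l a c : ℕ} (hl : l.Prime) (hc : ¬ l ∣ c) :
    ordCompl[l] (l ^ a * c) = c := by
  rw [Nat.ordCompl_self_pow_mul c a hl, Nat.factorization_eq_zero_of_not_dvd hc, pow_zero,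
    Nat.div_one]

section units

variable {n : ℕ} [NeZero n]

theorem exists_Kl {l : ℕ} (hl : l.Prime) (g : (ZMod n)ˣ) :
    ∃ k ∈ Kl n l, rr k ≡ rr g [MOD ordProj[l] n] := by
  have hn0 : n ≠ 0 := NeZero.ne n
  have h1 : n = ordProj[l] n * ordCompl[l] n := (Nat.ordProj_mul_ordCompl_eq_self n l).symm
  have hcop : (ordProj[l] n).Coprime (ordCompl[l] n) :=
    Nat.Coprime.pow_left _ (Nat.coprime_ordCompl hl hn0)
  obtain ⟨w, hw1, hw2⟩ := exists_unit_crt h1 hcop (rr g) 1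
    ((rr_coprime g).coprime_dvd_right (Nat.ordProj_dvd n l)) (Nat.coprime_one_left _)
  exact ⟨w, mem_Kl.2 hw2, hw1⟩

theorem Kl_mod {l d : ℕ} {k : (ZMod n)ˣ} (hk : k ∈ Kl n l) (hd : d ∣ ordCompl[l] n) :
    rr k ≡ 1 [MOD d] := (mem_Kl.1 hk).of_dvd hd

theorem Kl_mul_mod {l d : ℕ} {k : (ZMod n)ˣ} (hk : k ∈ Kl n l) (hd : d ∣ ordCompl[l] n)
    (g : (ZMod n)ˣ) : rr (k * g) ≡ rr g [MOD d] := by
  have h1 : rr (k * g) ≡ rr k * rr g [MOD d] :=
    (rr_mul k g).of_dvd (hd.trans (Nat.ordCompl_dvd n l))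
  refine h1.trans ?_
  have h2 := (Kl_mod hk hd).mul_right (rr g)
  rwa [one_mul] at h2

end units

section sums

variable {m : ℕ} [NeZero m] {A : Type} [AddCommGroup A] (D : Datum m A)

theorem emb_neg {n : ℕ} [NeZero n] (hn : n ∣ m) (w : (ZMod n)ˣ) :
    emb m n (((-1 * w : (ZMod n)ˣ) : ZMod n)) = - emb m n (w : ZMod n) := by
  have hm : m = m / n * n := (Nat.div_mul_cancel hn).symm
  have h := Pool.Agent.Helper9.Fermat.io_neg hm (w : ZMod n)
  rw [Units.val_mul, Units.val_neg, Units.val_one, neg_one_mul]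
  exact h

theorem even_sum {n : ℕ} [NeZero n] (hn : n ∣ m) (h3 : 3 ≤ n) (E : (ZMod n)ˣ → ℤ)
    (hE : ∀ g, E (-1 * g) = E g) : ∑ w : (ZMod n)ˣ, E w • D.f (emb m n w) = 0 := by
  refine Finset.sum_involution (fun w _ => -1 * w) ?_ ?_ ?_ ?_
  · intro w _
    rw [hE, emb_neg hn, D.odd, smul_neg, add_neg_cancel]
  · intro w _ _ h
    have h1 : (-1 : (ZMod n)ˣ) = 1 := mul_eq_right.1 h
    have h2 : ((2 : ℕ) : ZMod n) = 0 := by
      have h4 := congrArg (fun u : (ZMod n)ˣ => (u : ZMod n)) h1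
      simp only [Units.val_neg, Units.val_one] at h4
      push_cast
      linear_combination -h4
    rw [ZMod.natCast_eq_zero_iff] at h2
    have := Nat.le_of_dvd (by norm_num) h2
    omega
  · intro w _
    exact mem_univ _
  · intro w _
    rw [← mul_assoc]
    simp

open Classical in
theorem inv_sum_mem {n : ℕ} [NeZero n] (hn : n ∣ m) (hu : n.Coprime (m / n)) (l : ℕ)
    (hl : l.Prime) (hln : l ∣ n) (L : Set ℕ) (hL : ordCompl[l] n ∈ L ∨ ordCompl[l] n = 1)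
    (N : (ZMod n)ˣ → ℤ) (hN : ∀ k ∈ Kl n l, ∀ g, N (k * g) = N g) :
    ∑ w : (ZMod n)ˣ, N w • D.f (emb m n w) ∈ D.lev L := by
  rw [← Finset.sum_fiberwise univ (fun u : (ZMod n)ˣ => (u : (ZMod n)ˣ ⧸ Kl n l))]
  refine sum_mem fun y _ => ?_
  have h1 : ∀ w ∈ univ.filter (fun u : (ZMod n)ˣ => (u : (ZMod n)ˣ ⧸ Kl n l) = y),
      w * y.out⁻¹ ∈ Kl n l := by
    intro w hw
    rw [mem_filter] at hw
    have h2 : ((w : (ZMod n)ˣ) : (ZMod n)ˣ ⧸ Kl n l) = ((y.out : (ZMod n)ˣ) : _ ⧸ Kl n l) := by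
      rw [hw.2, QuotientGroup.out_eq']
    have h3 := QuotientGroup.eq.1 h2.symm
    rwa [mul_comm] at h3
  have h2 : ∑ w ∈ univ.filter (fun u : (ZMod n)ˣ => (u : (ZMod n)ˣ ⧸ Kl n l) = y),
      N w • D.f (emb m n w) = N y.out •
        ∑ᶠ k : Kl n l, D.f (emb m n (((k : (ZMod n)ˣ) * y.out : (ZMod n)ˣ) : ZMod n)) := by
    rw [finsum_eq_sum_of_fintype, smul_sum]
    symm
    refine Finset.sum_bij (fun k _ => (k : (ZMod n)ˣ) * y.out) ?_ ?_ ?_ ?_
    · intro k _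
      rw [mem_filter]
      refine ⟨mem_univ _, ?_⟩
      have h5 : (((k : (ZMod n)ˣ)) : (ZMod n)ˣ ⧸ Kl n l) = 1 := (QuotientGroup.eq_one_iff _).2 k.2
      have h6 : (((k : (ZMod n)ˣ) * y.out : (ZMod n)ˣ) : (ZMod n)ˣ ⧸ Kl n l) =
          ((k : (ZMod n)ˣ) : (ZMod n)ˣ ⧸ Kl n l) * ((y.out : (ZMod n)ˣ) : (ZMod n)ˣ ⧸ Kl n l) := rfl
      rw [h6, h5, QuotientGroup.out_eq']
      exact one_mul y
    · intro k _ k' _ h
      exact Subtype.ext (mul_right_cancel h)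
    · intro w hw
      exact ⟨⟨w * y.out⁻¹, h1 w hw⟩, mem_univ _, by simp⟩
    · intro k _
      rw [hN k k.2]
  rw [h2]
  exact AddSubgroup.zsmul_mem _ (coset_sum_mem D hn hu l hl hln L hL _) _

end sums

end Pool.Agent.FS
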