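import Pool.Agent.FS.Defs
import Pool.Agent.Helper13.Fer.SawInj

set_option autoImplicit false

namespace Pool.Agent.FS

open Finset

/-- Module M2a: `B_{1,χ} ≠ 0` if all prime divisors of the level divide the conductor. -/
theorem B1_ne_of_dvd {n : ℕ} [NeZero n] {χ : DirichletCharacter ℂ n} (ho : χ.Odd)
    (hc : ∀ l : ℕ, l.Prime → l ∣ n → l ∣ χ.conductor) :
    Pool.Agent.Helper52.Fermat.B1 χ ≠ 0 :=
  Pool.Agent.Helper13.Fer.B1_ne_rad hc ho

/-- Module M2b. -/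
theorem saw_inj_n (n : ℕ) [NeZero n] (β : (ZMod n)ˣ → ℤ) (hodd : ∀ u, β (-u) = - β u)
    (hW : ∀ t : (ZMod n)ˣ, ∑ u : (ZMod n)ˣ,
      β u * (2 * (((t * u : (ZMod n)ˣ) : ZMod n).val : ℤ) - n) = 0)
    (hK : ∀ l : ℕ, l.Prime → l ∣ n → ∀ u : (ZMod n)ˣ,
      ∑ᶠ k : Kl n l, β ((k : (ZMod n)ˣ) * u) = 0) (u : (ZMod n)ˣ) : β u = 0 := by
  classical
  have h := Pool.Agent.Helper13.Fer.saw_inj β (fun p hp hpn x => ?_) hW u
  · have := hodd u
    omega
  · rw [← hK p hp hpn x, finsum_eq_sum_of_fintype]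
    refine Finset.sum_subtype
      (univ.filter fun w : (ZMod n)ˣ => ZMod.unitsMap (Nat.ordCompl_dvd n p) w = 1)
      (fun w => ?_) (fun w => β (w * x))
    rw [mem_filter]
    constructor
    · exact fun hw => hw.2
    · exact fun hw => ⟨mem_univ _, hw⟩

end Pool.Agent.FS
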