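import Pool.Agent.FS.Norm

/-! Units of `ℤ/n`: residues, half systems, decomposition. -/

set_option autoImplicit false

namespace Pool.Agent.FS

open Finset

section units

variable {n : ℕ} [NeZero n]

/-- residue of a unit -/
def rr (k : (ZMod n)ˣ) : ℕ := (k : ZMod n).val

theorem rr_mul (k g : (ZMod n)ˣ) : rr (k * g) ≡ rr k * rr g [MOD n] := by
  rw [rr, Units.val_mul, ZMod.val_mul]
  exact Nat.mod_modEq _ _

theorem rr_inj {k g : (ZMod n)ˣ} (h : rr k ≡ rr g [MOD n]) : k = g := by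
  apply Units.val_injective
  rw [← ZMod.natCast_eq_natCast_iff] at h
  rw [rr, rr, ZMod.natCast_zmod_val, ZMod.natCast_zmod_val] at h
  exact h

theorem rr_coprime (k : (ZMod n)ˣ) : (rr k).Coprime n := ZMod.val_coe_unit_coprime k

theorem rr_one : rr (1 : (ZMod n)ˣ) ≡ 1 [MOD n] := by
  rw [← ZMod.natCast_eq_natCast_iff, rr, ZMod.natCast_zmod_val, Units.val_one, Nat.cast_one]

theorem mem_Kl {l : ℕ} {k : (ZMod n)ˣ} : k ∈ Kl n l ↔ rr k ≡ 1 [MOD ordCompl[l] n] := by
  change ZMod.unitsMap (Nat.ordCompl_dvd n l) k = 1 ↔ _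
  have hn' : (ordCompl[l] n) ≠ 0 := (Nat.ordCompl_pos l (NeZero.ne n)).ne'
  rw [← ZMod.natCast_eq_natCast_iff, Nat.cast_one, rr, Units.ext_iff, Units.val_one]
  change (ZMod.castHom (Nat.ordCompl_dvd n l) (ZMod (ordCompl[l] n))) (k : ZMod n) = 1 ↔ _
  rw [ZMod.castHom_apply, ZMod.natCast_val]

theorem neg_one_val : rr ((-1 : (ZMod n)ˣ)) + 1 ≡ 0 [MOD n] := by
  rw [← ZMod.natCast_eq_natCast_iff, Nat.cast_add, rr, ZMod.natCast_zmod_val, Units.val_neg,
    Units.val_one]
  simp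

theorem rr_neg (g : (ZMod n)ˣ) : rr (-1 * g) + rr g ≡ 0 [MOD n] := by
  have h1 : rr (-1 * g) + rr g ≡ rr (-1 : (ZMod n)ˣ) * rr g + rr g [MOD n] :=
    (rr_mul (-1) g).add_right _
  have h2 : rr (-1 : (ZMod n)ˣ) * rr g + rr g = (rr (-1 : (ZMod n)ˣ) + 1) * rr g := by ring
  rw [h2] at h1
  exact h1.trans ((neg_one_val.mul_right _).trans (by rw [zero_mul]))

end units

theorem hb_pos {l : ℕ} (hl : l.Prime) : 3 ≤ hb l := by
  unfold hb
  split_ifs with h
  · norm_num
  · have := hl.two_le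
    omega

theorem half_neg_iff {n : ℕ} [NeZero n] {l : ℕ} (hl : l.Prime) (hbn : hb l ∣ n) (g : (ZMod n)ˣ) :
    Half l (rr (-1 * g)) ↔ ¬ Half l (rr g) := by
  have h3 := hb_pos hl
  have h1 : rr (-1 * g) + rr g ≡ 0 [MOD hb l] := (rr_neg g).of_dvd hbn
  have hc : (rr g).Coprime (hb l) := (rr_coprime g).coprime_dvd_right hbn
  unfold Half
  set b := hb l with hb'
  set r := rr g % b with hr
  set s := rr (-1 * g) % b with hs
  have hr1 : r < b := Nat.mod_lt _ (by omega)
  have hs1 : s < b := Nat.mod_lt _ (by omega)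
  have h4 : (s + r) % b = 0 := by
    have : (rr (-1 * g) + rr g) % b = 0 := h1
    rw [Nat.add_mod] at this
    exact this
  have hr0 : r ≠ 0 := by
    intro h
    have h5 : b ∣ rr g := Nat.dvd_of_mod_eq_zero h
    have h6 : b ∣ Nat.gcd (rr g) b := Nat.dvd_gcd h5 dvd_rfl
    rw [Nat.Coprime] at hc
    rw [hc] at h6
    have := Nat.le_of_dvd one_pos h6
    omega
  have h5 : s + r = b := by
    obtain ⟨c, hc⟩ := Nat.dvd_of_mod_eq_zero h4
    have : c = 1 := by
      rcases c with _ | _ | c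
      · omega
      · rfl
      · exfalso
        have : b * (c + 1 + 1) = b * c + 2 * b := by ring
        omega
    rw [this] at hc
    omega
  have h6 : 2 * r ≠ b := by
    intro h
    rw [hb'] at h
    unfold hb at h
    split_ifs at h with h2
    · have h7 : rr g % 4 = 2 := by
        have hb4 : b = 4 := by rw [hb']; unfold hb; rw [if_pos h2]
        rw [hb4] at hr
        omega
      have h8 : 2 ∣ rr g := by omega
      have h9 : 2 ∣ b := by rw [hb']; unfold hb; rw [if_pos h2]; norm_num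
      have h10 := Nat.dvd_gcd h8 h9
      rw [Nat.Coprime] at hc
      rw [hc] at h10
      omega
    · have h7 := hl.eq_two_or_odd
      omega
  omega

/-- transfer to the range -/
theorem half_mod {n n' : ℕ} {l a b : ℕ} (hb' : hb l ∣ n') (h : a ≡ b [MOD n']) :
    Half l a ↔ Half l b := by
  have h1 : a % hb l = b % hb l := h.of_dvd hb'
  unfold Half
  rw [h1]

/-- chinese remainder theorem for units -/
theorem exists_unit_crt {n a b : ℕ} [NeZero n] (hab : n = a * b) (hcop : a.Coprime b)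
    (u v : ℕ) (hu : u.Coprime a) (hv : v.Coprime b) :
    ∃ w : (ZMod n)ˣ, rr w ≡ u [MOD a] ∧ rr w ≡ v [MOD b] := by
  obtain ⟨k, hk1, hk2⟩ := Nat.chineseRemainder hcop u v
  have hk : k.Coprime n := by
    rw [hab]
    refine Nat.Coprime.mul_right ?_ ?_
    · rw [Nat.Coprime, hk1.gcd_eq]
      exact hu
    · rw [Nat.Coprime, hk2.gcd_eq]
      exact hv
  refine ⟨ZMod.unitOfCoprime k hk, ?_, ?_⟩
  · rw [rr, ZMod.coe_unitOfCoprime, ZMod.val_natCast]
    refine Nat.ModEq.trans ?_ hk1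
    exact (Nat.mod_modEq k n).of_dvd (hab ▸ Dvd.intro b rfl)
  · rw [rr, ZMod.coe_unitOfCoprime, ZMod.val_natCast]
    refine Nat.ModEq.trans ?_ hk2
    exact (Nat.mod_modEq k n).of_dvd (hab ▸ Dvd.intro_left a rfl)

end Pool.Agent.FS
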