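import Pool.Agent.FS.Norm

set_option autoImplicit false

namespace Pool.Agent.FS

open Finset
open Pool.Agent.Helper9.Fermat (fib mem_fib)

variable {m : ℕ} [NeZero m] {A : Type} [AddCommGroup A] (D : Datum m A)

theorem sum_block {n n₀ : ℕ} (h₀ : n₀ ∣ n) (hn : n ∣ m) (w₀ : ℕ) (hw₀ : w₀ < n₀) :
    ∑ w ∈ (range n).filter (fun w => w % n₀ = w₀), D.f ((m / n * w : ℕ) : ZMod m) =
      D.f ((m / n₀ * w₀ : ℕ) : ZMod m) := by
  have hm0 : 0 < m := Nat.pos_of_ne_zero (NeZero.ne m)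
  obtain ⟨d, rfl⟩ := h₀
  obtain ⟨e, he⟩ := hn
  have hn0 : 0 < n₀ := by omega
  have hd0 : 0 < d := Nat.pos_of_ne_zero (by rintro rfl; simp at he; omega)
  have he0 : 0 < e := Nat.pos_of_ne_zero (by rintro rfl; simp at he; omega)
  have h1 : m / (n₀ * d) = e := by rw [he]; exact Nat.mul_div_cancel_left _ (by positivity)
  have h2 : m / n₀ = d * e := by rw [he, mul_assoc]; exact Nat.mul_div_cancel_left _ hn0
  rw [h1, h2]
  have key := dist_gen D d ⟨n₀ * e, by rw [he]; ring⟩ ((e * w₀ : ℕ) : ZMod m)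
  have h3 : (d : ZMod m) * ((e * w₀ : ℕ) : ZMod m) = ((d * e * w₀ : ℕ) : ZMod m) := by
    push_cast; ring
  rw [h3] at key
  rw [← key]
  have hme : m = d * (e * n₀) := by rw [he]; ring
  refine sum_bij (fun w _ => ((e * w : ℕ) : ZMod m)) ?_ ?_ ?_ ?_
  · intro w hw
    rw [mem_filter, mem_range] at hw
    rw [mem_fib, ← Nat.cast_mul, ZMod.natCast_eq_natCast_iff]
    have h4 : w ≡ w₀ [MOD n₀] := by
      show w % n₀ = w₀ % n₀
      rw [hw.2, Nat.mod_eq_of_lt hw₀]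
    have h5 := (h4.mul_left' (d * e))
    have h6 : d * e * n₀ = m := by rw [he]; ring
    rw [h6] at h5
    rw [← mul_assoc]
    exact h5
  · intro a ha b hb hab
    rw [mem_filter, mem_range] at ha hb
    have hlt : ∀ c, c < n₀ * d → e * c < m := by
      intro c hc
      rw [he, mul_comm e c]
      exact Nat.mul_lt_mul_of_pos_right hc he0
    have h4 : ((e * a : ℕ) : ZMod m) = ((e * b : ℕ) : ZMod m) := hab
    rw [ZMod.natCast_eq_natCast_iff', Nat.mod_eq_of_lt (hlt a ha.1), Nat.mod_eq_of_lt (hlt b hb.1)]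
      at h4
    exact Nat.eq_of_mul_eq_mul_left he0 h4
  · intro z hz
    rw [mem_fib] at hz
    have h4 : d * z.val ≡ d * (e * w₀) [MOD d * (e * n₀)] := by
      rw [← hme, ← ZMod.natCast_eq_natCast_iff]
      push_cast
      rw [ZMod.natCast_zmod_val, hz]
      push_cast
      ring
    have h5 : z.val ≡ e * w₀ [MOD e * n₀] := Nat.ModEq.mul_left_cancel' hd0.ne' h4
    have h6 : e ∣ z.val := by
      have h7 : z.val ≡ e * w₀ [MOD e] := h5.of_mul_right n₀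
      exact (Nat.modEq_zero_iff_dvd.1 (h7.trans (Nat.modEq_zero_iff_dvd.2 (dvd_mul_right e w₀))))
    obtain ⟨w, hw⟩ := h6
    rw [hw] at h5
    have h7 : w ≡ w₀ [MOD n₀] := Nat.ModEq.mul_left_cancel' he0.ne' h5
    refine ⟨w, ?_, ?_⟩
    · rw [mem_filter, mem_range]
      refine ⟨?_, ?_⟩
      · have h8 : z.val < m := ZMod.val_lt z
        rw [hw, he, mul_comm e w] at h8
        exact Nat.lt_of_mul_lt_mul_right h8
      · have h9 : w % n₀ = w₀ % n₀ := h7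
        rw [h9, Nat.mod_eq_of_lt hw₀]
    · show ((e * w : ℕ) : ZMod m) = z
      rw [← hw, ZMod.natCast_zmod_val]
  · intros; rfl

theorem hb_dvd_qq {l : ℕ} (hl : l.Prime) (h : hb l ∣ m) : hb l ∣ qq m l := by
  have hm0 : m ≠ 0 := NeZero.ne m
  have h2 : ∃ k, hb l = l ^ k := by
    unfold hb
    split_ifs with h
    · exact ⟨2, by rw [h]; norm_num⟩
    · exact ⟨1, by simp⟩
  obtain ⟨k, hk⟩ := h2
  rw [hk] at h ⊢
  unfold qq
  exact pow_dvd_pow _ ((hl.pow_dvd_iff_le_factorization hm0).1 h)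

theorem coprime_hb {l : ℕ} (hl : l.Prime) (w : ℕ) : w.Coprime (hb l) ↔ w.Coprime l := by
  unfold hb
  split_ifs with h
  · subst h
    have : (4 : ℕ) = 2 ^ 2 := by norm_num
    rw [this]
    exact Nat.coprime_pow_right_iff (by norm_num) _ _
  · rfl

theorem coprime_qq {l : ℕ} (hl : l.Prime) (h : hb l ∣ m) (w : ℕ) :
    w.Coprime (qq m l) ↔ w.Coprime l := by
  have hm0 : m ≠ 0 := NeZero.ne m
  have h1 : l ∣ m := by
    refine dvd_trans ?_ h
    unfold hb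
    split_ifs with h
    · subst h; norm_num
    · rfl
  unfold qq
  have h2 : 0 < m.factorization l := hl.factorization_pos_of_dvd hm0 h1
  exact Nat.coprime_pow_right_iff h2 _ _

/-- Module M5a: reduction of the class `Y` to the base level -/
theorem Y_eq (l₁ l₂ : ℕ) (hl₁ : l₁.Prime) (hl₂ : l₂.Prime) (hne : l₁ ≠ l₂)
    (h₁ : hb l₁ ∣ m) (h₂ : hb l₂ ∣ m) :
    D.Y l₁ l₂ = ∑ w ∈ (range (hb l₁ * hb l₂)).filter
      (fun w => w.Coprime (hb l₁ * hb l₂) ∧ Half l₁ w ∧ Half l₂ w),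
        D.f ((m / (hb l₁ * hb l₂) * w : ℕ) : ZMod m) := by
  have hm0 : m ≠ 0 := NeZero.ne m
  have hb₁ : 0 < hb l₁ := Nat.pos_of_dvd_of_pos h₁ (Nat.pos_of_ne_zero hm0)
  have hb₂ : 0 < hb l₂ := Nat.pos_of_dvd_of_pos h₂ (Nat.pos_of_ne_zero hm0)
  have hcop : (qq m l₁).Coprime (qq m l₂) :=
    Nat.Coprime.pow _ _ ((Nat.coprime_primes hl₁ hl₂).2 hne)
  have hn : qq m l₁ * qq m l₂ ∣ m :=
    hcop.mul_dvd_of_dvd_of_dvd (Nat.ordProj_dvd m l₁) (Nat.ordProj_dvd m l₂)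
  have h₀ : hb l₁ * hb l₂ ∣ qq m l₁ * qq m l₂ :=
    mul_dvd_mul (hb_dvd_qq hl₁ h₁) (hb_dvd_qq hl₂ h₂)
  have hpos : 0 < hb l₁ * hb l₂ := Nat.mul_pos hb₁ hb₂
  have hH₁ : ∀ w, Half l₁ (w % (hb l₁ * hb l₂)) ↔ Half l₁ w := by
    intro w
    unfold Half
    rw [Nat.mod_mod_of_dvd _ (dvd_mul_right _ _)]
  have hH₂ : ∀ w, Half l₂ (w % (hb l₁ * hb l₂)) ↔ Half l₂ w := by
    intro w
    unfold Half
    rw [Nat.mod_mod_of_dvd _ (dvd_mul_left _ _)]
  have hC : ∀ w, (w % (hb l₁ * hb l₂)).Coprime (hb l₁ * hb l₂) ↔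
      w.Coprime (qq m l₁ * qq m l₂) := by
    intro w
    rw [Nat.coprime_mul_iff_right (k := w) (m := qq m l₁), coprime_qq hl₁ h₁, coprime_qq hl₂ h₂,
      ← coprime_hb hl₁, ← coprime_hb hl₂, ← Nat.coprime_mul_iff_right]
    show Nat.gcd _ _ = 1 ↔ Nat.gcd _ _ = 1
    rw [(Nat.mod_modEq w (hb l₁ * hb l₂)).gcd_eq]
  unfold Datum.Y
  rw [← sum_fiberwise_of_maps_to (g := fun w => w % (hb l₁ * hb l₂))
    (t := (range (hb l₁ * hb l₂)).filter
      (fun w => w.Coprime (hb l₁ * hb l₂) ∧ Half l₁ w ∧ Half l₂ w))]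
  · refine sum_congr rfl ?_
    intro w₀ hw₀
    rw [mem_filter, mem_range] at hw₀
    rw [← sum_block D h₀ hn w₀ hw₀.1]
    refine sum_congr ?_ (fun _ _ => rfl)
    ext w
    simp only [mem_filter, mem_range]
    constructor
    · rintro ⟨⟨a, -⟩, b⟩
      exact ⟨a, b⟩
    · rintro ⟨a, b⟩
      refine ⟨⟨a, ?_, ?_, ?_⟩, b⟩
      · rw [← hC, b]; exact hw₀.2.1
      · rw [← hH₁, b]; exact hw₀.2.2.1
      · rw [← hH₂, b]; exact hw₀.2.2.2
  · intro w hw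
    rw [mem_filter, mem_range] at hw ⊢
    exact ⟨Nat.mod_lt _ hpos, (hC w).2 hw.2.1, (hH₁ w).2 hw.2.2.1, (hH₂ w).2 hw.2.2.2⟩

end Pool.Agent.FS
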